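import Pool.Agent.AAP.Cyc

/-!
# The ramification index of `p` in `ℚ(ζ_{N p})`

By `IsCyclotomicExtension.Rat.ramificationIdx_eq` the ramification index of a place `v` above `p` is `p - 1`;
it is the multiplicity of `v` in `(p)`, which gives the valuation.
-/

open NumberField IsDedekindDomain

namespace Pool.Agent.AAU

theorem ram_p (N p : ℕ) [NeZero N] [Fact p.Prime] (hpN : ¬ p ∣ N)
    (K : Type) [Field K] [NumberField K] [IsCyclotomicExtension {N * p} ℚ K]
    (v : HeightOneSpectrum (𝓞 K)) (hv : (p : 𝓞 K) ∈ v.asIdeal) :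
    v.valuation K (p : K) = WithZero.exp (-((p : ℤ) - 1)) := by
  have hp : p.Prime := Fact.out
  haveI hP : v.asIdeal.IsPrime := v.isPrime
  have hp0 : (p : 𝓞 K) ≠ 0 := by exact_mod_cast hp.ne_zero
  have hmap : (Ideal.span {(p : ℤ)}).map (algebraMap ℤ (𝓞 K)) = Ideal.span {(p : 𝓞 K)} := by
    rw [Ideal.map_span, Set.image_singleton]
    simp
  haveI hL : v.asIdeal.LiesOver (Ideal.span {(p : ℤ)}) := by
    constructor
    have hmax : (Ideal.span {(p : ℤ)}).IsMaximal := by
      refine PrincipalIdealRing.isMaximal_of_irreducible ?_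
      exact (Nat.prime_iff_prime_int.1 hp).irreducible
    refine hmax.eq_of_le ?_ ?_
    · exact (hP.comap (algebraMap ℤ (𝓞 K))).ne_top
    · rw [Ideal.span_singleton_le_iff_mem]
      show algebraMap ℤ (𝓞 K) (p : ℤ) ∈ v.asIdeal
      simpa using hv
  have h1 : Ideal.ramificationIdx v.asIdeal ℤ = p ^ 0 * (p - 1) :=
    IsCyclotomicExtension.Rat.ramificationIdx_eq (n := N * p) (m := N) (p := p) (k := 0) (K := K)
      (P := v.asIdeal) (by rw [zero_add, pow_one, mul_comm]) hpN
  have hne : (Ideal.span {(p : ℤ)}).map (algebraMap ℤ (𝓞 K)) ≠ ⊥ := by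
    rw [hmap]
    rw [Ne, Ideal.span_singleton_eq_bot]
    exact hp0
  have h2 := Ideal.IsDedekindDomain.ramificationIdx_eq_multiplicity (Ideal.span {(p : ℤ)}) v.asIdeal hne
  rw [h1, hmap, pow_zero, one_mul] at h2
  have h3 : v.valuation K (p : K) = v.intValuation (p : 𝓞 K) := by
    rw [← HeightOneSpectrum.valuation_of_algebraMap (K := K)]
    simp
  rw [h3, HeightOneSpectrum.intValuation_eq_exp_neg_multiplicity v hp0, ← h2]
  congr 2
  rw [Nat.cast_sub hp.one_le]
  simp

end Pool.Agent.AAU
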