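import Pool.Agent.AAU.DefsP
import Pool.Agent.AAP.DefsE

/-!
# AAU-ValP: from `PU` to valuations

`K` a number field in `Qb`, `v` a prime of `K` above `p` with ramification index `p - 1`. Let `𝔓` be a prime of the ring of all
algebraic integers over `v`. The `p`-th power of the relation in `PU p β` is `x a ^ p = b ^ p` with `x = α ^ (p - 1) p ^ (p k) ∈ K`, and
`x` is `n / d` or `d / n` with `d ∉ v`, so `v(x) = 1`.
-/

open NumberField IsDedekindDomain

namespace Pool.Agent.AAU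

open Pool.Agent.AAP Pool.Agent.Helper60.FM

private theorem vp_over (K : IntermediateField ℚ Qb) (v : Ideal (𝓞 K)) [v.IsPrime] :
    ∃ 𝔓 : Ideal ZQ, 𝔓.IsPrime ∧ ∀ x : 𝓞 K, toZ K x ∈ 𝔓 ↔ x ∈ v := by
  let _ : Algebra (𝓞 K) ZQ := (toZ K).toAlgebra
  have : Algebra.IsIntegral (𝓞 K) ZQ := by
    constructor
    intro z
    have h1 : IsIntegral ℤ z := Algebra.IsIntegral.isIntegral z
    exact h1.tower_top
  obtain ⟨Q, _, hQ, hQ'⟩ := Ideal.exists_ideal_over_prime_of_isIntegral v (⊥ : Ideal ZQ) (by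
    intro x hx
    have h1 : toZ K x = 0 := hx
    have h2 : ((x : K) : Qb) = 0 := by
      rw [← coe_toZ, h1]
      rfl
    have h3 : (x : K) = 0 := by exact_mod_cast h2
    have h4 : x = 0 := by exact_mod_cast h3
    rw [h4]
    exact v.zero_mem)
  refine ⟨Q, hQ, fun x => ?_⟩
  rw [← hQ']
  exact Iff.rfl

private theorem vp_one (K : IntermediateField ℚ Qb) [FiniteDimensional ℚ K]
    (v : HeightOneSpectrum (𝓞 K)) {𝔓 : Ideal ZQ} (hP : 𝔓.IsPrime)
    (h𝔓 : ∀ x : 𝓞 K, toZ K x ∈ 𝔓 ↔ x ∈ v.asIdeal) (x : K) (a b : ZQ) (ha : a ∉ 𝔓) (hb : b ∉ 𝔓)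
    (h : (x : Qb) * (a : Qb) = b) : v.valuation K x = 1 := by
  obtain ⟨n, d, hnd⟩ := HeightOneSpectrum.exists_primeCompl_mul_eq_or_mul_eq v x
  have hd : (d : 𝓞 K) ∉ v.asIdeal := d.2
  have hd1 : v.valuation K (algebraMap (𝓞 K) K d) = 1 := v.valuation_eq_one_iff_notMem.2 hd
  have hd2 : toZ K d ∉ 𝔓 := fun h1 => hd ((h𝔓 _).1 h1)
  rcases hnd with h1 | h1
  · have h2 : toZ K n * a = toZ K d * b := by
      refine Subtype.ext ?_
      show ((n : K) : Qb) * (a : Qb) = (((d : 𝓞 K) : K) : Qb) * (b : Qb)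
      have h3 : ((n : K) : Qb) = (x : Qb) * (((d : 𝓞 K) : K) : Qb) := by
        rw [← IntermediateField.coe_mul]
        exact congrArg Subtype.val h1.symm
      rw [h3, ← h]
      ring
    have h3 : toZ K n ∉ 𝔓 := by
      intro h4
      have h5 : toZ K d * b ∈ 𝔓 := by
        rw [← h2]
        exact 𝔓.mul_mem_right _ h4
      rcases hP.mem_or_mem h5 with h6 | h6
      · exact hd2 h6
      · exact hb h6
    have h4 : v.valuation K (algebraMap (𝓞 K) K n) = 1 :=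
      v.valuation_eq_one_iff_notMem.2 fun h5 => h3 ((h𝔓 _).2 h5)
    have h5 := congrArg (v.valuation K) h1
    rw [map_mul, hd1, h4, mul_one] at h5
    exact h5
  · have h2 : toZ K d * a = toZ K n * b := by
      refine Subtype.ext ?_
      show (((d : 𝓞 K) : K) : Qb) * (a : Qb) = ((n : K) : Qb) * (b : Qb)
      have h3 : (((d : 𝓞 K) : K) : Qb) = (x : Qb) * ((n : K) : Qb) := by
        rw [← IntermediateField.coe_mul]
        exact congrArg Subtype.val h1.symm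
      rw [h3, ← h]
      ring
    have h3 : toZ K n ∉ 𝔓 := by
      intro h4
      have h5 : toZ K d * a ∈ 𝔓 := by
        rw [h2]
        exact 𝔓.mul_mem_right _ h4
      rcases hP.mem_or_mem h5 with h6 | h6
      · exact hd2 h6
      · exact ha h6
    have h4 : v.valuation K (algebraMap (𝓞 K) K n) = 1 :=
      v.valuation_eq_one_iff_notMem.2 fun h5 => h3 ((h𝔓 _).2 h5)
    have h5 := congrArg (v.valuation K) h1
    rw [map_mul, hd1, h4, mul_one] at h5
    exact h5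

theorem val_of_pu (p : ℕ) (hp : p.Prime) (K : IntermediateField ℚ Qb) [FiniteDimensional ℚ K]
    (v : HeightOneSpectrum (𝓞 K)) (hv : (p : 𝓞 K) ∈ v.asIdeal)
    (hram : v.valuation K (p : K) = WithZero.exp (-((p : ℤ) - 1)))
    (β : Qb) (hβ : β ≠ 0) (α : K) (hα : (α : Qb) = β ^ p) (h : PU p β) :
    ∃ m : ℤ, v.valuation K α = WithZero.exp ((p : ℤ) * m) := by
  have hvp : v.asIdeal.IsPrime := v.isPrime
  obtain ⟨𝔓, hP, h𝔓⟩ := vp_over K v.asIdeal
  have hpP : ((p : ℕ) : ZQ) ∈ 𝔓 := by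
    have h1 := (h𝔓 (p : 𝓞 K)).2 hv
    rwa [map_natCast] at h1
  have h' : ∃ (k : ℤ) (a b : ZQ), a ∉ 𝔓 ∧ b ∉ 𝔓 ∧
      β ^ (p - 1) * (p : Qb) ^ k * (a : Qb) = (b : Qb) := h 𝔓 hP hpP
  obtain ⟨k, a, b, ha, hb, hab⟩ := h'
  have hα0 : α ≠ 0 := by
    rintro rfl
    have h1 : β ^ p = 0 := by rw [← hα]; rfl
    exact hβ (pow_eq_zero_iff hp.ne_zero |>.1 h1)
  have hp0 : (p : Qb) ≠ 0 := by exact_mod_cast hp.ne_zero
  -- the relation in `K`
  have hx : ((α ^ (p - 1) * (p : K) ^ (k * p) : K) : Qb) * ((a ^ p : ZQ) : Qb) =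
      ((b ^ p : ZQ) : Qb) := by
    have h1 : (β ^ (p - 1) * (p : Qb) ^ k * (a : Qb)) ^ p = (b : Qb) ^ p :=
      congrArg (fun z => z ^ p) hab
    have h2 : ((α ^ (p - 1) * (p : K) ^ (k * p) : K) : Qb) = (β ^ (p - 1) * (p : Qb) ^ k) ^ p := by
      rw [mul_pow, ← pow_mul, ← zpow_natCast ((p : Qb) ^ k) p, ← zpow_mul]
      have h3 : ((α ^ (p - 1) * (p : K) ^ (k * p) : K) : Qb) =
          (α : Qb) ^ (p - 1) * (p : Qb) ^ (k * p) := by
        have h4 : algebraMap K Qb (α ^ (p - 1) * (p : K) ^ (k * p)) =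
            (algebraMap K Qb α) ^ (p - 1) * (p : Qb) ^ (k * p) := by
          rw [map_mul, map_pow, map_zpow₀, map_natCast]
        exact h4
      rw [h3, hα, ← pow_mul, mul_comm p (p - 1)]
    rw [h2]
    have h5 : ((a ^ p : ZQ) : Qb) = (a : Qb) ^ p := rfl
    have h6 : ((b ^ p : ZQ) : Qb) = (b : Qb) ^ p := rfl
    rw [h5, h6, ← h1, ← mul_pow]
  have hap : (a ^ p : ZQ) ∉ 𝔓 := fun h1 => ha (hP.mem_of_pow_mem p h1)
  have hbp : (b ^ p : ZQ) ∉ 𝔓 := fun h1 => hb (hP.mem_of_pow_mem p h1)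
  have hone := vp_one K v hP h𝔓 _ _ _ hap hbp hx
  -- the valuation of `α`
  have hv0 : v.valuation K α ≠ 0 := (Valuation.ne_zero_iff _).2 hα0
  obtain ⟨c, hc⟩ : ∃ c : ℤ, v.valuation K α = WithZero.exp c :=
    ⟨WithZero.log (v.valuation K α), (WithZero.exp_log hv0).symm⟩
  refine ⟨k, ?_⟩
  rw [map_mul, map_pow, map_zpow₀, hram, hc, ← WithZero.exp_nsmul, ← WithZero.exp_zsmul,
    ← WithZero.exp_add, ← WithZero.exp_zero, WithZero.exp_inj] at hone
  rw [hc, WithZero.exp_inj]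
  have hp2 := hp.two_le
  have h7 : ((p - 1 : ℕ) : ℤ) = (p : ℤ) - 1 := by
    rw [Nat.cast_sub (by omega)]
    rfl
  rw [nsmul_eq_mul, smul_eq_mul, h7] at hone
  have h8 : ((p : ℤ) - 1) * (c - p * k) = 0 := by linear_combination hone
  rcases mul_eq_zero.1 h8 with h9 | h9
  · omega
  · linear_combination h9

end Pool.Agent.AAU
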