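import Pool.Agent.AAU.MainP
import Pool.Agent.AAU.ValP
import Pool.Agent.AAU.RamP
import Pool.Agent.AAP.Cg

/-!
# The theorem for the abstract field `K = ℚ(ζ_{N p})`

From `main_distinctP` for `imField K j`. At the primes of `K` above an `ℓ ∈ S`, `ℓ ≠ p`, the local
hypothesis is `hdec`, at the primes above `p` it comes from `hpeu`, `val_of_pu` and `ram_p`.
-/

open NumberField Pointwise Matrix IsDedekindDomain

namespace Pool.Agent.AAU

open Pool.Agent.AAP Pool.Agent.Helper60.FM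

theorem absMainP (N p : ℕ) [NeZero N] [Fact p.Prime] (hp : p ≠ 2) (hpN : ¬ p ∣ N)
    {E : Type} [NormedField E] [IsUltrametricDist E] [CompleteSpace E] [NormedAlgebra ℚ_[p] E]
    (K : Type) [Field K] [NumberField K] [IsAbelianGalois ℚ K]
    [IsCyclotomicExtension {N * p} ℚ K] (j : K →+* Qb)
    (ζ : K) (hζ : IsPrimitiveRoot ζ p) (ω : Gal(K/ℚ) → ℕ) (hω : ∀ σ, σ ζ = ζ ^ ω σ)
    (χ₁ χ₂ : Gal(K/ℚ) →* Eˣ) (S : Set ℕ) (V : Gam →* GL2 E)
    (hdec : ∀ P : Ideal (𝓞 K), P.IsPrime → P ≠ ⊥ → (∃ ℓ ∈ S, ℓ ≠ p ∧ (ℓ : 𝓞 K) ∈ P) →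
      ∃ σ : Gal(K/ℚ), σ • P = P ∧ 1 ≤ ‖(ω σ : E) * χ₂ σ - χ₁ σ‖)
    (hpeu : ∀ A : GL2 E, IntConj A V → ∀ β : Qbar, β ≠ 0 → (∃ a : K, β ^ p = j a) →
      (∀ g : Gam, (∀ x : K, g.ap (j x) = j x) → TrivRed A V g → g.ap β = β) → PU p β)
    (hcl : ∀ 𝔞 : Ideal (𝓞 K), 𝔞 ≠ ⊥ → (𝔞 ^ p).IsPrincipal →
      (∀ n : Gal(K/ℚ) → ℕ, ‖∑ σ, (n σ : E) * (ω σ * (χ₂ σ * (χ₁ σ)⁻¹ : Eˣ))‖ < 1 →
        (∏ σ, (σ • 𝔞) ^ n σ).IsPrincipal) → 𝔞.IsPrincipal)
    (hχ : ∃ σ, 1 ≤ ‖(χ₁ σ : E) - χ₂ σ‖)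
    (hV : Continuous V)
    (htr : ∀ (g : GQ) (σ : Gal(K/ℚ)), (∀ x, j (σ x) = g (j x)) →
      ‖trc V g - χ₁ σ - χ₂ σ‖ < 1)
    (hunr : ∀ ℓ : ℕ, ℓ.Prime → ℓ ∉ S → UnramAt (old V) ℓ)
    (heven : Even2 V) : Line V := by
  classical
  let γ := geqv K j
  have hcyc : IsCyclotomicExtension {N * p} ℚ (imField K j) :=
    IsCyclotomicExtension.equiv {N * p} ℚ K (aeqv K j)
  refine main_distinctP p (imField K j) hp (aeqv K j ζ)
    (hζ.map_of_injective (f := aeqv K j) (aeqv K j).injective) (fun σ => ω (γ.symm σ)) ?_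
    (χ₁.comp γ.symm.toMonoidHom) (χ₂.comp γ.symm.toMonoidHom) S (old V) ?_ ?_ ?_ hV ?_
    hunr heven
  · intro σ
    rw [← geqv_symm_apply, hω, map_pow]
  · intro v hℓ
    obtain ⟨ℓ, hℓS, hℓP⟩ := hℓ
    by_cases hℓp : ℓ = p
    · right
      intro A hA β α hβ hα hg
      subst hℓp
      have hPU : PU ℓ β := by
        refine hpeu A hA β hβ ⟨(aeqv K j).symm α, ?_⟩ ?_
        · rw [← coe_aeqv, AlgEquiv.apply_symm_apply]
          exact hα.symm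
        · have key : ∀ g : GQ, (∀ x : K, g (j x) = j x) → g ∈ (imField K j).fixingSubgroup := by
            intro g hgK
            rw [IntermediateField.mem_fixingSubgroup_iff]
            intro x hx
            obtain ⟨y, hy⟩ := (aeqv K j).surjective ⟨x, hx⟩
            have h1 := hgK y
            rw [← coe_aeqv, hy] at h1
            exact h1
          intro g hgK hgA
          exact hg g (key g hgK) hgA
      exact val_of_pu ℓ Fact.out (imField K j) v hℓP (ram_p N ℓ hpN (imField K j) v hℓP) β hβ α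
        hα hPU
    · left
      obtain ⟨σ, hσ, hσ1⟩ := hdec (pull K j v.asIdeal) (pull_isPrime K j v.asIdeal v.isPrime)
        (pull_ne_bot K j v.asIdeal v.ne_bot)
        ⟨ℓ, hℓS, hℓp, natCast_mem_pull K j v.asIdeal ℓ hℓP⟩
      refine ⟨γ σ, ?_, ?_⟩
      · apply pull_injective K j
        rw [pull_smul, MulEquiv.symm_apply_apply, hσ]
      · simpa using hσ1
  · intro 𝔞 h𝔞 h𝔞p h
    rw [← pull_isPrincipal]
    refine hcl (pull K j 𝔞) (pull_ne_bot K j 𝔞 h𝔞) ?_ ?_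
    · rw [← map_pow, pull_isPrincipal]
      exact h𝔞p
    · intro n hn
      have h1 := h (fun σ => n (γ.symm σ)) ?_
      · rw [← pull_isPrincipal, map_prod] at h1
        have h2 : ∏ σ, (pull K j) ((σ • 𝔞) ^ n (γ.symm σ)) =
            ∏ σ, (σ • pull K j 𝔞) ^ n σ := by
          rw [← Equiv.prod_comp γ.symm.toEquiv]
          refine Finset.prod_congr rfl (fun σ _ => ?_)
          rw [map_pow, pull_smul]
          rfl
        rw [← h2]
        exact h1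
      · have h3 : ∑ σ, (n (γ.symm σ) : E) * (ω (γ.symm σ) *
            ((χ₂.comp γ.symm.toMonoidHom) σ * ((χ₁.comp γ.symm.toMonoidHom) σ)⁻¹ : Eˣ)) =
            ∑ σ, (n σ : E) * (ω σ * (χ₂ σ * (χ₁ σ)⁻¹ : Eˣ)) := by
          rw [← Equiv.sum_comp γ.symm.toEquiv
            (fun σ => (n σ : E) * (ω σ * (χ₂ σ * (χ₁ σ)⁻¹ : Eˣ)))]
          rfl
        rw [h3]
        exact hn
  · obtain ⟨σ, hσ⟩ := hχ
    exact ⟨γ σ, by simpa using hσ⟩
  · intro g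
    exact htr g (γ.symm (res (imField K j) g)) (geqv_symm_res K j g)

end Pool.Agent.AAU
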