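import Mathlib

/-!
# Functions of `N` and `n` bounded by `(C N ^ C n) ^ (C N ^ C n)`

`a C = C * N ^ C * n` is monotone in `C` (`N, n ≥ 1`) and `a C + a C' ≤ a (C + C')`, so
`Bd2.mul` is as `Bd.mul` in `AAP/Bd.lean` (`x ^ x * y ^ y ≤ (x + y) ^ (x + y)`). `Bd2.pow`:
`(x ^ x) ^ (c * N ^ c) = x ^ (c N ^ c x)` and `c * N ^ c * x ≤ a (c + C + c * C)`. `Bd2.exp`:
`((c N n) ^ c) ^ (c N ^ c n) = (c N n) ^ (c ^ 2 N ^ c n)`. `Bd2.fact`: `k! ≤ k ^ k`. `Bd2.prod`: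
`∏ ≤ G ^ #s` and `Bd2.pow`.
-/

open Nat

namespace Pool.Agent.AAU

/-- `F N n ≤ (C N ^ C n) ^ (C N ^ C n)` for some `C` and all `N, n ≥ 1` -/
def Bd2 (F : ℕ → ℕ → ℕ) : Prop :=
  ∃ C : ℕ, ∀ N n, 1 ≤ N → 1 ≤ n → F N n ≤ (C * N ^ C * n) ^ (C * N ^ C * n)

private lemma Bd2_self {x y : ℕ} (h : x ≤ y) : x ^ x ≤ y ^ y := by
  rcases Nat.eq_zero_or_pos y with h0 | h0
  · have h1 : x = 0 := by omega
    rw [h0, h1]
  · exact (Nat.pow_le_pow_left h _).trans (Nat.pow_le_pow_right h0 h)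

private lemma Bd2_am {C C' N : ℕ} (n : ℕ) (h : C ≤ C') (hN : 1 ≤ N) :
    C * N ^ C * n ≤ C' * N ^ C' * n :=
  Nat.mul_le_mul_right n (Nat.mul_le_mul h (Nat.pow_le_pow_right hN h))

private lemma Bd2_pos {C N n : ℕ} (hC : 1 ≤ C) (hN : 1 ≤ N) (hn : 1 ≤ n) : 1 ≤ C * N ^ C * n :=
  Nat.mul_pos (Nat.mul_pos hC (Nat.pow_pos hN)) hn

private lemma Bd2_aux {C N n x y : ℕ} (hC : 1 ≤ C) (hN : 1 ≤ N) (hn : 1 ≤ n)
    (hx : x ≤ C * N ^ C * n) (hy : y ≤ C * N ^ C * n) :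
    x ^ y ≤ (C * N ^ C * n) ^ (C * N ^ C * n) :=
  (Nat.pow_le_pow_left hx _).trans (Nat.pow_le_pow_right (Bd2_pos hC hN hn) hy)

private lemma Bd2_lin {C c N n : ℕ} (h : c ≤ C) (hC : 1 ≤ C) (hN : 1 ≤ N) :
    c * N * n ≤ C * N ^ C * n := by
  apply Nat.mul_le_mul_right n
  apply Nat.mul_le_mul h
  calc N = N ^ 1 := (pow_one N).symm
    _ ≤ N ^ C := Nat.pow_le_pow_right hN hC

theorem Bd2.mono {F G : ℕ → ℕ → ℕ} (hG : Bd2 G) (h : ∀ N n, 1 ≤ N → 1 ≤ n → F N n ≤ G N n) :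
    Bd2 F := by
  obtain ⟨C, hC⟩ := hG
  exact ⟨C, fun N n hN hn => (h N n hN hn).trans (hC N n hN hn)⟩

theorem Bd2.const (k : ℕ) : Bd2 fun _ _ => k := by
  refine ⟨k + 1, fun N n hN hn => ?_⟩
  have h0 : 1 ≤ N ^ (k + 1) * n := Nat.mul_pos (Nat.pow_pos hN) hn
  have h1 : k ^ 1 ≤ ((k + 1) * N ^ (k + 1) * n) ^ ((k + 1) * N ^ (k + 1) * n) := by
    apply Bd2_aux (Nat.succ_pos k) hN hn
    · rw [mul_assoc]
      exact (Nat.le_succ k).trans (Nat.le_mul_of_pos_right _ h0)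
    · exact Bd2_pos (Nat.succ_pos k) hN hn
  rwa [pow_one] at h1

theorem Bd2.mul {F G : ℕ → ℕ → ℕ} (hF : Bd2 F) (hG : Bd2 G) : Bd2 fun N n => F N n * G N n := by
  obtain ⟨C, hC⟩ := hF
  obtain ⟨C', hC'⟩ := hG
  refine ⟨C + C', fun N n hN hn => ?_⟩
  have h1 : C * N ^ C * n ≤ (C + C') * N ^ (C + C') * n := Bd2_am n (Nat.le_add_right _ _) hN
  have h2 : C' * N ^ C' * n ≤ (C + C') * N ^ (C + C') * n := Bd2_am n (Nat.le_add_left _ _) hN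
  have h3 : C * N ^ C * n + C' * N ^ C' * n ≤ (C + C') * N ^ (C + C') * n := by
    rw [← add_mul]
    apply Nat.mul_le_mul_right n
    rw [add_mul]
    exact Nat.add_le_add (Nat.mul_le_mul_left C (Nat.pow_le_pow_right hN (Nat.le_add_right _ _)))
      (Nat.mul_le_mul_left C' (Nat.pow_le_pow_right hN (Nat.le_add_left _ _)))
  calc F N n * G N n
      ≤ (C * N ^ C * n) ^ (C * N ^ C * n) * (C' * N ^ C' * n) ^ (C' * N ^ C' * n) :=
        Nat.mul_le_mul (hC N n hN hn) (hC' N n hN hn)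
    _ ≤ (C * N ^ C * n + C' * N ^ C' * n) ^ (C * N ^ C * n) *
        (C * N ^ C * n + C' * N ^ C' * n) ^ (C' * N ^ C' * n) :=
        Nat.mul_le_mul (Nat.pow_le_pow_left (Nat.le_add_right _ _) _)
          (Nat.pow_le_pow_left (Nat.le_add_left _ _) _)
    _ = (C * N ^ C * n + C' * N ^ C' * n) ^ (C * N ^ C * n + C' * N ^ C' * n) := by
        rw [← pow_add]
    _ ≤ ((C + C') * N ^ (C + C') * n) ^ ((C + C') * N ^ (C + C') * n) := Bd2_self h3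

/-- the power with exponent `k N ≤ c N ^ c` -/
theorem Bd2.pow {F : ℕ → ℕ → ℕ} (hF : Bd2 F) (k : ℕ → ℕ) (c : ℕ)
    (hk : ∀ N, 1 ≤ N → k N ≤ c * N ^ c) : Bd2 fun N n => F N n ^ k N := by
  obtain ⟨C, hC⟩ := hF
  refine ⟨C * c + C + c + 1, fun N n hN hn => ?_⟩
  calc F N n ^ k N ≤ ((C * N ^ C * n) ^ (C * N ^ C * n)) ^ k N :=
        Nat.pow_le_pow_left (hC N n hN hn) _
    _ = (C * N ^ C * n) ^ (C * N ^ C * n * k N) := (pow_mul _ _ _).symm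
    _ ≤ _ := by
        apply Bd2_aux (by omega) hN hn
        · exact Bd2_am n (by omega) hN
        · calc C * N ^ C * n * k N ≤ C * N ^ C * n * (c * N ^ c) :=
                Nat.mul_le_mul_left _ (hk N hN)
            _ = C * c * N ^ (C + c) * n := by rw [pow_add]; ring
            _ ≤ (C * c + C + c + 1) * N ^ (C * c + C + c + 1) * n :=
                Nat.mul_le_mul_right n (Nat.mul_le_mul (by omega)
                  (Nat.pow_le_pow_right hN (by omega)))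

theorem Bd2.exp (x y : ℕ → ℕ → ℕ) (c : ℕ) (hx : ∀ N n, 1 ≤ N → 1 ≤ n → x N n ≤ (c * N * n) ^ c)
    (hy : ∀ N n, 1 ≤ N → 1 ≤ n → y N n ≤ c * N ^ c * n) : Bd2 fun N n => x N n ^ y N n := by
  refine ⟨c * c + c + 1, fun N n hN hn => ?_⟩
  calc x N n ^ y N n ≤ ((c * N * n) ^ c) ^ y N n := Nat.pow_le_pow_left (hx N n hN hn) _
    _ = (c * N * n) ^ (c * y N n) := (pow_mul _ _ _).symm
    _ ≤ _ := by
        apply Bd2_aux (by omega) hN hn
        · exact Bd2_lin (by omega) (by omega) hN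
        · calc c * y N n ≤ c * (c * N ^ c * n) := Nat.mul_le_mul_left _ (hy N n hN hn)
            _ = c * c * N ^ c * n := by ring
            _ ≤ (c * c + c + 1) * N ^ (c * c + c + 1) * n :=
                Nat.mul_le_mul_right n (Nat.mul_le_mul (by omega)
                  (Nat.pow_le_pow_right hN (by omega)))

theorem Bd2.poly (x : ℕ → ℕ → ℕ) (c : ℕ) (hx : ∀ N n, 1 ≤ N → 1 ≤ n → x N n ≤ (c * N * n) ^ c) :
    Bd2 x := by
  refine ⟨c + 1, fun N n hN hn => (hx N n hN hn).trans ?_⟩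
  apply Bd2_aux (by omega) hN hn
  · exact Bd2_lin (by omega) (by omega) hN
  · have h0 : 1 ≤ N ^ (c + 1) * n := Nat.mul_pos (Nat.pow_pos hN) hn
    rw [mul_assoc]
    exact (Nat.le_succ c).trans (Nat.le_mul_of_pos_right _ h0)

theorem Bd2.fact (x : ℕ → ℕ → ℕ) (c : ℕ) (hx : ∀ N n, 1 ≤ N → 1 ≤ n → x N n ≤ c * N ^ c * n) :
    Bd2 fun N n => (x N n)! := by
  exact ⟨c, fun N n hN hn => (Nat.factorial_le_pow _).trans (Bd2_self (hx N n hN hn))⟩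

/-- a product of at most `c N ^ c` factors which are at most `G N n` -/
theorem Bd2.prod {ι : Type*} (s : ℕ → Finset ι) (f : ι → ℕ → ℕ → ℕ) (G : ℕ → ℕ → ℕ) (hG : Bd2 G)
    (c : ℕ) (hs : ∀ N, 1 ≤ N → (s N).card ≤ c * N ^ c)
    (hf : ∀ N n, 1 ≤ N → 1 ≤ n → ∀ i ∈ s N, f i N n ≤ G N n) :
    Bd2 fun N n => ∏ i ∈ s N, f i N n := by
  refine (Bd2.pow hG (fun N => (s N).card) c hs).mono fun N n hN hn => ?_
  exact Finset.prod_le_pow_card (s N) (fun i => f i N n) (G N n) (hf N n hN hn)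

end Pool.Agent.AAU
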