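import Mathlib

/-!
# The number of ideals of given norm in a quadratic field

An ideal `I` of norm `m` is `(m, x)`, and depends only on the class of `x` modulo `m`.
-/

open NumberField

namespace Pool.Agent.AAU

private theorem clsI_pair {R : Type*} [CommRing R] {a x y : R}
    (h : Ideal.Quotient.mk (Ideal.span {a}) x = Ideal.Quotient.mk (Ideal.span {a}) y) :
    Ideal.span {a, x} ≤ Ideal.span {a, y} := by
  rw [Ideal.Quotient.eq, Ideal.mem_span_singleton'] at h
  obtain ⟨c, hc⟩ := h
  rw [Ideal.span_le]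
  intro z hz
  rcases hz with rfl | hz
  · exact Ideal.subset_span (Set.mem_insert _ _)
  · rw [Set.mem_singleton_iff] at hz
    subst hz
    have h1 : z = c * a + y := by rw [hc]; ring
    rw [h1]
    refine Ideal.add_mem _ (Ideal.mul_mem_left _ _ (Ideal.subset_span (Set.mem_insert _ _))) ?_
    exact Ideal.subset_span (Set.mem_insert_of_mem _ rfl)

theorem card_ideals_le (K : Type) [Field K] [NumberField K] (h2 : Module.finrank ℚ K = 2) (m : ℕ)
    (hm : 0 < m) (S : Finset (Ideal (𝓞 K))) (hS : ∀ I ∈ S, Ideal.absNorm I = m) :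
    S.card ≤ m ^ 2 := by
  have hm0 : (m : 𝓞 K) ≠ 0 := by exact_mod_cast hm.ne'
  have hN : Nat.card (𝓞 K ⧸ Ideal.span {(m : 𝓞 K)}) = m ^ 2 := by
    rw [← Submodule.cardQuot_apply, ← Ideal.absNorm_apply, Ideal.absNorm_span_natCast,
      RingOfIntegers.rank, h2]
  have hfin : Finite (𝓞 K ⧸ Ideal.span {(m : 𝓞 K)}) :=
    Nat.finite_of_card_ne_zero (by rw [hN]; positivity)
  have hex : ∀ I : S, ∃ y : 𝓞 K, I.1 = Ideal.span {(m : 𝓞 K), y} := by
    intro I
    have h1 := Ideal.absNorm_mem I.1
    rw [hS I.1 I.2] at h1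
    exact IsDedekindDomain.exists_eq_span_pair h1 hm0
  choose y hy using hex
  have hinj : Function.Injective fun I : S =>
      Ideal.Quotient.mk (Ideal.span {(m : 𝓞 K)}) (y I) := by
    intro I J h
    apply Subtype.ext
    rw [hy I, hy J]
    exact le_antisymm (clsI_pair h) (clsI_pair h.symm)
  have h3 := Nat.card_le_card_of_injective _ hinj
  rw [hN, Nat.card_eq_fintype_card, Fintype.card_coe] at h3
  exact h3

end Pool.Agent.AAU
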