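import Pool.Agent.AAU.ClsI

/-!
# The class number of a quadratic field is at most `|d| ^ 3`

`exists_ideal_in_class_of_norm_le` (Mathlib, `NumberTheory/NumberField/ClassNumber.lean`):
every class contains an ideal `I` with `absNorm I ≤ (4 / π) ^ r₂ * (2! / 2 ^ 2) * √|d| ≤ √|d| ≤ |d|`
(`r₂ ≤ 1`, `π > 3`; `|d| ≥ 1`). So `classNumber K ≤ #{I : 1 ≤ absNorm I ≤ |d|}` (finite:
`Ideal.finite_setOf_absNorm_le`), and this is at most `∑_{m = 1}^d m ^ 2 ≤ d ^ 3` by
`card_ideals_le`.
-/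

open NumberField

namespace Pool.Agent.AAU

private theorem clsN_bound (K : Type) [Field K] [NumberField K] (h2 : Module.finrank ℚ K = 2) :
    (4 / Real.pi) ^ InfinitePlace.nrComplexPlaces K *
      ((Module.finrank ℚ K).factorial / (Module.finrank ℚ K : ℝ) ^ (Module.finrank ℚ K) *
        √|(discr K : ℝ)|) ≤ ((discr K).natAbs : ℝ) := by
  have hr : InfinitePlace.nrComplexPlaces K ≤ 1 := by
    have := InfinitePlace.card_add_two_mul_card_eq_rank K
    omega
  have hpi : (1 : ℝ) ≤ 4 / Real.pi := by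
    rw [le_div_iff₀ Real.pi_pos]
    linarith [Real.pi_le_four]
  have hpi2 : 4 / Real.pi ≤ 2 := by
    rw [div_le_iff₀ Real.pi_pos]
    linarith [Real.pi_gt_three]
  have h1 : (4 / Real.pi) ^ InfinitePlace.nrComplexPlaces K ≤ 2 :=
    ((pow_le_pow_right₀ hpi hr).trans_eq (pow_one _)).trans hpi2
  have h0 : 0 ≤ (4 / Real.pi) ^ InfinitePlace.nrComplexPlaces K := by positivity
  have hd : (1 : ℝ) ≤ ((discr K).natAbs : ℝ) := by
    have : 0 < (discr K).natAbs := Int.natAbs_pos.mpr (discr_ne_zero K)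
    exact_mod_cast this
  have hd2 : |(discr K : ℝ)| = ((discr K).natAbs : ℝ) := by
    rw [Nat.cast_natAbs, Int.cast_abs]
  have hs : √|(discr K : ℝ)| ≤ ((discr K).natAbs : ℝ) := by
    rw [hd2]
    exact Real.sqrt_le_iff.mpr ⟨by positivity, by nlinarith⟩
  have hs0 : 0 ≤ √|(discr K : ℝ)| := Real.sqrt_nonneg _
  have hf : (((Module.finrank ℚ K).factorial : ℕ) : ℝ) /
      (Module.finrank ℚ K : ℝ) ^ (Module.finrank ℚ K) = 1 / 2 := by
    rw [h2]
    norm_num [Nat.factorial]
  rw [hf]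
  nlinarith [mul_le_mul_of_nonneg_right h1 hs0]

theorem classNumber_le (K : Type) [Field K] [NumberField K] (h2 : Module.finrank ℚ K = 2) :
    classNumber K ≤ (discr K).natAbs ^ 3 := by
  classical
  set d := (discr K).natAbs with hd
  have hfin := Ideal.finite_setOfPred_absNorm_le (S := 𝓞 K) d
  set T : Finset (Ideal (𝓞 K)) := hfin.toFinset.filter fun I => Ideal.absNorm I ≠ 0 with hT
  have hmem : ∀ I, I ∈ T ↔ Ideal.absNorm I ≤ d ∧ Ideal.absNorm I ≠ 0 := by
    intro I
    rw [hT, Finset.mem_filter, Set.Finite.mem_toFinset]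
    rfl
  have hex : ∀ C : ClassGroup (𝓞 K), ∃ I : nonZeroDivisors (Ideal (𝓞 K)),
      ClassGroup.mk0 I = C ∧ Ideal.absNorm (I : Ideal (𝓞 K)) ≤ d := by
    intro C
    obtain ⟨I, hI, hI2⟩ := exists_ideal_in_class_of_norm_le C
    refine ⟨I, hI, ?_⟩
    have h3 := hI2.trans (clsN_bound K h2)
    exact_mod_cast h3
  choose f hf hfd using hex
  have hinj : Function.Injective f := fun C D h => by rw [← hf C, ← hf D, h]
  have hcard : classNumber K ≤ T.card := by
    unfold classNumber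
    rw [← Finset.card_univ]
    refine Finset.card_le_card_of_injOn (fun C => ((f C : nonZeroDivisors (Ideal (𝓞 K))) :
      Ideal (𝓞 K))) ?_ ?_
    · intro C _
      rw [Finset.mem_coe, hmem]
      refine ⟨hfd C, ?_⟩
      rw [Ideal.absNorm_ne_zero_iff_mem_nonZeroDivisors]
      exact (f C).2
    · intro C _ D _ h
      exact hinj (Subtype.ext h)
  have hsum : T.card ≤ ∑ m ∈ Finset.Icc 1 d, m ^ 2 := by
    have hmaps : (T : Set (Ideal (𝓞 K))).MapsTo (fun I => Ideal.absNorm I)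
        (Finset.Icc 1 d : Finset ℕ) := by
      intro I hI
      have h4 := (hmem I).mp (Finset.mem_coe.mp hI)
      rw [Finset.mem_coe, Finset.mem_Icc]
      exact ⟨Nat.pos_of_ne_zero h4.2, h4.1⟩
    rw [Finset.card_eq_sum_card_fiberwise hmaps]
    refine Finset.sum_le_sum fun m hm => ?_
    rw [Finset.mem_Icc] at hm
    refine card_ideals_le K h2 m hm.1 _ fun I hI => ?_
    exact (Finset.mem_filter.mp hI).2
  have hlast : ∑ m ∈ Finset.Icc 1 d, m ^ 2 ≤ d ^ 3 := by
    calc ∑ m ∈ Finset.Icc 1 d, m ^ 2 ≤ ∑ _m ∈ Finset.Icc 1 d, d ^ 2 :=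
          Finset.sum_le_sum fun m hm => Nat.pow_le_pow_left (Finset.mem_Icc.mp hm).2 2
      _ = d ^ 3 := by
          rw [Finset.sum_const, Nat.card_Icc, smul_eq_mul]
          simp only [Nat.add_sub_cancel]
          ring
  exact hcard.trans (hsum.trans hlast)

end Pool.Agent.AAU
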