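import Pool.Agent.AAU.StickDown
import Pool.Agent.AAP.Cls
import Pool.Agent.AAP.Cg
import Pool.Agent.EDV.NvO

/-!
# AAU-ClsOne (1h): the class group, `n = 1`

`cls` (`AAP/Cls.lean`) with `ν₀ σ = fl (N - 1) N (a(σ))⁻¹`, `a(σ) = unitsMap (gq σ)`, and `stickDown`
with `c = N - 1`. The sum `∑ ν₀ σ ψ σ` is congruent to `(p - 1) ∑_a fl (N - 1) N a χ(a)`, and
`fl (N - 1) N a = a - 1`, `∑ χ(a) = 0`, so that it is `(p - 1) N (TT N 1 χ)`, of norm one.
-/

open NumberField Pointwise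

namespace Pool.Agent.AAU

open Pool.Agent.AAP

private theorem cone_norm_chi (N : ℕ) [NeZero N] (E : Type) [NormedField E]
    (χ : (ZMod N)ˣ →* Eˣ) (r : (ZMod N)ˣ) : ‖(χ r : E)‖ = 1 := by
  refine (pow_eq_one_iff_of_nonneg (norm_nonneg _) (Nat.card_pos (α := (ZMod N)ˣ)).ne').mp ?_
  rw [← norm_pow, ← Units.val_pow_eq_pow_val, ← map_pow, pow_card_eq_one']
  simp

private theorem cone_norm_nat (p : ℕ) [Fact p.Prime] (E : Type) [NormedField E]
    [NormedAlgebra ℚ_[p] E] (k : ℕ) (hk : ¬ p ∣ k) : ‖(k : E)‖ = 1 := by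
  have h1 : (k : E) = algebraMap ℚ_[p] E (k : ℚ_[p]) := (map_natCast _ _).symm
  rw [h1, norm_algebraMap']
  exact Padic.norm_natCast_eq_one_iff.2
    ((Nat.Prime.coprime_iff_not_dvd Fact.out).2 hk)

private theorem cone_norm_nat_le (p : ℕ) [Fact p.Prime] (E : Type) [NormedField E]
    [NormedAlgebra ℚ_[p] E] (k : ℕ) : ‖(k : E)‖ ≤ 1 := by
  have h1 : (k : E) = algebraMap ℚ_[p] E (k : ℚ_[p]) := (map_natCast _ _).symm
  rw [h1, norm_algebraMap']
  exact_mod_cast Padic.norm_int_le_one (k : ℤ)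

private theorem cone_norm_p (p : ℕ) [Fact p.Prime] (E : Type) [NormedField E]
    [NormedAlgebra ℚ_[p] E] : ‖(p : E)‖ < 1 := by
  have h1 : (p : E) = algebraMap ℚ_[p] E (p : ℚ_[p]) := (map_natCast _ _).symm
  rw [h1, norm_algebraMap']
  exact Padic.norm_p_lt_one

/-- the sum over the fibres of a surjective homomorphism -/
private theorem cone_fib {A B : Type*} [Group A] [Fintype A] [Group B] [Fintype B]
    {R : Type*} [Semiring R] (f : A →* B) (hf : Function.Surjective f) (k : ℕ)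
    (hk : Fintype.card A = k * Fintype.card B) (g : B → R) :
    ∑ a, g (f a) = (k : R) * ∑ b, g b := by
  classical
  have h0 : ∀ b : B, (Finset.univ.filter fun a => f a = b).card =
      (Finset.univ.filter fun a => f a = 1).card := fun b =>
    MonoidHom.card_fiber_eq_of_mem_range f (hf b) (hf 1)
  have h1 : Fintype.card A = (Finset.univ.filter fun a => f a = 1).card * Fintype.card B := by
    rw [← Finset.card_univ (α := A), Finset.card_eq_sum_card_fiberwise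
      (f := f) (t := Finset.univ) (fun _ _ => Finset.mem_coe.2 (Finset.mem_univ _)),
      Finset.sum_congr rfl fun b _ => h0 b, Finset.sum_const, Finset.card_univ, smul_eq_mul,
      mul_comm]
  have h2 : (Finset.univ.filter fun a => f a = 1).card = k := by
    have hB : 0 < Fintype.card B := Fintype.card_pos
    exact Nat.eq_of_mul_eq_mul_right hB (h1.symm.trans hk)
  rw [← Finset.sum_fiberwise_of_maps_to (s := Finset.univ) (t := Finset.univ) (g := f)
    (fun _ _ => Finset.mem_univ _), Finset.mul_sum]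
  refine Finset.sum_congr rfl fun b _ => ?_
  rw [Finset.sum_congr rfl (g := fun _ => g b) (fun a ha => by rw [(Finset.mem_filter.1 ha).2]),
    Finset.sum_const, h0 b, h2, nsmul_eq_mul]

private theorem cone_fl (N : ℕ) [NeZero N] (hN : 2 < N) (a : (ZMod N)ˣ) :
    fl (N - 1) N a + 1 = (a : ZMod N).val := by
  have h1 : (a : ZMod N).val < N := ZMod.val_lt _
  have h2 : 0 < (a : ZMod N).val := by
    rw [Nat.pos_iff_ne_zero, ne_eq, ZMod.val_eq_zero]
    have : Fact (1 < N) := ⟨by omega⟩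
    exact a.ne_zero
  unfold fl
  obtain ⟨b, hb⟩ : ∃ b, (a : ZMod N).val = b + 1 := ⟨(a : ZMod N).val - 1, by omega⟩
  obtain ⟨M, hM⟩ : ∃ M, N = M + 1 := ⟨N - 1, by omega⟩
  rw [hb] at h1 ⊢
  have h3 : (N - 1) * (b + 1) = N * b + (N - 1 - b) := by
    have e1 : N - 1 = M := by omega
    obtain ⟨d, hd⟩ : ∃ d, M = b + d := ⟨M - b, by omega⟩
    have e4 : b + d - b = d := by omega
    rw [e1, hM, hd, e4]
    ring
  rw [h3, Nat.mul_add_div (by omega), Nat.div_eq_of_lt (by omega)]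

private theorem cone_sum (N : ℕ) [NeZero N] (hN : 2 < N) {E : Type} [Field E] [CharZero E]
    (χ : (ZMod N)ˣ →* Eˣ) (hχ : (χ (-1) : E) = -1) :
    ∑ b : (ZMod N)ˣ, (fl (N - 1) N b : E) * (χ b : E) =
      (N : E) * ∑ r : (ZMod N)ˣ, (χ r : E) * ((bb N 1 (r : ZMod N).val : ℚ) : E) := by
  have hN0 : (N : E) ≠ 0 := Nat.cast_ne_zero.2 (NeZero.ne N)
  have h1 : ∑ b : (ZMod N)ˣ, (χ b : E) = 0 := by
    have h2 : ∑ b : (ZMod N)ˣ, (χ b : E) = - ∑ b : (ZMod N)ˣ, (χ b : E) := by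
      conv_lhs => rw [← Equiv.sum_comp (Equiv.mulLeft (-1 : (ZMod N)ˣ))]
      rw [← Finset.sum_neg_distrib]
      refine Finset.sum_congr rfl fun b _ => ?_
      rw [Equiv.coe_mulLeft, map_mul, Units.val_mul, hχ, neg_one_mul]
    have h3 : (2 : E) * ∑ b : (ZMod N)ˣ, (χ b : E) = 0 := by
      rw [two_mul]
      nth_rewrite 1 [h2]
      ring
    exact (mul_eq_zero.1 h3).resolve_left two_ne_zero
  have h4 : ∀ b : (ZMod N)ˣ, (fl (N - 1) N b : E) = ((b : ZMod N).val : E) - 1 := by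
    intro b
    rw [← cone_fl N hN b]
    push_cast
    ring
  have h5 : ∀ r : ℕ, ((bb N 1 r : ℚ) : E) = (r : E) / N - 1 / 2 := by
    intro r
    unfold bb
    rw [Nat.sub_self, pow_zero, one_mul, Polynomial.bernoulli_one, Polynomial.eval_sub,
      Polynomial.eval_X, Polynomial.eval_C]
    push_cast
    ring
  have h6 : ∑ b : (ZMod N)ˣ, (fl (N - 1) N b : E) * (χ b : E) =
      ∑ b : (ZMod N)ˣ, ((b : ZMod N).val : E) * (χ b : E) - ∑ b : (ZMod N)ˣ, (χ b : E) := by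
    rw [← Finset.sum_sub_distrib]
    refine Finset.sum_congr rfl fun b _ => ?_
    rw [h4]
    ring
  have h7 : ∑ r : (ZMod N)ˣ, (χ r : E) * ((bb N 1 (r : ZMod N).val : ℚ) : E) =
      (1 / (N : E)) * ∑ b : (ZMod N)ˣ, ((b : ZMod N).val : E) * (χ b : E) -
        (1 / 2) * ∑ b : (ZMod N)ˣ, (χ b : E) := by
    rw [Finset.mul_sum, Finset.mul_sum, ← Finset.sum_sub_distrib]
    refine Finset.sum_congr rfl fun b _ => ?_
    rw [h5]
    ring
  rw [h6, h7, h1, mul_zero, sub_zero, sub_zero, ← mul_assoc, mul_one_div, div_self hN0, one_mul]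

theorem clsOne (N p : ℕ) [NeZero N] [NeZero (N * p)] [Fact p.Prime] (hpN : ¬ p ∣ N) (hN : 2 < N)
    (K : Type) [Field K] [NumberField K] [IsCyclotomicExtension {N * p} ℚ K]
    {E : Type} [NormedField E] [IsUltrametricDist E] [NormedAlgebra ℚ_[p] E]
    (χ : (ZMod N)ˣ →* Eˣ) (hχ : (χ (-1) : E) = -1) (hT : ‖(TT N 1 χ : E)‖ = 1)
    (ψ : Gal(K/ℚ) → E)
    (hψ : ∀ σ, Cg (ψ σ) (χ (ZMod.unitsMap (dvd_mul_right N p) (gq (N * p) K σ))⁻¹ : E))
    (𝔞 : Ideal (𝓞 K)) (h𝔞 : 𝔞 ≠ ⊥) (hp𝔞 : (𝔞 ^ p).IsPrincipal)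
    (hrel : ∀ n : Gal(K/ℚ) → ℕ, ‖∑ σ, (n σ : E) * ψ σ‖ < 1 →
      (∏ σ, (σ • 𝔞) ^ n σ).IsPrincipal) : 𝔞.IsPrincipal := by
  classical
  have hp : p.Prime := Fact.out
  have : CharZero E := charZero_of_injective_algebraMap (algebraMap ℚ_[p] E).injective
  let f : Gal(K/ℚ) →* (ZMod N)ˣ :=
    (invMonoidHom.comp (ZMod.unitsMap (dvd_mul_right N p))).comp (gq (N * p) K).toMonoidHom
  have hf : ∀ σ, f σ = (ZMod.unitsMap (dvd_mul_right N p) (gq (N * p) K σ))⁻¹ := fun σ => rfl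
  have hfs : Function.Surjective f := by
    intro b
    obtain ⟨x, hx⟩ := ZMod.unitsMap_surjective (dvd_mul_right N p) b⁻¹
    refine ⟨(gq (N * p) K).symm x, ?_⟩
    rw [hf, MulEquiv.apply_symm_apply, hx, inv_inv]
  have hcard : Fintype.card Gal(K/ℚ) = (p - 1) * Fintype.card (ZMod N)ˣ := by
    rw [Fintype.card_congr (gq (N * p) K).toEquiv, ZMod.card_units_eq_totient,
      ZMod.card_units_eq_totient, Nat.totient_mul
        (((Nat.Prime.coprime_iff_not_dvd hp).2 hpN).symm), Nat.totient_prime hp, mul_comm]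
  have hψ' : ∀ σ, Cg (ψ σ) (χ (f σ) : E) := fun σ => hψ σ
  have hn : ∀ b, ‖(χ b : E)‖ = 1 := cone_norm_chi N E χ
  refine cls p (cone_norm_p p E) ψ (fun σ => (hψ' σ).norm_eq (hn _)) (fun σ τ => ?_)
    (fun σ => fl (N - 1) N (f σ)) ?_ 𝔞 h𝔞 hp𝔞 ?_ hrel
  · have h1 : Cg (ψ (σ * τ)) ((χ (f σ) : E) * (χ (f τ) : E)) := by
      have := hψ' (σ * τ)
      rwa [map_mul, map_mul, Units.val_mul] at this
    exact h1.trans ((hψ' σ).mul (hψ' τ) (hn _).le (hn _).le).symm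
  · have h1 : Cg (∑ σ, (fl (N - 1) N (f σ) : E) * ψ σ)
        (∑ σ, (fl (N - 1) N (f σ) : E) * (χ (f σ) : E)) := by
      refine Cg.sum _ _ _ fun σ _ => ?_
      rw [Cg, ← mul_sub, norm_mul]
      refine lt_of_le_of_lt ?_ (hψ' σ)
      exact mul_le_of_le_one_left (norm_nonneg _) (cone_norm_nat_le p E _)
    refine h1.norm_eq ?_
    rw [cone_fib f hfs (p - 1) hcard (fun b => (fl (N - 1) N b : E) * (χ b : E)),
      cone_sum N hN χ hχ]
    change ‖((p - 1 : ℕ) : E) * ((N : E) * (TT N 1 χ : E))‖ = 1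
    rw [norm_mul, norm_mul, hT, mul_one, cone_norm_nat p E N hpN, mul_one]
    refine cone_norm_nat p E (p - 1) fun h => ?_
    have h2 := hp.two_le
    have h3 := Nat.le_of_dvd (by omega) h
    omega
  · have hc1 : 1 < N - 1 := by omega
    have hcop : (N - 1).Coprime N := by
      have := Nat.coprime_self_sub_left (m := 1) (n := N) (by omega)
      exact this.2 (Nat.coprime_one_left N)
    exact stickDown N p (N - 1) hN hc1 (by omega) hcop K 𝔞 h𝔞

end Pool.Agent.AAU
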