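import Mathlib

/-!
# The number of exceptional primes, for all levels at most `p ^ c` and weights less than `p ^ (1/2 - ε)`
-/

namespace Pool.Agent.AAU

private theorem cntB_root (k : ℕ) (hk : 1 ≤ k) (X : ℕ) :
    ∃ Y : ℕ, Y ^ k ≤ X ∧ ∀ N, N ^ k ≤ X → N ≤ Y := by
  have h0 : (0 : ℕ) ^ k ≤ X := by
    rw [zero_pow (by omega)]
    exact Nat.zero_le _
  refine ⟨Nat.findGreatest (fun Y => Y ^ k ≤ X) X, Nat.findGreatest_spec (P := fun Y => Y ^ k ≤ X) (Nat.zero_le X) h0, fun N hN => ?_⟩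
  exact Nat.le_findGreatest ((Nat.le_self_pow (by omega) N).trans hN) hN

theorem cntB (C : ℕ) (P : ℕ → ℕ → Finset ℕ)
    (h : ∀ Y Z, ((Finset.Icc 1 Y ×ˢ Finset.Icc 1 Z).biUnion fun x => P x.1 x.2).card ≤
      C * Y ^ C * Z ^ 2) (m : ℕ) :
    ∃ k : ℕ, ∀ X : ℕ, {p : ℕ | p ≤ X ∧ ∃ N n, 1 ≤ N ∧ 1 ≤ n ∧ N ^ k ≤ p ∧
      n ^ (2 * m + 1) ≤ p ^ m ∧ p ∈ P N n}.ncard ^ (4 * m + 2) ≤ k * X ^ (4 * m + 1) := by
  refine ⟨C ^ (4 * m + 2) + C * (4 * m + 2) + 1, fun X => ?_⟩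
  set k := C ^ (4 * m + 2) + C * (4 * m + 2) + 1 with hk
  have hk1 : 1 ≤ k := by omega
  obtain ⟨Y, hY, hY'⟩ := cntB_root k hk1 X
  obtain ⟨Z, hZ, hZ'⟩ := cntB_root (2 * m + 1) (by omega) (X ^ m)
  rcases Nat.eq_zero_or_pos X with hX | hX
  · have he : {p : ℕ | p ≤ X ∧ ∃ N n, 1 ≤ N ∧ 1 ≤ n ∧ N ^ k ≤ p ∧
        n ^ (2 * m + 1) ≤ p ^ m ∧ p ∈ P N n} = ∅ := by
      ext p
      simp only [Set.mem_ofPred_eq, Set.mem_empty_iff_false, iff_false]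
      rintro ⟨hp, N, n, hN, hn, hNk, -⟩
      have h1 : 1 ≤ N ^ k := Nat.one_le_pow _ _ hN
      omega
    rw [he, Set.ncard_empty, zero_pow (by omega)]
    exact Nat.zero_le _
  have hY1 : 1 ≤ Y := hY' 1 (by rw [one_pow]; exact hX)
  have h1 : {p : ℕ | p ≤ X ∧ ∃ N n, 1 ≤ N ∧ 1 ≤ n ∧ N ^ k ≤ p ∧
      n ^ (2 * m + 1) ≤ p ^ m ∧ p ∈ P N n}.ncard ≤ C * Y ^ C * Z ^ 2 := by
    refine le_trans ?_ (h Y Z)
    rw [← Set.ncard_coe_finset]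
    refine Set.ncard_le_ncard ?_ (Finset.finite_toSet _)
    rintro p ⟨hp, N, n, hN, hn, hNk, hnk, hpP⟩
    rw [Finset.mem_coe, Finset.mem_biUnion]
    refine ⟨(N, n), ?_, hpP⟩
    rw [Finset.mem_product, Finset.mem_Icc, Finset.mem_Icc]
    exact ⟨⟨hN, hY' N (hNk.trans hp)⟩, hn, hZ' n (hnk.trans (Nat.pow_le_pow_left hp m))⟩
  refine (Nat.pow_le_pow_left h1 _).trans ?_
  have e1 : (C * Y ^ C * Z ^ 2) ^ (4 * m + 2) =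
      C ^ (4 * m + 2) * Y ^ (C * (4 * m + 2)) * (Z ^ (2 * m + 1)) ^ 4 := by
    rw [mul_pow, mul_pow, ← pow_mul, ← pow_mul, ← pow_mul]
    congr 2
    ring
  have e2 : (X ^ m) ^ 4 * X = X ^ (4 * m + 1) := by
    rw [← pow_mul, pow_succ, mul_comm m 4]
  rw [e1]
  calc C ^ (4 * m + 2) * Y ^ (C * (4 * m + 2)) * (Z ^ (2 * m + 1)) ^ 4
      ≤ k * X * (X ^ m) ^ 4 := by
        refine Nat.mul_le_mul (Nat.mul_le_mul (by omega) ?_) (Nat.pow_le_pow_left hZ 4)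
        exact (Nat.pow_le_pow_right hY1 (by omega)).trans hY
    _ = k * X ^ (4 * m + 1) := by rw [← e2]; ring

end Pool.Agent.AAU
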