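import Pool.Agent.AAU.Bd2
import Pool.Agent.AAP.Count

/-!
# AAU-CntU: counting the exceptional primes

The primes dividing one of the numbers `M N n` with `N, n` up to a small power of `X` are at most about `X ^ (1/2)`.
-/

open Nat

namespace Pool.Agent.AAU

private lemma CntU_self {x y : ℕ} (h : x ≤ y) : x ^ x ≤ y ^ y := by
  rcases Nat.eq_zero_or_pos y with h0 | h0
  · have h1 : x = 0 := by omega
    rw [h0, h1]
  · exact (Nat.pow_le_pow_left h _).trans (Nat.pow_le_pow_right h0 h)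

private lemma CntU_am {C C' N : ℕ} (n : ℕ) (h : C ≤ C') (hN : 1 ≤ N) :
    C * N ^ C * n ≤ C' * N ^ C' * n :=
  Nat.mul_le_mul_right n (Nat.mul_le_mul h (Nat.pow_le_pow_right hN h))

private lemma CntU_one (M : ℕ → ℕ → ℕ) (hM : Bd2 M)
    (h0 : ∀ N n, 1 ≤ N → 1 ≤ n → M N n ≠ 0) :
    ∃ c : ℕ, 1 ≤ c ∧ ∀ N n, 1 ≤ N → 1 ≤ n → (M N n).primeFactors.card ≤ 2 * c * N ^ c * n := by
  obtain ⟨c, hc⟩ := hM
  refine ⟨c + 1, Nat.succ_pos c, fun N n hN hn => ?_⟩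
  have h1 : M N n ≤ ((c + 1) * N ^ (c + 1) * n) ^ ((c + 1) * N ^ (c + 1) * n) :=
    (hc N n hN hn).trans (CntU_self (CntU_am n (Nat.le_succ c) hN))
  have h2 : 1 ≤ (c + 1) * N ^ (c + 1) * n :=
    Nat.mul_pos (Nat.mul_pos (Nat.succ_pos c) (Nat.pow_pos hN)) hn
  have h3 := AAP.card_primeFactors_lt (M N n) ((c + 1) * N ^ (c + 1) * n)
    (Nat.pos_of_ne_zero (h0 N n hN hn)) h2 h1
  calc (M N n).primeFactors.card ≤ 2 * ((c + 1) * N ^ (c + 1) * n) := h3.le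
    _ = 2 * (c + 1) * N ^ (c + 1) * n := by ring

private lemma CntU_sum (c : ℕ) (P : ℕ → ℕ → Finset ℕ)
    (hP : ∀ N n, 1 ≤ N → 1 ≤ n → (P N n).card ≤ 2 * c * N ^ c * n) (Y Z : ℕ) :
    ((Finset.Icc 1 Y ×ˢ Finset.Icc 1 Z).biUnion fun x => P x.1 x.2).card ≤
      2 * c * Y ^ (c + 1) * Z ^ 2 := by
  calc ((Finset.Icc 1 Y ×ˢ Finset.Icc 1 Z).biUnion fun x => P x.1 x.2).card
      ≤ ∑ x ∈ Finset.Icc 1 Y ×ˢ Finset.Icc 1 Z, (P x.1 x.2).card := Finset.card_biUnion_le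
    _ ≤ ∑ _x ∈ Finset.Icc 1 Y ×ˢ Finset.Icc 1 Z, 2 * c * Y ^ c * Z := by
        refine Finset.sum_le_sum fun x hx => ?_
        rw [Finset.mem_product, Finset.mem_Icc, Finset.mem_Icc] at hx
        refine (hP x.1 x.2 hx.1.1 hx.2.1).trans ?_
        exact Nat.mul_le_mul (Nat.mul_le_mul_left _ (Nat.pow_le_pow_left hx.1.2 c)) hx.2.2
    _ = 2 * c * Y ^ (c + 1) * Z ^ 2 := by
        rw [Finset.sum_const, Finset.card_product, Nat.card_Icc, Nat.card_Icc, smul_eq_mul,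
          Nat.add_sub_cancel, Nat.add_sub_cancel]
        ring

theorem cntU (M : ℕ → ℕ → ℕ) (hM : Bd2 M) (h0 : ∀ N n, 1 ≤ N → 1 ≤ n → M N n ≠ 0) :
    ∃ (C k : ℕ) (P : ℕ → ℕ → Finset ℕ),
      (∀ N n, 1 ≤ N → 1 ≤ n → ∀ p : ℕ, p.Prime → p ∣ M N n → p ∈ P N n) ∧
      (∀ N n, (P N n).card ≤ C * N ^ C * n) ∧
      (∀ Y Z, ((Finset.Icc 1 Y ×ˢ Finset.Icc 1 Z).biUnion fun x => P x.1 x.2).card ≤
        C * Y ^ C * Z ^ 2) ∧
      ∀ X : ℕ, {p : ℕ | p ≤ X ∧ ∃ N n, 1 ≤ N ∧ 1 ≤ n ∧ N ^ k ≤ p ∧ n ^ k ≤ p ∧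
        p ∈ P N n}.ncard ^ 2 ≤ k * X := by
  obtain ⟨c, hc, hcard⟩ := CntU_one M hM h0
  have hP : ∀ N n, 1 ≤ N → 1 ≤ n →
      ((fun N n => if 1 ≤ N ∧ 1 ≤ n then (M N n).primeFactors else ∅ : ℕ → ℕ → Finset ℕ) N n).card
        ≤ 2 * c * N ^ c * n := by
    intro N n hN hn
    simp only [hN, hn, and_self, if_true]
    exact hcard N n hN hn
  refine ⟨2 * c + 1, 4 * c ^ 2 + 2 * c + 6,
    fun N n => if 1 ≤ N ∧ 1 ≤ n then (M N n).primeFactors else ∅, ?_, ?_, ?_, ?_⟩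
  · intro N n hN hn p hp hd
    simp only [hN, hn, and_self, if_true]
    exact Nat.mem_primeFactors.2 ⟨hp, hd, h0 N n hN hn⟩
  · intro N n
    by_cases h : 1 ≤ N ∧ 1 ≤ n
    · refine (hP N n h.1 h.2).trans ?_
      exact Nat.mul_le_mul_right n (Nat.mul_le_mul (by omega) (Nat.pow_le_pow_right h.1 (by omega)))
    · simp only [h, if_false, Finset.card_empty]
      exact Nat.zero_le _
  · intro Y Z
    refine (CntU_sum c _ hP Y Z).trans ?_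
    rcases Nat.eq_zero_or_pos Y with hY | hY
    · rw [hY, Nat.zero_pow (Nat.succ_pos c)]
      simp
    · exact Nat.mul_le_mul_right _ (Nat.mul_le_mul (by omega) (Nat.pow_le_pow_right hY (by omega)))
  · intro X
    have hk : 4 * c ^ 2 + 2 * c + 6 ≠ 0 := by omega
    have hspec : Nat.findGreatest (fun Y => Y ^ (4 * c ^ 2 + 2 * c + 6) ≤ X) X ^
        (4 * c ^ 2 + 2 * c + 6) ≤ X := by
      refine Nat.findGreatest_spec (P := fun Y => Y ^ (4 * c ^ 2 + 2 * c + 6) ≤ X) (m := 0)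
        (Nat.zero_le X) ?_
      rw [Nat.zero_pow (Nat.pos_of_ne_zero hk)]
      exact Nat.zero_le X
    have hle : ∀ N, N ^ (4 * c ^ 2 + 2 * c + 6) ≤ X →
        N ≤ Nat.findGreatest (fun Y => Y ^ (4 * c ^ 2 + 2 * c + 6) ≤ X) X := fun N hN =>
      Nat.le_findGreatest ((Nat.le_self_pow hk N).trans hN) hN
    revert hspec hle
    generalize Nat.findGreatest (fun Y => Y ^ (4 * c ^ 2 + 2 * c + 6) ≤ X) X = Y
    intro hspec hle
    have h1 : {p : ℕ | p ≤ X ∧ ∃ N n, 1 ≤ N ∧ 1 ≤ n ∧ N ^ (4 * c ^ 2 + 2 * c + 6) ≤ p ∧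
        n ^ (4 * c ^ 2 + 2 * c + 6) ≤ p ∧
        p ∈ (if 1 ≤ N ∧ 1 ≤ n then (M N n).primeFactors else ∅)} ⊆
        ((Finset.Icc 1 Y ×ˢ Finset.Icc 1 Y).biUnion fun x =>
          (fun N n => if 1 ≤ N ∧ 1 ≤ n then (M N n).primeFactors else ∅ : ℕ → ℕ → Finset ℕ)
            x.1 x.2 : Finset ℕ) := by
      rintro p ⟨hpX, N, n, hN, hn, h1, h2, h3⟩
      rw [Finset.mem_coe, Finset.mem_biUnion]
      refine ⟨(N, n), ?_, h3⟩
      rw [Finset.mem_product, Finset.mem_Icc, Finset.mem_Icc]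
      exact ⟨⟨hN, hle N (h1.trans hpX)⟩, hn, hle n (h2.trans hpX)⟩
    have h2 := Set.ncard_le_ncard h1 (Finset.finite_toSet _)
    rw [Set.ncard_coe_finset] at h2
    have h3 := h2.trans (CntU_sum c _ hP Y Y)
    calc _ ≤ (2 * c * Y ^ (c + 1) * Y ^ 2) ^ 2 := Nat.pow_le_pow_left h3 2
      _ = 4 * c ^ 2 * Y ^ (2 * c + 6) := by ring
      _ ≤ (4 * c ^ 2 + 2 * c + 6) * X := by
        rcases Nat.eq_zero_or_pos Y with hY | hY
        · rw [hY, Nat.zero_pow (by omega)]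
          simp
        · exact Nat.mul_le_mul (by omega) ((Nat.pow_le_pow_right hY (by omega)).trans hspec)

end Pool.Agent.AAU
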