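import Pool.Agent.AAU.DefsU

/-!
# The primitive character attached to a character
-/

namespace Pool.Agent.AAU

private theorem condOne_aux {E : Type} [NormedField E] : ∀ N : ℕ, N ≠ 0 →
    ∀ γ : (ZMod N)ˣ →* Eˣ, ∃ (f : ℕ) (hf : f ∣ N) (χ : (ZMod f)ˣ →* Eˣ), PrimC χ ∧
      ∀ u, γ u = χ (ZMod.unitsMap hf u) := by
  intro N
  induction N using Nat.strong_induction_on with
  | _ N ih =>
    intro hN γ
    by_cases h : PrimC γ
    · refine ⟨N, dvd_rfl, γ, h, fun u => ?_⟩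
      rw [ZMod.unitsMap_self]
      rfl
    · unfold PrimC at h
      push Not at h
      obtain ⟨d, hd, hdN, hker⟩ := h
      have : NeZero N := ⟨hN⟩
      have hd0 : d ≠ 0 := by
        rintro rfl
        exact hN (Nat.eq_zero_of_zero_dvd hd)
      have hlt : d < N := lt_of_le_of_ne (Nat.le_of_dvd (Nat.pos_of_ne_zero hN) hd) hdN
      have hsur := ZMod.unitsMap_surjective hd
      have hk : (ZMod.unitsMap hd).ker ≤ γ.ker := fun u hu => hker u hu
      obtain ⟨f, hf, χ, hχ, hχ2⟩ := ih d hlt hd0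
        ((ZMod.unitsMap hd).liftOfSurjective hsur ⟨γ, hk⟩)
      refine ⟨f, hf.trans hd, χ, hχ, fun u => ?_⟩
      have h1 : ((ZMod.unitsMap hd).liftOfSurjective hsur ⟨γ, hk⟩) (ZMod.unitsMap hd u) = γ u :=
        MonoidHom.liftOfRightInverse_comp_apply _ _ _ _ _
      rw [← h1, hχ2, ← ZMod.unitsMap_comp hf hd]
      rfl

theorem condOne {N : ℕ} [NeZero N] {E : Type} [NormedField E] (γ : (ZMod N)ˣ →* Eˣ) :
    ∃ (f : ℕ) (hf : f ∣ N) (χ : (ZMod f)ˣ →* Eˣ), PrimC χ ∧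
      ∀ u, γ u = χ (ZMod.unitsMap hf u) :=
  condOne_aux N (NeZero.ne N) γ

end Pool.Agent.AAU
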