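import Pool.Agent.AAU.DefsU
import Pool.Agent.AAP.BcLoc

/-!
# Primes dividing the level of a primitive character

`N = ℓ ^ k N'`, `ℓ` prime to `N'`: a unit `b ≡ 1` modulo `N'` with `χ b ≠ 1` has `‖χ b - 1‖ = 1`, and it is the
image of an element of the decomposition group of a prime above `ℓ` (`stabP`).
-/

open NumberField Pointwise

namespace Pool.Agent.AAU

open Pool.Agent.AAP

private theorem locn_unit {p : ℕ} [Fact p.Prime] {m : ℕ} (h : ¬ p ∣ m) : ‖(m : ℚ_[p])‖ = 1 :=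
  Padic.norm_natCast_eq_one_iff.2 ((Nat.Prime.coprime_iff_not_dvd Fact.out).2 h)

private theorem locn_unitE {p : ℕ} [Fact p.Prime] (E : Type*) [NormedField E]
    [NormedAlgebra ℚ_[p] E] {m : ℕ} (h : ¬ p ∣ m) : ‖(m : E)‖ = 1 := by
  have h1 : (m : E) = algebraMap ℚ_[p] E (m : ℚ_[p]) := (map_natCast _ _).symm
  rw [h1, norm_algebraMap', locn_unit h]

private theorem locn_exA (m1 m2 : ℕ) (co : m1.Coprime m2) (m : ℕ) [NeZero m] (hm : m = m1 * m2)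
    (a1 a2 : ℕ) (h1 : a1.Coprime m1) (h2 : a2.Coprime m2) :
    ∃ u : (ZMod m)ˣ, (u : ZMod m).val ≡ a1 [MOD m1] ∧ (u : ZMod m).val ≡ a2 [MOD m2] := by
  obtain ⟨a, ha1, ha2⟩ := Nat.chineseRemainder co a1 a2
  have hc1 : a.Coprime m1 := by
    rw [Nat.Coprime, ha1.gcd_eq]
    exact h1
  have hc2 : a.Coprime m2 := by
    rw [Nat.Coprime, ha2.gcd_eq]
    exact h2
  have hc : a.Coprime m := by
    rw [hm]
    exact hc1.mul_right hc2
  refine ⟨ZMod.unitOfCoprime a hc, ?_, ?_⟩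
  · rw [ZMod.coe_unitOfCoprime, ZMod.val_natCast]
    exact ((Nat.mod_modEq a m).of_dvd (hm ▸ dvd_mul_right m1 m2)).trans ha1
  · rw [ZMod.coe_unitOfCoprime, ZMod.val_natCast]
    exact ((Nat.mod_modEq a m).of_dvd (hm ▸ dvd_mul_left m2 m1)).trans ha2

private theorem locn_one {E : Type*} [NormedField E] [IsUltrametricDist E] {x : E} {m : ℕ}
    (hx : x ^ m = 1) (hm : ‖(m : E)‖ = 1) (h : Cg x 1) : x = 1 := by
  by_contra hne
  have h1 : (x - 1) * ∑ i ∈ Finset.range m, x ^ i = 0 := by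
    rw [mul_geom_sum, hx, sub_self]
  have h2 : ∑ i ∈ Finset.range m, x ^ i = 0 :=
    (mul_eq_zero.1 h1).resolve_left (sub_ne_zero.2 hne)
  have h3 : Cg (∑ i ∈ Finset.range m, x ^ i) (∑ i ∈ Finset.range m, (1 : E)) :=
    Cg.sum _ _ _ fun i _ => by
      have := h.pow (by rw [norm_one]) i
      rwa [one_pow] at this
  rw [h2, Finset.sum_const, Finset.card_range, nsmul_eq_mul, mul_one, Cg, zero_sub, norm_neg,
    hm] at h3
  exact lt_irrefl _ h3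

theorem locN (N p : ℕ) [NeZero N] [NeZero (N * p)] [Fact p.Prime] (hpN : ¬ p ∣ N)
    (K : Type) [Field K] [NumberField K] [IsCyclotomicExtension {N * p} ℚ K]
    {E : Type} [NormedField E] [IsUltrametricDist E] [NormedAlgebra ℚ_[p] E]
    (χ : (ZMod N)ˣ →* Eˣ) (hm : ∃ m : ℕ, ¬ p ∣ m ∧ ∀ a, (χ a : E) ^ m = 1) (hprim : PrimC χ)
    (P : Ideal (𝓞 K)) (hP : P.IsPrime) (ℓ : ℕ) (hℓ : ℓ.Prime) (hℓN : ℓ ∣ N)
    (hℓP : (ℓ : 𝓞 K) ∈ P) :
    ∃ σ : Gal(K/ℚ), σ • P = P ∧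
      1 ≤ ‖(χ (ZMod.unitsMap (dvd_mul_right N p) (gq (N * p) K σ)) : E) - 1‖ := by
  have hN0 : N ≠ 0 := NeZero.ne N
  have hp : p.Prime := Fact.out
  obtain ⟨M, hM, hMχ⟩ := hm
  obtain ⟨k, N', hN', hNk⟩ := Nat.exists_eq_pow_mul_and_not_dvd hN0 ℓ hℓ.ne_one
  have hk : 0 < k := by
    rcases Nat.eq_zero_or_pos k with h | h
    · rw [h, pow_zero, one_mul] at hNk
      exact absurd (hNk ▸ hℓN) hN'
    · exact h
  have hℓne : ℓ ≠ p := fun h => hpN (h ▸ hℓN)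
  subst hNk
  have hN'0 : N' ≠ 0 := right_ne_zero_of_mul hN0
  have : NeZero N' := ⟨hN'0⟩
  have hcN' : ℓ.Coprime N' := (Nat.Prime.coprime_iff_not_dvd hℓ).2 hN'
  have hcp : ℓ.Coprime p := (Nat.coprime_primes hℓ hp).2 hℓne
  have hc : ℓ.Coprime (N' * p) := hcN'.mul_right hcp
  have hm : ℓ ^ k * N' * p = ℓ ^ k * (N' * p) := by rw [mul_assoc]
  have hpN' : ¬ p ∣ N' := fun h => hpN (Dvd.dvd.mul_left h _)
  have hN'p : N'.Coprime p := ((Nat.Prime.coprime_iff_not_dvd hp).2 hpN').symm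
  have hNcp : (ℓ ^ k * N').Coprime p := ((Nat.Prime.coprime_iff_not_dvd hp).2 hpN).symm
  have hdv : N' ∣ ℓ ^ k * N' := dvd_mul_left N' (ℓ ^ k)
  have hmap : ∀ u : (ZMod (ℓ ^ k * N' * p))ˣ,
      ((ZMod.unitsMap (dvd_mul_right (ℓ ^ k * N') p) u : (ZMod (ℓ ^ k * N'))ˣ) :
        ZMod (ℓ ^ k * N')) =
      (((u : ZMod (ℓ ^ k * N' * p)).val : ℕ) : ZMod (ℓ ^ k * N')) := by
    intro u
    rw [ZMod.unitsMap_val, ZMod.natCast_val]
  have hmap' : ∀ u : (ZMod (ℓ ^ k * N'))ˣ,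
      ((ZMod.unitsMap hdv u : (ZMod N')ˣ) : ZMod N') =
      (((u : ZMod (ℓ ^ k * N')).val : ℕ) : ZMod N') := by
    intro u
    rw [ZMod.unitsMap_val, ZMod.natCast_val]
  have hne : N' ≠ ℓ ^ k * N' := by
    intro h
    have h1 : ℓ ^ k = 1 := by
      have h2 : ℓ ^ k * N' = 1 * N' := by rw [← h, one_mul]
      exact Nat.eq_of_mul_eq_mul_right (Nat.pos_of_ne_zero hN'0) h2
    exact absurd h1 (Nat.one_lt_pow hk.ne' hℓ.one_lt).ne'
  obtain ⟨b, hb, hb2⟩ := hprim N' hdv hne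
  have hb1 : (b : ZMod (ℓ ^ k * N')).val ≡ 1 [MOD N'] := by
    rw [← ZMod.natCast_eq_natCast_iff, ← hmap', hb, Nat.cast_one, Units.val_one]
  obtain ⟨u, hu1, hu2⟩ := locn_exA (ℓ ^ k * N') p hNcp (ℓ ^ k * N' * p) rfl
    (b : ZMod (ℓ ^ k * N')).val 1 (ZMod.val_coe_unit_coprime b) (Nat.coprime_one_left _)
  have hub : ZMod.unitsMap (dvd_mul_right (ℓ ^ k * N') p) u = b := by
    apply Units.ext
    rw [hmap]
    have h1 := (ZMod.natCast_eq_natCast_iff _ _ _).2 hu1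
    rw [h1, ZMod.natCast_zmod_val]
  have hst : (gq (ℓ ^ k * N' * p) K).symm u • P = P := by
    refine stabP (ℓ ^ k * N' * p) ℓ k (N' * p) 0 hℓ hm hc K _ ?_ P hP hℓP
    rw [(gq (ℓ ^ k * N' * p) K).apply_symm_apply u, pow_zero, ← Nat.cast_one,
      ZMod.natCast_eq_natCast_iff]
    exact (Nat.modEq_and_modEq_iff_modEq_mul hN'p).1
      ⟨(hu1.of_dvd hdv).trans hb1, hu2⟩
  refine ⟨(gq (ℓ ^ k * N' * p) K).symm u, hst, ?_⟩
  rw [(gq (ℓ ^ k * N' * p) K).apply_symm_apply u, hub]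
  by_contra hcon
  have h4 : Cg (χ b : E) 1 := not_le.1 hcon
  apply hb2
  apply Units.ext
  rw [Units.val_one]
  exact locn_one (hMχ b) (locn_unitE (p := p) E hM) h4

end Pool.Agent.AAU
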