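import Pool.Agent.AAU.AbsP
import Pool.Agent.AAU.ClsOne
import Pool.Agent.AAU.LocN
import Pool.Agent.AAP.BcMain

/-!
# AAU-CoreOne: the criterion for `n = 1` and a primitive character, peu ramified at `p`

As `redCritM` and `redCoreT` with `n = 1`, `α = 1`, `β = χ`, from `absMainP` for `K = ℚ(ζ_{N p})`.
-/

open NumberField Pointwise Matrix

namespace Pool.Agent.AAU

open Pool.Agent.AAP Pool.Agent.Helper60.FM

/-- an element which fixes the roots of unity fixes `j K` -/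
private theorem coreOne_fix (m : ℕ) [NeZero m] (K : Type) [Field K] [NumberField K]
    [IsCyclotomicExtension {m} ℚ K] (j : K →+* Qb) (g : Gam) (hg : Acts m g 1) (x : K) :
    g.ap (j x) = j x := by
  let f1 : K →ₐ[ℚ] Qb := j.toRatAlgHom
  let f2 : K →ₐ[ℚ] Qb := (AlgEquiv.toAlgHom (g : GQ)).comp f1
  have h1 : f2 = f1 := by
    refine ((zt_spec m K).powerBasis ℚ).algHom_ext ?_
    rw [IsPrimitiveRoot.powerBasis_gen]
    have h2 : (j (zt m K)) ^ m = 1 := by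
      rw [← map_pow, (zt_spec m K).pow_eq_one, map_one]
    have h3 := hg _ h2
    rw [pow_one] at h3
    exact h3
  exact DFunLike.congr_fun h1 x

theorem redCoreOne (N p : ℕ) [NeZero N] [Fact p.Prime] (hp2 : 2 < p) (hpN : ¬ p ∣ N) (hN : 2 < N)
    {E : Type} [NormedField E] [IsUltrametricDist E] [CompleteSpace E] [NormedAlgebra ℚ_[p] E]
    (V : Gam →* GL2 E) (hV : Continuous V) (heven : Even2 V)
    (χ : (ZMod N)ˣ →* Eˣ) (hχ1 : (χ (-1) : E) = -1)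
    (hm : ∃ m : ℕ, ¬ p ∣ m ∧ ∀ a, (χ a : E) ^ m = 1) (hprim : PrimC χ)
    (k : ℕ) (h : SumType p 1 N 1 χ k V) (htame : TameCond p 1 N 1 χ V) (hpeu : Peu p N V)
    (hT : ‖(TT N 1 χ : E)‖ = 1) : Line V := by
  classical
  have hpp : p.Prime := Fact.out
  have hNp : NeZero (N * p) := ⟨mul_ne_zero (NeZero.ne N) hpp.ne_zero⟩
  have co : N.Coprime p := ((Nat.Prime.coprime_iff_not_dvd hpp).2 hpN).symm
  obtain ⟨K, _, _, hK, _⟩ := exists_cyc (N * p)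
  have : IsAbelianGalois ℚ K := IsCyclotomicExtension.isAbelianGalois {N * p} ℚ K
  have hNp0 : (N * p) ≠ 0 := NeZero.ne _
  let j : K →+* Qb := (IsAlgClosed.lift : K →ₐ[ℚ] Qb).toRingHom
  obtain ⟨t, ht⟩ := teich p E
  let A : Gal(K/ℚ) →* (ZMod N)ˣ :=
    (ZMod.unitsMap (dvd_mul_right N p)).comp (gq (N * p) K).toMonoidHom
  let B : Gal(K/ℚ) →* (ZMod p)ˣ :=
    (ZMod.unitsMap (dvd_mul_left p N)).comp (gq (N * p) K).toMonoidHom
  have hA : ∀ σ, A σ = ZMod.unitsMap (dvd_mul_right N p) (gq (N * p) K σ) := fun _ => rfl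
  have hB : ∀ σ, B σ = ZMod.unitsMap (dvd_mul_left p N) (gq (N * p) K σ) := fun _ => rfl
  let ω : Gal(K/ℚ) → ℕ := fun σ => ((B σ : (ZMod p)ˣ) : ZMod p).val
  have hωv : ∀ σ, ω σ = ((gq (N * p) K σ : (ZMod (N * p))ˣ) : ZMod (N * p)).val % p := by
    intro σ
    change ((B σ : (ZMod p)ˣ) : ZMod p).val = _
    rw [hB, val_unitsMap]
  have hζ : IsPrimitiveRoot (zt (N * p) K ^ N) p :=
    (zt_spec (N * p) K).pow (Nat.pos_of_ne_zero hNp0) rfl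
  have hω : ∀ σ : Gal(K/ℚ), σ (zt (N * p) K ^ N) = (zt (N * p) K ^ N) ^ ω σ := by
    intro σ
    rw [gq_pow, hωv]
    conv_lhs => rw [← Nat.div_add_mod ((gq (N * p) K σ : (ZMod (N * p))ˣ) : ZMod (N * p)).val p,
      pow_add, pow_mul, hζ.pow_eq_one, one_pow, one_mul]
  -- norms
  have hp1 : ‖(p : E)‖ < 1 := (norm_natCast_lt_one_iff (p := p) p).2 dvd_rfl
  have hωn : ∀ σ, ‖(ω σ : E)‖ = 1 := by
    intro σ
    apply norm_natCast_eq_one (p := p)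
    intro h
    have h1 : ω σ < p := ZMod.val_lt _
    have h2 : ω σ = 0 := Nat.eq_zero_of_dvd_of_lt h h1
    have h3 : ((B σ : (ZMod p)ˣ) : ZMod p) = 0 := (ZMod.val_eq_zero _).1 h2
    exact (B σ).ne_zero h3
  have htω : ∀ σ, Cg (t (B σ) : E) (ω σ) := fun σ => ht (B σ)
  have hωone : ∀ σ, ‖(ω σ : E)‖ ≤ 1 := fun σ => (hωn σ).le
  have htn : ∀ σ, ‖(t (B σ) : E)‖ = 1 := fun σ => norm_chi t _
  have hχn : ∀ a, ‖(χ a : E)‖ = 1 := fun a => norm_chi χ _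
  let χ₁ : Gal(K/ℚ) →* Eˣ := (χ.comp A) * (t.comp B) ^ (1 + k)
  let χ₂ : Gal(K/ℚ) →* Eˣ := (t.comp B) ^ k
  have hχ₁ : ∀ σ, (χ₁ σ : E) = χ (A σ) * (t (B σ) : E) ^ (1 + k) := by
    intro σ
    change (((χ.comp A) σ * ((t.comp B) ^ (1 + k)) σ : Eˣ) : E) = _
    rw [Units.val_mul, MonoidHom.pow_apply, Units.val_pow_eq_pow_val]
    rfl
  have hχ₂ : ∀ σ, (χ₂ σ : E) = (t (B σ) : E) ^ k := by
    intro σ
    change (((t.comp B) ^ k) σ : E) = _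
    rw [MonoidHom.pow_apply, Units.val_pow_eq_pow_val]
    rfl
  -- residual trace
  have htr : ∀ (g : GQ) (σ : Gal(K/ℚ)), (∀ x, j (σ x) = g (j x)) →
      ‖trc V g - χ₁ σ - χ₂ σ‖ < 1 := by
    intro g σ hg
    have h1 := acts (N * p) K j g σ hg N (dvd_mul_right N p)
    have h2 := acts (N * p) K j g σ hg p (dvd_mul_left p N)
    have h3 : Cg (trc V g) ((ω σ : E) ^ k * (((1 : (ZMod N)ˣ →* Eˣ) (A σ) : Eˣ) +
      χ (A σ) * (ω σ : E) ^ 1)) := h g (A σ) (ω σ) h1 h2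
    have h4 : Cg (trc V g) (χ₁ σ + χ₂ σ) := by
      refine Cg.trans h3 ?_
      have e1 : (ω σ : E) ^ k * (((1 : (ZMod N)ˣ →* Eˣ) (A σ) : Eˣ) + χ (A σ) * (ω σ : E) ^ 1) =
        χ (A σ) * (ω σ : E) ^ (1 + k) + (ω σ : E) ^ k := by
        rw [MonoidHom.one_apply, Units.val_one]
        ring
      rw [e1, hχ₁, hχ₂]
      refine Cg.add (Cg.mul Cg.rfl ?_ (hχn _).le ?_) ?_
      · exact ((htω σ).pow (hωone σ) _).symm
      · rw [norm_pow, htn, one_pow]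
      · exact ((htω σ).pow (hωone σ) _).symm
    rw [Cg, ← sub_sub] at h4
    exact h4
  let S : Set ℕ := {ℓ | ℓ.Prime ∧ ℓ ∣ N * p} ∪ {ℓ | ℓ.Prime ∧ ¬ ℓ ∣ N * p ∧
    ∃ a : (ZMod N)ˣ, (a : ZMod N) = ℓ ∧ 1 ≤ ‖(χ a : E) - 1‖}
  refine absMainP N p (by omega) hpN K j (zt (N * p) K ^ N) hζ ω hω χ₁ χ₂ S V ?_ ?_ ?_ ?_ hV htr
    ?_ heven
  · -- decomposition groups
    rintro P hP hP0 ⟨ℓ, hℓS, hℓp, hℓP⟩
    have key : ∃ σ : Gal(K/ℚ), σ • P = P ∧ 1 ≤ ‖(χ (A σ) : E) - 1‖ := by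
      rcases hℓS with ⟨hℓ, hd⟩ | ⟨hℓ, hd, a, ha, ha1⟩
      · have hℓN : ℓ ∣ N := by
          rcases (Nat.Prime.dvd_mul hℓ).1 hd with h1 | h1
          · exact h1
          · exact absurd ((Nat.prime_dvd_prime_iff_eq hℓ hpp).1 h1) hℓp
        exact locN N p hpN K χ hm hprim P hP ℓ hℓ hℓN hℓP
      · obtain ⟨σ, hσ, hσ1⟩ := locFrob 1 N p 1 χ ℓ hℓ hd a ha (by
          rw [Nat.sub_self, pow_zero, mul_one, MonoidHom.one_apply, Units.val_one]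
          exact ha1) K P hP hℓP
        refine ⟨σ, hσ, ?_⟩
        rw [Nat.sub_self, pow_zero, mul_one, MonoidHom.div_apply, MonoidHom.one_apply,
          div_one] at hσ1
        exact hσ1
    obtain ⟨σ, hσ, hσ1⟩ := key
    refine ⟨σ, hσ, ?_⟩
    by_contra hcon
    push Not at hcon
    rw [← not_lt] at hσ1
    apply hσ1
    have h2 : Cg ((ω σ : E) * χ₂ σ) (χ₁ σ) := hcon
    set x : E := (t (B σ) : E) with hx
    have hx0 : x ≠ 0 := Units.ne_zero _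
    have h3 : Cg (x * χ₂ σ) (χ₁ σ) := by
      refine Cg.trans (Cg.mul (htω σ) Cg.rfl (hωone σ) ?_) h2
      exact (norm_chi χ₂ σ).le
    rw [hχ₁, hχ₂] at h3
    have h4 : Cg ((x * x ^ k) * (x * x ^ k)⁻¹) ((χ (A σ) * x ^ (1 + k)) * (x * x ^ k)⁻¹) := by
      refine Cg.mul h3 Cg.rfl ?_ ?_
      · rw [norm_mul, norm_pow, htn, hχn]
        norm_num
      · rw [norm_inv, norm_mul, norm_pow, htn]
        norm_num
    have hne : x * x ^ k ≠ 0 := mul_ne_zero hx0 (pow_ne_zero _ hx0)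
    rw [mul_inv_cancel₀ hne] at h4
    have h5 : (χ (A σ) * x ^ (1 + k)) * (x * x ^ k)⁻¹ = (χ (A σ) : E) := by
      rw [pow_add, pow_one, mul_assoc, mul_inv_cancel₀ hne, mul_one]
    rw [h5] at h4
    exact h4.symm
  · -- the reductions are peu ramifiees
    rintro A' hA' β hβ ⟨a, ha⟩ hfix
    refine hpeu A' hA' β hβ (fun g hg => ?_) fun g hg htriv => ?_
    · rw [ha]
      exact coreOne_fix (N * p) K j g hg a
    · exact hfix g (fun x => coreOne_fix (N * p) K j g hg x) htriv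
  · -- the class group
    intro 𝔞 h𝔞 h𝔞p hrel
    refine clsOne N p hpN hN K χ hχ1 hT (fun σ => (ω σ : E) * (χ₂ σ * (χ₁ σ)⁻¹ : Eˣ)) ?_ 𝔞 h𝔞 h𝔞p
      hrel
    intro σ
    change Cg ((ω σ : E) * (χ₂ σ * (χ₁ σ)⁻¹ : Eˣ)) (χ (A σ)⁻¹ : E)
    have hq : ‖(((χ₂ σ * (χ₁ σ)⁻¹ : Eˣ)) : E)‖ = 1 := by
      rw [← map_inv, Units.val_mul, norm_mul, norm_chi, norm_chi, one_mul]
    have e1 : Cg ((ω σ : E) * (χ₂ σ * (χ₁ σ)⁻¹ : Eˣ)) ((t (B σ) : E) * (χ₂ σ * (χ₁ σ)⁻¹ : Eˣ)) :=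
      Cg.mul (htω σ).symm Cg.rfl (htn σ).le hq.le
    have e2 : (t (B σ) : E) * (χ₂ σ * (χ₁ σ)⁻¹ : Eˣ) = (χ (A σ)⁻¹ : E) := by
      have e3 : (((χ₁ σ)⁻¹ : Eˣ) : E) = (χ₁ σ : E)⁻¹ := Units.val_inv_eq_inv_val _
      rw [Units.val_mul, e3, hχ₁, hχ₂, map_inv, Units.val_inv_eq_inv_val]
      have hx0 : (t (B σ) : E) ≠ 0 := Units.ne_zero _
      have hχ0 : (χ (A σ) : E) ≠ 0 := Units.ne_zero _
      rw [pow_add, pow_one]
      field_simp
    rw [e2] at e1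
    exact e1
  · -- distinct characters
    obtain ⟨u, hu1, hu2⟩ := exists_unit N p co 1 (p - 1) (Nat.coprime_one_left _)
      (by
        have h1 : (p - 1).Coprime (p - 1 + 1) := by simp
        rwa [Nat.sub_add_cancel hpp.one_le] at h1)
    obtain ⟨σ, hσ⟩ := (gq (N * p) K).surjective u
    have hAσ : A σ = 1 := by
      rw [hA, hσ]
      apply Units.ext
      rw [ZMod.unitsMap_val, ← ZMod.natCast_val, hu1, Nat.cast_one, Units.val_one]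
    have hωσ : ω σ = p - 1 := by
      have h1 : ((B σ : (ZMod p)ˣ) : ZMod p) = ((p - 1 : ℕ) : ZMod p) := by
        rw [hB, hσ, ZMod.unitsMap_val, ← ZMod.natCast_val, hu2]
      change ((B σ : (ZMod p)ˣ) : ZMod p).val = p - 1
      rw [h1, ZMod.val_natCast, Nat.mod_eq_of_lt (Nat.sub_lt hpp.pos one_pos)]
    refine ⟨σ, ?_⟩
    by_contra hcon
    push Not at hcon
    have h2 : Cg (χ₁ σ : E) (χ₂ σ) := hcon
    set x : E := (t (B σ) : E) with hx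
    have hx0 : x ≠ 0 := Units.ne_zero _
    rw [hχ₁, hχ₂, hAσ, map_one, Units.val_one, one_mul] at h2
    have h3 : Cg (x ^ (1 + k) * (x ^ k)⁻¹) (x ^ k * (x ^ k)⁻¹) := by
      refine Cg.mul h2 Cg.rfl ?_ ?_
      · rw [norm_pow, htn, one_pow]
      · rw [norm_inv, norm_pow, htn]
        norm_num
    have hne : x ^ k ≠ 0 := pow_ne_zero _ hx0
    rw [pow_add, pow_one, mul_assoc, mul_inv_cancel₀ hne, mul_one] at h3
    have h4 : Cg ((p - 1 : ℕ) : E) 1 := by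
      have h5 := htω σ
      rw [hωσ] at h5
      exact h5.symm.trans h3
    have h5 : ‖((p - 2 : ℕ) : E)‖ < 1 := by
      have h6 : ((p - 2 : ℕ) : E) = ((p - 1 : ℕ) : E) - 1 := by
        have h7 : p - 1 = (p - 2) + 1 := by omega
        rw [h7, Nat.cast_add, Nat.cast_one, add_sub_cancel_right]
      rw [h6]
      exact h4
    rw [norm_natCast_lt_one_iff (p := p)] at h5
    have h6 := Nat.le_of_dvd (by omega) h5
    omega
  · -- unramified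
    intro ℓ hℓ hℓS
    rw [Set.mem_union, not_or] at hℓS
    obtain ⟨h1, h2⟩ := hℓS
    have h1' : ¬ ℓ ∣ N * p := fun hd => h1 ⟨hℓ, hd⟩
    have hℓN : ℓ.Coprime N := (Nat.Prime.coprime_iff_not_dvd hℓ).2
      fun h => h1' (h.mul_right p)
    have hℓp : ℓ ≠ p := by
      rintro rfl
      exact h1' (dvd_mul_left _ _)
    have h3 : ‖(χ (ZMod.unitOfCoprime ℓ hℓN) : E) - 1‖ < 1 := by
      by_contra hcon
      rw [not_lt] at hcon
      exact h2 ⟨hℓ, h1', _, ZMod.coe_unitOfCoprime ℓ hℓN, hcon⟩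
    have h4 : TameAt p ℓ V := by
      refine htame ℓ _ hℓ hℓp (ZMod.coe_unitOfCoprime ℓ hℓN) ?_
      rw [Equ, Nat.sub_self, pow_zero, mul_one, MonoidHom.one_apply, Units.val_one]
      exact h3
    refine unramAt_of_pt (old V) ℓ ?_
    intro 𝔓 hP hℓP g hg
    obtain ⟨m, hm, hmV⟩ := h4 𝔓 hP hℓP g ((iner_iff 𝔓 (g : Gam)).2 hg)
    refine one_of_tame 1 N p hp2 (old V) ⟨1, χ, k, h⟩ 𝔓 hP ?_ g hg m hm hmV
    intro hmem
    have h4 : IsCoprime (ℓ : ℤ) ((N * p : ℕ) : ℤ) := Nat.isCoprime_iff_coprime.mpr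
      ((Nat.Prime.coprime_iff_not_dvd hℓ).mpr h1')
    obtain ⟨a, b, hab⟩ := h4
    have h5 : (1 : ZQ) ∈ 𝔓 := by
      have h6 : (1 : ZQ) = (a : ZQ) * (ℓ : ZQ) + (b : ZQ) * ((N * p : ℕ) : ZQ) := by
        exact_mod_cast congrArg (fun z : ℤ => (z : ZQ)) hab.symm
      rw [h6]
      exact Ideal.add_mem 𝔓 (Ideal.mul_mem_left 𝔓 _ hℓP) (Ideal.mul_mem_left 𝔓 _ hmem)
    exact hP.ne_top ((Ideal.eq_top_iff_one 𝔓).mpr h5)

end Pool.Agent.AAU
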