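import Pool.Agent.AAP.UPow

/-!
# Powers of units are `e`-th powers modulo a ramified prime, with exponent at most `h`

The proof of `upow` in `AAP/UPow.lean` with `m` the index of the norms in the invariant units, in
place of the factorial of the class number.
-/

open NumberField Nat

namespace Pool.Agent.AAU

open Pool.Agent.AAP

theorem upowB (F L : Type) [Field F] [NumberField F] [Field L] [NumberField L] [Algebra F L]
    [IsGalois F L] [IsTotallyReal L] (σ : Gal(L/F)) (hσ : ∀ τ, τ ∈ Subgroup.zpowers σ)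
    (v : Ideal (𝓞 F)) (hv : v.IsPrime) (hv0 : v ≠ ⊥)
    (hunr : ∀ w : Ideal (𝓞 L), w.IsPrime → w ≠ ⊥ → w.under (𝓞 F) ≠ v →
      Ideal.inertia Gal(L/F) w = ⊥)
    (e : ℕ) (he : ∀ w : Ideal (𝓞 L), w.IsPrime → w.under (𝓞 F) = v →
      Nat.card (Ideal.inertia Gal(L/F) w) = e) (w : Ideal (𝓞 L)) (hw : w.IsPrime)
    (hwv : w.under (𝓞 F) = v) (ε : (𝓞 F)ˣ) :
    ∃ (m : ℕ) (ξ : 𝓞 F), 0 < m ∧ m ≤ classNumber F ∧
      Ideal.Quotient.mk v ((ε : 𝓞 F) ^ m) = Ideal.Quotient.mk v ξ ^ e := by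
  classical
  have hab : ∀ σ' τ : Gal(L/F), σ' * τ = τ * σ' := by
    intro a b
    obtain ⟨i, rfl⟩ := hσ a
    obtain ⟨j, rfl⟩ := hσ b
    simp only [← zpow_add, add_comm]
  obtain ⟨h1, h2, h3⟩ := herb F L σ hσ _ rfl
  have h4 := amb F L σ hσ _ rfl v hv hv0 hunr e he h2
  set d := Nat.card Gal(L/F) with hd
  set S := (nm (ua F L σ) d).range.relIndex (dv (ua F L σ)).ker with hS
  have hed : e ≤ d := by
    rw [← he w hw hwv]
    exact Subgroup.card_le_card_group _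
  have hd0 : 0 < d := Nat.card_pos
  have hSh : S ≤ classNumber F := by
    rw [h1] at h4
    have h5 : S * d ≤ classNumber F * d := h4.trans (Nat.mul_le_mul_left _ hed)
    exact Nat.le_of_mul_le_mul_right h5 hd0
  -- the unit of L
  let u : (𝓞 L)ˣ := Units.map (algebraMap (𝓞 F) (𝓞 L)).toMonoidHom ε
  have hu : u ∈ (dv (ua F L σ)).ker := by
    rw [MonoidHom.mem_ker]
    change ua F L σ u / u = 1
    rw [div_eq_one]
    ext
    rw [ua_apply]
    have h6 : σ • algebraMap (𝓞 F) (𝓞 L) (ε : 𝓞 F) = algebraMap (𝓞 F) (𝓞 L) (ε : 𝓞 F) :=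
      smul_algebraMap σ (ε : 𝓞 F)
    exact congrArg (algebraMap (𝓞 L) L) h6
  have h7 : u ^ S ∈ (nm (ua F L σ) d).range := by
    have h8 : (⟨u, hu⟩ : (dv (ua F L σ)).ker) ^ S ∈
        ((nm (ua F L σ) d).range.subgroupOf (dv (ua F L σ)).ker) :=
      Subgroup.pow_index_mem _ _
    exact h8
  obtain ⟨η, hη⟩ := h7
  obtain ⟨ξ, hξ⟩ := nred F L hab v hv hv0 w hw hwv e (he w hw hwv)
    ((ε : 𝓞 F) ^ S) (η : 𝓞 L) (by
      rw [← prod_zpowers σ hσ d hd (fun τ => τ • (η : 𝓞 L))]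
      have h10 := congrArg (fun z : (𝓞 L)ˣ => (z : 𝓞 L)) hη
      simp only [Units.val_pow_eq_pow_val] at h10
      rw [map_pow]
      refine h10.symm.trans ?_
      change ((∏ i ∈ Finset.range d, ((ua F L σ) ^ i) η : (𝓞 L)ˣ) : 𝓞 L) = _
      rw [Units.coe_prod]
      refine Finset.prod_congr rfl fun i _ => ?_
      rw [← map_pow, ua_apply])
  exact ⟨S, ξ, Nat.pos_of_ne_zero h3, hSh, hξ⟩

end Pool.Agent.AAU
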