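import Pool.Agent.AAP.CycA
import Pool.Agent.AAP.Lift
import Pool.Agent.AAU.UPowB

/-!
# Powers of units and cyclic quotients of `Gal(Qb/F)`, with exponent at most `h`

The proof of `cycB` in `AAP/CycB.lean` with `upowB` in place of `upow`.
-/

open NumberField Pointwise Nat

namespace Pool.Agent.AAU

open Pool.Agent.AAP

open Pool.Agent.Helper60.FM

/-- the map to the ring of all algebraic integers -/
private noncomputable def cbZ {L : Type} [Field L] [NumberField L] (j : L →+* Qb) :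
    𝓞 L →+* ZQ :=
  (j.comp (algebraMap (𝓞 L) L)).codRestrict (integralClosure ℤ Qb).toSubring
    (fun x => by
      have h : IsIntegral ℤ ((x : L)) := x.2
      exact h.map j.toIntAlgHom)

private theorem cbZ_coe {L : Type} [Field L] [NumberField L] (j : L →+* Qb) (x : 𝓞 L) :
    ((cbZ j x : ZQ) : Qb) = j (x : L) := rfl

private theorem cbZ_surj {L : Type} [Field L] [NumberField L] (j : L →+* Qb) (z : ZQ) (y : L)
    (h : j y = (z : Qb)) : ∃ x : 𝓞 L, cbZ j x = z := by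
  have h1 : IsIntegral ℤ (z : Qb) := z.2
  have h2 : IsIntegral ℤ y := by
    rw [← h] at h1
    exact (isIntegral_algHom_iff j.toIntAlgHom j.injective).1 h1
  refine ⟨⟨y, h2⟩, ?_⟩
  apply Subtype.ext
  rw [cbZ_coe]
  exact h

private theorem cb_smul_coe (g : GQ) (x : ZQ) : ((g • x : ZQ) : Qb) = g (x : Qb) := rfl

private theorem cb_smul_coeL {F L : Type} [Field F] [NumberField F] [Field L] [NumberField L]
    [Algebra F L] (σ : Gal(L/F)) (x : 𝓞 L) : ((σ • x : 𝓞 L) : L) = σ (x : L) := rfl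

private theorem cb_card {F L : Type} [Field F] [NumberField F] [Field L] [NumberField L]
    [Algebra F L] [IsGalois F L] (v : Ideal (𝓞 F)) (w w' : Ideal (𝓞 L)) (hw : w.IsPrime)
    (hw' : w'.IsPrime) (h : w.under (𝓞 F) = v) (h' : w'.under (𝓞 F) = v) :
    Nat.card (Ideal.inertia Gal(L/F) w') = Nat.card (Ideal.inertia Gal(L/F) w) := by
  obtain ⟨g, hg⟩ := Algebra.IsInvariant.exists_smul_of_under_eq (𝓞 F) (𝓞 L) Gal(L/F) w w'
    (h.trans h'.symm)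
  symm
  refine Nat.card_congr ((MulAut.conj g).toEquiv.subtypeEquiv fun σ => ?_)
  subst hg
  change σ ∈ Ideal.inertia Gal(L/F) w ↔ g * σ * g⁻¹ ∈ Ideal.inertia Gal(L/F) (g • w)
  constructor
  · intro hσ x
    have h1 : σ • (g⁻¹ • x) - g⁻¹ • x ∈ w := hσ (g⁻¹ • x)
    have h2 : g • (σ • (g⁻¹ • x) - g⁻¹ • x) ∈ g • w := Ideal.smul_mem_pointwise_smul g _ w h1
    rw [smul_sub, smul_inv_smul] at h2
    change (g * σ * g⁻¹) • x - x ∈ g • w
    rw [mul_smul, mul_smul]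
    exact h2
  · intro hσ x
    have h1 : (g * σ * g⁻¹) • (g • x) - g • x ∈ g • w := hσ (g • x)
    rw [mul_smul, mul_smul, inv_smul_smul, ← smul_sub] at h1
    exact (Ideal.smul_mem_pointwise_smul_iff (a := g)).1 h1

theorem cycC (F : IntermediateField ℚ Qb) [FiniteDimensional ℚ F] (H₁ : Subgroup GQ)
    (hopen : IsOpen (H₁ : Set GQ)) (hle : H₁ ≤ F.fixingSubgroup)
    (hnorm : ∀ h ∈ F.fixingSubgroup, ∀ k ∈ H₁, h * k * h⁻¹ ∈ H₁)
    (hcc : ∀ c, IsCC c → c ∈ H₁) (h₀ : GQ) (h₀F : h₀ ∈ F.fixingSubgroup)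
    (hcyc : ∀ h ∈ F.fixingSubgroup, ∃ i : ℕ, h₀ ^ i * h ∈ H₁)
    (v : Ideal (𝓞 F)) (hv : v.IsPrime) (hv0 : v ≠ ⊥)
    (hIn : ∀ 𝔓 : Ideal ZQ, 𝔓.IsPrime → ¬ Over F 𝔓 v → ∀ g ∈ In 𝔓, g ∈ F.fixingSubgroup → g ∈ H₁)
    (𝔓₀ : Ideal ZQ) (hP₀ : 𝔓₀.IsPrime) (hov : Over F 𝔓₀ v) (τ : GQ) (hτ : τ ∈ In 𝔓₀)
    (hτF : τ ∈ F.fixingSubgroup) (k : ℕ)
    (hk : ∀ i : ℕ, τ ^ i ∈ H₁ → Nat.card (𝓞 F ⧸ v) - 1 ∣ i * k) (ε : (𝓞 F)ˣ) :
    ∃ m : ℕ, 0 < m ∧ m ≤ classNumber F ∧ (ε : 𝓞 F) ^ (m * k) - 1 ∈ v := by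
  obtain ⟨L, _, _, _, _, _, j, ρ, hsur, hρ, hker, hjF, hfix⟩ := cycA F H₁ hopen hle hnorm hcc
  have hρZ : ∀ (h : F.fixingSubgroup) (x : 𝓞 L), cbZ j (ρ h • x) = (h : GQ) • cbZ j x := by
    intro h x
    apply Subtype.ext
    rw [cbZ_coe, cb_smul_coe, cbZ_coe, cb_smul_coeL]
    exact hρ h x
  have hFZ : ∀ x : 𝓞 F, cbZ j (algebraMap (𝓞 F) (𝓞 L) x) = toZ F x := by
    intro x
    apply Subtype.ext
    rw [cbZ_coe, coe_toZ]
    exact hjF x
  have hinj : Function.Injective (cbZ j) := by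
    intro x y hxy
    have h1 := congrArg (fun z : ZQ => (z : Qb)) hxy
    exact RingOfIntegers.ext (j.injective h1)
  have hovw : ∀ (𝔓 : Ideal ZQ), 𝔓.IsPrime →
      (Over F 𝔓 v ↔ (𝔓.comap (cbZ j)).under (𝓞 F) = v) := by
    intro 𝔓 _
    constructor
    · intro h
      ext x
      rw [Ideal.under_def, Ideal.mem_comap, Ideal.mem_comap, hFZ]
      exact h x
    · intro h x
      rw [← h, Ideal.under_def, Ideal.mem_comap, Ideal.mem_comap, hFZ]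
  -- the generator
  have hσ : ∀ τ', τ' ∈ Subgroup.zpowers (ρ ⟨h₀, h₀F⟩) := by
    intro τ'
    obtain ⟨h, rfl⟩ := hsur τ'
    obtain ⟨i, hi⟩ := hcyc h h.2
    have h1 : ρ (⟨h₀, h₀F⟩ ^ i * h) = 1 := by
      rw [hker]
      exact hi
    rw [map_mul, map_pow] at h1
    rw [Subgroup.mem_zpowers_iff]
    refine ⟨-(i : ℤ), ?_⟩
    rw [zpow_neg, zpow_natCast]
    exact inv_eq_of_mul_eq_one_right h1
  -- the prime of `L`
  set w : Ideal (𝓞 L) := 𝔓₀.comap (cbZ j) with hw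
  have hwp : w.IsPrime := Ideal.IsPrime.comap _
  have hwv : w.under (𝓞 F) = v := (hovw 𝔓₀ hP₀).1 hov
  have hunr : ∀ w' : Ideal (𝓞 L), w'.IsPrime → w' ≠ ⊥ → w'.under (𝓞 F) ≠ v →
      Ideal.inertia Gal(L/F) w' = ⊥ := by
    intro w' hw' _ hne
    rw [eq_bot_iff]
    intro σ' hσ'
    rw [Subgroup.mem_bot]
    obtain ⟨𝔓, hP, hc⟩ : ∃ 𝔓 : Ideal ZQ, 𝔓.IsPrime ∧ 𝔓.comap (cbZ j) = w' := by
      let _ := (cbZ j).toAlgebra
      haveI : Algebra.IsIntegral (𝓞 L) ZQ := by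
        constructor
        intro z
        have h1 : IsIntegral ℤ z := Algebra.IsIntegral.isIntegral z
        exact h1.tower_top
      obtain ⟨Q, _, hQ, hQ'⟩ := Ideal.exists_ideal_over_prime_of_isIntegral w' (⊥ : Ideal ZQ) (by
        intro x hx
        have h1 : cbZ j x = 0 := hx
        have h2 : x = 0 := hinj (h1.trans (map_zero _).symm)
        rw [h2]
        exact w'.zero_mem)
      exact ⟨Q, hQ, hQ'⟩
    obtain ⟨h, rfl⟩ := hsur σ'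
    obtain ⟨k', hk', hkI⟩ := lift_inertia H₁ (Subgroup.isClosed_of_isOpen H₁ hopen) 𝔓 hP h
      (fun k hk => hnorm h h.2 k hk)
      (fun k hk => by
        have h1 := hnorm (h : GQ)⁻¹ (inv_mem h.2) k hk
        rwa [inv_inv] at h1)
      (fun x hx => by
        obtain ⟨y, hy⟩ := hfix (x : Qb) (fun k hk => congrArg (fun z : ZQ => (z : Qb)) (hx k hk))
        obtain ⟨y', rfl⟩ := cbZ_surj j x y hy
        rw [← hρZ, ← map_sub]
        have h1 : ρ h • y' - y' ∈ w' := hσ' y'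
        rw [← hc] at h1
        exact h1)
    have h2 : (h : GQ) * k' ∈ H₁ := hIn 𝔓 hP
      (fun ho => hne (by rw [← hc]; exact (hovw 𝔓 hP).1 ho)) _ hkI
      (mul_mem h.2 (hle hk'))
    rw [hker]
    have h3 := mul_mem h2 (inv_mem hk')
    rwa [mul_inv_cancel_right] at h3
  obtain ⟨m, ξ, hm0, hmh, hξ⟩ := upowB F L (ρ ⟨h₀, h₀F⟩) hσ v hv hv0 hunr
    (Nat.card (Ideal.inertia Gal(L/F) w)) (fun w' hw' hw'v => cb_card v w w' hwp hw' hwv hw'v)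
    w hwp hwv ε
  set e := Nat.card (Ideal.inertia Gal(L/F) w) with he
  have he0 : 0 < e := Nat.card_pos
  have hτw : ρ ⟨τ, hτF⟩ ∈ Ideal.inertia Gal(L/F) w := by
    intro y
    change ρ ⟨τ, hτF⟩ • y - y ∈ w
    rw [hw, Ideal.mem_comap, map_sub, hρZ]
    exact hτ (cbZ j y)
  have hτe : τ ^ e ∈ H₁ := by
    have h1 : (⟨ρ ⟨τ, hτF⟩, hτw⟩ : Ideal.inertia Gal(L/F) w) ^ e = 1 := pow_card_eq_one'
    have h2 : ρ ⟨τ, hτF⟩ ^ e = 1 := congrArg Subtype.val h1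
    rw [← map_pow, hker] at h2
    exact h2
  obtain ⟨c, hc⟩ := hk e hτe
  haveI hvm : v.IsMaximal := hv.isMaximal hv0
  letI : Field (𝓞 F ⧸ v) := Ideal.Quotient.field v
  haveI : Finite (𝓞 F ⧸ v) := Ring.HasFiniteQuotients.finiteQuotient hv0
  have hξ0 : Ideal.Quotient.mk v ξ ≠ 0 := by
    intro h0
    rw [h0, zero_pow he0.ne'] at hξ
    have h1 : IsUnit (Ideal.Quotient.mk v ((ε : 𝓞 F) ^ m)) :=
      (ε.isUnit.pow _).map _
    rw [hξ] at h1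
    exact not_isUnit_zero h1
  have hq : Ideal.Quotient.mk v ξ ^ (Nat.card (𝓞 F ⧸ v) - 1) = 1 := by
    letI := Fintype.ofFinite (𝓞 F ⧸ v)
    rw [Nat.card_eq_fintype_card]
    exact FiniteField.pow_card_sub_one_eq_one _ hξ0
  refine ⟨m, hm0, hmh, ?_⟩
  have hfin : Ideal.Quotient.mk v ((ε : 𝓞 F) ^ (m * k)) = 1 := by
    rw [pow_mul, map_pow, hξ, ← pow_mul, hc, pow_mul, hq, one_pow]
  rw [← Ideal.Quotient.eq, map_one]
  exact hfin

end Pool.Agent.AAU
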