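import Pool.Agent.AAU.DefsU
import Pool.Agent.AAP.StmtB

/-!
# Even Galois representations of weight one: the discriminant bound at `p`
-/

open Matrix

namespace Pool.Agent.AAU

open Pool.Agent.AAP Pool.Agent.EDV Pool.Agent.Helper60.FM

section

variable {E : Type} [NormedField E]

/-- `A V A⁻¹` has integral entries, in other words the lattice with basis given by `A` is stable -/
def IntConj (A : GL2 E) (V : Gam →* GL2 E) : Prop :=
  ∀ g i j, ‖(A * V g * A⁻¹).mat i j‖ ≤ 1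

/-- `g` acts trivially on the reduction of the lattice given by `A` -/
def TrivRed (A : GL2 E) (V : Gam →* GL2 E) (g : Gam) : Prop :=
  ∀ i j, Equ ((A * V g * A⁻¹).mat i j) ((1 : Matrix (Fin 2) (Fin 2) E) i j)

/-- Fontaine's bound: for every stable lattice, the number field `M` cut out by its reduction has
a discriminant with `p`-adic valuation less than `[M : ℚ] p / (p - 1)` -/
def DiscType (p : ℕ) (V : Gam →* GL2 E) : Prop :=
  ∀ A : GL2 E, IntConj A V → ∀ (M : IntermediateField ℚ Qbar) [NumberField M],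
    (∀ g : Gam, (∀ x ∈ M, g.ap x = x) ↔ TrivRed A V g) →
      ¬ (p : ℤ) ^ (p * Module.finrank ℚ M) ∣ NumberField.discr M ^ (p - 1)

/-- weight one: the semisimple reduction of `V` is `ω ^ j ⊗ (α ⊕ β ω)` with `α`, `β` characters
modulo `N` and `ω` the cyclotomic character modulo `p`, and at every prime `ℓ`, either `ℓ ≠ p` and
`V` is `TameAt ℓ`, or `ℓ = p` and `V` is `DiscType p`, or `β ≢ α` on the decomposition group of
`ℓ` -/
def ReducibleB (p N : ℕ) (V : Gam →* GL2 E) : Prop :=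
  ∃ (α β : (ZMod N)ˣ →* Eˣ) (j : ℕ), SumType p 1 N α β j V ∧
    ∀ ℓ : ℕ, ℓ.Prime → (ℓ ≠ p ∧ TameAt p ℓ V) ∨ (ℓ = p ∧ DiscType p V) ∨
      ∃ u : (ZMod N)ˣ, DecL ℓ N u ∧ ¬ Equ (β u : E) (α u)

/-- `β ^ (p - 1)` is at the primes above `p` a unit times a power of `p` -/
def PU (p : ℕ) (β : Qbar) : Prop :=
  ∀ 𝔓 : Ideal AI, 𝔓.IsPrime → (p : AI) ∈ 𝔓 → ∃ (k : ℤ) (a b : AI), a ∉ 𝔓 ∧ b ∉ 𝔓 ∧
    β ^ (p - 1) * (p : Qbar) ^ k * a.val = b.val

/-- the reductions of `V` are peu ramifiées over `ℚ(ζ_{N p})` -/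
def Peu (p N : ℕ) (V : Gam →* GL2 E) : Prop :=
  ∀ A : GL2 E, IntConj A V → ∀ β : Qbar, β ≠ 0 →
    (∀ g, Acts (N * p) g 1 → g.ap (β ^ p) = β ^ p) →
      (∀ g, Acts (N * p) g 1 → TrivRed A V g → g.ap β = β) → PU p β

end

end Pool.Agent.AAU
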