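import Pool.Agent.AAP.Stmt3
import Pool.Agent.EDV.Defs

/-!
# Even Galois representations at almost all primes, uniform in the level: definitions
-/

open Matrix

namespace Pool.Agent.AAU

open Pool.Agent.AAP Pool.Agent.EDV

variable {E : Type} [NormedField E]

/-- weight one: the semisimple reduction of `V` is `ω ^ j ⊗ (α ⊕ β ω)` with `α`, `β` characters
modulo `N` and `ω` the cyclotomic character modulo `p`, and at every prime `ℓ`, either `ℓ ≠ p` and
`V` is `TameAt ℓ`, or `β ≢ α` on the decomposition group of `ℓ` -/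
def ReducibleOne (p N : ℕ) (V : Gam →* GL2 E) : Prop :=
  ∃ (α β : (ZMod N)ˣ →* Eˣ) (j : ℕ), SumType p 1 N α β j V ∧
    ∀ ℓ : ℕ, ℓ.Prime → (ℓ ≠ p ∧ TameAt p ℓ V) ∨
      ∃ u : (ZMod N)ˣ, DecL ℓ N u ∧ ¬ Equ (β u : E) (α u)

/-- the character `χ` modulo `f` is primitive -/
def PrimC {f : ℕ} (χ : (ZMod f)ˣ →* Eˣ) : Prop :=
  ∀ (d : ℕ) (h : d ∣ f), d ≠ f → ∃ u, ZMod.unitsMap h u = 1 ∧ χ u ≠ 1

end Pool.Agent.AAU
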