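import Mathlib

/-!
# A Kummer extension of prime degree, ramified by its generator: valuations

If `v(α) = exp n` with `p ∤ n` and `β ^ p = α` then `K(β) / K` has degree `p` and is totally ramified at
`v`.
-/

open NumberField IsDedekindDomain

namespace Pool.Agent.AAU

private theorem dfa_pow {x : WithZero (Multiplicative ℤ)} {p : ℕ} (hp : p ≠ 0) {n : ℤ}
    (h : x ^ p = WithZero.exp n) : ∃ m : ℤ, x = WithZero.exp m ∧ p * m = n := by
  have hx : x ≠ 0 := by
    rintro rfl
    rw [zero_pow hp] at h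
    exact WithZero.exp_ne_zero h.symm
  refine ⟨WithZero.log x, (WithZero.exp_log hx).symm, ?_⟩
  have h1 : (WithZero.exp (p • WithZero.log x) : WithZero (Multiplicative ℤ)) = WithZero.exp n := by
    rw [WithZero.exp_nsmul, WithZero.exp_log hx, h]
  have h2 := WithZero.exp_injective h1
  rwa [nsmul_eq_mul] at h2

private theorem dfa_finrank (p : ℕ) (hp : p.Prime) (K L : Type) [Field K] [Field L] [Algebra K L]
    (α : K) (β : L) (hβ : β ^ p = algebraMap K L α)
    (htop : IntermediateField.adjoin K {β} = ⊤) (hα : ∀ b : K, b ^ p ≠ α) :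
    Module.finrank K L = p := by
  have h1 : Irreducible (Polynomial.X ^ p - Polynomial.C α) :=
    X_pow_sub_C_irreducible_of_prime hp hα
  have h2 : (Polynomial.X ^ p - Polynomial.C α).Monic :=
    Polynomial.monic_X_pow_sub_C α hp.ne_zero
  have h3 : Polynomial.aeval β (Polynomial.X ^ p - Polynomial.C α) = 0 := by
    rw [map_sub, map_pow, Polynomial.aeval_X, Polynomial.aeval_C, hβ, sub_self]
  have h4 : IsIntegral K β := ⟨_, h2, h3⟩
  have h5 : Polynomial.X ^ p - Polynomial.C α = minpoly K β :=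
    minpoly.eq_of_irreducible_of_monic h1 h3 h2
  have h6 := IntermediateField.adjoin.finrank h4
  rw [← h5, Polynomial.natDegree_X_pow_sub_C, htop, IntermediateField.finrank_top'] at h6
  exact h6

theorem kum_val (p : ℕ) (hp : p.Prime) (K L : Type) [Field K] [NumberField K] [Field L]
    [NumberField L] [Algebra K L] (α : K) (β : L) (hβ : β ^ p = algebraMap K L α)
    (htop : IntermediateField.adjoin K {β} = ⊤) (v : HeightOneSpectrum (𝓞 K))
    (w : HeightOneSpectrum (𝓞 L)) (hw : w.asIdeal.under (𝓞 K) = v.asIdeal) (n : ℤ)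
    (hn : v.valuation K α = WithZero.exp n) (hpn : ¬ (p : ℤ) ∣ n) :
    Module.finrank K L = p ∧ (∀ x : K, w.valuation L (algebraMap K L x) = v.valuation K x ^ p) ∧
      w.valuation L β = WithZero.exp n := by
  have hα : ∀ b : K, b ^ p ≠ α := by
    intro b hb
    rw [← hb, map_pow] at hn
    obtain ⟨m, -, hm⟩ := dfa_pow hp.ne_zero hn
    exact hpn ⟨m, hm.symm⟩
  have hfin := dfa_finrank p hp K L α β hβ htop hα
  have : w.asIdeal.LiesOver v.asIdeal := ⟨hw.symm⟩
  have : v.asIdeal.IsMaximal := v.isMaximal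
  have : NoZeroSMulDivisors (𝓞 K) (𝓞 L) := ⟨fun h => smul_eq_zero.1 h⟩
  have hle := Ideal.ramificationIdx_le_finrank (R := 𝓞 K) (𝓞 L) K L (p := v.asIdeal) w.asIdeal
  have hval := fun x : K => HeightOneSpectrum.valuation_liesOver L v w x
  set e := v.asIdeal.ramificationIdx' w.asIdeal with he
  have hwβ : w.valuation L β ^ p = WithZero.exp (e * n) := by
    rw [← map_pow, hβ, ← hval, hn, ← WithZero.exp_nsmul, nsmul_eq_mul]
  obtain ⟨m, hm, hm2⟩ := dfa_pow hp.ne_zero hwβ
  have h1 : (p : ℤ) ∣ (e : ℤ) * n := ⟨m, hm2.symm⟩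
  have h2 : (p : ℤ) ∣ (e : ℤ) := by
    rcases (Nat.prime_iff_prime_int.1 hp).dvd_or_dvd h1 with h | h
    · exact h
    · exact absurd h hpn
  have h3 : p ∣ e := Int.natCast_dvd_natCast.1 h2
  have h4 : e ≠ 0 := Ideal.IsDedekindDomain.ramificationIdx'_ne_zero_of_liesOver w.asIdeal v.ne_bot
  rw [hfin] at hle
  have h5 : e = p := le_antisymm hle (Nat.le_of_dvd (Nat.pos_of_ne_zero h4) h3)
  rw [h5] at hm2 hval
  have hp0 : (p : ℤ) ≠ 0 := by exact_mod_cast hp.ne_zero
  have h6 : m = n := mul_left_cancel₀ hp0 hm2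
  refine ⟨hfin, fun x => (hval x).symm, ?_⟩
  rw [hm, h6]

end Pool.Agent.AAU
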