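import Mathlib

/-!
# AAU-DfT: traces in a Kummer extension of prime degree

In the basis `1, β, ..., β ^ (p - 1)` of `L / K` the multiplication by `β ^ i`, `0 < i < p`, has zeros on
the diagonal because `β ^ (i + j)` is a multiple of a basis vector different from `β ^ j`.
-/

namespace Pool.Agent.AAU

private theorem dfT_basis (p : ℕ) (hp0 : 0 < p) (K L : Type) [Field K] [Field L] [Algebra K L]
    (hfin : Module.finrank K L = p) (β : L) (htop : IntermediateField.adjoin K {β} = ⊤) :
    ∃ b : Module.Basis (Fin p) K L, ∀ i, b i = β ^ (i : ℕ) := by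
  have : FiniteDimensional K L := FiniteDimensional.of_finrank_pos (by omega)
  have hdeg : (minpoly K β).natDegree = p := by
    rw [← hfin]
    exact (Field.primitive_element_iff_minpoly_natDegree_eq K β).1 htop
  have hli : LinearIndependent K (fun i : Fin p => β ^ (i : ℕ)) := by
    have h := linearIndependent_pow (K := K) β
    rw [hdeg] at h
    exact h
  have : Nonempty (Fin p) := ⟨⟨0, hp0⟩⟩
  refine ⟨basisOfLinearIndependentOfCardEqFinrank hli (by rw [Fintype.card_fin, hfin]), fun i => ?_⟩
  rw [coe_basisOfLinearIndependentOfCardEqFinrank]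

private theorem dfT_tr (p : ℕ) (K L : Type) [Field K] [Field L] [Algebra K L] (α : K)
    (β : L) (hβ : β ^ p = algebraMap K L α) (b : Module.Basis (Fin p) K L)
    (hb : ∀ i, b i = β ^ (i : ℕ)) (i : ℕ) (hi0 : i ≠ 0) (hi : i < p) :
    Algebra.trace K L (β ^ i) = 0 := by
  rw [Algebra.trace_eq_matrix_trace b, Matrix.trace]
  refine Finset.sum_eq_zero fun j _ => ?_
  rw [Matrix.diag_apply, Algebra.leftMulMatrix_eq_repr_mul, hb, ← pow_add]
  by_cases h : i + (j : ℕ) < p
  · have h1 : β ^ (i + (j : ℕ)) = b ⟨i + j, h⟩ := (hb ⟨i + j, h⟩).symm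
    rw [h1, Module.Basis.repr_self, Finsupp.single_apply, if_neg]
    intro h2
    have h3 := congrArg Fin.val h2
    simp only at h3
    omega
  · have hj := j.2
    have hlt : i + (j : ℕ) - p < p := by omega
    have h1 : β ^ (i + (j : ℕ)) = α • b ⟨i + j - p, hlt⟩ := by
      rw [hb, Algebra.smul_def, ← hβ, ← pow_add]
      congr 1
      simp only
      omega
    rw [h1, map_smul, Module.Basis.repr_self, Finsupp.smul_apply, Finsupp.single_apply, if_neg,
      smul_zero]
    intro h2
    have h3 := congrArg Fin.val h2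
    simp only at h3
    omega

theorem kum_tr (p : ℕ) (hp : p.Prime) (K L : Type) [Field K] [Field L] [CharZero K]
    [Algebra K L] (hfin : Module.finrank K L = p) (α : K) (β : L) (hβ : β ^ p = algebraMap K L α)
    (htop : IntermediateField.adjoin K {β} = ⊤) (x : L) :
    ∃ c : ℕ → K, x = ∑ i ∈ Finset.range p, algebraMap K L (c i) * β ^ i ∧
      Algebra.trace K L x = p * c 0 := by
  obtain ⟨b, hb⟩ := dfT_basis p hp.pos K L hfin β htop
  have hx : x = ∑ i ∈ Finset.range p,
      algebraMap K L (if h : i < p then b.repr x ⟨i, h⟩ else 0) * β ^ i := by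
    rw [Finset.sum_range]
    conv_lhs => rw [← b.sum_repr x]
    refine Finset.sum_congr rfl fun i _ => ?_
    rw [dif_pos i.2, hb, Algebra.smul_def]
  refine ⟨fun i => if h : i < p then b.repr x ⟨i, h⟩ else 0, hx, ?_⟩
  conv_lhs => rw [hx]
  rw [map_sum, Finset.sum_eq_single 0]
  · rw [pow_zero, mul_one, Algebra.trace_algebraMap, hfin, nsmul_eq_mul]
  · intro i hi hi0
    rw [← Algebra.smul_def, map_smul,
      dfT_tr p K L α β hβ b hb i hi0 (Finset.mem_range.1 hi), smul_zero]
  · intro h
    exact absurd (Finset.mem_range.2 hp.pos) h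

end Pool.Agent.AAU
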