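import Pool.Agent.AAU.DfA
import Pool.Agent.AAU.DfT

/-!
# AAU-DfB: a Kummer extension of prime degree, ramified by its generator: the different

Let `x ∈ w ^ (-(p ^ 2 - 1))`; we show `Tr x ∈ 𝓞 K`, that is `u(Tr x) ≤ 1` for all primes `u` of `K`.
* `u ≠ v`: choose `s ∈ v ^ (p ^ 2 - 1)`, `s ∉ u`. Then `s x ∈ 𝓞 L`, so `s Tr x = Tr (s x) ∈ 𝓞 K` and `u(s) = 1`.
* `u = v`: `w(x) ≤ exp (p ^ 2 - 1)`. By `kum_tr` `x = ∑ c_i β ^ i`, `Tr x = p c_0`. The values
  `w(c_i β ^ i) = v(c_i) ^ p exp (i n)` of the nonzero terms are pairwise different,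
  so `w(c_0) ≤ w(x)`, `v(c_0) ^ p ≤ exp (p ^ 2 - 1)`, `v(c_0) ≤ exp (p - 1)`, `v(p c_0) ≤ 1`.
-/

open NumberField IsDedekindDomain

namespace Pool.Agent.AAU

/-- In a sum whose nonzero terms have pairwise different values, every term is at most the sum. -/
private lemma DfB_sum {L Γ : Type*} [Field L] [LinearOrderedCommGroupWithZero Γ]
    (w : Valuation L Γ) (s : Finset ℕ) (t : ℕ → L)
    (hne : ∀ i ∈ s, ∀ j ∈ s, i ≠ j → t i ≠ 0 → t j ≠ 0 → w (t i) ≠ w (t j)) (i : ℕ) (hi : i ∈ s) :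
    w (t i) ≤ w (∑ j ∈ s, t j) := by
  classical
  obtain ⟨m, hm, hmax⟩ := s.exists_max_image (fun j => w (t j)) ⟨i, hi⟩
  have hmax' : ∀ j ∈ s, w (t j) ≤ w (t m) := hmax
  by_cases h0 : t m = 0
  · have h1 := hmax' i hi
    rw [h0, map_zero] at h1
    exact h1.trans zero_le
  · have h2 : w (∑ j ∈ s, t j) = w (t m) := by
      apply Valuation.map_sum_eq_of_lt w hm
      intro j hj
      rw [Finset.mem_sdiff, Finset.mem_singleton] at hj
      refine lt_of_le_of_ne (hmax' j hj.1) ?_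
      by_cases h3 : t j = 0
      · rw [h3, map_zero]
        exact fun h4 => h0 ((Valuation.zero_iff w).1 h4.symm)
      · exact hne j hj.1 m hm hj.2 h3 h0
    rw [h2]
    exact hmax' i hi

/-- The terms of the expansion have pairwise different values. -/
private lemma DfB_ne (p : ℕ) (hp : p.Prime) (n : ℤ) (hpn : ¬ (p : ℤ) ∣ n) (i j : ℕ) (hi : i < p)
    (hj : j < p) (hij : i ≠ j) (a b : WithZero (Multiplicative ℤ)) (ha : a ≠ 0) (hb : b ≠ 0) :
    a ^ p * WithZero.exp n ^ i ≠ b ^ p * WithZero.exp n ^ j := by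
  intro h
  rw [← WithZero.exp_log ha, ← WithZero.exp_log hb, ← WithZero.exp_nsmul, ← WithZero.exp_nsmul,
    ← WithZero.exp_nsmul, ← WithZero.exp_nsmul, ← WithZero.exp_add, ← WithZero.exp_add,
    WithZero.exp_inj] at h
  simp only [nsmul_eq_mul] at h
  have h1 : (p : ℤ) ∣ ((i : ℤ) - j) * n :=
    ⟨WithZero.log b - WithZero.log a, by linear_combination h⟩
  have h2 : (p : ℤ) ∣ ((i : ℤ) - j) :=
    ((Nat.prime_iff_prime_int.1 hp).dvd_or_dvd h1).resolve_right hpn
  have h3 : ((i : ℤ) - j) = 0 := by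
    apply Int.eq_zero_of_abs_lt_dvd h2
    rw [abs_lt]
    constructor <;> omega
  omega

theorem kum_diff (p : ℕ) (hp : p.Prime) (K L : Type) [Field K] [NumberField K] [Field L]
    [NumberField L] [Algebra K L] (α : K) (β : L) (hβ : β ^ p = algebraMap K L α)
    (htop : IntermediateField.adjoin K {β} = ⊤) (v : HeightOneSpectrum (𝓞 K))
    (w : HeightOneSpectrum (𝓞 L)) (hw : w.asIdeal.under (𝓞 K) = v.asIdeal) (n : ℤ)
    (hn : v.valuation K α = WithZero.exp n) (hpn : ¬ (p : ℤ) ∣ n)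
    (hvp : v.valuation K (p : K) = WithZero.exp (-((p : ℤ) - 1))) :
    w.asIdeal ^ (p ^ 2 - 1) ∣ differentIdeal (𝓞 K) (𝓞 L) := by
  obtain ⟨hfin, hval, hβv⟩ := kum_val p hp K L α β hβ htop v w hw n hn hpn
  have hp2 := hp.two_le
  have hβ0 : β ≠ 0 := by
    rintro rfl
    rw [map_zero] at hβv
    exact WithZero.exp_ne_zero hβv.symm
  have hw0 : w.asIdeal ^ (p ^ 2 - 1) ≠ ⊥ := pow_ne_zero _ w.ne_bot
  rw [Ideal.dvd_iff_le, differentialIdeal_le_iff (K := K) (L := L) hw0,
    Submodule.map_le_iff_le_comap]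
  intro x hx
  rw [Submodule.restrictScalars_mem, FractionalIdeal.mem_coe,
    FractionalIdeal.mem_inv_iff (by
      rw [Ne, FractionalIdeal.coeIdeal_eq_zero]
      exact hw0)] at hx
  have hx' : ∀ y ∈ w.asIdeal ^ (p ^ 2 - 1), ∃ z : 𝓞 L, algebraMap (𝓞 L) L z =
      x * algebraMap (𝓞 L) L y := fun y hy => by
    obtain ⟨z, hz⟩ := FractionalIdeal.mem_one_iff _ |>.1
      (hx _ ((FractionalIdeal.mem_coeIdeal _).2 ⟨y, hy, rfl⟩))
    exact ⟨z, hz⟩
  rw [Submodule.mem_comap, LinearMap.coe_restrictScalars]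
  suffices h : ∀ u : HeightOneSpectrum (𝓞 K), u.valuation K (Algebra.trace K L x) ≤ 1 by
    obtain ⟨z, hz⟩ := HeightOneSpectrum.mem_integers_of_valuation_le_one K _ h
    rw [Submodule.mem_one]
    exact ⟨z, hz⟩
  intro u
  by_cases huv : u = v
  · subst huv
    obtain ⟨π, hπ⟩ := w.intValuation_exists_uniformizer
    have hπm : π ^ (p ^ 2 - 1) ∈ w.asIdeal ^ (p ^ 2 - 1) := by
      apply Ideal.pow_mem_pow
      have h1 := w.intValuation_le_pow_iff_mem π 1
      rw [pow_one] at h1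
      rw [← h1, hπ]
      simp
    obtain ⟨z, hz⟩ := hx' _ hπm
    have hwx : w.valuation L x ≤ WithZero.exp (((p ^ 2 - 1 : ℕ) : ℤ)) := by
      have h1 : w.valuation L (algebraMap (𝓞 L) L z) ≤ 1 := w.valuation_le_one z
      rw [hz, map_mul, map_pow, map_pow, HeightOneSpectrum.valuation_of_algebraMap, hπ] at h1
      by_cases h0 : w.valuation L x = 0
      · rw [h0]
        exact zero_le
      rw [← WithZero.exp_log h0] at h1 ⊢
      rw [← WithZero.exp_nsmul, ← WithZero.exp_add, ← WithZero.exp_zero, WithZero.exp_le_exp,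
        nsmul_eq_mul] at h1
      rw [WithZero.exp_le_exp]
      linarith
    obtain ⟨c, hc, htr⟩ := kum_tr p hp K L hfin α β hβ htop x
    have hlt := DfB_sum (w.valuation L) (Finset.range p)
      (fun i => algebraMap K L (c i) * β ^ i) (by
        intro i hi j hj hij h1 h2
        rw [Finset.mem_range] at hi hj
        rw [map_mul, map_mul, map_pow, map_pow, hval, hval, hβv]
        apply DfB_ne p hp n hpn i j hi hj hij
        · rw [Valuation.ne_zero_iff]
          rintro h3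
          exact h1 (by rw [h3, map_zero, zero_mul])
        · rw [Valuation.ne_zero_iff]
          rintro h3
          exact h2 (by rw [h3, map_zero, zero_mul])) 0 (Finset.mem_range.2 hp.pos)
    rw [← hc, pow_zero, mul_one, hval] at hlt
    have hc0 := hlt.trans hwx
    rw [htr, map_mul, hvp]
    by_cases h0 : u.valuation K (c 0) = 0
    · rw [h0, mul_zero]
      exact zero_le
    rw [← WithZero.exp_log h0] at hc0 ⊢
    rw [← WithZero.exp_nsmul, WithZero.exp_le_exp, nsmul_eq_mul] at hc0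
    rw [← WithZero.exp_add, ← WithZero.exp_zero, WithZero.exp_le_exp]
    have h5 : (((p ^ 2 - 1 : ℕ) : ℤ)) = (p : ℤ) ^ 2 - 1 := by
      rw [Nat.cast_sub (Nat.one_le_pow _ _ hp.pos)]
      push_cast
      rfl
    rw [h5] at hc0
    by_contra hcon
    push Not at hcon
    have h6 : (p : ℤ) ≤ WithZero.log (u.valuation K (c 0)) := by omega
    have h7 : (p : ℤ) * p ≤ p * WithZero.log (u.valuation K (c 0)) :=
      mul_le_mul_of_nonneg_left h6 (by positivity)
    nlinarith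
  · have h1 : ¬ v.asIdeal ^ (p ^ 2 - 1) ≤ u.asIdeal := by
      intro h2
      have h3 : v.asIdeal ≤ u.asIdeal := u.isPrime.le_of_pow_le h2
      have h4 : v.asIdeal = u.asIdeal := v.isMaximal.eq_of_le u.isPrime.ne_top h3
      exact huv (HeightOneSpectrum.ext h4.symm)
    obtain ⟨s, hs, hsu⟩ := Set.not_subset.1 h1
    have hsw : algebraMap (𝓞 K) (𝓞 L) s ∈ w.asIdeal ^ (p ^ 2 - 1) := by
      have h2 : (v.asIdeal ^ (p ^ 2 - 1)).map (algebraMap (𝓞 K) (𝓞 L)) ≤
          w.asIdeal ^ (p ^ 2 - 1) := by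
        rw [Ideal.map_pow]
        apply Ideal.pow_right_mono
        rw [Ideal.map_le_iff_le_comap, ← hw]
      exact h2 (Ideal.mem_map_of_mem _ hs)
    obtain ⟨z, hz⟩ := hx' _ hsw
    have h2 : algebraMap (𝓞 K) K (Algebra.intTrace (𝓞 K) (𝓞 L) z) =
        algebraMap (𝓞 K) K s * Algebra.trace K L x := by
      rw [Algebra.algebraMap_intTrace (A := 𝓞 K) (K := K) (L := L) (B := 𝓞 L), hz, mul_comm x,
        ← IsScalarTower.algebraMap_apply (𝓞 K) (𝓞 L) L, IsScalarTower.algebraMap_apply (𝓞 K) K L,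
        ← Algebra.smul_def, map_smul, smul_eq_mul]
    have h3 : u.valuation K (algebraMap (𝓞 K) K s) = 1 := by
      refine le_antisymm (u.valuation_le_one s) (not_lt.1 fun h4 => hsu ?_)
      exact (u.valuation_lt_one_iff_mem s).1 h4
    have h4 := u.valuation_le_one (K := K) (Algebra.intTrace (𝓞 K) (𝓞 L) z)
    have h5 : u.valuation K (algebraMap (𝓞 K) K (Algebra.intTrace (𝓞 K) (𝓞 L) z)) ≤ 1 := h4
    rw [h2, map_mul, h3, one_mul] at h5
    exact h5

end Pool.Agent.AAU
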