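import Pool.Agent.AAU.DfB

/-!
# The different over `ℤ` at the prime `w` of the Kummer extension

`v ^ (p - 1) ∣ (p)`, so `v ^ (p - 2)` divides the different of `K` over `ℚ`, and `w ^ p` divides the extension
of `v` (total ramification, `kum_val`), so `w ^ (p (p - 2))` divides the extension of the different of `K`. The relative
different is divisible by `w ^ (p ^ 2 - 1)` (`kum_diff`), and the different is multiplicative in towers.
-/

open NumberField IsDedekindDomain

namespace Pool.Agent.AAU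

attribute [local instance] FractionRing.liftAlgebra in
private theorem dfC_tower (K L : Type) [Field K] [NumberField K] [Field L]
    [NumberField L] [Algebra K L] :
    differentIdeal ℤ (𝓞 L) = differentIdeal (𝓞 K) (𝓞 L) *
      (differentIdeal ℤ (𝓞 K)).map (algebraMap (𝓞 K) (𝓞 L)) :=
  differentIdeal_eq_differentIdeal_mul_differentIdeal ℤ (𝓞 K) (𝓞 L)

attribute [local instance] FractionRing.liftAlgebra in
private theorem dfC_base (K : Type) [Field K] [NumberField K] (p : ℕ) (hp : p.Prime)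
    (v : HeightOneSpectrum (𝓞 K))
    (hvp : v.valuation K (p : K) = WithZero.exp (-((p : ℤ) - 1))) :
    v.asIdeal ^ (p - 2) ∣ differentIdeal ℤ (𝓞 K) := by
  have h1 : v.asIdeal ^ (p - 1) ∣ Ideal.span {(p : 𝓞 K)} := by
    rw [← v.intValuation_le_pow_iff_dvd, ← v.valuation_of_algebraMap (K := K)]
    have h2 : algebraMap (𝓞 K) K ((p : ℕ) : 𝓞 K) = (p : K) := map_natCast _ _
    have h3 : v.valuation K (algebraMap (𝓞 K) K ((p : ℕ) : 𝓞 K)) =
        WithZero.exp (-((p : ℤ) - 1)) := by rw [h2, hvp]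
    have h4 : (-((p - 1 : ℕ) : ℤ)) = -((p : ℤ) - 1) := by
      rw [Nat.cast_sub hp.one_lt.le, Nat.cast_one]
    rw [h4]
    exact h3.le
  have h5 : (Ideal.span {(p : ℤ)}).map (algebraMap ℤ (𝓞 K)) = Ideal.span {(p : 𝓞 K)} := by
    rw [Ideal.map_span, Set.image_singleton]
    simp
  have h6 : (Ideal.span {(p : ℤ)}).IsMaximal := by
    have := Fact.mk hp
    exact Int.ideal_span_isMaximal_of_prime p
  have h7 : (Ideal.span {(p : ℤ)} : Ideal ℤ) ≠ ⊥ := by
    rw [Ne, Ideal.span_singleton_eq_bot]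
    exact_mod_cast hp.ne_zero
  have h8 := pow_sub_one_dvd_differentIdeal ℤ v.asIdeal (p - 1) h7 (h5 ▸ h1)
  rwa [Nat.sub_sub] at h8

theorem kum_tower (p : ℕ) (hp : p.Prime) (K L : Type) [Field K] [NumberField K] [Field L]
    [NumberField L] [Algebra K L] (α : K) (β : L) (hβ : β ^ p = algebraMap K L α)
    (htop : IntermediateField.adjoin K {β} = ⊤) (v : HeightOneSpectrum (𝓞 K))
    (w : HeightOneSpectrum (𝓞 L)) (hw : w.asIdeal.under (𝓞 K) = v.asIdeal) (n : ℤ)
    (hn : v.valuation K α = WithZero.exp n) (hpn : ¬ (p : ℤ) ∣ n)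
    (hvp : v.valuation K (p : K) = WithZero.exp (-((p : ℤ) - 1))) :
    w.valuation L (p : L) = WithZero.exp (-((p : ℤ) * (p - 1))) ∧
      w.asIdeal ^ (p ^ 2 - 1 + p * (p - 2)) ∣ differentIdeal ℤ (𝓞 L) := by
  obtain ⟨-, hval, -⟩ := kum_val p hp K L α β hβ htop v w hw n hn hpn
  refine ⟨?_, ?_⟩
  · have h1 := hval (p : K)
    rw [map_natCast, hvp, ← WithZero.exp_nsmul] at h1
    rw [h1]
    congr 1
    rw [nsmul_eq_mul]
    ring
  · rw [dfC_tower K L, pow_add]
    refine mul_dvd_mul (kum_diff p hp K L α β hβ htop v w hw n hn hpn hvp) ?_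
    have h1 : w.asIdeal ^ p ∣ v.asIdeal.map (algebraMap (𝓞 K) (𝓞 L)) := by
      rw [Ideal.dvd_iff_le, Ideal.map_le_iff_le_comap]
      intro x hx
      rw [Ideal.mem_comap, ← w.intValuation_le_pow_iff_mem,
        ← w.valuation_of_algebraMap (K := L)]
      have h2 : algebraMap (𝓞 L) L (algebraMap (𝓞 K) (𝓞 L) x) =
          algebraMap K L (algebraMap (𝓞 K) K x) := rfl
      have h3 : v.valuation K (algebraMap (𝓞 K) K x) ≤ WithZero.exp (-1 : ℤ) := by
        have h4 : v.intValuation x ≤ WithZero.exp (-((1 : ℕ) : ℤ)) := by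
          rw [v.intValuation_le_pow_iff_mem, pow_one]
          exact hx
        rw [← v.valuation_of_algebraMap (K := K)] at h4
        exact h4
      have h5 : w.valuation L (algebraMap (𝓞 L) L (algebraMap (𝓞 K) (𝓞 L) x)) ≤
          WithZero.exp (-(p : ℤ)) := by
        rw [h2, hval]
        calc v.valuation K (algebraMap (𝓞 K) K x) ^ p ≤ WithZero.exp (-1 : ℤ) ^ p := by gcongr
          _ = WithZero.exp (-(p : ℤ)) := by
            rw [← WithZero.exp_nsmul, nsmul_eq_mul]
            congr 1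
            ring
      exact h5
    have h6 := Ideal.map_mono (f := algebraMap (𝓞 K) (𝓞 L)) (Ideal.le_of_dvd (dfC_base K p hp v hvp))
    rw [Ideal.map_pow] at h6
    rw [pow_mul]
    exact (pow_dvd_pow_of_dvd h1 (p - 2)).trans (Ideal.dvd_iff_le.2 h6)

end Pool.Agent.AAU
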