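import Mathlib

/-!
# AAU-DfE: from the prime `w` of `L` to a prime `W` of a larger field

`differentIdeal ℤ (𝓞 T) = differentIdeal (𝓞 L) (𝓞 T) * (differentIdeal ℤ (𝓞 L)).map _`
(`differentIdeal_eq_differentIdeal_mul_differentIdeal`). Let `W ^ e` be the exact power of `W` in `w.map _`, so that
`W ^ (e p (p - 1))` is at least the power of `W` in `(p)`. `W ^ m ∣ (p) ^ p` gives `m ≤ e p (p - 1) p`, and
`W ^ (e (p ^ 2 - 1 + p (p - 2)) (p - 1))` divides `(differentIdeal ℤ (𝓞 T)) ^ (p - 1)`. For `p ≥ 3`: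
`p (p - 1) p ≤ (p ^ 2 - 1 + p (p - 2)) (p - 1)`, as `p ^ 2 ≤ 2 p ^ 2 - 2 p - 1`.
-/

open NumberField IsDedekindDomain

namespace Pool.Agent.AAU

private theorem dfe_arith (p : ℕ) (hp2 : 2 < p) : p * (p - 1) * p ≤
    (p ^ 2 - 1 + p * (p - 2)) * (p - 1) := by
  obtain ⟨q, rfl⟩ : ∃ q, p = q + 3 := ⟨p - 3, by omega⟩
  have h1 : q + 3 - 1 = q + 2 := by omega
  have h2 : q + 3 - 2 = q + 1 := by omega
  have h3 : (q + 3) ^ 2 - 1 = q ^ 2 + 6 * q + 8 := by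
    have : (q + 3) ^ 2 = q ^ 2 + 6 * q + 8 + 1 := by ring
    omega
  rw [h1, h2, h3]
  have h4 : (q + 3) * (q + 2) * (q + 3) = (q + 3) * (q + 3) * (q + 2) := by ring
  rw [h4]
  refine Nat.mul_le_mul_right _ ?_
  nlinarith

theorem tower_ineq (p : ℕ) (hp : p.Prime) (hp2 : 2 < p) (L T : Type) [Field L] [NumberField L]
    [Field T] [NumberField T] [Algebra L T] (w : HeightOneSpectrum (𝓞 L))
    (W : HeightOneSpectrum (𝓞 T)) (hW : W.asIdeal.under (𝓞 L) = w.asIdeal)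
    (hwp : w.valuation L (p : L) = WithZero.exp (-((p : ℤ) * (p - 1))))
    (hd : w.asIdeal ^ (p ^ 2 - 1 + p * (p - 2)) ∣ differentIdeal ℤ (𝓞 L)) (m : ℕ)
    (hm : W.asIdeal ^ m ∣ Ideal.span {(p : 𝓞 T)} ^ p) :
    W.asIdeal ^ m ∣ differentIdeal ℤ (𝓞 T) ^ (p - 1) := by
  classical
  set φ : 𝓞 L →+* 𝓞 T := algebraMap (𝓞 L) (𝓞 T) with hφ
  have hinj : Function.Injective φ := FaithfulSMul.algebraMap_injective (𝓞 L) (𝓞 T)
  have hwm : w.asIdeal.map φ ≠ ⊥ := by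
    intro h
    exact w.ne_bot ((Ideal.map_eq_bot_iff_of_injective hinj).1 h)
  have hp0 : (p : 𝓞 L) ≠ 0 := Nat.cast_ne_zero.2 hp.ne_zero
  have hsp : Ideal.span {(p : 𝓞 L)} ≠ ⊥ := by
    intro h
    exact hp0 (Ideal.span_singleton_eq_bot.1 h)
  -- the power of `W` in `w`
  obtain ⟨J', hJ', hWJ'⟩ := (FiniteMultiplicity.of_prime_left W.prime hwm).exists_eq_pow_mul_and_not_dvd
  -- the power of `w` in `p`
  obtain ⟨J, hJ, hwJ⟩ := (FiniteMultiplicity.of_prime_left w.prime hsp).exists_eq_pow_mul_and_not_dvd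
  set e := multiplicity W.asIdeal (w.asIdeal.map φ) with he
  set a := multiplicity w.asIdeal (Ideal.span {(p : 𝓞 L)}) with ha
  have hale : a ≤ p * (p - 1) := by
    have h1 : w.asIdeal ^ a ∣ Ideal.span {(p : 𝓞 L)} := ⟨J, hJ⟩
    rw [← HeightOneSpectrum.intValuation_le_pow_iff_dvd] at h1
    have h2 : w.intValuation (p : 𝓞 L) = WithZero.exp (-((p : ℤ) * (p - 1))) := by
      rw [← HeightOneSpectrum.valuation_of_algebraMap (K := L), ← hwp]
      congr 1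
    rw [h2, WithZero.exp_le_exp] at h1
    have h3 : ((p * (p - 1) : ℕ) : ℤ) = (p : ℤ) * (p - 1) := by
      rw [Nat.cast_mul, Nat.cast_sub hp.one_lt.le, Nat.cast_one]
    have h4 : (a : ℤ) ≤ ((p * (p - 1) : ℕ) : ℤ) := by
      rw [h3]
      linarith
    exact_mod_cast h4
  have hWJ : ¬ W.asIdeal ∣ J.map φ := by
    intro h
    apply hwJ
    rw [Ideal.dvd_iff_le] at h ⊢
    rw [← hW]
    exact Ideal.map_le_iff_le_comap.1 h
  have hspT : Ideal.span {(p : 𝓞 T)} = W.asIdeal ^ (e * a) * (J' ^ a * J.map φ) := by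
    have h1 : (Ideal.span {(p : 𝓞 L)}).map φ = Ideal.span {(p : 𝓞 T)} := by
      rw [Ideal.map_span, Set.image_singleton, map_natCast]
    rw [← h1]
    conv_lhs => rw [hJ]
    rw [Ideal.map_mul, Ideal.map_pow]
    conv_lhs => rw [hJ']
    rw [mul_pow, ← pow_mul, mul_assoc]
  have hK : ¬ W.asIdeal ∣ (J' ^ a * J.map φ) ^ p := by
    intro h
    rcases W.prime.dvd_or_dvd (W.prime.dvd_of_dvd_pow h) with h1 | h1
    · exact hWJ' (W.prime.dvd_of_dvd_pow h1)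
    · exact hWJ h1
  have hmle : m ≤ e * a * p := by
    rw [hspT, mul_pow, ← pow_mul] at hm
    have h1 := W.prime.pow_dvd_of_dvd_mul_right m hK hm
    exact (pow_dvd_pow_iff W.prime.ne_zero W.prime.not_isUnit).1 h1
  have hmN : m ≤ e * (p ^ 2 - 1 + p * (p - 2)) * (p - 1) := by
    calc m ≤ e * a * p := hmle
      _ = e * (a * p) := by ring
      _ ≤ e * (p * (p - 1) * p) := Nat.mul_le_mul_left _ (Nat.mul_le_mul_right _ hale)
      _ ≤ e * ((p ^ 2 - 1 + p * (p - 2)) * (p - 1)) := Nat.mul_le_mul_left _ (dfe_arith p hp2)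
      _ = e * (p ^ 2 - 1 + p * (p - 2)) * (p - 1) := by ring
  have hdT : W.asIdeal ^ (e * (p ^ 2 - 1 + p * (p - 2))) ∣ differentIdeal ℤ (𝓞 T) := by
    rw [differentIdeal_eq_differentIdeal_mul_differentIdeal ℤ (𝓞 L) (𝓞 T)]
    refine Dvd.dvd.mul_left ?_ _
    obtain ⟨I, hI⟩ := hd
    rw [hI, Ideal.map_mul, Ideal.map_pow]
    refine Dvd.dvd.mul_right ?_ _
    rw [pow_mul]
    exact pow_dvd_pow_of_dvd ⟨J', hJ'⟩ _
  calc W.asIdeal ^ m ∣ W.asIdeal ^ (e * (p ^ 2 - 1 + p * (p - 2)) * (p - 1)) :=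
        pow_dvd_pow _ hmN
    _ = (W.asIdeal ^ (e * (p ^ 2 - 1 + p * (p - 2)))) ^ (p - 1) := pow_mul _ _ _
    _ ∣ differentIdeal ℤ (𝓞 T) ^ (p - 1) := pow_dvd_pow_of_dvd hdT _

end Pool.Agent.AAU
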