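import Pool.Agent.AAU.DfC
import Pool.Agent.AAU.DfE

/-!
# AAU-DfF: the different at a prime of a field containing a Kummer generator

`L = K⟮β⟯ ⊆ T` (`IntermediateField.adjoin K {β}`, a number field, with its canonical algebra structures over `K` and
under `T`), `w = W ∩ 𝓞 L` (a nonzero prime), `kum_tower` for `K`, `L` and `β` as an element of `L`
(`IntermediateField.AdjoinSimple.gen`; it generates `L`), and `tower_ineq` for `L`, `T`.
-/

open NumberField IsDedekindDomain

namespace Pool.Agent.AAU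

theorem kum_prime (p : ℕ) (hp : p.Prime) (hp2 : 2 < p) (K T : Type) [Field K] [NumberField K]
    [Field T] [NumberField T] [Algebra K T] (α : K) (β : T) (hβ : β ^ p = algebraMap K T α)
    (v : HeightOneSpectrum (𝓞 K)) (W : HeightOneSpectrum (𝓞 T))
    (hW : W.asIdeal.under (𝓞 K) = v.asIdeal) (n : ℤ)
    (hn : v.valuation K α = WithZero.exp n) (hpn : ¬ (p : ℤ) ∣ n)
    (hvp : v.valuation K (p : K) = WithZero.exp (-((p : ℤ) - 1))) (m : ℕ)
    (hm : W.asIdeal ^ m ∣ Ideal.span {(p : 𝓞 T)} ^ p) :
    W.asIdeal ^ m ∣ differentIdeal ℤ (𝓞 T) ^ (p - 1) := by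
  set L : IntermediateField K T := IntermediateField.adjoin K {β} with hL
  have hmem : β ∈ L := IntermediateField.mem_adjoin_simple_self K β
  have hst : IsScalarTower (𝓞 K) (𝓞 L) (𝓞 T) := inferInstance
  have hu : (W.asIdeal.under (𝓞 L)).under (𝓞 K) = v.asIdeal := by
    rw [← hW]; exact Ideal.under_under _
  have hbot : W.asIdeal.under (𝓞 L) ≠ ⊥ := by
    intro h
    apply v.ne_bot
    rw [← hu, h]
    exact Ideal.under_bot _ _
  let w : HeightOneSpectrum (𝓞 L) := ⟨W.asIdeal.under (𝓞 L), Ideal.IsPrime.under _ _, hbot⟩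
  have h1 := kum_tower p hp K L α ⟨β, hmem⟩ (Subtype.ext (by simpa using hβ)) (by
    apply IntermediateField.lift_injective L
    rw [IntermediateField.lift_top, IntermediateField.lift_adjoin_simple]) v w hu n hn hpn hvp
  exact tower_ineq p hp hp2 L T w W rfl h1.1 h1.2 m hm

end Pool.Agent.AAU
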