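import Mathlib

/-!
# AAU-DfG (0.8h): the different is stable under automorphisms

The dual of `𝓞 T` is the set of all `x : T` with `Tr (x y) ∈ ℤ` for all `y ∈ 𝓞 T`
(`Submodule.mem_traceDual`), which is stable under `σ` (`Algebra.trace` is invariant,
`Algebra.trace_eq_of_algEquiv`). So `d ∈ 𝓞 T` is in the different iff `d x ∈ 𝓞 T` for all such `x`
(`coeSubmodule_differentIdeal`, `Submodule.mem_div_iff_forall_mul_mem`), and this is stable under `σ` and `σ⁻¹`.
-/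

open NumberField Pointwise

namespace Pool.Agent.AAU

private theorem dfG_mem (T : Type) [Field T] [NumberField T] (x : 𝓞 T) :
    x ∈ differentIdeal ℤ (𝓞 T) ↔
      ∀ z : T, (∀ y : 𝓞 T, ∃ k : ℤ, (k : ℚ) = Algebra.trace ℚ T (z * algebraMap (𝓞 T) T y)) →
        ∃ w : 𝓞 T, algebraMap (𝓞 T) T w = algebraMap (𝓞 T) T x * z := by
  have h := coeSubmodule_differentIdeal ℤ ℚ (L := T) (𝓞 T)
  have h1 : x ∈ differentIdeal ℤ (𝓞 T) ↔
      algebraMap (𝓞 T) T x ∈ IsLocalization.coeSubmodule T (differentIdeal ℤ (𝓞 T)) := by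
    rw [IsLocalization.mem_coeSubmodule]
    constructor
    · intro hx
      exact ⟨x, hx, rfl⟩
    · rintro ⟨y, hy, hyx⟩
      rw [← FaithfulSMul.algebraMap_injective (𝓞 T) T hyx]
      exact hy
  rw [h1, h, Submodule.mem_div_iff_forall_mul_mem]
  constructor
  · intro hz z hzy
    have h2 : z ∈ Submodule.traceDual ℤ ℚ (1 : Submodule (𝓞 T) T) := by
      rw [Submodule.mem_traceDual]
      intro a ha
      obtain ⟨y, rfl⟩ := Submodule.mem_one.1 ha
      obtain ⟨k, hk⟩ := hzy y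
      refine ⟨k, ?_⟩
      rw [Algebra.traceForm_apply, ← hk]
      rfl
    exact Submodule.mem_one.1 (hz z h2)
  · intro hz z hzd
    rw [Submodule.mem_traceDual] at hzd
    apply Submodule.mem_one.2
    apply hz
    intro y
    obtain ⟨k, hk⟩ := hzd (algebraMap (𝓞 T) T y) (Submodule.mem_one.2 ⟨y, rfl⟩)
    refine ⟨k, ?_⟩
    rw [Algebra.traceForm_apply] at hk
    rw [← hk]
    rfl

private theorem dfG_smul (T : Type) [Field T] [NumberField T] (σ : Gal(T/ℚ)) {x : 𝓞 T}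
    (hx : x ∈ differentIdeal ℤ (𝓞 T)) : σ • x ∈ differentIdeal ℤ (𝓞 T) := by
  rw [dfG_mem] at hx ⊢
  intro z hz
  have hs : ∀ (τ : Gal(T/ℚ)) (y : 𝓞 T), algebraMap (𝓞 T) T (τ • y) = τ (algebraMap (𝓞 T) T y) :=
    fun τ y => rfl
  obtain ⟨w, hw⟩ := hx (σ⁻¹ z) (by
    intro y
    obtain ⟨k, hk⟩ := hz (σ • y)
    refine ⟨k, ?_⟩
    have h1 : σ (σ⁻¹ z * algebraMap (𝓞 T) T y) = z * σ (algebraMap (𝓞 T) T y) := by
      rw [map_mul]
      congr 1
      exact AlgEquiv.apply_symm_apply σ z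
    rw [hk, hs, ← Algebra.trace_eq_of_algEquiv σ (σ⁻¹ z * algebraMap (𝓞 T) T y), h1])
  refine ⟨σ • w, ?_⟩
  rw [hs, hw, map_mul, hs]
  congr 1
  exact AlgEquiv.apply_symm_apply σ z

theorem smul_different (T : Type) [Field T] [NumberField T] (σ : Gal(T/ℚ)) :
    σ • differentIdeal ℤ (𝓞 T) = differentIdeal ℤ (𝓞 T) := by
  ext x
  rw [Ideal.mem_pointwise_smul_iff_inv_smul_mem]
  constructor
  · intro h
    have h1 := dfG_smul T σ h
    rwa [smul_inv_smul] at h1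
  · intro h
    exact dfG_smul T σ⁻¹ h

end Pool.Agent.AAU
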