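import Pool.Agent.AAU.DfG

/-!
# AAU-DfH: from one prime above `p` to the discriminant

`T / ℚ` is Galois, so every prime `W ∋ p` of `T` is conjugate to `W₀`, and `(p)`, the different `D` are stable under the
automorphisms (`smul_different`): `W ^ m ∣ (p) ^ p` implies `W ^ m ∣ D ^ (p - 1)` for all primes `W` of `T`. As
`D = differentIdeal (𝓞 M) (𝓞 T) * D_M.map _` and the first factor is prime to `W`, `(p) ^ p` divides `(D_M ^ (p - 1)).map _`. Now take norms.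
-/

open NumberField Pointwise

namespace Pool.Agent.AAU

private theorem DfH_under (p : ℕ) (hp : p.Prime) (T : Type) [Field T] [NumberField T] (W : Ideal (𝓞 T))
    (hW : W.IsPrime) (hpW : (p : 𝓞 T) ∈ W) : W.LiesOver (Ideal.span {(p : ℤ)}) := by
  constructor
  have h1 : (Ideal.span {(p : ℤ)}).IsMaximal :=
    PrincipalIdealRing.isMaximal_of_irreducible (Nat.prime_iff_prime_int.1 hp).irreducible
  refine h1.eq_of_le ?_ ?_
  · exact Ideal.comap_ne_top _ hW.ne_top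
  · rw [Ideal.span_singleton_le_iff_mem, Ideal.under_def, Ideal.mem_comap, map_natCast]
    exact hpW

private theorem DfH_all (p : ℕ) (hp : p.Prime) (T : Type) [Field T] [NumberField T] [IsGalois ℚ T]
    (W₀ : Ideal (𝓞 T)) (hW₀ : W₀.IsPrime) (hpW₀ : (p : 𝓞 T) ∈ W₀)
    (h : ∀ m : ℕ, W₀ ^ m ∣ Ideal.span {(p : 𝓞 T)} ^ p → W₀ ^ m ∣ differentIdeal ℤ (𝓞 T) ^ (p - 1))
    (W : Ideal (𝓞 T)) (hW : W.IsPrime) (hpW : (p : 𝓞 T) ∈ W) (m : ℕ)
    (hm : W ^ m ∣ Ideal.span {(p : 𝓞 T)} ^ p) : W ^ m ∣ differentIdeal ℤ (𝓞 T) ^ (p - 1) := by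
  have h1 := DfH_under p hp T W hW hpW
  have h2 := DfH_under p hp T W₀ hW₀ hpW₀
  obtain ⟨σ, hσ⟩ := Ideal.exists_smul_eq_of_isGaloisGroup (Ideal.span {(p : ℤ)}) W₀ W Gal(T/ℚ)
  have hp1 : σ⁻¹ • Ideal.span {(p : 𝓞 T)} = Ideal.span {(p : 𝓞 T)} := by
    rw [Ideal.pointwise_smul_def, Ideal.map_span, Set.image_singleton]
    congr 2
    exact map_natCast _ _
  have hpow : ∀ (τ : Gal(T/ℚ)) (I : Ideal (𝓞 T)) (n : ℕ), τ • I ^ n = (τ • I) ^ n := fun τ I n => by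
    rw [Ideal.pointwise_smul_def, Ideal.pointwise_smul_def, Ideal.map_pow]
  have hmul : ∀ (τ : Gal(T/ℚ)) (I J : Ideal (𝓞 T)), τ • (I * J) = (τ • I) * (τ • J) := fun τ I J => by
    rw [Ideal.pointwise_smul_def, Ideal.pointwise_smul_def, Ideal.pointwise_smul_def, Ideal.map_mul]
  have hW' : σ⁻¹ • W = W₀ := by rw [← hσ, inv_smul_smul]
  have h3 : W₀ ^ m ∣ Ideal.span {(p : 𝓞 T)} ^ p := by
    obtain ⟨c, hc⟩ := hm
    refine ⟨σ⁻¹ • c, ?_⟩
    have h4 := congrArg (fun I => σ⁻¹ • I) hc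
    rw [hpow, hp1, hmul, hpow, hW'] at h4
    exact h4
  obtain ⟨c, hc⟩ := h m h3
  refine ⟨σ • c, ?_⟩
  have h4 := congrArg (fun I => σ • I) hc
  rw [hpow, smul_different, hmul, hpow, hσ] at h4
  exact h4

theorem discr_dvd (p : ℕ) (hp : p.Prime) (M T : Type) [Field M] [NumberField M]
    [Field T] [NumberField T] [Algebra M T] [IsGalois ℚ T] (W₀ : Ideal (𝓞 T)) (hW₀ : W₀.IsPrime)
    (hpW₀ : (p : 𝓞 T) ∈ W₀)
    (h : ∀ m : ℕ, W₀ ^ m ∣ Ideal.span {(p : 𝓞 T)} ^ p → W₀ ^ m ∣ differentIdeal ℤ (𝓞 T) ^ (p - 1))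
    (hunr : ∀ W : Ideal (𝓞 T), W.IsPrime → (p : 𝓞 T) ∈ W → ¬ W ∣ differentIdeal (𝓞 M) (𝓞 T)) :
    (p : ℤ) ^ (p * Module.finrank ℚ M) ∣ discr M ^ (p - 1) := by
  have hp0 : (p : 𝓞 T) ≠ 0 := Nat.cast_ne_zero.2 hp.ne_zero
  have hI0 : Ideal.span {(p : 𝓞 T)} ≠ 0 := by
    rw [Ideal.zero_eq_bot, Ne, Ideal.span_singleton_eq_bot]
    exact hp0
  set DM : Ideal (𝓞 T) := (differentIdeal ℤ (𝓞 M)).map (algebraMap (𝓞 M) (𝓞 T)) with hDM
  have hD : differentIdeal ℤ (𝓞 T) = differentIdeal (𝓞 M) (𝓞 T) * DM :=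
    differentIdeal_eq_differentIdeal_mul_differentIdeal ℤ (𝓞 M) (𝓞 T)
  have hkey : Ideal.span {(p : 𝓞 T)} ^ p ∣ DM ^ (p - 1) := by
    rw [UniqueFactorizationMonoid.dvd_iff_emultiplicity_le (pow_ne_zero p hI0)]
    intro W hW
    have hWp : W.IsPrime := Ideal.isPrime_of_prime hW
    refine emultiplicity_le_emultiplicity_iff.2 fun m hm => ?_
    rcases Nat.eq_zero_or_pos m with rfl | hm0
    · rw [pow_zero]
      exact one_dvd _
    have hpW : (p : 𝓞 T) ∈ W := by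
      have h1 : W ∣ Ideal.span {(p : 𝓞 T)} := hW.dvd_of_dvd_pow ((dvd_pow_self W hm0.ne').trans hm)
      exact (Ideal.span_singleton_le_iff_mem _).1 (Ideal.le_of_dvd h1)
    have h2 := DfH_all p hp T W₀ hW₀ hpW₀ h W hWp hpW m hm
    rw [hD, mul_pow] at h2
    refine hW.pow_dvd_of_dvd_mul_left m (fun h3 => hunr W hWp hpW (hW.dvd_of_dvd_pow h3)) h2
  have hn : Module.finrank (𝓞 M) (𝓞 T) ≠ 0 := by
    have h1 : Module.finrank (𝓞 M) (𝓞 T) = Module.finrank M T :=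
      (IsFractionRing.finrank_eq (𝓞 M) M (𝓞 T) T).symm
    rw [h1]
    exact (Module.finrank_pos).ne'
  have hfr : Module.finrank ℤ (𝓞 T) = Module.finrank ℤ (𝓞 M) * Module.finrank (𝓞 M) (𝓞 T) := by
    have h1 : Module.finrank (𝓞 M) (𝓞 T) = Module.finrank M T :=
      (IsFractionRing.finrank_eq (𝓞 M) M (𝓞 T) T).symm
    rw [h1, RingOfIntegers.rank, RingOfIntegers.rank, Module.finrank_mul_finrank]
  have h5 := map_dvd Ideal.absNorm hkey
  rw [map_pow, map_pow, Ideal.absNorm_span_natCast, hDM, Ideal.absNorm_algebraMap, absNorm_differentIdeal M, hfr] at h5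
  have h6 : (p ^ (p * Module.finrank ℚ M)) ^ Module.finrank (𝓞 M) (𝓞 T) ∣
      ((discr M).natAbs ^ (p - 1)) ^ Module.finrank (𝓞 M) (𝓞 T) := by
    have h7 : (p ^ (p * Module.finrank ℚ M)) ^ Module.finrank (𝓞 M) (𝓞 T) =
        (p ^ (Module.finrank ℤ (𝓞 M) * Module.finrank (𝓞 M) (𝓞 T))) ^ p := by
      rw [RingOfIntegers.rank, ← pow_mul, ← pow_mul]
      congr 1
      ring
    have h8 : ((discr M).natAbs ^ (p - 1)) ^ Module.finrank (𝓞 M) (𝓞 T) =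
        ((discr M).natAbs ^ Module.finrank (𝓞 M) (𝓞 T)) ^ (p - 1) := by
      rw [← pow_mul, ← pow_mul, mul_comm]
    rw [h7, h8]
    exact h5
  have h9 := (Nat.pow_dvd_pow_iff hn).1 h6
  rw [← Int.natAbs_dvd_natAbs, Int.natAbs_pow, Int.natAbs_pow, Int.natAbs_natCast]
  exact h9

end Pool.Agent.AAU
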