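import Pool.Agent.AAU.DefsP
import Pool.Agent.EDV.InA

/-!
# AAU-DfI: inertia elements acting trivially on the reduction

An inertia element at `p` acting trivially on the reduction of a stable lattice of `V` of type `ω ^ j ⊗ (α ⊕ β ω)` acts
trivially on the `N p`-th roots of unity: if it acts on the `p`-th roots of unity as `b`, the traces of its first and
second powers give `b ^ j (1 + b) ≡ 2` and `b ^ (2 j) (1 + b ^ 2) ≡ 2`, and so `(b ^ j (b - 1)) ^ 2 ≡ 0`.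
-/

open Matrix

namespace Pool.Agent.AAU

open Pool.Agent.AAP Pool.Agent.EDV

private theorem dfi_tr {E : Type} [NormedField E] (A : GL2 E) (V : Gam →* GL2 E) (g : Gam) :
    trace (A * V g * A⁻¹).mat = trc V g :=
  Matrix.trace_units_conj (A : GL (Fin 2) E) (V g).mat

private theorem dfi_sq {E : Type} [NormedField E] (A : GL2 E) (V : Gam →* GL2 E) (g : Gam) :
    (A * V (g * g) * A⁻¹).mat = (A * V g * A⁻¹).mat * (A * V g * A⁻¹).mat := by
  have h : A * V (g * g) * A⁻¹ = (A * V g * A⁻¹) * (A * V g * A⁻¹) := by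
    rw [map_mul]
    group
  rw [h]
  rfl

section

variable {E : Type} [NormedField E] [IsUltrametricDist E]

private theorem dfi_add {x y : E} (hx : ‖x‖ < 1) (hy : ‖y‖ < 1) : ‖x + y‖ < 1 :=
  (IsUltrametricDist.norm_add_le_max x y).trans_lt (max_lt hx hy)

private theorem dfi_sub {x y : E} (hx : ‖x‖ < 1) (hy : ‖y‖ < 1) : ‖x - y‖ < 1 := by
  rw [sub_eq_add_neg]
  exact dfi_add hx (by rwa [norm_neg])

private theorem dfi_mul {x y : E} (hx : ‖x‖ < 1) (hy : ‖y‖ ≤ 1) : ‖x * y‖ < 1 := by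
  rw [norm_mul]
  exact mul_lt_one_of_nonneg_of_lt_one_left (norm_nonneg _) hx hy

private theorem dfi_addle {x y : E} (hx : ‖x‖ ≤ 1) (hy : ‖y‖ ≤ 1) : ‖x + y‖ ≤ 1 :=
  (IsUltrametricDist.norm_add_le_max x y).trans (max_le hx hy)

private theorem dfi_alg {T U x b : E} (h2 : ‖(2 : E)‖ = 1) (hx : ‖x‖ = 1) (hb : ‖b‖ ≤ 1)
    (hT : ‖T - 2‖ < 1) (hU : ‖U - 2‖ < 1) (h1 : ‖T - x * (1 + b)‖ < 1)
    (h3 : ‖U - x * x * (1 + b * b)‖ < 1) : ‖b - 1‖ < 1 := by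
  have hone : ‖(1 : E)‖ ≤ 1 := norm_one.le
  have hxb : ‖x * (1 + b)‖ ≤ 1 := by
    rw [norm_mul, hx, one_mul]
    exact dfi_addle hone hb
  have d1 : ‖x * (1 + b) - 2‖ < 1 := by
    have e : x * (1 + b) - 2 = (T - 2) - (T - x * (1 + b)) := by ring
    rw [e]
    exact dfi_sub hT h1
  have d2 : ‖x * x * (1 + b * b) - 2‖ < 1 := by
    have e : x * x * (1 + b * b) - 2 = (U - 2) - (U - x * x * (1 + b * b)) := by ring
    rw [e]
    exact dfi_sub hU h3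
  have d3 : ‖(x * (1 + b) - 2) * (x * (1 + b) + 2)‖ < 1 :=
    dfi_mul d1 (dfi_addle hxb h2.le)
  have d4 : ‖x * x * b - 1‖ < 1 := by
    have e : 2 * (x * x * b - 1) =
        (x * (1 + b) - 2) * (x * (1 + b) + 2) - (x * x * (1 + b * b) - 2) := by ring
    have h5 : ‖2 * (x * x * b - 1)‖ < 1 := by
      rw [e]
      exact dfi_sub d3 d2
    rwa [norm_mul, h2, one_mul] at h5
  have d5 : ‖x * (b - 1)‖ ^ 2 < 1 := by
    have e : (x * (b - 1)) ^ 2 =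
        (x * (1 + b) - 2) * (x * (1 + b) + 2) - (x * x * b - 1) * (2 * 2) := by ring
    rw [← norm_pow, e]
    refine dfi_sub d3 (dfi_mul d4 ?_)
    rw [norm_mul, h2, one_mul]
  have d6 : ‖x * (b - 1)‖ < 1 := by
    by_contra h
    have h7 := one_le_pow₀ (n := 2) (not_lt.1 h)
    exact absurd d5 (not_lt.2 h7)
  rwa [norm_mul, hx, one_mul] at d6

end

theorem iner_triv (p N : ℕ) [Fact p.Prime] [NeZero N] (hp : 2 < p) (hpN : ¬ p ∣ N) {E : Type}
    [NormedField E] [IsUltrametricDist E] [NormedAlgebra ℚ_[p] E] (V : Gam →* GL2 E)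
    (α β : (ZMod N)ˣ →* Eˣ) (j : ℕ) (h : SumType p 1 N α β j V) (A : GL2 E)
    (𝔓 : Ideal AI) (hP : 𝔓.IsPrime) (hpP : (p : AI) ∈ 𝔓) (g : Gam) (hg : Iner 𝔓 g)
    (ht : TrivRed A V g) : Acts (N * p) g 1 := by
  have hpp : p.Prime := Fact.out
  haveI : NeZero p := ⟨hpp.ne_zero⟩
  haveI : NeZero (N * p) := ⟨Nat.mul_ne_zero (NeZero.ne N) hpp.ne_zero⟩
  have hN1 : Acts N g 1 := iner_acts hpp hpN hP hpP hg
  have hN2 : Acts N (g * g) 1 := acts_mul hN1 hN1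
  have hv : (((1 : (ZMod N)ˣ) : ZMod N)).val ≡ 1 [MOD N] := by
    rw [Units.val_one, ZMod.val_one_eq_one_mod]
    exact Nat.mod_modEq 1 N
  obtain ⟨u, hu⟩ := acts_exists p g
  set b : ℕ := (u : ZMod p).val with hb
  have hbp : ¬ p ∣ b := by
    intro h1
    have h2 : ((b : ℕ) : ZMod p) = 0 := (ZMod.natCast_eq_zero_iff b p).2 h1
    rw [hb, ZMod.natCast_val, ZMod.cast_id', id_eq] at h2
    exact u.ne_zero h2
  have hbn : ‖(b : E)‖ = 1 := Pool.Agent.Helper60.FM.norm_natCast_eq_one (p := p) hbp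
  have h2n : ‖(2 : E)‖ = 1 := by
    have h1 := Pool.Agent.Helper60.FM.norm_natCast_eq_one (p := p) (E := E) (n := 2)
      (fun h3 => absurd (Nat.le_of_dvd (by norm_num) h3) (by omega))
    rwa [Nat.cast_ofNat] at h1
  -- traces of the reduction
  have hM : ∀ i k, Equ ((A * V g * A⁻¹).mat i k) ((1 : Matrix (Fin 2) (Fin 2) E) i k) := ht
  set M : Matrix (Fin 2) (Fin 2) E := (A * V g * A⁻¹).mat with hMdef
  have m00 : ‖M 0 0 - 1‖ < 1 := by
    have h1 : ‖M 0 0 - (1 : Matrix (Fin 2) (Fin 2) E) 0 0‖ < 1 := hM 0 0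
    rwa [Matrix.one_apply_eq] at h1
  have m11 : ‖M 1 1 - 1‖ < 1 := by
    have h1 : ‖M 1 1 - (1 : Matrix (Fin 2) (Fin 2) E) 1 1‖ < 1 := hM 1 1
    rwa [Matrix.one_apply_eq] at h1
  have m01 : ‖M 0 1‖ < 1 := by
    have h1 : ‖M 0 1 - (1 : Matrix (Fin 2) (Fin 2) E) 0 1‖ < 1 := hM 0 1
    rwa [Matrix.one_apply_ne (by decide), sub_zero] at h1
  have m10 : ‖M 1 0‖ < 1 := by
    have h1 : ‖M 1 0 - (1 : Matrix (Fin 2) (Fin 2) E) 1 0‖ < 1 := hM 1 0
    rwa [Matrix.one_apply_ne (by decide), sub_zero] at h1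
  have n00 : ‖M 0 0 + 1‖ ≤ 1 := by
    have e : M 0 0 + 1 = (M 0 0 - 1) + 2 := by ring
    rw [e]
    exact dfi_addle m00.le h2n.le
  have n11 : ‖M 1 1 + 1‖ ≤ 1 := by
    have e : M 1 1 + 1 = (M 1 1 - 1) + 2 := by ring
    rw [e]
    exact dfi_addle m11.le h2n.le
  have t1 : ‖trc V g - 2‖ < 1 := by
    have e : trc V g - 2 = (M 0 0 - 1) + (M 1 1 - 1) := by
      rw [← dfi_tr A V g, Matrix.trace_fin_two]
      ring
    rw [e]
    exact dfi_add m00 m11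
  have t2 : ‖trc V (g * g) - 2‖ < 1 := by
    have e : trc V (g * g) - 2 =
        ((M 0 0 - 1) * (M 0 0 + 1) + (M 1 1 - 1) * (M 1 1 + 1)) +
          (M 0 1 * M 1 0 + M 1 0 * M 0 1) := by
      rw [← dfi_tr A V (g * g), dfi_sq, Matrix.trace_fin_two, Matrix.mul_apply, Matrix.mul_apply,
        Fin.sum_univ_two, Fin.sum_univ_two]
      ring
    rw [e]
    exact dfi_add (dfi_add (dfi_mul m00 n00) (dfi_mul m11 n11))
      (dfi_add (dfi_mul m01 m10.le) (dfi_mul m10 m01.le))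
  -- traces by the type
  have s1 : ‖trc V g - (b : E) ^ j * (1 + b)‖ < 1 := by
    have h1 : ‖trc V g - (b : E) ^ j * ((α 1 : Eˣ) + (β 1 : Eˣ) * (b : E) ^ 1)‖ < 1 :=
      h g 1 b (acts_mod hN1 hv.symm) hu
    rwa [map_one, map_one, Units.val_one, one_mul, pow_one] at h1
  have s2 : ‖trc V (g * g) - (b : E) ^ j * (b : E) ^ j * (1 + b * b)‖ < 1 := by
    have h1 : ‖trc V (g * g) - ((b * b : ℕ) : E) ^ j *
        ((α 1 : Eˣ) + (β 1 : Eˣ) * ((b * b : ℕ) : E) ^ 1)‖ < 1 :=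
      h (g * g) 1 (b * b) (acts_mod hN2 hv.symm) (acts_mul hu hu)
    rwa [map_one, map_one, Units.val_one, one_mul, pow_one, Nat.cast_mul, mul_pow] at h1
  have hxn : ‖(b : E) ^ j‖ = 1 := by rw [norm_pow, hbn, one_pow]
  have hfin : ‖(b : E) - 1‖ < 1 := dfi_alg h2n hxn hbn.le t1 t2 s1 s2
  have hb1 : 1 ≤ b := Nat.one_le_iff_ne_zero.2 fun h0 => hbp (h0 ▸ dvd_zero p)
  have hdvd : p ∣ b - 1 := by
    refine (Pool.Agent.Helper60.FM.norm_natCast_lt_one_iff (p := p) (E := E) (b - 1)).1 ?_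
    rwa [Nat.cast_sub hb1, Nat.cast_one]
  have hp1 : Acts p g 1 := acts_mod hu ((Nat.modEq_iff_dvd' hb1).2 hdvd).symm
  -- the product
  obtain ⟨w, hw⟩ := acts_exists (N * p) g
  have c1 : (w : ZMod (N * p)).val ≡ 1 [MOD N] :=
    acts_inj (acts_of_dvd (Dvd.intro p rfl) hw) hN1
  have c2 : (w : ZMod (N * p)).val ≡ 1 [MOD p] :=
    acts_inj (acts_of_dvd (Dvd.intro_left N rfl) hw) hp1
  have hcop : N.Coprime p := ((Nat.Prime.coprime_iff_not_dvd hpp).2 hpN).symm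
  exact acts_mod hw ((Nat.modEq_and_modEq_iff_modEq_mul hcop).1 ⟨c1, c2⟩)

end Pool.Agent.AAU
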