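import Pool.Agent.AAU.DefsP
import Pool.Agent.Helper60.FM.MainA

/-!
# AAU-DfN: the field cut out by the reduction of a lattice

`H = {g | TrivRed A V g}` is a subgroup (the entries of `A V(g) A⁻¹` have norm at most `1`, the norm is ultrametric:
if `X ≡ 1`, `Y ≡ 1` then `X Y ≡ 1`; `X⁻¹ = 1 - X⁻¹ (X - 1)`), normal (`Y (X - 1) Y⁻¹ ≡ 0`), and open: `g ↦ (A V(g) A⁻¹) i j` is
continuous and `{x | ‖x - c‖ < 1}` is open. `M = fixedField H`, with `M.fixingSubgroup = H`
(`Pool.Agent.Helper60.FM.open_field`).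
-/

open NumberField

namespace Pool.Agent.AAU

open Pool.Agent.AAP Pool.Agent.Helper60.FM

private theorem dfn_lt_le {E : Type} [NormedField E] [IsUltrametricDist E]
    {X Y : Matrix (Fin 2) (Fin 2) E} (hX : ∀ i j, ‖X i j‖ < 1) (hY : ∀ i j, ‖Y i j‖ ≤ 1) :
    ∀ i j, ‖(X * Y) i j‖ < 1 := by
  intro i j
  rw [Matrix.mul_apply, Fin.sum_univ_two]
  refine lt_of_le_of_lt (IsUltrametricDist.norm_add_le_max _ _) (max_lt ?_ ?_)
  · rw [norm_mul]
    exact lt_of_le_of_lt (mul_le_of_le_one_right (norm_nonneg _) (hY _ _)) (hX _ _)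
  · rw [norm_mul]
    exact lt_of_le_of_lt (mul_le_of_le_one_right (norm_nonneg _) (hY _ _)) (hX _ _)

private theorem dfn_le_lt {E : Type} [NormedField E] [IsUltrametricDist E]
    {X Y : Matrix (Fin 2) (Fin 2) E} (hX : ∀ i j, ‖X i j‖ ≤ 1) (hY : ∀ i j, ‖Y i j‖ < 1) :
    ∀ i j, ‖(X * Y) i j‖ < 1 := by
  intro i j
  rw [Matrix.mul_apply, Fin.sum_univ_two]
  refine lt_of_le_of_lt (IsUltrametricDist.norm_add_le_max _ _) (max_lt ?_ ?_)
  · rw [norm_mul]
    exact lt_of_le_of_lt (mul_le_of_le_one_left (norm_nonneg _) (hX _ _)) (hY _ _)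
  · rw [norm_mul]
    exact lt_of_le_of_lt (mul_le_of_le_one_left (norm_nonneg _) (hX _ _)) (hY _ _)

private theorem dfn_add {E : Type} [NormedField E] [IsUltrametricDist E]
    {X Y : Matrix (Fin 2) (Fin 2) E} (hX : ∀ i j, ‖X i j‖ < 1) (hY : ∀ i j, ‖Y i j‖ < 1) :
    ∀ i j, ‖(X + Y) i j‖ < 1 := by
  intro i j
  rw [Matrix.add_apply]
  exact lt_of_le_of_lt (IsUltrametricDist.norm_add_le_max _ _) (max_lt (hX i j) (hY i j))

/-- the matrix of the conjugate -/
private noncomputable def dfnW {E : Type} [NormedField E] (V : Gam →* GL2 E) (A : GL2 E)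
    (g : Gam) : Matrix (Fin 2) (Fin 2) E := (A * V g * A⁻¹).mat

private theorem dfnW_mul {E : Type} [NormedField E] (V : Gam →* GL2 E) (A : GL2 E) (g h : Gam) :
    dfnW V A (g * h) = dfnW V A g * dfnW V A h := by
  have h1 : A * V (g * h) * A⁻¹ = (A * V g * A⁻¹) * (A * V h * A⁻¹) := by
    rw [map_mul]
    group
  unfold dfnW
  rw [h1]
  rfl

private theorem dfnW_one {E : Type} [NormedField E] (V : Gam →* GL2 E) (A : GL2 E) :
    dfnW V A 1 = 1 := by
  have h1 : A * V 1 * A⁻¹ = 1 := by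
    rw [map_one]
    group
  unfold dfnW
  rw [h1]
  rfl

private theorem dfn_iff {E : Type} [NormedField E] (V : Gam →* GL2 E) (A : GL2 E) (g : Gam) :
    TrivRed A V g ↔ ∀ i j, ‖(dfnW V A g - 1) i j‖ < 1 := Iff.rfl

private theorem dfnW_cont {E : Type} [NormedField E] (V : Gam →* GL2 E) (hV : Continuous V)
    (A : GL2 E) : Continuous fun g : Gam => dfnW V A g := by
  have h1 : Continuous fun g : Gam => (V g).mat := Units.continuous_val.comp hV
  have h2 : (fun g : Gam => dfnW V A g) = fun g : Gam => A.mat * (V g).mat * (A⁻¹).mat := by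
    funext g
    rfl
  rw [h2]
  exact (continuous_const.matrix_mul h1).matrix_mul continuous_const

private theorem dfn_open {E : Type} [NormedField E] (V : Gam →* GL2 E) (hV : Continuous V)
    (A : GL2 E) : IsOpen {g : Gam | TrivRed A V g} := by
  have h1 : {g : Gam | TrivRed A V g} =
      ⋂ i : Fin 2, ⋂ j : Fin 2, {g : Gam | ‖(dfnW V A g - 1) i j‖ < 1} := by
    ext g
    rw [Set.mem_iInter]
    constructor
    · intro h i
      rw [Set.mem_iInter]
      intro j
      exact h i j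
    · intro h i j
      exact (Set.mem_iInter.1 (h i)) j
  rw [h1]
  refine isOpen_iInter_of_finite fun i => isOpen_iInter_of_finite fun j => ?_
  refine isOpen_lt ?_ continuous_const
  exact (((dfnW_cont V hV A).sub continuous_const).matrix_elem i j).norm

/-- the subgroup of the elements with trivial reduction -/
private noncomputable def dfnH {E : Type} [NormedField E] [IsUltrametricDist E]
    (V : Gam →* GL2 E) (A : GL2 E) (hA : IntConj A V) : Subgroup Gam where
  carrier := {g : Gam | TrivRed A V g}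
  mul_mem' := by
    intro g h hg hh
    rw [Set.mem_ofPred_eq, dfn_iff] at hg hh ⊢
    have e : dfnW V A (g * h) - 1 = (dfnW V A g - 1) * dfnW V A h + (dfnW V A h - 1) := by
      rw [dfnW_mul, sub_mul, one_mul]
      abel
    rw [e]
    exact dfn_add (dfn_lt_le hg (hA h)) hh
  one_mem' := by
    rw [Set.mem_ofPred_eq, dfn_iff, dfnW_one, sub_self]
    intro i j
    rw [Matrix.zero_apply, norm_zero]
    exact one_pos
  inv_mem' := by
    intro g hg
    rw [Set.mem_ofPred_eq, dfn_iff] at hg ⊢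
    have e0 : dfnW V A g⁻¹ * dfnW V A g = 1 := by
      rw [← dfnW_mul, inv_mul_cancel, dfnW_one]
    have e : dfnW V A g⁻¹ - 1 = -(dfnW V A g⁻¹ * (dfnW V A g - 1)) := by
      rw [mul_sub, e0, mul_one]
      abel
    intro i j
    rw [e, Matrix.neg_apply, norm_neg]
    exact dfn_le_lt (hA g⁻¹) hg i j

private theorem dfnH_normal {E : Type} [NormedField E] [IsUltrametricDist E]
    (V : Gam →* GL2 E) (A : GL2 E) (hA : IntConj A V) : (dfnH V A hA).Normal := by
  refine ⟨?_⟩
  intro g hg h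
  have hg' : ∀ i j, ‖(dfnW V A g - 1) i j‖ < 1 := hg
  change ∀ i j, ‖(dfnW V A (h * g * h⁻¹) - 1) i j‖ < 1
  have e0 : dfnW V A h * dfnW V A h⁻¹ = 1 := by
    rw [← dfnW_mul, mul_inv_cancel, dfnW_one]
  have e : dfnW V A (h * g * h⁻¹) - 1 = dfnW V A h * (dfnW V A g - 1) * dfnW V A h⁻¹ := by
    rw [dfnW_mul, dfnW_mul, mul_sub, mul_one, sub_mul, e0]
  rw [e]
  exact dfn_lt_le (dfn_le_lt (hA h) hg') (hA h⁻¹)

/-- the same subgroup, as a subgroup of `GQ` -/
private noncomputable def dfnG {E : Type} [NormedField E] [IsUltrametricDist E]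
    (V : Gam →* GL2 E) (A : GL2 E) (hA : IntConj A V) : Subgroup GQ := dfnH V A hA

private theorem dfnG_normal {E : Type} [NormedField E] [IsUltrametricDist E]
    (V : Gam →* GL2 E) (A : GL2 E) (hA : IntConj A V) : (dfnG V A hA).Normal :=
  dfnH_normal V A hA

private theorem dfnG_open {E : Type} [NormedField E] [IsUltrametricDist E]
    (V : Gam →* GL2 E) (hV : Continuous V) (A : GL2 E) (hA : IntConj A V) :
    IsOpen ((dfnG V A hA : Subgroup GQ) : Set GQ) :=
  dfn_open V hV A

private theorem dfnG_mem {E : Type} [NormedField E] [IsUltrametricDist E]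
    (V : Gam →* GL2 E) (A : GL2 E) (hA : IntConj A V) (g : Gam) :
    ((g : GQ) ∈ dfnG V A hA) ↔ TrivRed A V g := Iff.rfl

theorem field_of_red {E : Type} [NormedField E] [IsUltrametricDist E] (V : Gam →* GL2 E)
    (hV : Continuous V) (A : GL2 E) (hA : IntConj A V) :
    ∃ M : IntermediateField ℚ Qb, FiniteDimensional ℚ M ∧ IsGalois ℚ M ∧
      ∀ g : Gam, (∀ x ∈ M, g.ap x = x) ↔ TrivRed A V g := by
  have hn : (dfnG V A hA).Normal := dfnG_normal V A hA
  obtain ⟨h1, h2, h3⟩ := open_field (dfnG V A hA) (dfnG_open V hV A hA)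
  refine ⟨IntermediateField.fixedField (dfnG V A hA), h1, h2, ?_⟩
  intro g
  have h4 : (g : GQ) ∈ (IntermediateField.fixedField (dfnG V A hA)).fixingSubgroup ↔
      (g : GQ) ∈ dfnG V A hA := by
    rw [h3]
  have h5 : (∀ x ∈ IntermediateField.fixedField (dfnG V A hA), g.ap x = x) ↔
      (g : GQ) ∈ (IntermediateField.fixedField (dfnG V A hA)).fixingSubgroup :=
    (IntermediateField.mem_fixingSubgroup_iff _ (g : GQ)).symm
  exact h5.trans (h4.trans (dfnG_mem V A hA g))

end Pool.Agent.AAU
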