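import Pool.Agent.AAP.Lift

/-!
# AAU-DfU: no inertia, no different

`M`, `T` number fields, `T / M` Galois, `j : T → Qb`, `p` a prime number. Assume that every element of
an inertia group of `GQ` at a prime of `ZQ` above `p` which fixes `j M` fixes `j T`. Then a prime `W`
of `𝓞 T` above `p` has trivial inertia group in `Gal(T/M)` (lift `σ` to `h` in `GQ`, then use
`lift_inertia` for the group of all elements fixing `j T`), so its ramification index is `1`,
it is unramified over `𝓞 M` and does not divide the different.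
-/

open NumberField Pointwise

namespace Pool.Agent.AAU

open Pool.Agent.AAP Pool.Agent.Helper60.FM

/-- the map to the ring of all algebraic integers -/
private noncomputable def DfU_Z {L : Type} [Field L] [NumberField L] (j : L →+* Qb) :
    𝓞 L →+* ZQ :=
  (j.comp (algebraMap (𝓞 L) L)).codRestrict (integralClosure ℤ Qb).toSubring
    (fun x => by
      have h : IsIntegral ℤ ((x : L)) := x.2
      exact h.map j.toIntAlgHom)

private theorem DfU_coe {L : Type} [Field L] [NumberField L] (j : L →+* Qb) (x : 𝓞 L) :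
    ((DfU_Z j x : ZQ) : Qb) = j (x : L) := rfl

private theorem DfU_surj {L : Type} [Field L] [NumberField L] (j : L →+* Qb) (z : ZQ) (y : L)
    (h : j y = (z : Qb)) : ∃ x : 𝓞 L, DfU_Z j x = z := by
  have h1 : IsIntegral ℤ (z : Qb) := z.2
  have h2 : IsIntegral ℤ y := by
    rw [← h] at h1
    exact (isIntegral_algHom_iff j.toIntAlgHom j.injective).1 h1
  refine ⟨⟨y, h2⟩, ?_⟩
  apply Subtype.ext
  rw [DfU_coe]
  exact h

private theorem DfU_smul_coe (g : GQ) (x : ZQ) : ((g • x : ZQ) : Qb) = g (x : Qb) := rfl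

private theorem DfU_smul_coeL {F L : Type} [Field F] [NumberField F] [Field L] [NumberField L]
    [Algebra F L] (σ : Gal(L/F)) (x : 𝓞 L) : ((σ • x : 𝓞 L) : L) = σ (x : L) := rfl

/-- an automorphism of a subfield extends to `Qb` -/
private theorem DfU_ext {T : Type} [Field T] [NumberField T] (j : T →+* Qb) (σ : T ≃ₐ[ℚ] T) :
    ∃ h : GQ, ∀ x : T, h (j x) = j (σ x) := by
  let _ : Algebra T Qb := j.toAlgebra
  have _h1 : IsScalarTower ℚ T Qb := IsScalarTower.of_algebraMap_eq' (Subsingleton.elim _ _)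
  exact ⟨σ.liftNormal Qb, fun x => σ.liftNormal_commutes Qb x⟩

/-- the inertia group is trivial -/
private theorem DfU_inertia (p : ℕ) (M T : Type) [Field M] [NumberField M]
    [Field T] [NumberField T] [Algebra M T] [IsGalois M T] (j : T →+* Qb)
    (hI : ∀ 𝔓 : Ideal ZQ, 𝔓.IsPrime → (p : ZQ) ∈ 𝔓 → ∀ g ∈ In 𝔓,
      (∀ x : M, g (j (algebraMap M T x)) = j (algebraMap M T x)) → ∀ x : T, g (j x) = j x)
    (W : Ideal (𝓞 T)) (hW : W.IsPrime) (hpW : (p : 𝓞 T) ∈ W) :
    Ideal.inertia Gal(T/M) W = ⊥ := by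
  rw [eq_bot_iff]
  intro σ hσ
  rw [Subgroup.mem_bot]
  have hinj : Function.Injective (DfU_Z j) := by
    intro x y hxy
    have h1 := congrArg (fun z : ZQ => (z : Qb)) hxy
    exact RingOfIntegers.ext (j.injective h1)
  obtain ⟨𝔓, hP, hc⟩ : ∃ 𝔓 : Ideal ZQ, 𝔓.IsPrime ∧ 𝔓.comap (DfU_Z j) = W := by
    letI := (DfU_Z j).toAlgebra
    haveI : Algebra.IsIntegral (𝓞 T) ZQ := by
      constructor
      intro z
      have h1 : IsIntegral ℤ z := Algebra.IsIntegral.isIntegral z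
      exact h1.tower_top
    obtain ⟨Q, _, hQ, hQ'⟩ := Ideal.exists_ideal_over_prime_of_isIntegral W (⊥ : Ideal ZQ) (by
      intro x hx
      have h1 : DfU_Z j x = 0 := hx
      have h2 : x = 0 := hinj (h1.trans (map_zero _).symm)
      rw [h2]
      exact W.zero_mem)
    exact ⟨Q, hQ, hQ'⟩
  have hp𝔓 : (p : ZQ) ∈ 𝔓 := by
    rw [← hc, Ideal.mem_comap, map_natCast] at hpW
    exact hpW
  obtain ⟨h, hh⟩ := DfU_ext j (σ.restrictScalars ℚ)
  have hh1 : ∀ x : T, h (j x) = j (σ x) := hh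
  have hh' : ∀ x : T, (h⁻¹ : GQ) (j x) = j (σ⁻¹ x) := by
    intro x
    have h1 : h (j (σ⁻¹ x)) = j x := by
      rw [hh1, ← AlgEquiv.mul_apply, mul_inv_cancel, AlgEquiv.one_apply]
    rw [← h1, ← AlgEquiv.mul_apply, inv_mul_cancel, AlgEquiv.one_apply]
  obtain ⟨K, hK⟩ : ∃ K : IntermediateField ℚ Qb, ∀ x : Qb, x ∈ K ↔ ∃ y, j y = x :=
    ⟨j.toRatAlgHom.fieldRange, fun x => Iff.rfl⟩
  have hmem : ∀ g : GQ, g ∈ K.fixingSubgroup ↔ ∀ x : T, g (j x) = j x := by
    intro g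
    rw [IntermediateField.mem_fixingSubgroup_iff]
    constructor
    · intro hg x
      exact hg _ ((hK _).2 ⟨x, rfl⟩)
    · intro hg x hx
      obtain ⟨y, rfl⟩ := (hK x).1 hx
      exact hg y
  have hcl : IsClosed (K.fixingSubgroup : Set GQ) := InfiniteGalois.fixingSubgroup_isClosed K
  have hfix : ∀ x : Qb, (∀ g ∈ K.fixingSubgroup, g x = x) → ∃ y, j y = x := by
    intro x hx
    rw [← hK, ← InfiniteGalois.fixedField_fixingSubgroup K, IntermediateField.mem_fixedField_iff]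
    exact hx
  obtain ⟨k', hk', hkI⟩ := lift_inertia K.fixingSubgroup hcl 𝔓 hP h
    (fun k hk => by
      rw [hmem] at hk ⊢
      intro x
      rw [AlgEquiv.mul_apply, AlgEquiv.mul_apply, hh', hk, ← hh', ← AlgEquiv.mul_apply,
        mul_inv_cancel, AlgEquiv.one_apply])
    (fun k hk => by
      rw [hmem] at hk ⊢
      intro x
      rw [AlgEquiv.mul_apply, AlgEquiv.mul_apply, hh1, hk, ← hh1, ← AlgEquiv.mul_apply,
        inv_mul_cancel, AlgEquiv.one_apply])
    (fun x hx => by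
      obtain ⟨y, hy⟩ := hfix (x : Qb) (fun k hk => congrArg (fun z : ZQ => (z : Qb)) (hx k hk))
      obtain ⟨y', rfl⟩ := DfU_surj j x y hy
      have h1 : σ • y' - y' ∈ W := hσ y'
      rw [← hc, Ideal.mem_comap, map_sub] at h1
      have h2 : DfU_Z j (σ • y') = h • DfU_Z j y' := by
        apply Subtype.ext
        rw [DfU_coe, DfU_smul_coe, DfU_coe, DfU_smul_coeL, hh1]
      rwa [h2] at h1)
  have hk1 : ∀ x : T, k' (j x) = j x := (hmem k').1 hk'
  have h2 := hI 𝔓 hP hp𝔓 _ hkI (fun x => by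
    rw [AlgEquiv.mul_apply, hk1, hh1, σ.commutes])
  apply AlgEquiv.ext
  intro x
  have h3 := h2 x
  rw [AlgEquiv.mul_apply, hk1, hh1] at h3
  rw [AlgEquiv.one_apply]
  exact j.injective h3

theorem unr_diff (p : ℕ) (hp : p.Prime) (M T : Type) [Field M] [NumberField M]
    [Field T] [NumberField T] [Algebra M T] [IsGalois M T] (j : T →+* Qb)
    (hI : ∀ 𝔓 : Ideal ZQ, 𝔓.IsPrime → (p : ZQ) ∈ 𝔓 → ∀ g ∈ In 𝔓,
      (∀ x : M, g (j (algebraMap M T x)) = j (algebraMap M T x)) → ∀ x : T, g (j x) = j x)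
    (W : Ideal (𝓞 T)) (hW : W.IsPrime) (hpW : (p : 𝓞 T) ∈ W) :
    ¬ W ∣ differentIdeal (𝓞 M) (𝓞 T) := by
  have hin := DfU_inertia p M T j hI W hW hpW
  have hW0 : W ≠ ⊥ := by
    rintro rfl
    rw [Ideal.mem_bot, Nat.cast_eq_zero] at hpW
    exact hp.ne_zero hpW
  have hU0 : W.under (𝓞 M) ≠ ⊥ := mt Ideal.eq_bot_of_comap_eq_bot hW0
  have hUp : (W.under (𝓞 M)).IsPrime := inferInstance
  have hUm : (W.under (𝓞 M)).IsMaximal := hUp.isMaximal hU0
  have hfin : Finite (𝓞 M ⧸ W.under (𝓞 M)) := Ring.HasFiniteQuotients.finiteQuotient hU0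
  have he : W.ramificationIdx (𝓞 M) = 1 := by
    rw [← Ideal.ramificationIdxIn_eq_ramificationIdx (W.under (𝓞 M)) W Gal(T/M),
      ← Ideal.card_inertia_eq_ramificationIdxIn (G := Gal(T/M)) (W.under (𝓞 M)) W, hin]
    simp
  have hun : Algebra.IsUnramifiedAt (𝓞 M) W := Ideal.ramificationIdx_eq_one_iff.1 he
  letI : Algebra (FractionRing (𝓞 M)) (FractionRing (𝓞 T)) := FractionRing.liftAlgebra _ _
  have _h1 : Algebra.IsAlgebraic (FractionRing (𝓞 M)) (FractionRing (𝓞 T)) :=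
    isAlgebraic_of_isFractionRing (𝓞 M) (𝓞 T) (FractionRing (𝓞 M)) (FractionRing (𝓞 T))
  have _h2 : Algebra.IsSeparable (FractionRing (𝓞 M)) (FractionRing (𝓞 T)) := inferInstance
  exact not_dvd_differentIdeal_iff.2 hun

end Pool.Agent.AAU
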