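import Pool.Agent.AAU.DefsP

/-!
# AAU-DfV (0.6h): from valuations to `PU`

The proof. `k = m`: `x = β ^ (p - 1) p ^ m` (in `Qbar`) has `x ^ p = j y` with `y = α ^ (p - 1) p ^ (p m) ∈ K` and
`v(y) = exp (p m (p - 1) - (p - 1) p m) = 1`. So `y = s / t` with `s, t ∈ 𝓞 K`, `s, t ∉ v` (`HeightOneSpectrum` API, compare
`exists_lift_of_le_one`, or `IsLocalization.AtPrime`). Take `a = j t`, `b = x j t`: `b ^ p = j (s t ^ (p - 1))` is integral over `ℤ`, so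
`b ∈ AI` (an integral closure is integrally closed, `IsIntegral.of_pow`), and `b ^ p ∉ 𝔓`, so `b ∉ 𝔓`; `a ∉ 𝔓`.
-/

open NumberField IsDedekindDomain

namespace Pool.Agent.AAU

open Pool.Agent.AAP Pool.Agent.Helper60.FM

private theorem DfV_mk (x : Qbar) (hx : IsIntegral ℤ x) : ∃ a : AI, a.val = x :=
  ⟨(⟨x, hx⟩ : integralClosure ℤ Qbar), rfl⟩

private theorem DfV_ext (a b : AI) (h : a.val = b.val) : a = b := Subtype.ext h

private theorem DfV_pow (a : AI) (n : ℕ) : (a ^ n).val = a.val ^ n := rfl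

private theorem DfV_int (K : Type) [Field K] (j : K →+* Qb) (x : 𝓞 K) :
    IsIntegral ℤ (j (x : K)) :=
  (NumberField.RingOfIntegers.isIntegral_coe x).map (j.toIntAlgHom)

private theorem DfV_val (p : ℕ) (hp : p.Prime) (K : Type) [Field K] [NumberField K]
    (v : HeightOneSpectrum (𝓞 K))
    (hvp : v.valuation K (p : K) = WithZero.exp (-((p : ℤ) - 1))) (α : K) (m : ℤ)
    (hm : v.valuation K α = WithZero.exp ((p : ℤ) * m)) :
    v.valuation K (α ^ (p - 1) * (p : K) ^ ((p : ℤ) * m)) = 1 := by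
  rw [map_mul, map_pow, map_zpow₀, hm, hvp, ← WithZero.exp_nsmul, ← WithZero.exp_zsmul,
    ← WithZero.exp_add, ← WithZero.exp_zero]
  congr 1
  have h1 : ((p - 1 : ℕ) : ℤ) = (p : ℤ) - 1 := by
    have := hp.one_le
    push_cast [this]
    ring
  rw [nsmul_eq_mul, h1, zsmul_eq_mul]
  push_cast
  ring

theorem pu_at (p : ℕ) (hp : p.Prime) (K : Type) [Field K] [NumberField K] (j : K →+* Qb)
    (𝔓 : Ideal AI) (hP : 𝔓.IsPrime) (v : HeightOneSpectrum (𝓞 K))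
    (hv : ∀ (x : 𝓞 K) (y : AI), y.val = j x → (x ∈ v.asIdeal ↔ y ∈ 𝔓))
    (hvp : v.valuation K (p : K) = WithZero.exp (-((p : ℤ) - 1)))
    (β : Qbar) (hβ : β ≠ 0) (α : K) (hα : j α = β ^ p) (m : ℤ)
    (hm : v.valuation K α = WithZero.exp ((p : ℤ) * m)) :
    ∃ (k : ℤ) (a b : AI), a ∉ 𝔓 ∧ b ∉ 𝔓 ∧ β ^ (p - 1) * (p : Qbar) ^ k * a.val = b.val := by
  have hy := DfV_val p hp K v hvp α m hm
  set y : K := α ^ (p - 1) * (p : K) ^ ((p : ℤ) * m) with hydef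
  obtain ⟨n, d, hnd⟩ := v.exists_primeCompl_mul_eq_of_integer (K := K) y hy.le
  have hd : (d : 𝓞 K) ∉ v.asIdeal := d.2
  have hn : n ∉ v.asIdeal := by
    rw [← HeightOneSpectrum.valuation_eq_one_iff_notMem (K := K), ← hnd, map_mul, hy, one_mul]
    exact (HeightOneSpectrum.valuation_eq_one_iff_notMem (K := K) v).2 hd
  have hprime := v.isPrime
  have hnd' : n * (d : 𝓞 K) ^ (p - 1) ∉ v.asIdeal := fun h =>
    (hprime.mem_or_mem h).elim hn fun h2 => hd (hprime.mem_of_pow_mem _ h2)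
  obtain ⟨a, ha⟩ := DfV_mk (j ((d : 𝓞 K) : K)) (DfV_int K j d)
  obtain ⟨c, hc⟩ := DfV_mk (j ((n * (d : 𝓞 K) ^ (p - 1) : 𝓞 K) : K)) (DfV_int K j _)
  have ha' : a ∉ 𝔓 := fun h => hd ((hv _ a ha).2 h)
  have hc' : c ∉ 𝔓 := fun h => hnd' ((hv _ c hc).2 h)
  have hx : (β ^ (p - 1) * (p : Qbar) ^ m) ^ p = j y := by
    rw [hydef, map_mul, map_pow, map_zpow₀, hα, map_natCast, mul_pow, ← pow_mul, ← pow_mul,
      mul_comm (p - 1) p, zpow_mul', ← zpow_natCast]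
    rw [zpow_natCast, zpow_natCast]
  have hb : (β ^ (p - 1) * (p : Qbar) ^ m * a.val) ^ p = c.val := by
    rw [mul_pow, hx, ha, hc, ← map_pow, ← map_mul]
    congr 1
    have h1 : y * ((d : 𝓞 K) : K) = (n : K) := hnd
    have h2 : ((d : 𝓞 K) : K) ^ p = ((d : 𝓞 K) : K) * ((d : 𝓞 K) : K) ^ (p - 1) := by
      rw [← pow_succ', Nat.sub_add_cancel hp.one_le]
    rw [h2, ← mul_assoc, h1]
    push_cast
    rfl
  have hint : IsIntegral ℤ (β ^ (p - 1) * (p : Qbar) ^ m * a.val) := by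
    refine IsIntegral.of_pow hp.pos ?_
    rw [hb, hc]
    exact DfV_int K j _
  obtain ⟨b, hbv⟩ := DfV_mk _ hint
  refine ⟨m, a, b, ha', ?_, hbv.symm⟩
  intro hb'
  apply hc'
  have h3 : c = b ^ p := DfV_ext _ _ (by rw [DfV_pow, hbv, hb])
  rw [h3]
  exact Ideal.pow_mem_of_mem 𝔓 hb' p hp.pos

end Pool.Agent.AAU
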