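import Pool.Agent.AAU.DfF
import Pool.Agent.AAU.DfH
import Pool.Agent.AAU.DfU
import Pool.Agent.AAU.DfV
import Pool.Agent.AAU.DfN
import Pool.Agent.AAU.DfI
import Pool.Agent.AAU.RamP
import Pool.Agent.AAP.RedA
import Pool.Agent.AAP.RedB

/-!
# Fontaine's bound implies peu ramifiée
-/

open NumberField Pointwise Matrix IsDedekindDomain

namespace Pool.Agent.AAU

open Pool.Agent.AAP Pool.Agent.EDV Pool.Agent.Helper60.FM

/-- the elements acting trivially on the `m`-th roots of unity -/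
private theorem dfm_fix (m : ℕ) [NeZero m] (hm1 : 1 < m) (K : Type) [Field K] [NumberField K]
    [IsCyclotomicExtension {m} ℚ K] (i : K →+* Qb) (g : Gam) :
    Acts m g 1 ↔ ∀ x : K, g.ap (i x) = i x := by
  have : IsAbelianGalois ℚ K := IsCyclotomicExtension.isAbelianGalois {m} ℚ K
  have hF : Fact (1 < m) := ⟨hm1⟩
  let g' : GQ := g
  constructor
  · intro h
    let σ : Gal(K/ℚ) := (geqv K i).symm (res (imField K i) g')
    have hσ : ∀ x, i (σ x) = g' (i x) := geqv_symm_res K i g'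
    have h1 : Acts m g ((ZMod.unitsMap (dvd_refl m) (gq m K σ) : (ZMod m)ˣ) : ZMod m).val :=
      acts m K i g' σ hσ m (dvd_refl m)
    have h2 : ((gq m K σ : (ZMod m)ˣ) : ZMod m).val ≡ 1 [MOD m] := by
      refine acts_inj ?_ h
      rw [ZMod.unitsMap_self] at h1
      exact h1
    have h3 : gq m K σ = 1 := by
      apply Units.ext
      have h4 := (ZMod.natCast_eq_natCast_iff _ _ _).2 h2
      rw [ZMod.natCast_zmod_val, Nat.cast_one] at h4
      rw [h4, Units.val_one]
    have h4 : σ = 1 := (gq m K).injective (by rw [h3, map_one])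
    intro x
    have h5 : g' (i x) = i (σ x) := (hσ x).symm
    rw [h4] at h5
    exact h5
  · intro h
    have h1 : Acts m g ((ZMod.unitsMap (dvd_refl m) (gq m K 1) : (ZMod m)ˣ) : ZMod m).val :=
      acts m K i g' 1 (fun x => (h x).symm) m (dvd_refl m)
    rw [map_one, map_one, Units.val_one, ZMod.val_one] at h1
    exact h1

/-- an element of `Qb` fixed by the group of `F` is in `F` -/
private theorem dfm_mem (F : IntermediateField ℚ Qb) (x : Qb)
    (h : ∀ g : GQ, (∀ y ∈ F, g y = y) → g x = x) : x ∈ F := by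
  rw [← InfiniteGalois.fixedField_fixingSubgroup F, IntermediateField.mem_fixedField_iff]
  intro g hg
  exact h g fun y hy => (IntermediateField.mem_fixingSubgroup_iff F g).1 hg y hy

private theorem dfm_norm (S S' : IntermediateField ℚ Qb) (h : Normal ℚ S) (h' : Normal ℚ S') :
    Normal ℚ ↥(S ⊔ S') := by
  have e : ∀ S : IntermediateField ℚ Qb,
      (DivisionRing.toRatAlgebra : Algebra ℚ S) = IntermediateField.algebra' S :=
    fun S => Subsingleton.elim _ _
  have h1 := @IntermediateField.normal_sup ℚ Qb _ _ _ S S' (by rw [← e]; exact h)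
    (by rw [← e]; exact h')
  rw [← e] at h1
  exact h1

/-- the map to the ring of all algebraic integers -/
private noncomputable def dfmZ {K : Type} [Field K] [NumberField K] (j : K →+* Qb) :
    𝓞 K →+* ZQ :=
  (j.comp (algebraMap (𝓞 K) K)).codRestrict (integralClosure ℤ Qb).toSubring
    (fun x => by
      have h : IsIntegral ℤ ((x : K)) := x.2
      exact h.map j.toIntAlgHom)

private theorem dfmZ_coe {K : Type} [Field K] [NumberField K] (j : K →+* Qb) (x : 𝓞 K) :
    ((dfmZ j x : ZQ) : Qb) = j (x : K) := rfl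

private theorem dfm_core (p N : ℕ) [Fact p.Prime] [NeZero N] (hp : 2 < p) (hpN : ¬ p ∣ N)
    (K M T : Type) [Field K] [NumberField K] [IsCyclotomicExtension {N * p} ℚ K]
    [Field M] [NumberField M] [Field T] [NumberField T] [Algebra K T] [Algebra M T]
    [IsGalois ℚ T] (t : T →+* Qb)
    (hI : ∀ 𝔓 : Ideal ZQ, 𝔓.IsPrime → (p : ZQ) ∈ 𝔓 → ∀ g ∈ In 𝔓,
      (∀ x : M, g (t (algebraMap M T x)) = t (algebraMap M T x)) → ∀ x : T, g (t x) = t x)
    (hnd : ¬ (p : ℤ) ^ (p * Module.finrank ℚ M) ∣ discr M ^ (p - 1))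
    (a : K) (b : T) (hb0 : b ≠ 0) (hb : b ^ p = algebraMap K T a)
    (𝔓 : Ideal AI) (hP : 𝔓.IsPrime) (hpP : (p : AI) ∈ 𝔓) :
    ∃ (k : ℤ) (x y : AI), x ∉ 𝔓 ∧ y ∉ 𝔓 ∧ (t b : Qbar) ^ (p - 1) * (p : Qbar) ^ k * x.val = y.val := by
  have hpp : p.Prime := Fact.out
  have : IsGalois M T := IsGalois.tower_top_of_isGalois ℚ M T
  let 𝔓' : Ideal ZQ := 𝔓
  have hP' : 𝔓'.IsPrime := hP
  have hpP' : (p : ZQ) ∈ 𝔓' := hpP
  let s : K →+* Qb := t.comp (algebraMap K T)
  -- the primes
  have hne : ∀ (L : Type) [Field L] [NumberField L] (u : L →+* Qb),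
      𝔓'.comap (dfmZ u) ≠ ⊥ := by
    intro L _ _ u h0
    have h1 : (p : 𝓞 L) ∈ 𝔓'.comap (dfmZ u) := by
      rw [Ideal.mem_comap, map_natCast]
      exact hpP'
    rw [h0, Ideal.mem_bot] at h1
    exact hpp.ne_zero (by exact_mod_cast h1)
  let v : HeightOneSpectrum (𝓞 K) := ⟨𝔓'.comap (dfmZ s), Ideal.comap_isPrime _ _, hne K s⟩
  let W : HeightOneSpectrum (𝓞 T) := ⟨𝔓'.comap (dfmZ t), Ideal.comap_isPrime _ _, hne T t⟩
  have hWv : W.asIdeal.under (𝓞 K) = v.asIdeal := by
    ext x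
    rw [Ideal.under_def, Ideal.mem_comap]
    change dfmZ t (algebraMap (𝓞 K) (𝓞 T) x) ∈ 𝔓' ↔ dfmZ s x ∈ 𝔓'
    have h1 : dfmZ t (algebraMap (𝓞 K) (𝓞 T) x) = dfmZ s x := Subtype.ext rfl
    rw [h1]
  have hpv : (p : 𝓞 K) ∈ v.asIdeal := by
    change dfmZ s (p : 𝓞 K) ∈ 𝔓'
    rw [map_natCast]
    exact hpP'
  have hpW : (p : 𝓞 T) ∈ W.asIdeal := by
    change dfmZ t (p : 𝓞 T) ∈ 𝔓'
    rw [map_natCast]
    exact hpP'
  have hvp := ram_p N p hpN K v hpv
  have ha0 : a ≠ 0 := by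
    intro h0
    rw [h0, map_zero] at hb
    exact hb0 (pow_eq_zero_iff hpp.ne_zero |>.1 hb)
  have hva : v.valuation K a ≠ 0 := (Valuation.ne_zero_iff _).2 ha0
  obtain ⟨n, hn⟩ : ∃ n : ℤ, v.valuation K a = WithZero.exp n :=
    ⟨WithZero.log (v.valuation K a), (WithZero.exp_log hva).symm⟩
  by_cases hpn : (p : ℤ) ∣ n
  · obtain ⟨m, rfl⟩ := hpn
    refine pu_at p hpp K s 𝔓 hP v ?_ hvp (t b) ?_ a ?_ m hn
    · intro x y hy
      have h1 : (dfmZ s x : AI) = y := Subtype.ext hy.symm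
      rw [← h1]
      exact Iff.rfl
    · exact (map_ne_zero t).2 hb0
    · change t (algebraMap K T a) = t b ^ p
      rw [← hb, map_pow]
  · exfalso
    apply hnd
    refine discr_dvd p hpp M T W.asIdeal W.isPrime hpW ?_ ?_
    · intro m hm
      exact kum_prime p hpp hp K T a b hb v W hWv n hn hpn hvp m hm
    · intro W' hW' hpW'
      exact unr_diff p hpp M T t hI W' hW' hpW'

theorem peu_of_disc (p N : ℕ) [Fact p.Prime] [NeZero N] (hp : 2 < p) (hpN : ¬ p ∣ N) {E : Type}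
    [NormedField E] [IsUltrametricDist E] [NormedAlgebra ℚ_[p] E] (V : Gam →* GL2 E)
    (hV : Continuous V) (α β : (ZMod N)ˣ →* Eˣ) (j : ℕ) (h : SumType p 1 N α β j V)
    (hd : DiscType p V) : Peu p N V := by
  classical
  have hpp : p.Prime := Fact.out
  have hN1 : 1 ≤ N := Nat.pos_of_ne_zero (NeZero.ne N)
  have hNp1 : 1 < N * p := by nlinarith
  have hNp : NeZero (N * p) := ⟨by omega⟩
  intro A hA b hb0 hb hb'
  obtain ⟨M, hMfd, hMg, hM⟩ := field_of_red V hV A hA
  obtain ⟨K, _, _, hK, _⟩ := exists_cyc (N * p)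
  have : IsAbelianGalois ℚ K := IsCyclotomicExtension.isAbelianGalois {N * p} ℚ K
  let i : K →+* Qb := (IsAlgClosed.lift : K →ₐ[ℚ] Qb).toRingHom
  have hfix : ∀ g : Gam, Acts (N * p) g 1 ↔ ∀ x : K, g.ap (i x) = i x :=
    fun g => dfm_fix (N * p) hNp1 K i g
  -- the field `T`
  let T : IntermediateField ℚ Qb := imField K i ⊔ M
  have hTfd : FiniteDimensional ℚ T := by
    have : FiniteDimensional ℚ (imField K i) := inferInstance
    exact IntermediateField.finiteDimensional_sup _ _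
  have hKT : ∀ x : K, i x ∈ T := fun x => by
    have h1 : i x ∈ imField K i := (eqv K i x).2
    exact (le_sup_left : imField K i ≤ T) h1
  have hMT : M ≤ T := le_sup_right
  have hKg : IsGalois ℚ (imField K i) := inferInstance
  have hKn : Normal ℚ (imField K i) := hKg.to_normal
  have hMn : Normal ℚ M := hMg.to_normal
  have hTn : Normal ℚ T := dfm_norm _ _ hKn hMn
  have hTg : IsGalois ℚ T := ⟨⟩
  let _ : Algebra K T := (i.codRestrict T hKT).toAlgebra
  let _ : Algebra M T := (IntermediateField.inclusion hMT).toRingHom.toAlgebra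
  -- elements
  have hb1 : b ^ p ∈ imField K i := by
    refine dfm_mem _ _ fun g hg => hb g ?_
    rw [hfix]
    intro x
    exact hg (i x) (eqv K i x).2
  obtain ⟨a, ha⟩ := hb1
  have hb2 : (b : Qb) ∈ T := by
    refine dfm_mem _ _ fun g hg => hb' g ?_ ?_
    · rw [hfix]
      intro x
      exact hg (i x) (hKT x)
    · rw [← hM]
      intro x hx
      exact hg x (hMT hx)
  intro 𝔓 hP hpP
  refine dfm_core p N hp hpN K M T (algebraMap T Qb) ?_ ?_ a ⟨b, hb2⟩ ?_ ?_ 𝔓 hP hpP
  · intro 𝔔 hQ hpQ g hg hgM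
    have h1 : TrivRed A V g := by
      rw [← hM]
      intro x hx
      exact hgM ⟨x, hx⟩
    have h2 : Acts (N * p) g 1 :=
      iner_triv p N hp hpN V α β j h A 𝔔 hQ hpQ g ((iner_iff 𝔔 (g : Gam)).2 hg) h1
    rw [hfix] at h2
    have h3 : g ∈ T.fixingSubgroup := by
      change g ∈ (imField K i ⊔ M).fixingSubgroup
      rw [IntermediateField.fixingSubgroup_sup, Subgroup.mem_inf]
      refine ⟨(IntermediateField.mem_fixingSubgroup_iff _ g).2 fun y hy => ?_,
        (IntermediateField.mem_fixingSubgroup_iff _ g).2 fun y hy => hgM ⟨y, hy⟩⟩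
      obtain ⟨x, hx⟩ := hy
      change i x = y at hx
      rw [← hx]
      exact h2 x
    intro x
    exact (IntermediateField.mem_fixingSubgroup_iff _ g).1 h3 x x.2
  · exact hd A hA M hM
  · intro h0
    exact hb0 (congrArg Subtype.val h0)
  · apply Subtype.ext
    exact ha.symm

end Pool.Agent.AAU
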