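import Pool.Agent.AAP.DihQ
import Pool.Agent.AAU.CycC

/-!
# The dihedral case with exponents at most the class number

The proof of `dihCore` in `AAP/DihQ.lean` with `cycC` in place of `cycB`.
-/

open NumberField Pointwise Matrix Nat

namespace Pool.Agent.AAU

open Pool.Agent.AAP Pool.Agent.Helper60.FM

theorem dihCoreU (n N : ℕ) (hn : 1 ≤ n) (D : ℤ) (δ : Qb) (hD : δ ^ 2 = D)
    (s₀ : GQ) (hs₀ : s₀ ∉ Stab δ) (hfd : FiniteDimensional ℚ (FF δ))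
    (hfr : Module.finrank ℚ (FF δ) = 2) (ε : (𝓞 (FF δ))ˣ) (M : ℕ)
    (hM : ∀ p : ℕ, p.Prime → ∀ v : Ideal (𝓞 (FF δ)), v.IsPrime → (p : 𝓞 (FF δ)) ∈ v →
      ∀ m : ℕ, 0 < m → m ≤ classNumber (FF δ) →
      (ε : 𝓞 (FF δ)) ^ (m * (2 * N * n)) - 1 ∈ v → p ∣ M) :
    ∀ (p : ℕ) [Fact p.Prime], 2 * n + 1 < p → ¬ p ∣ M → Good N δ n p := by
  classical
  intro p _ hp hpM E _ _ _ V heven χ hopen hA hB hout hFL
  have hpp : p.Prime := Fact.out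
  obtain ⟨H₁, hH1, hH2, hH3, ⟨h₀, hh₀, hh₀'⟩, hχ⟩ := hx (E := E) δ χ hopen (2 * N)
  have hle : H₁ ≤ (FF δ).fixingSubgroup := by
    rw [fixing_FF]
    intro g hg
    obtain ⟨h, _⟩ := (hH2 g).1 hg
    exact h
  have hccS : ∀ c, IsCC c → c ∈ Stab δ := by
    intro c hc
    by_contra hcon
    have h2 := hA c hcon
    rw [norm_tr_cc (p := p) (by omega) V c (isCC_mul_self hc) (heven c hc)] at h2
    exact lt_irrefl _ h2
  have hcc : ∀ c, IsCC c → c ∈ H₁ := by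
    intro c hc
    rw [hH2]
    refine ⟨hccS c hc, ?_⟩
    have h3 : (⟨c, hccS c hc⟩ : Stab δ) ^ 2 = 1 := by
      apply Subtype.ext
      change c ^ 2 = 1
      rw [sq, isCC_mul_self hc]
    have h4 : ((χ ⟨c, hccS c hc⟩ : Eˣ) : E) ^ (2 * N) = 1 := by
      rw [pow_mul, ← Units.val_pow_eq_pow_val, ← map_pow, h3, map_one, Units.val_one, one_pow]
    rw [h4, sub_self, norm_zero]
    exact zero_lt_one
  have hnorm : ∀ h ∈ (FF δ).fixingSubgroup, ∀ k ∈ H₁, h * k * h⁻¹ ∈ H₁ := by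
    rw [fixing_FF]
    exact hH3
  have hcyc : ∀ h ∈ (FF δ).fixingSubgroup, ∃ i : ℕ, h₀ ^ i * h ∈ H₁ := by
    rw [fixing_FF]
    exact hh₀'
  have hh₀F : h₀ ∈ (FF δ).fixingSubgroup := by
    rw [fixing_FF]
    exact hh₀
  -- powers congruent to one
  have hpow : ∀ h : Stab δ, ∀ i j : ℕ, ‖((χ h : Eˣ) : E) ^ i - 1‖ < 1 →
      ‖((χ h : Eˣ) : E) ^ (i * j) - 1‖ < 1 := by
    intro h i j h1
    have h2 : Cg (((χ h : Eˣ) : E) ^ i) 1 := h1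
    have h3 := h2.pow (by rw [norm_one]) j
    rw [one_pow, ← pow_mul] at h3
    exact h3
  -- the end of the proof
  have fin : ∀ (𝔓₀ : Ideal ZQ), 𝔓₀.IsPrime → (p : ZQ) ∈ 𝔓₀ → ∀ τ : Stab δ, (τ : GQ) ∈ In 𝔓₀ →
      (∀ 𝔔 : Ideal ZQ, 𝔔.IsPrime → (p : ZQ) ∈ 𝔔 →
        ¬ (∀ x : 𝓞 (FF δ), toZ (FF δ) x ∈ 𝔔 ↔ toZ (FF δ) x ∈ 𝔓₀) →
        ∀ h : Stab δ, (h : GQ) ∈ In 𝔔 → ‖(χ h : E) - 1‖ < 1) →
      (∀ i : ℕ, ‖(χ τ : E) ^ i - 1‖ < 1 →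
        Nat.card (𝓞 (FF δ) ⧸ 𝔓₀.comap (toZ (FF δ))) - 1 ∣ i * n) → False := by
    intro 𝔓₀ hP₀ hpP₀ τ hτ hother hord
    set v : Ideal (𝓞 (FF δ)) := 𝔓₀.comap (toZ (FF δ)) with hv
    have hvp : v.IsPrime := Ideal.comap_isPrime _ _
    have hpv : (p : 𝓞 (FF δ)) ∈ v := by
      rw [hv, Ideal.mem_comap, map_natCast]
      exact hpP₀
    have hv0 : v ≠ ⊥ := by
      intro h
      rw [h, Ideal.mem_bot] at hpv
      exact hpp.ne_zero (by exact_mod_cast hpv)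
    have hover : ∀ 𝔔 : Ideal ZQ, Over (FF δ) 𝔔 v ↔
        ∀ x : 𝓞 (FF δ), toZ (FF δ) x ∈ 𝔔 ↔ toZ (FF δ) x ∈ 𝔓₀ := fun 𝔔 => Iff.rfl
    have h0 := cycC (FF δ) H₁ hH1 hle hnorm hcc h₀ hh₀F hcyc v hvp hv0 ?_ 𝔓₀ hP₀
      (fun x => Iff.rfl) τ hτ (by rw [fixing_FF]; exact τ.2) (2 * N * n) ?_ ε
    · obtain ⟨m, hm0, hmh, h1⟩ := h0
      exact hpM (hM p hpp v hvp hpv m hm0 hmh h1)
    · intro 𝔔 hQ hQv g hg hgF
      rw [fixing_FF] at hgF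
      rw [hH2]
      refine ⟨hgF, ?_⟩
      by_cases hpQ : (p : ZQ) ∈ 𝔔
      · have h2 := hother 𝔔 hQ hpQ (fun h => hQv ((hover 𝔔).2 h)) ⟨g, hgF⟩ hg
        have h3 := hpow ⟨g, hgF⟩ 1 (2 * N) (by rw [pow_one]; exact h2)
        rw [one_mul] at h3
        exact h3
      · have h2 := hout 𝔔 hQ hpQ ⟨g, hgF⟩ hg
        have h3 := hpow ⟨g, hgF⟩ N 2 h2
        rw [mul_comm] at h3
        exact h3
    · intro i hi
      rw [hH2] at hi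
      obtain ⟨hi1, hi2⟩ := hi
      have h2 : (χ ⟨(τ : GQ) ^ i, hi1⟩ : Eˣ) = χ τ ^ i := by
        rw [← map_pow]
        rfl
      rw [h2, Units.val_pow_eq_pow_val, ← pow_mul] at hi2
      have h3 := hord _ hi2
      rw [mul_assoc] at h3
      exact h3
  obtain ⟨𝔓, hP, hpP, hFL | ⟨θ, hθ, hθ1, hθ2, hFL⟩⟩ := hFL
  · obtain ⟨𝔓₀, τ, k1, k2, k3, k4, k5, 𝔔, k6, k7, k8⟩ :=
      flA p n hn hp V δ D hD s₀ hs₀ χ hχ hA hB 𝔓 hP hpP hFL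
    refine fin 𝔓₀ k1 k2 τ k3 k5 ?_
    have hcard : Nat.card (𝓞 (FF δ) ⧸ 𝔓₀.comap (toZ (FF δ))) = p := by
      refine cardA (FF δ) hfr p hpp _ (𝔔.comap (toZ (FF δ))) (Ideal.comap_isPrime _ _)
        (Ideal.comap_isPrime _ _) ?_ ?_ ?_
      · intro h
        apply k8
        intro x
        rw [← Ideal.mem_comap, ← Ideal.mem_comap, h]
      · rw [Ideal.mem_comap, map_natCast]
        exact k2
      · rw [Ideal.mem_comap, map_natCast]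
        exact k7
    rw [hcard]
    exact k4
  · obtain ⟨τ, k1, k2, k3⟩ :=
      flB p n hn hp V δ D hD s₀ hs₀ χ hχ hA hB 𝔓 hP hpP θ hθ hθ1 hθ2 hFL
    refine fin 𝔓 hP hpP τ k1 ?_ ?_
    · intro 𝔔 hQ hpQ hne
      exact absurd (k3 𝔔 hQ hpQ) hne
    · intro i hi
      have h1 := cardB (FF δ) hfr p hpp (𝔓.comap (toZ (FF δ))) (Ideal.comap_isPrime _ _)
        (by rw [Ideal.mem_comap, map_natCast]; exact hpP)
      exact h1.trans (k2 i hi)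

end Pool.Agent.AAU
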