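import Pool.Agent.AAP.Quad

/-!
# The discriminant of `ℚ(√D)` is at most `4 |D|`

`1, δ` is a basis of `K / ℚ` in `𝓞 K`, with `Algebra.discr ℚ ![1, δ] = 4 D`. Its matrix in
the integral basis is integral, with determinant `t ≠ 0`, and `4 D = t ^ 2 discr K`.
-/

open NumberField

namespace Pool.Agent.AAU

private theorem dsc_li (K : Type) [Field K] [NumberField K]
    (δ : K) (hr : ∀ q : ℚ, δ ≠ algebraMap ℚ K q) :
    LinearIndependent ℚ ![(1 : K), δ] := by
  rw [LinearIndependent.pair_iff]
  intro s t h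
  have ht : t = 0 := by
    by_contra ht
    apply hr (-(s / t))
    have h1 : algebraMap ℚ K t * δ = - algebraMap ℚ K s := by
      have h2 : algebraMap ℚ K s + algebraMap ℚ K t * δ = 0 := by
        simpa [Algebra.smul_def] using h
      linear_combination h2
    have h3 : algebraMap ℚ K t ≠ 0 := by
      simpa using ht
    rw [map_neg, map_div₀, ← neg_div, ← h1]
    field_simp
  subst ht
  refine ⟨?_, rfl⟩
  simpa [Algebra.smul_def] using h

private theorem dsc_tr (K : Type) [Field K] [NumberField K] (h2 : Module.finrank ℚ K = 2) (D : ℤ)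
    (δ : K) (hD : δ ^ 2 = D) (hr : ∀ q : ℚ, δ ≠ algebraMap ℚ K q) :
    Algebra.trace ℚ K δ = 0 := by
  classical
  set c : Module.Basis (Fin 2) ℚ K :=
    basisOfLinearIndependentOfCardEqFinrank (dsc_li K δ hr) (by simp [h2]) with hc
  have hc0 : c 0 = 1 := by simp [hc]
  have hc1 : c 1 = δ := by simp [hc]
  rw [Algebra.trace_eq_matrix_trace c, Matrix.trace_fin_two, Algebra.leftMulMatrix_eq_repr_mul,
    Algebra.leftMulMatrix_eq_repr_mul, hc0, hc1, mul_one]
  have e1 : c.repr δ = Finsupp.single 1 1 := by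
    rw [← hc1]; exact c.repr_self 1
  have e2 : c.repr (δ * δ) = (D : ℚ) • Finsupp.single 0 1 := by
    have : δ * δ = (D : ℚ) • c 0 := by
      rw [hc0, ← pow_two, hD, Algebra.smul_def, mul_one]
      simp
    rw [this, map_smul, c.repr_self]
  rw [e1, e2]
  simp

theorem discr_le (K : Type) [Field K] [NumberField K] (h2 : Module.finrank ℚ K = 2) (D : ℤ)
    (δ : K) (hD : δ ^ 2 = D) (hr : ∀ q : ℚ, δ ≠ algebraMap ℚ K q) :
    (discr K).natAbs ≤ 4 * D.natAbs := by
  classical
  have hcard : Fintype.card (Module.Free.ChooseBasisIndex ℤ (𝓞 K)) = 2 := by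
    rw [← Module.finrank_eq_card_chooseBasisIndex, RingOfIntegers.rank, h2]
  let e : Module.Free.ChooseBasisIndex ℤ (𝓞 K) ≃ Fin 2 := Fintype.equivFinOfCardEq hcard
  let B : Module.Basis (Fin 2) ℤ (𝓞 K) := (RingOfIntegers.basis K).reindex e
  have hint : IsIntegral ℤ δ := by
    refine ⟨Polynomial.X ^ 2 - Polynomial.C D, Polynomial.monic_X_pow_sub_C _ two_ne_zero, ?_⟩
    rw [Polynomial.eval₂_sub, Polynomial.eval₂_X_pow, Polynomial.eval₂_C, hD]
    simp
  let d : 𝓞 K := ⟨δ, hint⟩
  let w : Fin 2 → 𝓞 K := ![1, d]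
  let v : Fin 2 → K := ![1, δ]
  let b : Module.Basis (Fin 2) ℚ K := (integralBasis K).reindex e
  have hb : ∀ i, b i = (B i : K) := by
    intro i
    simp [b, B, integralBasis_apply]
  let P : Matrix (Fin 2) (Fin 2) ℤ := B.toMatrix w
  let Q : Matrix (Fin 2) (Fin 2) ℚ := P.map (Int.cast)
  have hw : ∀ j, (w j : K) = ∑ i, (P i j : K) * (B i : K) := by
    intro j
    have h := B.sum_toMatrix_smul_self w j
    have h' := congrArg (fun z : 𝓞 K => (z : K)) h
    simp only [map_sum] at h'
    rw [← h']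
    refine Finset.sum_congr rfl fun i _ => ?_
    simp [P, zsmul_eq_mul]
  have hv : v = Matrix.vecMul (b : Fin 2 → K) (Q.map (algebraMap ℚ K)) := by
    funext j
    have hwj : v j = (w j : K) := by
      fin_cases j
      · simp [v, w]
      · simp [v, w, d]
    rw [hwj, hw j]
    simp only [Matrix.vecMul, dotProduct, Matrix.map_apply, Q, hb]
    refine Finset.sum_congr rfl fun i _ => ?_
    rw [mul_comm]
    simp
  have h1 := Algebra.discr_of_matrix_vecMul (b : Fin 2 → K) Q
  rw [← hv] at h1
  have h3 : Algebra.discr ℚ (b : Fin 2 → K) = (discr K : ℚ) := by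
    rw [coe_discr]
    simp only [b, Module.Basis.coe_reindex]
    rw [Algebra.discr_reindex]
  have ht1 : Algebra.trace ℚ K 1 = 2 := by
    have := Algebra.trace_algebraMap (S := K) (1 : ℚ)
    rw [map_one, h2] at this
    rw [this]; simp
  have htδ := dsc_tr K h2 D δ hD hr
  have htD : Algebra.trace ℚ K (δ * δ) = 2 * D := by
    have := Algebra.trace_algebraMap (S := K) (D : ℚ)
    rw [h2] at this
    rw [← pow_two, hD]
    simpa using this
  have h4 : Algebra.discr ℚ v = 4 * (D : ℚ) := by
    rw [Algebra.discr_def, Matrix.det_fin_two]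
    simp only [Algebra.traceMatrix_apply, Algebra.traceForm_apply, v, Matrix.cons_val_zero,
      Matrix.cons_val_one, Matrix.cons_val_fin_one, mul_one, one_mul, ht1, htδ, htD]
    ring
  rw [h4, h3] at h1
  have hQ : Q.det = ((P.det : ℤ) : ℚ) := by
    have := (Int.castRingHom ℚ).map_det P
    simpa [Q, RingHom.mapMatrix_apply] using this.symm
  rw [hQ] at h1
  have h5 : 4 * D = P.det ^ 2 * discr K := by exact_mod_cast h1
  have hD0 : D ≠ 0 := by
    rintro rfl
    apply hr 0
    have : δ ^ 2 = 0 := by simpa using hD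
    simpa using this
  have hP : P.det ≠ 0 := by
    intro h
    rw [h] at h5
    apply hD0
    linarith
  have h6 : 4 * D.natAbs = P.det.natAbs ^ 2 * (discr K).natAbs := by
    have := congrArg Int.natAbs h5
    rw [Int.natAbs_mul, Int.natAbs_mul, Int.natAbs_pow] at this
    simpa using this
  rw [h6]
  have : 0 < P.det.natAbs := Int.natAbs_pos.2 hP
  exact Nat.le_mul_of_pos_left _ (by positivity)

end Pool.Agent.AAU
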