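import Pool.Agent.AAU.UnitU
import Pool.Agent.AAU.ClsN
import Pool.Agent.AAU.Dsc

/-!
# Real quadratic fields, with a bound uniform in the field

As `finDQ` in `AAP/FinDQ.lean`, with `ε` from `unitU` and
`M = ∏_{1 ≤ m ≤ h} |N(ε ^ (m k) - 1)|`, `h = classNumber (FF δ) ≤ (4 D) ^ 3` (`classNumber_le`,
`discr_le` for the element `δ` of `FF δ`). `|N(ε ^ (m k) - 1)| ≤ A ^ (2 m k)` with
`A = (5 D) ^ (203 D ^ 3)` (two embeddings), `∏_{m ≤ h} A ^ (2 m k) ≤ A ^ (2 h ^ 2 k)`, and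
`203 D ^ 3 * 2 * (4 D) ^ 6 ≤ 2000000 D ^ 9`.
-/

open NumberField

namespace Pool.Agent.AAU

open Pool.Agent.AAP Pool.Agent.Helper60.FM

private theorem FinDU_norm (K : Type) [Field K] [NumberField K] (h2 : Module.finrank ℚ K = 2)
    (ε : 𝓞 K) (a : ℕ) (ha : ∀ σ : K →ₐ[ℚ] ℂ, ‖σ (ε : K)‖ + 1 ≤ a) (k : ℕ) (hk : 0 < k) :
    Ideal.absNorm (Ideal.span {ε ^ k - 1}) ≤ a ^ (2 * k) := by
  have h1 : ((Ideal.absNorm (Ideal.span {ε ^ k - 1}) : ℕ) : ℝ) =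
      ‖(algebraMap ℚ ℂ) (Algebra.norm ℚ (((ε ^ k - 1 : 𝓞 K)) : K))‖ := by
    rw [Ideal.absNorm_span_singleton, ← Algebra.coe_norm_int, Nat.cast_natAbs, Int.cast_abs]
    simp
  rw [Algebra.norm_eq_prod_embeddings ℚ ℂ, norm_prod] at h1
  have h3 : ∏ σ : K →ₐ[ℚ] ℂ, ‖σ (((ε ^ k - 1 : 𝓞 K)) : K)‖ ≤ ∏ _σ : K →ₐ[ℚ] ℂ, (a : ℝ) ^ k := by
    refine Finset.prod_le_prod (fun σ _ => norm_nonneg _) fun σ _ => ?_
    have h3 : σ (((ε ^ k - 1 : 𝓞 K)) : K) = σ (ε : K) ^ k - 1 := by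
      rw [← map_one σ, ← map_pow, ← map_sub]
      rfl
    rw [h3]
    refine (norm_sub_le _ _).trans ?_
    rw [norm_pow, norm_one]
    calc ‖σ (ε : K)‖ ^ k + 1 = ‖σ (ε : K)‖ ^ k + 1 ^ k := by rw [one_pow]
      _ ≤ (‖σ (ε : K)‖ + 1) ^ k := pow_add_pow_le (norm_nonneg _) zero_le_one hk.ne'
      _ ≤ (a : ℝ) ^ k := pow_le_pow_left₀ (add_nonneg (norm_nonneg _) zero_le_one) (ha σ) k
  have h4 : Fintype.card (K →ₐ[ℚ] ℂ) = 2 := by
    rw [AlgHom.card, h2]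
  rw [← h1, Finset.prod_const, Finset.card_univ, h4, ← pow_mul, mul_comm k] at h3
  exact_mod_cast h3

private theorem FinDU_dvd (K : Type) [Field K] [NumberField K] (x : 𝓞 K) (p : ℕ) (hp : p.Prime)
    (v : Ideal (𝓞 K)) (hv : v.IsPrime) (hpv : (p : 𝓞 K) ∈ v) (hx : x ∈ v) :
    p ∣ Ideal.absNorm (Ideal.span {x}) := by
  by_contra hnd
  have h1 : ((Ideal.absNorm (Ideal.span {x}) : ℕ) : 𝓞 K) ∈ v :=
    ((Ideal.span_singleton_le_iff_mem _).2 hx) (Ideal.absNorm_mem _)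
  generalize Ideal.absNorm (Ideal.span {x}) = M at h1 hnd
  have hco : Nat.Coprime p M := (Nat.Prime.coprime_iff_not_dvd hp).2 hnd
  have h2 : IsCoprime (p : ℤ) (M : ℤ) := Nat.isCoprime_iff_coprime.2 hco
  obtain ⟨a, b, hab⟩ := h2
  apply hv.ne_top
  rw [Ideal.eq_top_iff_one]
  have h3 : (1 : 𝓞 K) = (a : 𝓞 K) * (p : 𝓞 K) + (b : 𝓞 K) * (M : 𝓞 K) := by
    exact_mod_cast (congrArg (Int.cast : ℤ → 𝓞 K) hab).symm
  rw [h3]
  exact v.add_mem (v.mul_mem_left _ hpv) (v.mul_mem_left _ h1)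

private theorem FinDU_exp (D h k : ℕ) (hh : h ≤ (4 * D) ^ 3) :
    203 * D ^ 3 * (2 * (h * k)) * h ≤ 2000000 * D ^ 9 * k := by
  have h1 : h * h ≤ (4 * D) ^ 3 * (4 * D) ^ 3 := Nat.mul_le_mul hh hh
  calc 203 * D ^ 3 * (2 * (h * k)) * h = 406 * D ^ 3 * k * (h * h) := by ring
    _ ≤ 406 * D ^ 3 * k * ((4 * D) ^ 3 * (4 * D) ^ 3) := Nat.mul_le_mul_left _ h1
    _ = 1662976 * (D ^ 9 * k) := by ring
    _ ≤ 2000000 * (D ^ 9 * k) := Nat.mul_le_mul_right _ (by norm_num)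
    _ = 2000000 * D ^ 9 * k := by ring

theorem finDU (D : ℕ) (hD0 : 0 < D) (δ : Qb) (hD : δ ^ 2 = D)
    (hr : ∀ q : ℚ, δ ≠ algebraMap ℚ Qb q) [FiniteDimensional ℚ (FF δ)] :
    ∃ ε : (𝓞 (FF δ))ˣ, ∀ k : ℕ, 0 < k → ∃ M : ℕ, M ≠ 0 ∧
      M ≤ (5 * D) ^ (2000000 * D ^ 9 * k) ∧
      ∀ p : ℕ, p.Prime → ∀ v : Ideal (𝓞 (FF δ)), v.IsPrime → (p : 𝓞 (FF δ)) ∈ v →
        ∀ m : ℕ, 0 < m → m ≤ classNumber (FF δ) →
          (ε : 𝓞 (FF δ)) ^ (m * k) - 1 ∈ v → p ∣ M := by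
  have hNF : NumberField (FF δ) := { to_charZero := inferInstance
                                     to_finiteDimensional := inferInstance }
  have hDz : δ ^ 2 = ((D : ℤ) : Qb) := by
    rw [hD]
    push_cast
    rfl
  have h2 : Module.finrank ℚ (FF δ) = 2 := (finrank_FF (D : ℤ) δ hDz hr).2
  obtain ⟨ε, hε, hb⟩ := unitU D δ hD hr
  have hcl : classNumber (FF δ) ≤ (4 * D) ^ 3 := by
    let δ' : FF δ := IntermediateField.AdjoinSimple.gen ℚ δ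
    have hδ' : algebraMap (FF δ) Qb δ' = δ := IntermediateField.AdjoinSimple.algebraMap_gen ℚ δ
    have h3 : δ' ^ 2 = ((D : ℤ) : FF δ) := by
      apply (algebraMap (FF δ) Qb).injective
      rw [map_pow, hδ', hDz, map_intCast]
    have h4 : ∀ q : ℚ, δ' ≠ algebraMap ℚ (FF δ) q := by
      intro q hq
      apply hr q
      have h5 := congrArg (algebraMap (FF δ) Qb) hq
      rw [hδ', ← IsScalarTower.algebraMap_apply] at h5
      exact h5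
    have h5 := discr_le (FF δ) h2 (D : ℤ) δ' h3 h4
    rw [Int.natAbs_natCast] at h5
    exact (classNumber_le (FF δ) h2).trans (Nat.pow_le_pow_left h5 3)
  refine ⟨ε, fun k hk => ?_⟩
  set h := classNumber (FF δ) with hh
  set A : ℕ := (5 * D) ^ (203 * D ^ 3) with hA
  have hA1 : 1 ≤ A := Nat.one_le_pow _ _ (by omega)
  have hbA : ∀ σ : FF δ →ₐ[ℚ] ℂ, ‖σ (((ε : 𝓞 (FF δ))) : FF δ)‖ + 1 ≤ (A : ℝ) := by
    intro σ
    rw [hA]
    push_cast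
    exact hb σ
  refine ⟨∏ m ∈ Finset.Icc 1 h, Ideal.absNorm (Ideal.span {(ε : 𝓞 (FF δ)) ^ (m * k) - 1}), ?_, ?_, ?_⟩
  · rw [Finset.prod_ne_zero_iff]
    intro m hm
    rw [Finset.mem_Icc] at hm
    rw [Ne, Ideal.absNorm_eq_zero_iff, Ideal.span_singleton_eq_bot]
    intro h3
    apply hε (m * k) (Nat.mul_pos (by omega) hk)
    rw [sub_eq_zero] at h3
    exact Units.ext (by rw [Units.val_pow_eq_pow_val, h3, Units.val_one])
  · have h3 : ∀ m ∈ Finset.Icc 1 h,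
        Ideal.absNorm (Ideal.span {(ε : 𝓞 (FF δ)) ^ (m * k) - 1}) ≤ A ^ (2 * (h * k)) := by
      intro m hm
      rw [Finset.mem_Icc] at hm
      refine (FinDU_norm (FF δ) h2 (ε : 𝓞 (FF δ)) A hbA (m * k) (Nat.mul_pos (by omega) hk)).trans ?_
      exact Nat.pow_le_pow_right hA1 (Nat.mul_le_mul_left _ (Nat.mul_le_mul_right _ hm.2))
    refine (Finset.prod_le_pow_card _ _ _ h3).trans ?_
    rw [Nat.card_Icc, Nat.add_sub_cancel, hA, ← pow_mul, ← pow_mul]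
    refine Nat.pow_le_pow_right (by omega) ?_
    rw [← mul_assoc]
    exact FinDU_exp D h k hcl
  · intro p hp v hv hpv m hm0 hm hev
    refine (FinDU_dvd (FF δ) _ p hp v hv hpv hev).trans ?_
    exact Finset.dvd_prod_of_mem (fun m => Ideal.absNorm (Ideal.span {(ε : 𝓞 (FF δ)) ^ (m * k) - 1}))
      (Finset.mem_Icc.2 ⟨hm0, hm⟩)

end Pool.Agent.AAU
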