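import Pool.Agent.AAU.DihCoreU
import Pool.Agent.AAU.FinDU
import Pool.Agent.AAU.Bd2

/-!
# The dihedral case with a bound uniform in `N` and `n`
-/

open NumberField Pointwise Matrix Nat

namespace Pool.Agent.AAU

open Pool.Agent.AAP Pool.Agent.Helper60.FM

private theorem dihAtU (N n : ℕ) (hN : 1 ≤ N) (hn : 1 ≤ n) (D : ℤ) (δ : Qb) (hDN : |D| ≤ N)
    (hD : δ ^ 2 = D) (hr : ∀ q : ℚ, δ ≠ algebraMap ℚ Qb q) :
    ∃ M : ℕ, M ≠ 0 ∧ M ≤ (5 * N) ^ (4000000 * N ^ 10 * n) ∧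
      ∀ (p : ℕ) [Fact p.Prime], 2 * n + 1 < p → ¬ p ∣ M → Good N δ n p := by
  classical
  obtain ⟨s₀, hs₀⟩ := exists_not_stab δ hr
  obtain ⟨hfd, hfr⟩ := finrank_FF D δ hD hr
  by_cases hD0 : 0 < D
  swap
  · refine ⟨1, one_ne_zero, Nat.one_le_pow _ _ (by omega), ?_⟩
    intro p _ hp _ E _ _ _ V heven χ _ hA _ _ _
    obtain ⟨c, hc⟩ := exists_isCC
    have h1 : c ∈ Stab δ := by
      by_contra hcon
      have h2 := hA c hcon
      rw [norm_tr_cc (p := p) (by omega) V c (isCC_mul_self hc) (heven c hc)] at h2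
      exact lt_irrefl _ h2
    exact hD0 (pos_of_cc D δ hD hr c hc h1)
  obtain ⟨D', rfl⟩ := Int.eq_ofNat_of_zero_le hD0.le
  have hD1 : 0 < D' := by exact_mod_cast hD0
  have hD2 : D' ≤ N := by
    have h1 := (le_abs_self _).trans hDN
    exact_mod_cast h1
  have hD' : δ ^ 2 = (D' : Qb) := by
    rw [hD]
    exact Int.cast_natCast D'
  obtain ⟨ε, hε⟩ := finDU D' hD1 δ hD' hr
  obtain ⟨M, hM0, hMb, hM⟩ := hε (2 * N * n) (by positivity)
  refine ⟨M, hM0, hMb.trans ?_, ?_⟩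
  · calc (5 * D') ^ (2000000 * D' ^ 9 * (2 * N * n))
        ≤ (5 * N) ^ (2000000 * D' ^ 9 * (2 * N * n)) := Nat.pow_le_pow_left (by omega) _
      _ ≤ (5 * N) ^ (2000000 * N ^ 9 * (2 * N * n)) := by
          refine Nat.pow_le_pow_right (by omega) ?_
          exact Nat.mul_le_mul_right _ (Nat.mul_le_mul_left _ (Nat.pow_le_pow_left hD2 9))
      _ = (5 * N) ^ (4000000 * N ^ 10 * n) := by
          congr 1
          ring
  · exact dihCoreU n N hn _ δ hD s₀ hs₀ hfd hfr ε M hM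

theorem dihMainU : ∃ F : ℕ → ℕ → ℕ, Bd2 F ∧ ∀ N n, 1 ≤ N → 1 ≤ n → F N n ≠ 0 ∧
    ∀ (p : ℕ) [Fact p.Prime], ¬ p ∣ F N n → ∀ (E : Type) [NormedField E] [IsUltrametricDist E]
      [NormedAlgebra ℚ_[p] E] (V : GQ →* GL (Fin 2) E),
        IsEven V → Dih p N V → FL p n V → False := by
  classical
  have key : ∀ (i : Σ _ : ℤ, Qb) (N n : ℕ), ∃ M : ℕ, M ≠ 0 ∧ (1 ≤ N → 1 ≤ n → |i.1| ≤ N →
      M ≤ (5 * N) ^ (4000000 * N ^ 10 * n) ∧ (i.2 ^ 2 = (i.1 : Qb) →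
      (∀ q : ℚ, i.2 ≠ algebraMap ℚ Qb q) → ∀ (p : ℕ) [Fact p.Prime],
      2 * n + 1 < p → ¬ p ∣ M → Good N i.2 n p)) := by
    intro i N n
    by_cases h : (1 ≤ N ∧ 1 ≤ n ∧ |i.1| ≤ N) ∧ i.2 ^ 2 = (i.1 : Qb) ∧
        ∀ q : ℚ, i.2 ≠ algebraMap ℚ Qb q
    · obtain ⟨M, hM0, hMb, hM⟩ := dihAtU N n h.1.1 h.1.2.1 i.1 i.2 h.1.2.2 h.2.1 h.2.2
      exact ⟨M, hM0, fun _ _ _ => ⟨hMb, fun _ _ => hM⟩⟩
    · exact ⟨1, one_ne_zero, fun h1 h2 h3 => ⟨Nat.one_le_pow _ _ (by omega),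
        fun h4 h5 => absurd ⟨⟨h1, h2, h3⟩, h4, h5⟩ h⟩⟩
  choose F hF0 hF using key
  let T : ℤ → Finset Qb := fun D => (Polynomial.X ^ 2 - Polynomial.C (D : Qb)).roots.toFinset
  have hT : ∀ (D : ℤ) (δ : Qb), δ ^ 2 = (D : Qb) → δ ∈ T D := by
    intro D δ h
    rw [Multiset.mem_toFinset, Polynomial.mem_roots']
    refine ⟨Polynomial.X_pow_sub_C_ne_zero (by norm_num) _, ?_⟩
    rw [Polynomial.IsRoot.def, Polynomial.eval_sub, Polynomial.eval_pow, Polynomial.eval_X,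
      Polynomial.eval_C, h, sub_self]
  have hTc : ∀ D : ℤ, (T D).card ≤ 2 := by
    intro D
    refine (Multiset.toFinset_card_le _).trans ((Polynomial.card_roots' _).trans ?_)
    rw [Polynomial.natDegree_X_pow_sub_C]
  let S : ℕ → Finset (Σ _ : ℤ, Qb) := fun N => (Finset.Icc (-(N : ℤ)) N).sigma T
  have hS : ∀ N, 1 ≤ N → (S N).card ≤ 6 * N ^ 6 := by
    intro N hN
    have h1 : (S N).card ≤ (2 * N + 1) * 2 := by
      rw [Finset.card_sigma]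
      refine (Finset.sum_le_card_nsmul _ _ 2 fun D _ => hTc D).trans ?_
      rw [Int.card_Icc, smul_eq_mul]
      refine Nat.mul_le_mul_right _ ?_
      omega
    have h2 : N ≤ N ^ 6 := Nat.le_self_pow (by norm_num) N
    omega
  refine ⟨fun N n => (2 * n + 1)! * ∏ i ∈ S N, F i N n, ?_, ?_⟩
  · refine (Bd2.fact _ 3 ?_).mul (Bd2.prod S F (fun N n => (5 * N) ^ (4000000 * N ^ 10 * n))
      (Bd2.exp _ _ 4000000 ?_ ?_) 6 hS ?_)
    · intro N n hN hn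
      have h1 : 1 ≤ N ^ 3 := Nat.one_le_pow _ _ (by omega)
      nlinarith
    · intro N n hN hn
      have h1 : 5 * N ≤ 4000000 * N * n := by nlinarith
      exact h1.trans (Nat.le_self_pow (by norm_num) _)
    · intro N n hN hn
      refine Nat.mul_le_mul_right _ (Nat.mul_le_mul_left _ ?_)
      exact Nat.pow_le_pow_right (by omega) (by norm_num)
    · intro N n hN hn i hi
      have h1 : |i.1| ≤ (N : ℤ) := by
        rw [Finset.mem_sigma, Finset.mem_Icc] at hi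
        exact abs_le.2 hi.1
      exact (hF i N n hN hn h1).1
  · intro N n hN hn
    refine ⟨mul_ne_zero (Nat.factorial_ne_zero _) (Finset.prod_ne_zero_iff.2 fun i _ => hF0 i N n),
      ?_⟩
    intro p _ hp E _ _ _ V heven hdih hFL
    have hpp : p.Prime := Fact.out
    obtain ⟨D, δ, χ, hDN, hD, hr, hopen, hA, hB, hout⟩ := hdih
    have hp1 : 2 * n + 1 < p := by
      by_contra hcon
      exact hp (Dvd.dvd.mul_right (Nat.dvd_factorial hpp.pos (not_lt.1 hcon)) _)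
    have h1 : |D| ≤ N := Int.le_of_dvd (by exact_mod_cast hN) ((abs_dvd D N).2 hDN)
    have hDm : (⟨D, δ⟩ : Σ _ : ℤ, Qb) ∈ S N := by
      rw [Finset.mem_sigma, Finset.mem_Icc]
      exact ⟨abs_le.1 h1, hT D δ hD⟩
    refine (hF ⟨D, δ⟩ N n hN hn h1).2 hD hr p hp1 ?_ E V heven χ hopen hA hB hout hFL
    intro hdvd
    exact hp (Dvd.dvd.mul_left (hdvd.trans (Finset.dvd_prod_of_mem (fun i => F i N n) hDm)) _)

end Pool.Agent.AAU
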