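import Pool.Agent.Helper60.FM.ModC2

/-!
# AAU-EtaP: the Kummer generator is a root of unity, second form

Copy of `KData.exists_eta` (`Helper60/FM/ModC2.lean`) with a weaker hypothesis at the primes above `S`: at such a place either a
decomposition element with `ψ σ ≠ 1` exists, or every `p`-th power `α` of `K` of an element fixed by the fixing group of `K M` has
a valuation divisible by `p`.
-/

open NumberField Pointwise IsDedekindDomain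

namespace Pool.Agent.AAU

open Pool.Agent.Helper60.FM

variable {p : ℕ} [hp : Fact p.Prime] {K : IntermediateField ℚ Qb} [FiniteDimensional ℚ K]
  [IsGalois ℚ K] {ω : Gal(K/ℚ) → ℕ} {R : Type*} [CommRing R] [IsDomain R]
  (D : KData p K ω R) (ζ : K)

theorem exists_etaP [IsCMField K] (hp2 : p ≠ 2)
    (hζ : IsPrimitiveRoot ζ p) (hω : ∀ σ : Gal(K/ℚ), σ ζ = ζ ^ ω σ)
    (hc : ∀ c : Gal(K/ℚ), (∀ x : K, c x = IsCMField.complexConj K x) → D.ψ c = -1)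
    (M : IntermediateField ℚ Qb) [FiniteDimensional ℚ M] [IsGalois ℚ M]
    (hM : ∀ k ∈ K.fixingSubgroup ⊓ M.fixingSubgroup, ∀ y, D.F k y = 0)
    (S : Set ℕ) (hS : ∀ ℓ : ℕ, ℓ.Prime → ℓ ∉ S → Unr M ℓ)
    (hdec : ∀ v : HeightOneSpectrum (𝓞 K), (∃ ℓ ∈ S, (ℓ : 𝓞 K) ∈ v.asIdeal) →
      (∃ σ : Gal(K/ℚ), σ • v.asIdeal = v.asIdeal ∧ D.ψ σ ≠ 1) ∨
      ∀ (β : Qb) (α : K), β ≠ 0 → (α : Qb) = β ^ p →
        (∀ g ∈ K.fixingSubgroup ⊓ M.fixingSubgroup, g β = β) →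
          ∃ m : ℤ, v.valuation K α = WithZero.exp ((p : ℤ) * m))
    (hcl : ∀ 𝔞 : Ideal (𝓞 K), 𝔞 ≠ ⊥ → (𝔞 ^ p).IsPrincipal →
      (∀ n : Gal(K/ℚ) → ℕ, ∑ σ, (n σ : R) * D.ψ σ = 0 → (∏ σ, (σ • 𝔞) ^ n σ).IsPrincipal) →
      𝔞.IsPrincipal) :
    ∃ (η : Qb) (m : ℕ), 0 < m ∧ η ^ m = 1 ∧ D.Ty ζ η 2 := by
  classical
  have hppos : 0 < p := hp.out.pos
  obtain ⟨β₀, hβ₀0, hβ₀⟩ := D.exists_beta ζ hζ M hM
  -- scaling to an integral generator
  obtain ⟨β, α, hβ0, hβ, hα⟩ : ∃ (β : Qb) (α : 𝓞 K), β ≠ 0 ∧ D.Ty ζ β 1 ∧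
      ((α : K) : Qb) = β ^ p := by
    obtain ⟨a, b, hb, hab⟩ := IsFractionRing.div_surjective (A := 𝓞 K)
      (⟨β₀ ^ p, D.pow_mem_of_ty ζ hζ hβ₀⟩ : K)
    have hb0 : b ≠ 0 := nonZeroDivisors.ne_zero hb
    have hbK : (b : K) ≠ 0 := by simpa using hb0
    have hbQ : ((b : K) : Qb) ≠ 0 := by simpa using hbK
    have hab' : β₀ ^ p = ((a : K) : Qb) / ((b : K) : Qb) := by
      have := congrArg (Subtype.val) hab
      exact this.symm
    refine ⟨((b : K) : Qb) * β₀, a * b ^ (p - 1), mul_ne_zero hbQ hβ₀0, ?_, ?_⟩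
    · have h1 := D.ty_mul ζ hζ (D.ty_of_mem ζ hζ (x := ((b : K) : Qb)) (b : K).2) hβ₀
      rwa [zero_add] at h1
    · rw [mul_pow, hab']
      push_cast
      have h2 : ((b : K) : Qb) ^ p = ((b : K) : Qb) ^ (p - 1) * ((b : K) : Qb) := by
        rw [← pow_succ, Nat.sub_add_cancel hppos]
      rw [h2]
      field_simp
  have hα0 : α ≠ 0 := by
    rintro rfl
    have : β ^ p = 0 := by rw [← hα]; simp
    exact pow_ne_zero _ hβ0 this
  have hαK0 : (α : K) ≠ 0 := by simpa using hα0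
  -- valuations
  have hval : ∀ v : HeightOneSpectrum (𝓞 K), ∃ m : ℤ,
      v.valuation K (α : K) = WithZero.exp ((p : ℤ) * m) := by
    intro v
    haveI := v.isPrime
    obtain ⟨ℓ, hℓ, hℓv⟩ := exists_prime_mem v.asIdeal v.ne_bot
    by_cases hℓS : ℓ ∈ S
    · rcases hdec v ⟨ℓ, hℓS, hℓv⟩ with ⟨σ, hσ, hψ⟩ | hd
      · exact D.val_dec ζ hζ hω v σ hσ hψ β hβ0 hβ α hα
      · refine hd β (α : K) hβ0 hα ?_
        intro g hg
        have h1 := hβ g hg.1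
        rw [hM g hg, ZMod.val_zero, pow_zero, one_mul] at h1
        exact h1
    · refine val_of_unr K M ℓ (hS ℓ hℓ hℓS) (α : K) hαK0 β hα.symm ?_ v hℓv
      intro g hg
      have h1 := hβ g hg.1
      rw [hM g hg, ZMod.val_zero, pow_zero, one_mul] at h1
      exact h1
  obtain ⟨𝔞, h𝔞⟩ := exists_ideal_pow α hα0 hval
  have h𝔞0 : 𝔞 ≠ ⊥ := by
    rintro rfl
    rw [← Ideal.zero_eq_bot, zero_pow hppos.ne'] at h𝔞
    exact hα0 (Ideal.span_singleton_eq_bot.1 (by rw [← h𝔞]; rfl))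
  have h𝔞p : 𝔞.IsPrincipal := by
    apply hcl 𝔞 h𝔞0
    · rw [h𝔞]; exact ⟨⟨α, rfl⟩⟩
    intro n hn
    -- lifts
    choose g hg using fun σ : Gal(K/ℚ) =>
      AlgEquiv.restrictNormalHom_surjective (F := ℚ) (K₁ := K) Qb σ
    have hprod : ∀ T : Finset Gal(K/ℚ),
        D.Ty ζ (∏ σ ∈ T, (g σ β) ^ n σ) (∑ σ ∈ T, (n σ : R) * D.ψ σ) := by
      intro T
      induction T using Finset.induction_on with
      | empty => simpa using D.ty_of_mem ζ hζ K.one_mem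
      | insert σ T hσ ih =>
        rw [Finset.prod_insert hσ, Finset.sum_insert hσ]
        refine D.ty_mul ζ hζ (D.ty_pow ζ hζ ?_ (n σ)) ih
        have h1 := D.ty_smul ζ hζ hω hβ (g σ)
        rw [mul_one] at h1
        have h2 : res K (g σ) = σ := hg σ
        rwa [h2] at h1
    have hγ : ∏ σ, (g σ β) ^ n σ ∈ K := by
      apply D.mem_of_ty ζ hζ
      rw [← hn]
      exact hprod Finset.univ
    let γ : K := ⟨_, hγ⟩
    have hγp : γ ^ p = ((∏ σ : Gal(K/ℚ), (σ • α) ^ n σ : 𝓞 K) : K) := by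
      apply Subtype.ext
      push_cast
      change (∏ σ, (g σ β) ^ n σ) ^ p = _
      rw [← Finset.prod_pow]
      refine Finset.prod_congr rfl fun σ _ => ?_
      have h1 : ((σ • (α : K) : K) : Qb) = g σ ((α : K) : Qb) := by
        have h2 : (σ • (α : K) : K) = σ (α : K) := rfl
        rw [h2, ← coe_res]
        have h3 : res K (g σ) = σ := hg σ
        rw [h3]
      rw [h1, hα, map_pow, ← pow_mul, ← pow_mul, mul_comm (n σ)]
    have hγint : IsIntegral ℤ γ := by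
      apply IsIntegral.of_pow hppos
      rw [hγp]
      exact RingOfIntegers.isIntegral_coe _
    let γ' : 𝓞 K := ⟨γ, hγint⟩
    have hγ'p : γ' ^ p = ∏ σ : Gal(K/ℚ), (σ • α) ^ n σ := by
      apply RingOfIntegers.ext
      rw [← hγp]
      push_cast
      rfl
    refine ⟨⟨γ', ?_⟩⟩
    apply ideal_pow_inj hppos.ne'
    rw [← Finset.prod_pow]
    change _ = (Ideal.span {γ'}) ^ p
    rw [Ideal.span_singleton_pow, hγ'p, ← Ideal.prod_span_singleton]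
    refine Finset.prod_congr rfl fun σ _ => ?_
    rw [← Ideal.span_singleton_pow, ← smul_ideal_span, ← h𝔞, smul_ideal_pow, ← pow_mul, ← pow_mul,
      mul_comm p]
  -- a unit generator
  obtain ⟨⟨δ, hδ⟩⟩ := h𝔞p
  have hδ' : 𝔞 = Ideal.span {δ} := hδ
  have hassoc : Associated (δ ^ p) α := by
    rw [← Ideal.span_singleton_eq_span_singleton, ← Ideal.span_singleton_pow, ← hδ', h𝔞]
  obtain ⟨u, hu⟩ := hassoc
  have hδ0 : δ ≠ 0 := by
    rintro rfl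
    apply h𝔞0
    rw [hδ']
    simp
  have hδK0 : ((δ : K) : Qb) ≠ 0 := by
    have : (δ : K) ≠ 0 := by simpa using hδ0
    simpa using this
  let β₁ : Qb := β * ((δ : K) : Qb)⁻¹
  have hβ₁0 : β₁ ≠ 0 := mul_ne_zero hβ0 (inv_ne_zero hδK0)
  have hβ₁ : D.Ty ζ β₁ 1 := by
    have h1 := D.ty_mul ζ hζ hβ (D.ty_inv ζ hζ (D.ty_of_mem ζ hζ (x := ((δ : K) : Qb)) (δ : K).2))
    rwa [neg_zero, add_zero] at h1
  have hβ₁p : β₁ ^ p = (((u : 𝓞 K) : K) : Qb) := by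
    have h1 : ((α : K) : Qb) = ((δ : K) : Qb) ^ p * (((u : 𝓞 K) : K) : Qb) := by
      rw [← hu]
      push_cast
      rfl
    change (β * ((δ : K) : Qb)⁻¹) ^ p = _
    rw [mul_pow, ← hα, h1, inv_pow]
    field_simp
  -- complex conjugation
  let cK : Gal(K/ℚ) := (IsCMField.complexConj K).restrictScalars ℚ
  have hcK : ∀ x : K, cK x = IsCMField.complexConj K x := fun x => rfl
  have hψc := hc cK hcK
  obtain ⟨g, hg⟩ := AlgEquiv.restrictNormalHom_surjective (F := ℚ) (K₁ := K) Qb cK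
  have hg' : res K g = cK := hg
  have hκty : D.Ty ζ (g β₁ * β₁) 0 := by
    have h1 := D.ty_mul ζ hζ (D.ty_smul ζ hζ hω hβ₁ g) hβ₁
    rw [hg', hψc] at h1
    simpa using h1
  have hκ : g β₁ * β₁ ∈ K := D.mem_of_ty ζ hζ hκty
  have hκ0 : g β₁ * β₁ ≠ 0 := mul_ne_zero ((map_ne_zero g).2 hβ₁0) hβ₁0
  -- the torsion unit
  obtain ⟨ξ, hξ⟩ : ∃ ξ : Units.torsion K, ξ = IsCMField.unitsMulComplexConjInv K u := ⟨_, rfl⟩
  have hξ' : (((ξ : (𝓞 K)ˣ) : 𝓞 K) : K) * (cK ((u : 𝓞 K) : K)) = ((u : 𝓞 K) : K) := by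
    rw [hξ, IsCMField.unitsMulComplexConjInv_apply]
    have h1 : ((((IsCMField.unitsComplexConj K u)⁻¹ : (𝓞 K)ˣ) : 𝓞 K) : K) *
        cK ((u : 𝓞 K) : K) = 1 := by
      have h2 : cK ((u : 𝓞 K) : K) = (((IsCMField.unitsComplexConj K u : (𝓞 K)ˣ) : 𝓞 K) : K) := rfl
      rw [h2]
      have h3 : (((IsCMField.unitsComplexConj K u)⁻¹ * IsCMField.unitsComplexConj K u :
        (𝓞 K)ˣ) : 𝓞 K) = 1 := by rw [inv_mul_cancel]; rfl
      have h4 := congrArg (fun t : 𝓞 K => (t : K)) h3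
      push_cast at h4
      simpa using h4
    push_cast
    rw [mul_assoc, h1, mul_one]
  have hcu : ((cK ((u : 𝓞 K) : K) : K) : Qb) = (g β₁) ^ p := by
    rw [← hg', coe_res, ← hβ₁p, map_pow]
  have hηp : (β₁ ^ 2 * (g β₁ * β₁)⁻¹) ^ p = ((((ξ : (𝓞 K)ˣ) : 𝓞 K) : K) : Qb) := by
    have h1 := congrArg (fun t : K => (t : Qb)) hξ'
    push_cast at h1
    rw [hcu, ← hβ₁p] at h1
    have hgβ : g β₁ ≠ 0 := (map_ne_zero g).2 hβ₁0
    have h2 : (g β₁) ^ p ≠ 0 := pow_ne_zero _ hgβ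
    have h3 : β₁ ^ 2 * (g β₁ * β₁)⁻¹ = β₁ * (g β₁)⁻¹ := by
      field_simp
    rw [h3, mul_pow, inv_pow, ← h1]
    field_simp
  have hfin : IsOfFinOrder (ξ : (𝓞 K)ˣ) := ξ.2
  obtain ⟨m, hm, hξm⟩ := isOfFinOrder_iff_pow_eq_one.1 hfin
  refine ⟨β₁ ^ 2 * (g β₁ * β₁)⁻¹, p * m, Nat.mul_pos hppos hm, ?_, ?_⟩
  · rw [pow_mul, hηp]
    have h1 := congrArg (fun t : (𝓞 K)ˣ => (((t : 𝓞 K) : K) : Qb)) hξm
    push_cast at h1
    exact h1
  · have h1 := D.ty_mul ζ hζ (D.ty_pow ζ hζ hβ₁ 2) (D.ty_inv ζ hζ hκty)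
    simpa using h1

end Pool.Agent.AAU
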