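import Mathlib

/-!
# AAU-GrpTheta: selecting the primitive odd characters in a group ring

`G` a finite abelian group, `K i` subgroups, `m : G`, `z : G → ℤ`, `κ = ∏ card (K i)`. There is `Θ : G → ℤ` with
`∑ Θ χ = 2 κ ∑ z χ` if `χ(m) = -1` and `χ` is nontrivial on all `K i`, and `∑ Θ χ = 2 κ` if `χ(m) = 1` or `χ` is
trivial on one `K i`. `Θ = D (z - δ_1) + 2 κ δ_1`, where `D` is the product of the operators
`z g ↦ z g - z (g m⁻¹)` and `z g ↦ card K * z g - ∑_{u ∈ K} z (g u⁻¹)`.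
-/

namespace Pool.Agent.AAU

private theorem gt_shift {G : Type} [CommGroup G] [Fintype G] {R : Type} [Field R] (χ : G →* Rˣ)
    (z : G → ℤ) (u : G) :
    ∑ g, (z (g * u⁻¹) : R) * χ g = (χ u : R) * ∑ g, (z g : R) * χ g := by
  rw [Finset.mul_sum, ← Equiv.sum_comp (Equiv.mulRight u) (fun g => (z (g * u⁻¹) : R) * χ g)]
  refine Finset.sum_congr rfl fun g _ => ?_
  rw [Equiv.coe_mulRight, mul_inv_cancel_right, map_mul, Units.val_mul]
  ring

private theorem gt_K {G : Type} [CommGroup G] [Fintype G] (K : Subgroup G) (z : G → ℤ) (B : ℕ)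
    (hB : ∀ g, |z g| ≤ B) :
    ∃ D : G → ℤ, (∀ g, |D g| ≤ ((2 * Nat.card K * B : ℕ) : ℤ)) ∧
      ∀ (R : Type) [Field R] (χ : G →* Rˣ), ∃ c : R,
        ∑ g, (D g : R) * χ g = c * ∑ g, (z g : R) * χ g ∧
        ((∃ u ∈ K, χ u ≠ 1) → c = ((Nat.card K : ℕ) : R)) ∧ ((∀ u ∈ K, χ u = 1) → c = 0) := by
  classical
  haveI : Fintype K := Fintype.ofFinite K
  refine ⟨fun g => (Nat.card K : ℤ) * z g - ∑ u : K, z (g * (u : G)⁻¹), ?_, ?_⟩
  · intro g
    have h1 : |∑ u : K, z (g * (u : G)⁻¹)| ≤ (Nat.card K : ℤ) * B := by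
      refine (Finset.abs_sum_le_sum_abs _ _).trans ?_
      refine (Finset.sum_le_card_nsmul _ _ (B : ℤ) fun u _ => hB _).trans ?_
      rw [Finset.card_univ, nsmul_eq_mul, Nat.card_eq_fintype_card]
    have h2 : |(Nat.card K : ℤ) * z g| ≤ (Nat.card K : ℤ) * B := by
      rw [abs_mul, Nat.abs_cast]
      exact mul_le_mul_of_nonneg_left (hB g) (Int.natCast_nonneg _)
    have h3 : |(Nat.card K : ℤ) * z g - ∑ u : K, z (g * (u : G)⁻¹)| ≤
        |(Nat.card K : ℤ) * z g| + |∑ u : K, z (g * (u : G)⁻¹)| := abs_sub _ _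
    refine h3.trans ?_
    push_cast
    linarith
  · intro R _ χ
    refine ⟨((Nat.card K : ℕ) : R) - ∑ u : K, (χ (u : G) : R), ?_, ?_, ?_⟩
    · have h1 : ∑ g, ∑ u : K, (z (g * (u : G)⁻¹) : R) * χ g =
          (∑ u : K, (χ (u : G) : R)) * ∑ g, (z g : R) * χ g := by
        rw [Finset.sum_comm, Finset.sum_mul]
        exact Finset.sum_congr rfl fun u _ => gt_shift χ z u
      rw [sub_mul, ← h1, Finset.mul_sum, ← Finset.sum_sub_distrib]
      refine Finset.sum_congr rfl fun g _ => ?_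
      push_cast
      rw [sub_mul, Finset.sum_mul, mul_assoc]
    · rintro ⟨u, hu, hne⟩
      have h1 : (χ u : R) * ∑ v : K, (χ (v : G) : R) = ∑ v : K, (χ (v : G) : R) := by
        rw [Finset.mul_sum, ← Equiv.sum_comp (Equiv.mulLeft (⟨u, hu⟩ : K)) (fun v : K => (χ (v : G) : R))]
        refine Finset.sum_congr rfl fun v _ => ?_
        rw [Equiv.coe_mulLeft, Subgroup.coe_mul, map_mul, Units.val_mul]
      have h2 : ∑ v : K, (χ (v : G) : R) = 0 := by
        by_contra h0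
        apply hne
        have h3 : (χ u : R) = 1 := mul_right_cancel₀ h0 (h1.trans (one_mul _).symm)
        exact Units.ext h3
      rw [h2, sub_zero]
    · intro h
      have h1 : ∑ v : K, (χ (v : G) : R) = ((Nat.card K : ℕ) : R) := by
        rw [Finset.sum_congr rfl fun (v : K) _ => by rw [h v v.2, Units.val_one], Finset.sum_const,
          Finset.card_univ, nsmul_eq_mul, mul_one, Nat.card_eq_fintype_card]
      rw [h1, sub_self]

private theorem gt_all {G : Type} [CommGroup G] [Fintype G] {ι : Type} (s : Finset ι)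
    (K : ι → Subgroup G) : ∀ (z : G → ℤ) (B : ℕ), (∀ g, |z g| ≤ B) →
    ∃ D : G → ℤ, (∀ g, |D g| ≤ ((2 ^ s.card * (∏ i ∈ s, Nat.card (K i)) * B : ℕ) : ℤ)) ∧
      ∀ (R : Type) [Field R] (χ : G →* Rˣ), ∃ c : R,
        ∑ g, (D g : R) * χ g = c * ∑ g, (z g : R) * χ g ∧
        ((∀ i ∈ s, ∃ u ∈ K i, χ u ≠ 1) → c = ((∏ i ∈ s, Nat.card (K i) : ℕ) : R)) ∧
        ((∃ i ∈ s, ∀ u ∈ K i, χ u = 1) → c = 0) := by
  classical
  induction s using Finset.induction_on with
  | empty =>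
    intro z B hB
    refine ⟨z, fun g => ?_, fun R _ χ => ⟨1, ?_, ?_, ?_⟩⟩
    · simpa using hB g
    · rw [one_mul]
    · intro _
      simp
    · rintro ⟨i, hi, _⟩
      exact absurd hi (Finset.notMem_empty i)
  | insert a s ha ih =>
    intro z B hB
    obtain ⟨D1, h1, h2⟩ := ih z B hB
    obtain ⟨D, h3, h4⟩ := gt_K (K a) D1 _ h1
    refine ⟨D, fun g => (h3 g).trans (le_of_eq ?_), fun R _ χ => ?_⟩
    · rw [Finset.card_insert_of_notMem ha, Finset.prod_insert ha]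
      congr 1
      ring
    · obtain ⟨c1, e1, e2, e3⟩ := h2 R χ
      obtain ⟨c, e4, e5, e6⟩ := h4 R χ
      refine ⟨c * c1, ?_, ?_, ?_⟩
      · rw [e4, e1, mul_assoc]
      · intro h
        rw [Finset.prod_insert ha, e5 (h a (Finset.mem_insert_self a s)),
          e2 (fun i hi => h i (Finset.mem_insert_of_mem hi))]
        push_cast
        rfl
      · rintro ⟨i, hi, h⟩
        rcases Finset.mem_insert.1 hi with rfl | hi
        · rw [e6 h, zero_mul]
        · rw [e3 ⟨i, hi, h⟩, mul_zero]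

theorem grp_theta {G : Type} [CommGroup G] [Fintype G] {ι : Type} (s : Finset ι)
    (K : ι → Subgroup G) (m : G) (z : G → ℤ) (B : ℕ) (hB : ∀ g, |z g| ≤ B) :
    ∃ Θ : G → ℤ,
      (∀ g, |Θ g| ≤ ((2 ^ (s.card + 2) * (∏ i ∈ s, Nat.card (K i)) * (B + 1) : ℕ) : ℤ)) ∧
      ∀ (R : Type) [Field R] (χ : G →* Rˣ),
        ((χ m : R) = -1 → (∀ i ∈ s, ∃ u ∈ K i, χ u ≠ 1) →
          ∑ g, (Θ g : R) * χ g =
            ((2 * ∏ i ∈ s, Nat.card (K i) : ℕ) : R) * ∑ g, (z g : R) * χ g) ∧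
        (((χ m : R) = 1 ∨ ∃ i ∈ s, ∀ u ∈ K i, χ u = 1) →
          ∑ g, (Θ g : R) * χ g = ((2 * ∏ i ∈ s, Nat.card (K i) : ℕ) : R)) := by
  classical
  set w : G → ℤ := fun g => z g - (if g = 1 then 1 else 0) with hw
  have hwB : ∀ g, |w g| ≤ ((B + 1 : ℕ) : ℤ) := by
    intro g
    have h1 : |w g| ≤ |z g| + |(if g = 1 then (1 : ℤ) else 0)| := abs_sub _ _
    have h2 : |(if g = 1 then (1 : ℤ) else 0)| ≤ 1 := by split_ifs <;> simp
    have h3 := hB g
    push_cast
    linarith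
  set v : G → ℤ := fun g => w g - w (g * m⁻¹) with hv
  have hvB : ∀ g, |v g| ≤ ((2 * (B + 1) : ℕ) : ℤ) := by
    intro g
    have h1 : |v g| ≤ |w g| + |w (g * m⁻¹)| := abs_sub _ _
    have h2 := hwB g
    have h3 := hwB (g * m⁻¹)
    push_cast at *
    linarith
  obtain ⟨D, hD, hR⟩ := gt_all s K v (2 * (B + 1)) hvB
  set κ : ℕ := ∏ i ∈ s, Nat.card (K i) with hκ
  refine ⟨fun g => D g + (if g = 1 then ((2 * κ : ℕ) : ℤ) else 0), ?_, ?_⟩
  · intro g
    have h1 : |D g + (if g = 1 then ((2 * κ : ℕ) : ℤ) else 0)| ≤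
        |D g| + |(if g = 1 then ((2 * κ : ℕ) : ℤ) else 0)| := abs_add_le _ _
    have h2 : |(if g = 1 then ((2 * κ : ℕ) : ℤ) else 0)| ≤ ((2 * κ : ℕ) : ℤ) := by
      split_ifs
      · rw [Nat.abs_cast]
      · rw [abs_zero]
        exact Int.natCast_nonneg _
    refine (h1.trans (add_le_add (hD g) h2)).trans ?_
    rw [← Nat.cast_add]
    refine Int.ofNat_le.2 ?_
    have h3 : 1 ≤ 2 ^ s.card := Nat.one_le_two_pow
    have h4 : κ ≤ 2 ^ s.card * κ * (B + 1) := by
      calc κ = 1 * κ * 1 := by ring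
        _ ≤ 2 ^ s.card * κ * (B + 1) :=
          Nat.mul_le_mul (Nat.mul_le_mul h3 le_rfl) (Nat.le_add_left 1 B)
    calc 2 ^ s.card * κ * (2 * (B + 1)) + 2 * κ
        ≤ 2 ^ s.card * κ * (2 * (B + 1)) + 2 * (2 ^ s.card * κ * (B + 1)) :=
          Nat.add_le_add_left (Nat.mul_le_mul_left 2 h4) _
      _ = 2 ^ (s.card + 2) * κ * (B + 1) := by ring
  · intro R _ χ
    obtain ⟨c, e1, e2, e3⟩ := hR R χ
    have hone : ∀ t : ℤ, ∑ g, (((if g = 1 then t else 0 : ℤ)) : R) * χ g = (t : R) := by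
      intro t
      rw [Finset.sum_eq_single (1 : G)]
      · rw [if_pos rfl, map_one, Units.val_one, mul_one]
      · intro g _ hg
        rw [if_neg hg, Int.cast_zero, zero_mul]
      · intro h
        exact absurd (Finset.mem_univ _) h
    have hws : ∑ g, (w g : R) * χ g = ∑ g, (z g : R) * χ g - 1 := by
      have h := hone 1
      rw [Int.cast_one] at h
      rw [← h, ← Finset.sum_sub_distrib]
      refine Finset.sum_congr rfl fun g _ => ?_
      rw [hw]
      push_cast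
      ring
    have hvs : ∑ g, (v g : R) * χ g = (1 - (χ m : R)) * ∑ g, (w g : R) * χ g := by
      rw [sub_mul, one_mul, ← gt_shift χ w m, ← Finset.sum_sub_distrib]
      refine Finset.sum_congr rfl fun g _ => ?_
      rw [hv]
      push_cast
      ring
    have hΘ : ∑ g, ((D g + (if g = 1 then ((2 * κ : ℕ) : ℤ) else 0) : ℤ) : R) * χ g =
        c * ((1 - (χ m : R)) * (∑ g, (z g : R) * χ g - 1)) + ((2 * κ : ℕ) : R) := by
      have h := hone ((2 * κ : ℕ) : ℤ)
      rw [Int.cast_natCast] at h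
      rw [← h, ← hws, ← hvs, ← e1, ← Finset.sum_add_distrib]
      refine Finset.sum_congr rfl fun g _ => ?_
      rw [Int.cast_add, add_mul]
    constructor
    · intro hm hs
      show ∑ g, ((D g + (if g = 1 then ((2 * κ : ℕ) : ℤ) else 0) : ℤ) : R) * χ g = _
      rw [hΘ, e2 hs, hm]
      push_cast
      ring
    · intro hm
      show ∑ g, ((D g + (if g = 1 then ((2 * κ : ℕ) : ℤ) else 0) : ℤ) : R) * χ g = _
      rw [hΘ]
      rcases hm with hm | hm
      · rw [hm, sub_self, zero_mul, mul_zero, zero_add]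
      · rw [e3 hm, zero_mul, zero_add]

end Pool.Agent.AAU
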