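import Pool.Agent.AAU.Bd2
import Pool.Agent.AAU.DefsU
import Pool.Agent.AAU.GrpTheta
import Pool.Agent.AAP.BernInt
import Pool.Agent.AAP.DetG
import Pool.Agent.EDV.NvO

/-!
# AAU-FinOne: the exceptional primes of `B_{1, χ}`, `χ` primitive and odd

The group determinant (`detG`) of the element `Θ` of `grp_theta` for the subgroups
`K q = Ker ((ℤ/f)ˣ → (ℤ/(f/q))ˣ)`, `q ∣ f` prime, `m = -1` and `z_r = 2 f bb f 1 r` (`bernInt`). The sums of
`Θ` against the complex characters do not vanish by `nv_one`. The size is bounded as in `FinU.lean`.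
-/

open NumberField Nat

namespace Pool.Agent.AAU

open Pool.Agent.AAP Pool.Agent.EDV

private theorem fo_norm_chi (N : ℕ) [NeZero N] (E : Type) [NormedField E]
    (χ : (ZMod N)ˣ →* Eˣ) (r : (ZMod N)ˣ) : ‖(χ r : E)‖ = 1 := by
  refine (pow_eq_one_iff_of_nonneg (norm_nonneg _) (Nat.card_pos (α := (ZMod N)ˣ)).ne').mp ?_
  rw [← norm_pow, ← Units.val_pow_eq_pow_val, ← map_pow, pow_card_eq_one']
  simp

private theorem fo_norm_int (p : ℕ) [Fact p.Prime] (E : Type) [NormedField E]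
    [NormedAlgebra ℚ_[p] E] (k : ℤ) : ‖(k : E)‖ ≤ 1 := by
  have h1 : (k : E) = algebraMap ℚ_[p] E (k : ℚ_[p]) := (map_intCast _ _).symm
  rw [h1, norm_algebraMap']
  exact Padic.norm_int_le_one k

private theorem fo_norm_nat (p : ℕ) [Fact p.Prime] (E : Type) [NormedField E]
    [NormedAlgebra ℚ_[p] E] (k : ℕ) (hk : ¬ p ∣ k) : ‖(k : E)‖ = 1 := by
  have h1 : (k : E) = algebraMap ℚ_[p] E (k : ℚ_[p]) := (map_natCast _ _).symm
  rw [h1, norm_algebraMap']
  exact Padic.norm_natCast_eq_one_iff.2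
    ((Nat.Prime.coprime_iff_not_dvd Fact.out).2 hk)

open Classical in
/-- the kernel of the reduction modulo `f / q` -/
private noncomputable def foK (f q : ℕ) : Subgroup (ZMod f)ˣ :=
  if h : f / q ∣ f then (ZMod.unitsMap h).ker else ⊥

private theorem fo_mem {f q : ℕ} (h : f / q ∣ f) {u : (ZMod f)ˣ} :
    u ∈ foK f q ↔ ZMod.unitsMap h u = 1 := by
  rw [foK, dif_pos h, MonoidHom.mem_ker]

private theorem fo_dec {f : ℕ} [NeZero f] {ℓ : ℕ} (hℓ : ℓ.Prime) (hd : ℓ ∣ f) {u : (ZMod f)ˣ}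
    (hu : u ∈ foK f ℓ) : DecL ℓ f u := by
  have h : f / ℓ ∣ f := Nat.div_dvd_of_dvd hd
  rw [fo_mem h] at hu
  obtain ⟨j, m', hm, hf⟩ := Nat.exists_eq_pow_mul_and_not_dvd (NeZero.ne f) ℓ hℓ.one_lt.ne'
  have hj : j ≠ 0 := by
    intro h0
    apply hm
    rw [h0, pow_zero, one_mul] at hf
    rwa [← hf]
  obtain ⟨i, rfl⟩ := Nat.exists_eq_succ_of_ne_zero hj
  have h1 : f / ℓ = ℓ ^ i * m' := by
    conv_lhs => rw [hf]
    rw [pow_succ, mul_comm (ℓ ^ i) ℓ, mul_assoc, Nat.mul_div_cancel_left _ hℓ.pos]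
  refine ⟨0, i + 1, m', hf, (Nat.Prime.coprime_iff_not_dvd hℓ).2 hm, ?_⟩
  have h2 : ((u : ZMod f).cast : ZMod (f / ℓ)) = 1 := by
    have h3 := congrArg (Units.val) hu
    rw [ZMod.unitsMap_val, Units.val_one] at h3
    exact h3
  have h4 : (((u : ZMod f).val : ℕ) : ZMod (f / ℓ)) = ((1 : ℕ) : ZMod (f / ℓ)) := by
    rw [Nat.cast_one, ← h2, ZMod.natCast_val]
  have h5 : (u : ZMod f).val ≡ 1 [MOD f / ℓ] := (ZMod.natCast_eq_natCast_iff _ _ _).1 h4
  rw [pow_zero]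
  exact h5.of_dvd (h1 ▸ Nat.dvd_mul_left m' (ℓ ^ i))

private theorem fo_key (f : ℕ) [NeZero f] : ∃ M : ℕ, M ≠ 0 ∧
    M ≤ (f * 2) * ((Nat.totient f)! *
      (2 ^ (f + 2) * f ^ f * (8 * f + 1)) ^ Nat.totient f) ∧
    ∀ (p : ℕ) [Fact p.Prime], ¬ p ∣ M → ∀ (E : Type) [NormedField E] [IsUltrametricDist E]
      [NormedAlgebra ℚ_[p] E] (χ : (ZMod f)ˣ →* Eˣ), (χ (-1) : E) = -1 → PrimC χ →
        ‖(TT f 1 χ : E)‖ = 1 := by
  classical
  have hN : 1 ≤ f := Nat.pos_of_ne_zero (NeZero.ne f)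
  have hz : ∀ r : (ZMod f)ˣ, ∃ z : ℤ,
      (z : ℚ) = ((f * (1 + 1)! : ℕ) : ℚ) * bb f 1 (r : ZMod f).val ∧
      |z| ≤ (((1 + 1)! ^ 2 * (2 * f) ^ 1 : ℕ) : ℤ) :=
    fun r => bernInt f 1 _ hN le_rfl (ZMod.val_lt _).le
  choose z hz1 hz2 using hz
  have hB0 : (1 + 1)! ^ 2 * (2 * f) ^ 1 = 8 * f := by
    norm_num [Nat.factorial]
    ring
  rw [hB0] at hz2
  have hD : f * (1 + 1)! = f * 2 := by norm_num [Nat.factorial]
  rw [hD] at hz1
  obtain ⟨Θ, hΘ1, hΘ2⟩ := grp_theta f.primeFactors (foK f) (-1) z (8 * f) hz2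
  set κ : ℕ := ∏ i ∈ f.primeFactors, Nat.card (foK f i) with hκ
  have hκ0 : κ ≠ 0 := Finset.prod_ne_zero_iff.2 fun i _ => Nat.card_pos.ne'
  have hm : (-1 : (ZMod f)ˣ) * (-1) = 1 := by simp
  have hcs : f.primeFactors.card ≤ f := by
    have h1 : f.primeFactors ⊆ Finset.Icc 1 f := fun q hq =>
      Finset.mem_Icc.2 ⟨(Nat.prime_of_mem_primeFactors hq).pos, Nat.le_of_mem_primeFactors hq⟩
    have h2 := Finset.card_le_card h1
    rwa [Nat.card_Icc, Nat.add_sub_cancel] at h2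
  have hκ1 : κ ≤ f ^ f := by
    have h1 : ∀ i ∈ f.primeFactors, Nat.card (foK f i) ≤ f := by
      intro i _
      refine (Subgroup.card_le_card_group _).trans ?_
      rw [Nat.card_eq_fintype_card, ZMod.card_units_eq_totient]
      exact Nat.totient_le f
    exact (Finset.prod_le_pow_card _ _ _ h1).trans (Nat.pow_le_pow_right hN hcs)
  obtain ⟨M, hM0, hM1, hM2⟩ := detG Θ _ hΘ1 (by
      intro ψ
      have h1 : (ψ (-1) : ℂ) * ψ (-1) = 1 := by
        rw [← Units.val_mul, ← map_mul, hm, map_one, Units.val_one]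
      obtain ⟨e1, e2⟩ := hΘ2 ℂ ψ
      have h2κ : ((2 * κ : ℕ) : ℂ) ≠ 0 := by
        exact_mod_cast Nat.mul_ne_zero two_ne_zero hκ0
      by_cases hc : (ψ (-1) : ℂ) = -1 ∧ ∀ i ∈ f.primeFactors, ∃ u ∈ foK f i, ψ u ≠ 1
      · rw [e1 hc.1 hc.2]
        have h5 := nv_one f ψ hc.1 (by
          intro ℓ hℓ hd
          obtain ⟨u, hu, hne⟩ := hc.2 ℓ (Nat.mem_primeFactors.2 ⟨hℓ, hd, NeZero.ne f⟩)
          exact ⟨u, fo_dec hℓ hd hu, hne⟩)
        have h6 : ∑ r, (z r : ℂ) * ψ r = ((f * 2 : ℕ) : ℂ) *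
            ∑ r : (ZMod f)ˣ, (ψ r : ℂ) * ((bb f 1 (r : ZMod f).val : ℚ) : ℂ) := by
          rw [Finset.mul_sum]
          refine Finset.sum_congr rfl fun r _ => ?_
          have h4 : (z r : ℂ) = ((f * 2 : ℕ) : ℂ) *
              ((bb f 1 (r : ZMod f).val : ℚ) : ℂ) := by
            have h5 := congrArg (Rat.cast : ℚ → ℂ) (hz1 r)
            push_cast at h5 ⊢
            exact h5
          rw [h4]
          ring
        rw [h6]
        refine mul_ne_zero h2κ (mul_ne_zero ?_ h5)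
        exact_mod_cast Nat.mul_ne_zero (NeZero.ne f) two_ne_zero
      · rw [e2 ?_]
        · exact h2κ
        · rcases mul_self_eq_one_iff.1 h1 with h3 | h3
          · exact Or.inl h3
          · right
            by_contra hcon
            apply hc
            refine ⟨h3, fun i hi => ?_⟩
            by_contra hcon2
            apply hcon
            refine ⟨i, hi, fun u hu => ?_⟩
            by_contra hne
            exact hcon2 ⟨u, hu, hne⟩)
  rw [ZMod.card_units_eq_totient] at hM1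
  have hM3 : M ≤ (Nat.totient f)! *
      (2 ^ (f + 2) * f ^ f * (8 * f + 1)) ^ Nat.totient f := by
    refine hM1.trans (Nat.mul_le_mul_left _ (Nat.pow_le_pow_left ?_ _))
    exact Nat.mul_le_mul_right _ (Nat.mul_le_mul
      (Nat.pow_le_pow_right two_pos (Nat.add_le_add_right hcs 2)) hκ1)
  refine ⟨(f * 2) * M, Nat.mul_ne_zero (Nat.mul_ne_zero (NeZero.ne f) two_ne_zero) hM0,
    Nat.mul_le_mul_left _ hM3, ?_⟩
  intro p hp hpM E _ _ _ χ hχ hprim
  have : CharZero E := charZero_of_injective_algebraMap (algebraMap ℚ_[p] E).injective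
  have hpD : ¬ p ∣ f * 2 := fun h => hpM (h.mul_right _)
  have hpM' : ¬ p ∣ M := fun h => hpM (h.mul_left _)
  have h1 : ¬ ‖∑ g, (Θ g : E) * χ g‖ < 1 := fun h => hpM' (hM2 p E χ h)
  rw [(hΘ2 E χ).1 hχ (by
    intro q hq
    have hqp := Nat.prime_of_mem_primeFactors hq
    have hd : f / q ∣ f := Nat.div_dvd_of_dvd (Nat.dvd_of_mem_primeFactors hq)
    obtain ⟨u, hu, hne⟩ := hprim (f / q) hd (Nat.div_lt_self hN hqp.one_lt).ne
    exact ⟨u, (fo_mem hd).2 hu, hne⟩), norm_mul, not_lt] at h1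
  have h3 : ∑ r, (z r : E) * χ r = ((f * 2 : ℕ) : E) * TT f 1 χ := by
    unfold TT
    rw [Finset.mul_sum]
    refine Finset.sum_congr rfl fun r _ => ?_
    have h4 : (z r : E) = ((f * 2 : ℕ) : E) * ((bb f 1 (r : ZMod f).val : ℚ) : E) := by
      have h5 := congrArg (Rat.cast : ℚ → E) (hz1 r)
      push_cast at h5 ⊢
      exact h5
    rw [h4]
    ring
  have h4 : ‖∑ r, (z r : E) * χ r‖ ≤ 1 := by
    refine IsUltrametricDist.norm_sum_le_of_forall_le_of_nonneg zero_le_one fun r _ => ?_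
    rw [norm_mul, fo_norm_chi, mul_one]
    exact fo_norm_int p E _
  have h6 := fo_norm_int p E ((2 * κ : ℕ) : ℤ)
  rw [Int.cast_natCast] at h6
  have h7 : ‖∑ r, (z r : E) * χ r‖ = 1 := by
    refine le_antisymm h4 (h1.trans ?_)
    calc ‖((2 * κ : ℕ) : E)‖ * ‖∑ r, (z r : E) * χ r‖ ≤ 1 * ‖∑ r, (z r : E) * χ r‖ :=
          mul_le_mul_of_nonneg_right h6 (norm_nonneg _)
      _ = ‖∑ r, (z r : E) * χ r‖ := one_mul _
  rw [h3, norm_mul, fo_norm_nat p E _ hpD, one_mul] at h7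
  exact h7

theorem finOne : ∃ G : ℕ → ℕ, Bd2 (fun f _ => G f) ∧ ∀ (f : ℕ) [NeZero f], G f ≠ 0 ∧
    ∀ (p : ℕ) [Fact p.Prime], ¬ p ∣ G f → ∀ (E : Type) [NormedField E] [IsUltrametricDist E]
      [NormedAlgebra ℚ_[p] E] (χ : (ZMod f)ˣ →* Eˣ), (χ (-1) : E) = -1 → PrimC χ →
        ‖(TT f 1 χ : E)‖ = 1 := by
  have h1 : ∀ f : ℕ, ∃ M : ℕ, M ≤ (f * 2) * ((Nat.totient f)! *
      (2 ^ (f + 2) * f ^ f * (8 * f + 1)) ^ Nat.totient f) ∧ ∀ [NeZero f], M ≠ 0 ∧
      ∀ (p : ℕ) [Fact p.Prime], ¬ p ∣ M → ∀ (E : Type) [NormedField E] [IsUltrametricDist E]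
        [NormedAlgebra ℚ_[p] E] (χ : (ZMod f)ˣ →* Eˣ), (χ (-1) : E) = -1 → PrimC χ →
          ‖(TT f 1 χ : E)‖ = 1 := by
    intro f
    by_cases hf : f = 0
    · refine ⟨0, Nat.zero_le _, ?_⟩
      intro hf'
      exact absurd hf (NeZero.ne f)
    · have : NeZero f := ⟨hf⟩
      obtain ⟨M, h1, h2, h3⟩ := fo_key f
      refine ⟨M, h2, ?_⟩
      intro _
      exact ⟨h1, h3⟩
  choose G hG1 hG2 using h1
  refine ⟨G, Bd2.mono ?_ fun f _ _ _ => hG1 f, fun f _ => hG2 f⟩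
  have hN : Bd2 fun N _ => N := by
    refine Bd2.poly _ 1 fun N n hN hn => ?_
    have : N * 1 ≤ N * n := Nat.mul_le_mul_left _ hn
    simpa using this
  have ht : Bd2 fun N _ => (Nat.totient N)! := by
    refine Bd2.fact (fun N _ => Nat.totient N) 1 fun N n hN hn => ?_
    have h1 := Nat.totient_le N
    have : N * 1 ≤ N * n := Nat.mul_le_mul_left _ hn
    rw [one_mul, pow_one]
    omega
  have h2 : Bd2 fun N _ => 2 ^ (N + 2) := by
    refine Bd2.exp (fun _ _ => 2) (fun N _ => N + 2) 3 (fun N n hN hn => ?_) fun N n hN hn => ?_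
    · have h1 : 1 ≤ N * n := Nat.mul_pos hN hn
      have h2 : 3 * N * n ≤ (3 * N * n) ^ 3 := Nat.le_self_pow (by norm_num) _
      have h3 : 3 * N * n = 3 * (N * n) := by ring
      omega
    · have h1 : N ≤ N ^ 3 := Nat.le_self_pow (by norm_num) _
      have h2 : 3 * N ^ 3 * 1 ≤ 3 * N ^ 3 * n := Nat.mul_le_mul_left _ hn
      omega
  have h3 : Bd2 fun N _ => N ^ N := by
    refine Bd2.exp (fun N _ => N) (fun N _ => N) 1 (fun N n hN hn => ?_) fun N n hN hn => ?_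
    · have : N * 1 ≤ N * n := Nat.mul_le_mul_left _ hn
      rw [pow_one, one_mul]
      omega
    · have : N * 1 ≤ N * n := Nat.mul_le_mul_left _ hn
      rw [pow_one, one_mul]
      omega
  have h4 : Bd2 fun N _ => 8 * N + 1 := by
    refine Bd2.poly _ 9 fun N n hN hn => ?_
    have h2 : 9 * N * n ≤ (9 * N * n) ^ 9 := Nat.le_self_pow (by norm_num) _
    have h5 : 9 * N * 1 ≤ 9 * N * n := Nat.mul_le_mul_left _ hn
    omega
  exact (hN.mul (Bd2.const 2)).mul (ht.mul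
    (((h2.mul h3).mul h4).pow (fun N => Nat.totient N) 1 fun N _ => by
        have h1 := Nat.totient_le N
        rw [one_mul, pow_one]
        exact h1))

end Pool.Agent.AAU
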