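import Mathlib

/-!
# The number of exceptional pairs of a prime and a weight less than `p ^ (1 - ε)`
-/

namespace Pool.Agent.AAU

private theorem pairU_root (k : ℕ) (hk : 1 ≤ k) (X : ℕ) :
    ∃ Y : ℕ, Y ^ k ≤ X ∧ ∀ N, N ^ k ≤ X → N ≤ Y := by
  have h0 : (0 : ℕ) ^ k ≤ X := by
    rw [zero_pow (by omega)]
    exact Nat.zero_le _
  refine ⟨Nat.findGreatest (fun Y => Y ^ k ≤ X) X,
    Nat.findGreatest_spec (P := fun Y => Y ^ k ≤ X) (Nat.zero_le X) h0, fun N hN => ?_⟩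
  exact Nat.le_findGreatest ((Nat.le_self_pow (by omega) N).trans hN) hN

theorem pairU (C : ℕ) (P : ℕ → ℕ → Finset ℕ) (h : ∀ N n, (P N n).card ≤ C * N ^ C * n) (m : ℕ) :
    ∃ k : ℕ, ∀ X : ℕ, {x : ℕ × ℕ | x.1 ≤ X ∧ x.2 ^ (m + 1) ≤ x.1 ^ m ∧
      ∃ N, 1 ≤ N ∧ N ^ k ≤ x.1 ∧ x.1 ∈ P N x.2}.ncard ^ (2 * m + 2) ≤ k * X ^ (4 * m + 1) := by
  classical
  refine ⟨C ^ (2 * m + 2) + (C + 1) * (2 * m + 2) + 1, fun X => ?_⟩
  set k := C ^ (2 * m + 2) + (C + 1) * (2 * m + 2) + 1 with hk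
  have hk1 : 1 ≤ k := by omega
  obtain ⟨Y, hY, hY'⟩ := pairU_root k hk1 X
  obtain ⟨Z, hZ, hZ'⟩ := pairU_root (m + 1) (by omega) (X ^ m)
  rcases Nat.eq_zero_or_pos X with hX | hX
  · have he : {x : ℕ × ℕ | x.1 ≤ X ∧ x.2 ^ (m + 1) ≤ x.1 ^ m ∧
        ∃ N, 1 ≤ N ∧ N ^ k ≤ x.1 ∧ x.1 ∈ P N x.2} = ∅ := by
      ext x
      simp only [Set.mem_ofPred_eq, Set.mem_empty_iff_false, iff_false]
      rintro ⟨hp, -, N, hN, hNk, -⟩
      have h1 : 1 ≤ N ^ k := Nat.one_le_pow _ _ hN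
      omega
    rw [he, Set.ncard_empty, zero_pow (by omega)]
    exact Nat.zero_le _
  have hY1 : 1 ≤ Y := hY' 1 (by rw [one_pow]; exact hX)
  have h1 : {x : ℕ × ℕ | x.1 ≤ X ∧ x.2 ^ (m + 1) ≤ x.1 ^ m ∧
      ∃ N, 1 ≤ N ∧ N ^ k ≤ x.1 ∧ x.1 ∈ P N x.2}.ncard ≤ C * Y ^ (C + 1) * Z ^ 2 := by
    let T : Finset (ℕ × ℕ) := (Finset.Icc 1 Y ×ˢ Finset.Icc 1 Z).biUnion fun y =>
      (P y.1 y.2).image fun p => (p, y.2)
    have hT : T.card ≤ C * Y ^ (C + 1) * Z ^ 2 := by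
      refine Finset.card_biUnion_le.trans ?_
      refine (Finset.sum_le_card_nsmul _ _ (C * Y ^ C * Z) fun y hy => ?_).trans ?_
      · rw [Finset.mem_product, Finset.mem_Icc, Finset.mem_Icc] at hy
        refine Finset.card_image_le.trans ((h y.1 y.2).trans ?_)
        exact Nat.mul_le_mul (Nat.mul_le_mul_left _ (Nat.pow_le_pow_left hy.1.2 _)) hy.2.2
      · rw [Finset.card_product, Nat.card_Icc, Nat.card_Icc, smul_eq_mul, Nat.add_sub_cancel,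
          Nat.add_sub_cancel]
        refine le_of_eq ?_
        ring
    refine le_trans ?_ hT
    rw [← Set.ncard_coe_finset]
    refine Set.ncard_le_ncard ?_ (Finset.finite_toSet _)
    rintro ⟨p, n⟩ ⟨hp, hn, N, hN, hNk, hpP⟩
    rw [Finset.mem_coe, Finset.mem_biUnion]
    refine ⟨(N, n), ?_, Finset.mem_image.2 ⟨p, hpP, rfl⟩⟩
    rw [Finset.mem_product, Finset.mem_Icc, Finset.mem_Icc]
    refine ⟨⟨hN, hY' N (hNk.trans hp)⟩, ?_, hZ' n (hn.trans (Nat.pow_le_pow_left hp m))⟩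
    rcases Nat.eq_zero_or_pos n with hn0 | hn0
    · have h2 := h N n
      rw [hn0, mul_zero, Nat.le_zero, Finset.card_eq_zero] at h2
      change p ∈ P N n at hpP
      rw [hn0, h2] at hpP
      exact absurd hpP (Finset.notMem_empty _)
    · exact hn0
  refine (Nat.pow_le_pow_left h1 _).trans ?_
  have e1 : (C * Y ^ (C + 1) * Z ^ 2) ^ (2 * m + 2) =
      C ^ (2 * m + 2) * Y ^ ((C + 1) * (2 * m + 2)) * (Z ^ (m + 1)) ^ 4 := by
    rw [mul_pow, mul_pow, ← pow_mul, ← pow_mul, ← pow_mul]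
    congr 2
    ring
  have e2 : (X ^ m) ^ 4 * X = X ^ (4 * m + 1) := by
    rw [← pow_mul, pow_succ, mul_comm m 4]
  rw [e1]
  calc C ^ (2 * m + 2) * Y ^ ((C + 1) * (2 * m + 2)) * (Z ^ (m + 1)) ^ 4
      ≤ k * X * (X ^ m) ^ 4 := by
        refine Nat.mul_le_mul (Nat.mul_le_mul (by omega) ?_) (Nat.pow_le_pow_left hZ 4)
        exact (Nat.pow_le_pow_right hY1 (by omega)).trans hY
    _ = k * X ^ (4 * m + 1) := by rw [← e2]; ring

end Pool.Agent.AAU
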