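import Pool.Agent.AAU.TwU

/-!
# The twist by the inverse of a character modulo `N`, with its matrices

`W g = ψ(g) V(g)` with `ψ g = (α a)⁻¹`, as in `TwU.lean`; moreover `A V(g) A⁻¹ = α(a) A W(g) A⁻¹` for all
`A`.
-/

open Matrix NumberField Pointwise

namespace Pool.Agent.AAU

open Pool.Agent.AAP Pool.Agent.EDV

open Pool.Agent.Helper60.FM

private theorem twv_closed (x y : Qb) : IsClosed {g : GQ | g x = y} := by
  by_cases h : ∃ g₀ : GQ, g₀ x = y
  · obtain ⟨g₀, hg₀⟩ := h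
    have h1 := stabilizer_isOpen_of_isIntegral (K := ℚ) (L := Qb) x
    have h2 := Subgroup.isClosed_of_isOpen _ h1
    have h3 : {g : GQ | g x = y} =
        (fun g => g₀⁻¹ * g) ⁻¹' ((MulAction.stabilizer Gal(Qb/ℚ) x : Subgroup _) : Set _) := by
      ext g
      rw [Set.mem_preimage, SetLike.mem_coe, MulAction.mem_stabilizer_iff, mul_smul,
        inv_smul_eq_iff]
      change g x = y ↔ g x = g₀ x
      rw [hg₀]
    rw [h3]
    exact h2.preimage (continuous_const_mul _)
  · have h3 : {g : GQ | g x = y} = ∅ := by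
      ext g
      constructor
      · intro hg
        exact (h ⟨g, hg⟩).elim
      · intro hg
        exact hg.elim
    rw [h3]
    exact isClosed_empty

private theorem twv_acts_closed' (m b : ℕ) : IsClosed {g : GQ | ActsAs m g b} := by
  have h1 : {g : GQ | ActsAs m g b} = ⋂ (ζ : Qb) (_ : ζ ^ m = 1), {g : GQ | g ζ = ζ ^ b} := by
    ext g
    simp only [Set.mem_iInter]
    rfl
  rw [h1]
  exact isClosed_iInter fun ζ => isClosed_iInter fun _ => twv_closed _ _

private theorem twv_acts_closed (m b : ℕ) : IsClosed {g : Gam | Acts m g b} :=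
  twv_acts_closed' m b

section

variable {E : Type} [NormedField E]

/-- the scalar matrices -/
private noncomputable def twv_sc (E : Type) [NormedField E] : Eˣ →* GL2 E :=
  Units.map (Matrix.scalar (Fin 2)).toMonoidHom

private theorem twv_mat_mul (A B : GL2 E) : (A * B).mat = A.mat * B.mat := rfl

private theorem twv_ext {A B : GL2 E} (h : A.mat = B.mat) : A = B := Units.ext h

private theorem twv_sc_mat (u : Eˣ) : (twv_sc E u).mat = (u : E) • (1 : Matrix (Fin 2) (Fin 2) E) :=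
  (Matrix.smul_one_eq_diagonal (u : E)).symm

private theorem twv_mul_mat (u : Eˣ) (A : GL2 E) : (twv_sc E u * A).mat = (u : E) • A.mat := by
  rw [twv_mat_mul, twv_sc_mat, Matrix.smul_mul, Matrix.one_mul]

private theorem twv_comm (u : Eˣ) (A : GL2 E) : twv_sc E u * A = A * twv_sc E u := by
  apply twv_ext
  rw [twv_mul_mat, twv_mat_mul, twv_sc_mat, Matrix.mul_smul, Matrix.mul_one]

/-- the twist -/
private noncomputable def twv_W (ψ : Gam →* Eˣ) (V : Gam →* GL2 E) : Gam →* GL2 E where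
  toFun g := twv_sc E (ψ g) * V g
  map_one' := by rw [map_one, map_one, map_one, one_mul]
  map_mul' g h := by
    rw [map_mul, map_mul, map_mul, mul_assoc, ← mul_assoc (twv_sc E (ψ h)), twv_comm (ψ h) (V g),
      mul_assoc, mul_assoc]

private theorem twv_W_apply (ψ : Gam →* Eˣ) (V : Gam →* GL2 E) (g : Gam) :
    twv_W ψ V g = twv_sc E (ψ g) * V g := rfl

private theorem twv_W_mat (ψ : Gam →* Eˣ) (V : Gam →* GL2 E) (g : Gam) :
    (twv_W ψ V g).mat = (ψ g : E) • (V g).mat := by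
  rw [twv_W_apply, twv_mul_mat]

private theorem twv_cont_iff (V : Gam →* GL2 E) :
    Continuous V ↔ (Continuous fun g => (V g).mat) ∧ Continuous fun g => ((V g)⁻¹).mat :=
  Units.continuous_iff (M := Matrix (Fin 2) (Fin 2) E) (f := V)

private theorem twv_W_inv (ψ : Gam →* Eˣ) (V : Gam →* GL2 E) (g : Gam) :
    ((twv_W ψ V g)⁻¹).mat = (ψ g : E)⁻¹ • ((V g)⁻¹).mat := by
  rw [← map_inv, twv_W_mat, map_inv, map_inv, Units.val_inv_eq_inv_val]

private theorem twv_cont {ψ : Gam →* Eˣ} (hψ : Continuous fun g => (ψ g : E)) {V : Gam →* GL2 E}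
    (hV : Continuous V) : Continuous (twv_W ψ V) := by
  rw [twv_cont_iff] at hV ⊢
  refine ⟨?_, ?_⟩
  · have h1 : (fun g => (twv_W ψ V g).mat) = fun g => (ψ g : E) • (V g).mat := by
      funext g
      exact twv_W_mat ψ V g
    rw [h1]
    exact hψ.smul hV.1
  · have h1 : (fun g => ((twv_W ψ V g)⁻¹).mat) = fun g => (ψ g : E)⁻¹ • ((V g)⁻¹).mat := by
      funext g
      exact twv_W_inv ψ V g
    rw [h1]
    exact (hψ.inv₀ fun g => Units.ne_zero _).smul hV.2

private theorem twv_cc_mul_self {c : Gam} (hc : CC c) : c * c = 1 := by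
  obtain ⟨ι, hι⟩ := hc
  have h1 : ∀ x : Qbar, c.ap (c.ap x) = x := by
    intro x
    apply ι.injective
    rw [hι, hι, Complex.conj_conj]
  exact AlgEquiv.ext h1

private theorem twv_even {ψ : Gam →* Eˣ} {V : Gam →* GL2 E} (hV : Even2 V) :
    Even2 (twv_W ψ V) := by
  intro c hc
  have h1 : (ψ c : E) ^ 2 = 1 := by
    have h2 : ψ c * ψ c = 1 := by rw [← map_mul, twv_cc_mul_self hc, map_one]
    have h3 := congrArg (fun u : Eˣ => (u : E)) h2
    rw [sq]
    exact h3
  rw [twv_W_mat, Matrix.det_smul, Fintype.card_fin, h1, one_mul]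
  exact hV c hc

private theorem twv_line {ψ : Gam →* Eˣ} {V : Gam →* GL2 E} (h : Line (twv_W ψ V)) : Line V := by
  obtain ⟨v, hv, hv2⟩ := h
  refine ⟨v, hv, fun g => ?_⟩
  obtain ⟨c, hc⟩ := hv2 g
  refine ⟨(ψ g : E)⁻¹ * c, ?_⟩
  rw [twv_W_mat, Matrix.smul_mulVec] at hc
  rw [mul_smul, ← hc, inv_smul_smul₀ (Units.ne_zero _)]

private theorem twv_tame {p ℓ n : ℕ} [Fact p.Prime] (hn : ¬ p ∣ n) {ψ : Gam →* Eˣ}
    {V : Gam →* GL2 E} (h1 : ∀ g, ψ g ^ n = 1) (h : TameAt p ℓ V) :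
    TameAt p ℓ (twv_W ψ V) := by
  intro 𝔓 hP hl g hg
  obtain ⟨k, hk, hk2⟩ := h 𝔓 hP hl g hg
  refine ⟨k * n, fun hd => ?_, ?_⟩
  · rcases ((Fact.out : p.Prime).dvd_mul).1 hd with h2 | h2
    · exact hk h2
    · exact hn h2
  · have h2 : Commute (twv_sc E (ψ g)) (V g) := twv_comm (ψ g) (V g)
    rw [twv_W_apply, h2.mul_pow, ← map_pow, mul_comm k n, pow_mul (ψ g), h1, one_pow, map_one,
      one_mul, mul_comm n k, pow_mul, hk2, one_pow]

end

/-- the class of `g` modulo `N` -/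
private noncomputable def twv_cl (N : ℕ) [NeZero N] (g : Gam) : (ZMod N)ˣ :=
  Classical.choose (acts_exists N g)

private theorem twv_cl_spec (N : ℕ) [NeZero N] (g : Gam) :
    Acts N g (twv_cl N g : ZMod N).val :=
  Classical.choose_spec (acts_exists N g)

private theorem twv_unit {N : ℕ} [NeZero N] {a b : (ZMod N)ˣ}
    (h : (a : ZMod N).val ≡ (b : ZMod N).val [MOD N]) : a = b := by
  apply Units.ext
  rw [← ZMod.natCast_zmod_val (a : ZMod N), ← ZMod.natCast_zmod_val (b : ZMod N)]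
  exact (ZMod.natCast_eq_natCast_iff _ _ _).2 h

private theorem twv_cl_eq {N : ℕ} [NeZero N] {g : Gam} {a : (ZMod N)ˣ}
    (h : Acts N g (a : ZMod N).val) : twv_cl N g = a :=
  twv_unit (acts_inj (twv_cl_spec N g) h)

private theorem twv_cl_mul (N : ℕ) [NeZero N] (g h : Gam) :
    twv_cl N (g * h) = twv_cl N g * twv_cl N h := by
  apply twv_cl_eq
  refine acts_mod (acts_mul (twv_cl_spec N g) (twv_cl_spec N h)) ?_
  rw [Units.val_mul, ZMod.val_mul]
  exact (Nat.mod_modEq _ _).symm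

/-- the class modulo `N` as a homomorphism -/
private noncomputable def twv_hom (N : ℕ) [NeZero N] : Gam →* (ZMod N)ˣ :=
  MonoidHom.mk' (twv_cl N) (twv_cl_mul N)

private theorem twv_loc (N : ℕ) [NeZero N] : IsLocallyConstant (twv_cl N) := by
  have hc : ∀ a : (ZMod N)ˣ, IsClosed (twv_cl N ⁻¹' {a}) := by
    intro a
    have h1 : twv_cl N ⁻¹' {a} = {g : Gam | Acts N g (a : ZMod N).val} := by
      ext g
      constructor
      · intro hg
        have h2 : twv_cl N g = a := hg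
        change Acts N g (a : ZMod N).val
        rw [← h2]
        exact twv_cl_spec N g
      · intro hg
        exact twv_cl_eq hg
    rw [h1]
    exact twv_acts_closed _ _
  intro s
  have h2 : twv_cl N ⁻¹' s = (⋃ a ∈ sᶜ, twv_cl N ⁻¹' {a})ᶜ := by
    ext g
    constructor
    · intro hg hg2
      obtain ⟨a, ha⟩ := Set.mem_iUnion.1 hg2
      obtain ⟨ha, ha2⟩ := Set.mem_iUnion.1 ha
      have h3 : twv_cl N g = a := ha2
      rw [← h3] at ha
      exact ha hg
    · intro hg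
      by_contra h3
      exact hg (Set.mem_iUnion.2 ⟨twv_cl N g, Set.mem_iUnion.2 ⟨h3, rfl⟩⟩)
  rw [h2, isOpen_compl_iff]
  exact (Set.toFinite _).isClosed_biUnion fun a _ => hc a

theorem exists_twV {p N : ℕ} [Fact p.Prime] [NeZero N] (hp : ¬ p ∣ N.totient) {E : Type}
    [NormedField E] (α : (ZMod N)ˣ →* Eˣ) (V : Gam →* GL2 E) (hV : Continuous V) :
    ∃ W : Gam →* GL2 E, Continuous W ∧
      (∀ (g : Gam) (a : (ZMod N)ˣ), Acts N g (a : ZMod N).val →
        trc W g = ((α a : Eˣ) : E)⁻¹ * trc V g) ∧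
      (Even2 V → Even2 W) ∧ (Line W → Line V) ∧ (∀ ℓ : ℕ, TameAt p ℓ V → TameAt p ℓ W) ∧
      ∀ (A : GL2 E) (g : Gam) (a : (ZMod N)ˣ), Acts N g (a : ZMod N).val →
        (A * V g * A⁻¹).mat = ((α a : Eˣ) : E) • (A * W g * A⁻¹).mat := by
  let ψ : Gam →* Eˣ := (MonoidHom.comp α (twv_hom N))⁻¹
  have hψ : ∀ g, ψ g = (α (twv_cl N g))⁻¹ := fun _ => rfl
  have hc : Continuous fun g => (ψ g : E) := by
    have h1 : IsLocallyConstant fun g => (ψ g : E) :=
      (twv_loc N).comp fun a : (ZMod N)ˣ => (((α a)⁻¹ : Eˣ) : E)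
    exact h1.continuous
  have ht : ∀ g, ψ g ^ N.totient = 1 := by
    intro g
    rw [hψ, inv_pow, ← map_pow, ZMod.pow_totient, map_one, inv_one]
  refine ⟨twv_W ψ V, twv_cont hc hV, fun g a ha => ?_, twv_even, twv_line,
    fun ℓ h => twv_tame hp ht h, fun A g a ha => ?_⟩
  · rw [trc, trc, twv_W_mat, Matrix.trace_smul, smul_eq_mul, hψ, twv_cl_eq ha,
      Units.val_inv_eq_inv_val]
  · have h1 : A * twv_W ψ V g * A⁻¹ = twv_sc E (ψ g) * (A * V g * A⁻¹) := by
      rw [twv_W_apply, ← mul_assoc A, ← twv_comm (ψ g) A]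
      simp only [mul_assoc]
    rw [h1, twv_mul_mat, hψ, twv_cl_eq ha, Units.val_inv_eq_inv_val,
      smul_inv_smul₀ (Units.ne_zero _)]

end Pool.Agent.AAU
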