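import Pool.Agent.AAU.FinOne
import Pool.Agent.AAU.RedOneP
import Pool.Agent.AAU.DfM

/-!
# Reducible reductions, weight one, with Fontaine's bound at `p`
-/

open Matrix

namespace Pool.Agent.AAU

open Pool.Agent.AAP Pool.Agent.EDV

private lemma redOneB_self {x y : ℕ} (h : x ≤ y) : x ^ x ≤ y ^ y := by
  rcases Nat.eq_zero_or_pos y with h0 | h0
  · have h1 : x = 0 := by omega
    rw [h0, h1]
  · exact (Nat.pow_le_pow_left h _).trans (Nat.pow_le_pow_right h0 h)

private lemma redOneB_bd {G : ℕ → ℕ} (hG : Bd2 (fun f _ => G f)) :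
    Bd2 (fun N _ => N * N.totient * ∏ f ∈ N.divisors, G f) := by
  obtain ⟨C, hC⟩ := hG
  have h1 : Bd2 (fun N _ => N * N.totient) := by
    refine Bd2.poly _ 2 fun N n hN hn => ?_
    calc N * N.totient ≤ N * N := Nat.mul_le_mul_left _ (Nat.totient_le N)
      _ = N ^ 2 := (sq N).symm
      _ ≤ (2 * N * n) ^ 2 := by
          apply Nat.pow_le_pow_left
          have h2 : N ≤ 2 * N := by omega
          exact h2.trans (Nat.le_mul_of_pos_right _ hn)
  have h2 : Bd2 (fun N n => (C * N ^ C * n) ^ (C * N ^ C * n)) := ⟨C, fun N n _ _ => le_refl _⟩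
  refine Bd2.mul h1 (Bd2.prod (fun N => N.divisors) (fun f _ _ => G f) _ h2 1 (fun N _ => ?_) ?_)
  · rw [pow_one, one_mul]
    exact Nat.card_divisors_le_self N
  · intro N n hN hn f hf
    have hfN : f ≤ N := Nat.divisor_le hf
    have hf1 : 1 ≤ f := Nat.pos_of_mem_divisors hf
    refine (hC f n hf1 hn).trans (redOneB_self ?_)
    exact Nat.mul_le_mul_right n (Nat.mul_le_mul_left C (Nat.pow_le_pow_left hfN C))

theorem redOneB : ∃ F : ℕ → ℕ, Bd2 (fun N _ => F N) ∧ ∀ N, 1 ≤ N → F N ≠ 0 ∧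
    ∀ (p : ℕ) [Fact p.Prime], 2 < p → ¬ p ∣ F N → ∀ (E : Type) [NormedField E]
      [IsUltrametricDist E] [CompleteSpace E] [NormedAlgebra ℚ_[p] E] (V : Gam →* GL2 E),
        Continuous V → Even2 V → ReducibleB p N V → Line V := by
  obtain ⟨G, hG, h⟩ := finOne
  refine ⟨fun N => N * N.totient * ∏ f ∈ N.divisors, G f, redOneB_bd hG, fun N hN => ⟨?_, ?_⟩⟩
  · apply Nat.mul_ne_zero (Nat.mul_ne_zero (by omega) (Nat.totient_pos.2 hN).ne')
    rw [Finset.prod_ne_zero_iff]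
    intro f hf
    have : NeZero f := ⟨(Nat.pos_of_mem_divisors hf).ne'⟩
    exact (h f).1
  · intro p _ hp hpF E _ _ _ _ V hV he hr
    have : NeZero N := ⟨by omega⟩
    have hpN : ¬ p ∣ N := fun h1 => hpF ((h1.mul_right _).mul_right _)
    obtain ⟨α, β, j, hs, hloc⟩ := hr
    refine redOneCoreP p N hp hpN (fun h1 => hpF ?_) (fun f _ hf χ h1 h2 => ?_)
      V hV he α β j hs (fun ℓ hℓ => ?_)
    · exact (h1.mul_left _).mul_right _
    · refine (h f).2 p (fun h3 => hpF ?_) E χ h1 h2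
      have h4 : f ∈ N.divisors := Nat.mem_divisors.2 ⟨hf, NeZero.ne N⟩
      exact (h3.trans (Finset.dvd_prod_of_mem G h4)).mul_left _
    · rcases hloc ℓ hℓ with h1 | ⟨h1, h2⟩ | h1
      · exact Or.inl h1
      · exact Or.inr (Or.inl ⟨h1, peu_of_disc p N hp hpN V hV α β j hs h2⟩)
      · exact Or.inr (Or.inr h1)

end Pool.Agent.AAU
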