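import Pool.Agent.AAU.BData
import Pool.Agent.AAU.EtaP
import Pool.Agent.Helper60.FM.MainB
import Pool.Agent.Helper60.FM.ModD

/-!
# The case of distinct characters, second form

The proof of `main_distinct` (`Helper60/FM/MainB.lean`) with `exists_bdataI` and `exists_etaP`: at
the places above `S` either the character condition holds, or the Kummer generators fixed by the
elements `g` of the absolute Galois group of `K` with `A V(g) A⁻¹ ≡ 1` have valuation divisible by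
`p`. Such `g` fix the field `M` cut out by the extension class.
-/

open NumberField Pointwise Matrix IsDedekindDomain

namespace Pool.Agent.AAU

open Pool.Agent.Helper60.FM

variable (p : ℕ) [hp : Fact p.Prime]
    {E : Type*} [NormedField E] [IsUltrametricDist E] [CompleteSpace E] [NormedAlgebra ℚ_[p] E]
    (K : IntermediateField ℚ Qb) [FiniteDimensional ℚ K] [IsAbelianGalois ℚ K]

theorem main_distinctP (hp2 : p ≠ 2)
    (ζ : K) (hζ : IsPrimitiveRoot ζ p) (ω : Gal(K/ℚ) → ℕ) (hω : ∀ σ, σ ζ = ζ ^ ω σ)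
    (χ₁ χ₂ : Gal(K/ℚ) →* Eˣ) (S : Set ℕ)
    (V : GQ →* GL (Fin 2) E)
    (hdec : ∀ v : HeightOneSpectrum (𝓞 K), (∃ ℓ ∈ S, (ℓ : 𝓞 K) ∈ v.asIdeal) →
      (∃ σ : Gal(K/ℚ), σ • v.asIdeal = v.asIdeal ∧ 1 ≤ ‖(ω σ : E) * χ₂ σ - χ₁ σ‖) ∨
      ∀ A : GL (Fin 2) E,
        (∀ g i j, ‖((A * V g * A⁻¹ : GL (Fin 2) E) : Matrix (Fin 2) (Fin 2) E) i j‖ ≤ 1) →
        ∀ (β : Qb) (α : K), β ≠ 0 → (α : Qb) = β ^ p →
          (∀ g ∈ K.fixingSubgroup,
            (∀ i j, ‖((A * V g * A⁻¹ : GL (Fin 2) E) : Matrix (Fin 2) (Fin 2) E) i j -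
              (1 : Matrix (Fin 2) (Fin 2) E) i j‖ < 1) → g β = β) →
            ∃ m : ℤ, v.valuation K α = WithZero.exp ((p : ℤ) * m))
    (hcl : ∀ 𝔞 : Ideal (𝓞 K), 𝔞 ≠ ⊥ → (𝔞 ^ p).IsPrincipal →
      (∀ n : Gal(K/ℚ) → ℕ, ‖∑ σ, (n σ : E) * (ω σ * (χ₂ σ * (χ₁ σ)⁻¹ : Eˣ))‖ < 1 →
        (∏ σ, (σ • 𝔞) ^ n σ).IsPrincipal) → 𝔞.IsPrincipal)
    (hχ : ∃ σ, 1 ≤ ‖(χ₁ σ : E) - χ₂ σ‖)
    (hV : Continuous V)
    (htr : ∀ g, ‖trace (V g : Matrix (Fin 2) (Fin 2) E) - χ₁ (res K g) - χ₂ (res K g)‖ < 1)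
    (hunr : ∀ ℓ : ℕ, ℓ.Prime → ℓ ∉ S → UnramAt V ℓ)
    (heven : ∀ c : GQ, IsCC c → det (V c : Matrix (Fin 2) (Fin 2) E) = 1) :
    ∃ v : Fin 2 → E, v ≠ 0 ∧ ∀ g, ∃ c : E, (V g : Matrix (Fin 2) (Fin 2) E) *ᵥ v = c • v := by
  classical
  by_contra hline
  have h2E : ‖(2 : E)‖ = 1 := by
    have := norm_natCast_eq_one (p := p) (E := E) (n := 2)
      (fun h => hp2 ((Nat.prime_dvd_prime_iff_eq hp.out Nat.prime_two).1 h))
    exact_mod_cast this
  have hn₁ : ∀ σ, ‖(χ₁ σ : E)‖ = 1 := norm_chi χ₁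
  have hn₂ : ∀ σ, ‖(χ₂ σ : E)‖ = 1 := norm_chi χ₂
  have hpE : ((p : ℕ) : kE E) = 0 := natCast_kE_eq_zero p
  have hchar : CharP (kE E) p := charP_kE p E
  have hcm : IsCMField K := by
    have : IsTotallyComplex K := isTotallyComplex_of_prim
      (lt_of_le_of_ne hp.out.two_le (Ne.symm hp2)) K ζ hζ
    infer_instance
  -- the extension class
  obtain ⟨σ₀, hσ₀⟩ := hχ
  obtain ⟨g₀, hg₀⟩ := AlgEquiv.restrictNormalHom_surjective (F := ℚ) (K₁ := K) Qb σ₀
  have hdet := det_of_trace h2E V (χ₁.comp (res K)) (χ₂.comp (res K)) (fun g => hn₁ _)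
    (fun g => hn₂ _) htr
  obtain ⟨b, A, hb1, ⟨k₀, hk₀, hbk₀⟩, hbmul, hopen, hker, hA1, hA2⟩ := exists_bdataI V hV
    (χ₁.comp (res K)) (χ₂.comp (res K)) (fun g => hn₁ _) (fun g => hn₂ _) htr hdet g₀
    (by
      apply le_antisymm
      · rw [sub_eq_add_neg]
        exact norm_add_le_one E (hn₁ _).le (by rw [norm_neg]; exact (hn₂ _).le)
      · rw [MonoidHom.comp_apply, MonoidHom.comp_apply]
        change 1 ≤ ‖(χ₁ (AlgEquiv.restrictNormalHom K g₀) : E) -
          (χ₂ (AlgEquiv.restrictNormalHom K g₀) : E)‖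
        rw [hg₀]
        exact hσ₀)
    K.fixingSubgroup
    (fun k hk => by
      rw [MonoidHom.comp_apply, (mem_fix_iff_res K k).1 hk, map_one])
    (fun k hk => by
      rw [MonoidHom.comp_apply, (mem_fix_iff_res K k).1 hk, map_one])
    (comm_mem_fix K) hline
  -- reductions
  let B : GQ → kE E := fun g => red (b g)
  let C₁ : GQ →* kE E := (redHom χ₁).comp (res K)
  let C₂ : GQ →* kE E := (redHom χ₂).comp (res K)
  have hBmul : ∀ g h, B (g * h) = C₁ g * B h + B g * C₂ h := by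
    intro g h
    have e1 : ‖(χ₁ (res K g) : E) * b h‖ ≤ 1 := by
      rw [norm_mul, hn₁, one_mul]; exact hb1 h
    have e2 : ‖b g * (χ₂ (res K h) : E)‖ ≤ 1 := by
      rw [norm_mul, hn₂, mul_one]; exact hb1 g
    have e3 := (red_eq_red (hb1 (g * h)) (norm_add_le_one E e1 e2)).2 (hbmul g h)
    change red (b (g * h)) = _
    rw [e3, red_add e1 e2, red_mul (hn₁ _).le (hb1 h), red_mul (hb1 g) (hn₂ _).le]
    rfl
  have hB0 : ∀ g, B g = 0 ↔ ‖b g‖ < 1 := fun g => red_eq_zero (hb1 g)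
  have hC₁ : ∀ g, C₁ g = 1 ↔ ‖(χ₁ (res K g) : E) - 1‖ < 1 := by
    intro g
    rw [← red_eq_red (hn₁ _).le (by simp), red_one]
    rfl
  have hC₂ : ∀ g, C₂ g = 1 ↔ ‖(χ₂ (res K g) : E) - 1‖ < 1 := by
    intro g
    rw [← red_eq_red (hn₂ _).le (by simp), red_one]
    rfl
  have hB1 : B 1 = 0 := (hB0 1).2 (hker 1 (Subgroup.one_mem _)).1
  have hfixC₁ : ∀ k ∈ K.fixingSubgroup, C₁ k = 1 := by
    intro k hk
    change redHom χ₁ (res K k) = 1
    rw [(mem_fix_iff_res K k).1 hk, map_one]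
  have hfixC₂ : ∀ k ∈ K.fixingSubgroup, C₂ k = 1 := by
    intro k hk
    change redHom χ₂ (res K k) = 1
    rw [(mem_fix_iff_res K k).1 hk, map_one]
  -- the functional
  let _ : Algebra (ZMod p) (kE E) := ZMod.algebra (kE E) p
  have hBk₀ : B k₀ ≠ 0 := by
    intro h
    have := (hB0 k₀).1 h
    rw [hbk₀] at this
    exact lt_irrefl _ this
  obtain ⟨f, hf⟩ : ∃ f : Module.Dual (ZMod p) (kE E), f (B k₀) ≠ 0 := by
    by_contra hcon
    push Not at hcon
    exact hBk₀ ((Module.forall_dual_apply_eq_zero_iff (ZMod p) (B k₀)).1 hcon)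
  have hnat : ∀ (n : ℕ) (y : kE E), f ((n : kE E) * y) = (n : ZMod p) * f y := by
    intro n y
    rw [← nsmul_eq_mul, map_nsmul, nsmul_eq_mul]
  -- the character `χ₂/χ₁`
  let χ : Gal(K/ℚ) →* Eˣ := χ₂ / χ₁
  have hχval : ∀ σ, (χ σ : E) = (χ₂ σ * (χ₁ σ)⁻¹ : Eˣ) := by
    intro σ
    change ((χ₂ σ / χ₁ σ : Eˣ) : E) = _
    rw [div_eq_mul_inv]
  have hχ₁ : ∀ σ, redHom χ₁ σ * redHom χ σ = redHom χ₂ σ := by
    intro σ
    rw [redHom_apply, redHom_apply, redHom_apply, ← red_mul (hn₁ σ).le (norm_chi χ σ).le, hχval,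
      ← Units.val_mul, mul_comm (χ₂ σ), mul_inv_cancel_left]
  have hr₁ : ∀ σ, redHom χ₁ σ ≠ 0 := by
    intro σ h
    have := map_mul_eq_one (redHom χ₁) (mul_inv_cancel σ)
    rw [h, zero_mul] at this
    exact zero_ne_one this
  let ψ : Gal(K/ℚ) →* kE E := omHom hζ hω hpE * redHom χ
  have hψ : ∀ σ, ψ σ = (ω σ : kE E) * redHom χ σ := fun σ => rfl
  let D : KData p K ω (kE E) :=
    { ψ := ψ
      F := fun k => f.toAddMonoidHom.comp (AddMonoidHom.mulRight (B k))
      F_mul := by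
        intro k hk k' hk' y
        change f (y * B (k * k')) = f (y * B k) + f (y * B k')
        rw [hBmul, hfixC₁ k hk, hfixC₂ k' hk', one_mul, mul_one, mul_add, map_add, add_comm]
      F_conj := by
        intro g k hk y
        change (ω (res K g) : ZMod p) * f (y * B (g⁻¹ * k * g)) = f (ψ (res K g) * y * B k)
        have e1 : B (k * g) = B g + B k * C₂ g := by
          rw [hBmul, hfixC₁ k hk, one_mul]
        have e2 : B (g * (g⁻¹ * k * g)) = C₁ g * B (g⁻¹ * k * g) + B g := by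
          rw [hBmul, hfixC₂ _ (conj_mem_fix K g hk), mul_one]
        have e3 : g * (g⁻¹ * k * g) = k * g := by group
        rw [e3, e1] at e2
        have e4 : B k * C₂ g = C₁ g * B (g⁻¹ * k * g) := by
          have := e2
          rw [add_comm] at this
          exact add_right_cancel this
        have e5 : C₁ g * B (g⁻¹ * k * g) = C₁ g * (redHom χ (res K g) * B k) := by
          rw [← e4, ← mul_assoc]
          have : C₁ g * redHom χ (res K g) = C₂ g := hχ₁ _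
          rw [this, mul_comm]
        have e6 : B (g⁻¹ * k * g) = redHom χ (res K g) * B k := mul_left_cancel₀ (hr₁ _) e5
        rw [e6, ← hnat, hψ]
        congr 1
        ring
      ne := by
        refine ⟨k₀, hk₀, ?_⟩
        change f (1 * B k₀) ≠ 0
        rw [one_mul]
        exact hf
      fo := by
        intro z hz hz0
        refine finite_order (p := p) (Set.range ψ) (Set.finite_range _) ?_ z hz hz0
        rintro _ ⟨σ, rfl⟩
        exact ⟨Nat.card Gal(K/ℚ), Nat.card_pos, by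
          rw [← map_pow, pow_card_eq_one', map_one]⟩ }
  have hDψ : ∀ σ, D.ψ σ = (ω σ : kE E) * redHom χ σ := fun σ => rfl
  -- the field cut out by the class
  let N := (rho C₁ C₂ B hB1 hBmul).ker
  have hNmem : ∀ g, g ∈ N ↔ B g = 0 ∧ C₁ g = 1 ∧ C₂ g = 1 := mem_ker_rho C₁ C₂ B hB1 hBmul
  have hNopen : IsOpen (N : Set GQ) := by
    have e : (N : Set GQ) = {g : GQ | ‖b g‖ < 1 ∧ ‖((χ₁.comp (res K)) g : E) - 1‖ < 1 ∧
        ‖((χ₂.comp (res K)) g : E) - 1‖ < 1} := by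
      ext g
      change g ∈ N ↔ _
      rw [hNmem, hB0, hC₁, hC₂]
      rfl
    rw [e]
    exact hopen
  obtain ⟨hfd, hgal, hfix⟩ := open_field N hNopen
  set M := IntermediateField.fixedField N with hMdef
  have hη := exists_etaP D ζ hp2 hζ hω
    (by
      intro c hc
      obtain ⟨c', hc'⟩ := exists_isCC
      have e1 : res K c' = c := by
        ext x
        rw [isCC_res hc' K x, hc x]
      have e2 : ∀ χ' : Gal(K/ℚ) →* Eˣ, (χ' (res K c') : E) * χ' (res K c') = 1 := by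
        intro χ'
        rw [← Units.val_mul, ← map_mul, ← map_mul, isCC_mul_self hc', map_one, map_one,
          Units.val_one]
      have e3 := chi_eq_of_det_one h2E V (χ₁ (res K c')) (χ₂ (res K c')) c' (isCC_mul_self hc')
        (e2 χ₁) (e2 χ₂) (htr c') (heven c' hc')
      have e4 : redHom χ c = 1 := by
        rw [redHom_apply, ← e1, hχval, ← Units.ext e3, mul_inv_cancel, Units.val_one, red_one]
      rw [hDψ, e4, mul_one, omega_conj hζ hω hpE c hc])
    M
    (by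
      intro k hk y
      have : k ∈ N := by
        rw [← hfix]
        exact hk.2
      change f (y * B k) = 0
      rw [((hNmem k).1 this).1, mul_zero, map_zero])
    S
    (by
      intro ℓ hℓ hℓS
      refine hunr ℓ hℓ hℓS M hfd hgal ?_
      rw [hfix]
      intro g hg
      rw [hNmem, hB0, hC₁, hC₂]
      exact hker g hg)
    (by
      intro v hℓ
      rcases hdec v hℓ with ⟨σ, hσ, hσ1⟩ | hv
      · refine Or.inl ⟨σ, hσ, fun hcon => ?_⟩
        rw [hDψ] at hcon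
        have e1 : (ω σ : kE E) * redHom χ₂ σ = redHom χ₁ σ := by
          rw [← hχ₁, ← mul_assoc, mul_comm _ (redHom χ₁ σ), mul_assoc, hcon, mul_one]
        rw [← red_natCast, redHom_apply, redHom_apply,
          ← red_mul (norm_natCast_le_one _) (hn₂ σ).le,
          red_eq_red (by rw [norm_mul, hn₂, mul_one]; exact norm_natCast_le_one _)
            (hn₁ σ).le] at e1
        exact absurd e1 (not_lt.2 hσ1)
      · refine Or.inr fun β α hβ0 hα hβ => hv A hA1 β α hβ0 hα fun g hg hgA => ?_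
        have hgA' := hA2 g hgA
        have hgN : g ∈ N := (hNmem g).2
          ⟨(hB0 g).2 hgA'.1, (hC₁ g).2 hgA'.2.1, (hC₂ g).2 hgA'.2.2⟩
        have hgM : g ∈ M.fixingSubgroup := by
          rw [hfix]
          exact hgN
        exact hβ g ⟨hg, hgM⟩)
    (by
      intro 𝔞 h𝔞 h𝔞p h
      refine hcl 𝔞 h𝔞 h𝔞p (fun n hn => h n ?_)
      have e0 : ∀ σ ∈ (Finset.univ : Finset Gal(K/ℚ)),
          ‖(n σ : E) * (ω σ * (χ₂ σ * (χ₁ σ)⁻¹ : Eˣ))‖ ≤ 1 := by
        intro σ _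
        rw [← hχval, norm_mul, norm_mul, norm_chi χ, mul_one]
        exact mul_le_one₀ (norm_natCast_le_one _) (norm_nonneg _) (norm_natCast_le_one _)
      have e1 := red_sum Finset.univ _ e0
      rw [(red_eq_zero e1.1).2 hn] at e1
      rw [e1.2]
      refine Finset.sum_congr rfl (fun σ _ => ?_)
      rw [hDψ, ← hχval, red_mul (norm_natCast_le_one _)
        (by rw [norm_mul, norm_chi χ, mul_one]; exact norm_natCast_le_one _),
        red_mul (norm_natCast_le_one _) (norm_chi χ σ).le, red_natCast, red_natCast]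
      rfl)
  obtain ⟨η, m, hm, hηm, hty⟩ := hη
  have e1 := D.psi_eq ζ hp2 hpE hζ hω η m hm hηm hty σ₀
  rw [hDψ] at e1
  have e2 : redHom χ σ₀ = 1 := by
    apply mul_left_cancel₀ (omega_ne_zero hζ hω hpE σ₀)
    rw [e1, mul_one]
  have e3 : redHom χ₁ σ₀ = redHom χ₂ σ₀ := by rw [← hχ₁, e2, mul_one]
  rw [redHom_apply, redHom_apply, red_eq_red (hn₁ _).le (hn₂ _).le] at e3
  exact absurd e3 (not_lt.2 hσ₀)

end Pool.Agent.AAU
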