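import Pool.Agent.AAU.CondOne
import Pool.Agent.AAU.TwU
import Pool.Agent.AAP.CritMain
import Pool.Agent.AAP.Par

/-!
# AAU-RedOneA: reducible reductions, weight one, the criterion

`V` with the reduction `ω ^ j ⊗ (α ⊕ β ω)` is twisted by `α⁻¹`; the character `β / α` is replaced by the primitive
character `χ` modulo `f` (`condOne`), and `critMain` is applied at the level `f`.
-/

open Matrix

namespace Pool.Agent.AAU

open Pool.Agent.AAP Pool.Agent.EDV Pool.Agent.Helper60.FM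

private theorem RedOneA_map {N f : ℕ} [NeZero N] [NeZero f] (hf : f ∣ N) (u : (ZMod N)ˣ)
    (a : (ZMod f)ˣ) (c : ℕ) (hc : (a : ZMod f) = c) (h : (u : ZMod N).val ≡ c [MOD f]) :
    ZMod.unitsMap hf u = a := by
  apply Units.ext
  rw [hc, ZMod.unitsMap_val, ← ZMod.natCast_val]
  exact (ZMod.natCast_eq_natCast_iff _ _ _).2 h

private theorem RedOneA_dec {N f ℓ : ℕ} [NeZero N] [NeZero f] (hf : f ∣ N)
    (a : (ZMod f)ˣ) (ha : (a : ZMod f) = ℓ) {u : (ZMod N)ˣ} (hu : DecL ℓ N u) :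
    ∃ i : ℕ, ZMod.unitsMap hf u = a ^ i := by
  obtain ⟨i, j, m', hN, -, hmod⟩ := hu
  have h1 : f.Coprime ℓ := by
    have h2 : IsUnit ((ℓ : ℕ) : ZMod f) := ha ▸ a.isUnit
    exact ((ZMod.isUnit_iff_coprime ℓ f).1 h2).symm
  have h2 : f ∣ m' := by
    have h3 : f.Coprime (ℓ ^ j) := h1.pow_right j
    exact h3.dvd_of_dvd_mul_left (hN ▸ hf)
  refine ⟨i, RedOneA_map hf u (a ^ i) (ℓ ^ i) ?_ (hmod.of_dvd h2)⟩
  rw [Units.val_pow_eq_pow_val, ha, Nat.cast_pow]

theorem redOneCore (p N : ℕ) [Fact p.Prime] [NeZero N] (hp : 2 < p) (hpN : ¬ p ∣ N)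
    (hpφ : ¬ p ∣ N.totient) {E : Type} [NormedField E] [IsUltrametricDist E] [CompleteSpace E]
    [NormedAlgebra ℚ_[p] E]
    (hB : ∀ (f : ℕ) [NeZero f], f ∣ N → ∀ χ : (ZMod f)ˣ →* Eˣ, (χ (-1) : E) = -1 → PrimC χ →
      ‖(TT f 1 χ : E)‖ = 1)
    (V : Gam →* GL2 E) (hV : Continuous V) (he : Even2 V) (h : ReducibleOne p N V) : Line V := by
  obtain ⟨α, β, j, hS, hloc⟩ := h
  obtain ⟨f, hf, χ, hprim, hχ⟩ := condOne (β / α)
  obtain ⟨W, hW, htr, hev, hline, htame⟩ := exists_twU hpφ α V hV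
  have hf0 : NeZero f := ⟨fun h => NeZero.ne N (Nat.eq_zero_of_zero_dvd (h ▸ hf))⟩
  have hαn : ∀ a, ‖(α a : E)‖ = 1 := fun a => norm_chi α a
  have hβ : ∀ u, (β u : E) = (χ (ZMod.unitsMap hf u) : E) * (α u : E) := by
    intro u
    rw [← hχ u]
    change (β u : E) = ((β u / α u : Eˣ) : E) * _
    rw [Units.val_div_eq_div_val, div_mul_cancel₀ _ (Units.ne_zero _)]
  -- the local condition
  have hkey : ∀ (ℓ : ℕ) (a : (ZMod f)ˣ), ℓ.Prime → (a : ZMod f) = ℓ → Equ (χ a : E) 1 →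
      ℓ ≠ p ∧ TameAt p ℓ V := by
    intro ℓ a hℓ ha h1
    rcases hloc ℓ hℓ with h2 | ⟨u, hu, h2⟩
    · exact h2
    · exfalso
      apply h2
      obtain ⟨i, hi⟩ := RedOneA_dec hf a ha hu
      have h3 : Cg ((χ a : E) ^ i) 1 := by
        have h4 := Cg.pow (show Cg (χ a : E) 1 from h1) (by rw [norm_one]) i
        rwa [one_pow] at h4
      have h4 : Cg ((χ a : E) ^ i * (α u : E)) (1 * (α u : E)) :=
        Cg.mul h3 Cg.rfl (by rw [norm_one]) (hαn u).le
      have h5 : (β u : E) = (χ a : E) ^ i * (α u : E) := by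
        rw [hβ u, hi, map_pow, Units.val_pow_eq_pow_val]
      rw [h5]
      rw [one_mul] at h4
      exact h4
  -- the reduction of the twist
  have hSW : SumType p 1 f 1 χ j W := by
    intro g a' b ha' hb
    obtain ⟨a, ha⟩ := acts_exists N g
    have h1 : ZMod.unitsMap hf a = a' := by
      refine RedOneA_map hf a a' ((a' : ZMod f).val) ?_ ?_
      · rw [ZMod.natCast_val, ZMod.cast_id']
        rfl
      · exact acts_inj (acts_of_dvd hf ha) ha'
    have h2 : Cg (trc V g) ((b : E) ^ j * (α a + β a * (b : E) ^ 1)) := hS g a b ha hb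
    have hα0 : (α a : E) ≠ 0 := Units.ne_zero _
    have hbn : ‖(b : E)‖ ≤ 1 := norm_natCast_le_one b
    have h3 : ‖(b : E) ^ j * (α a + β a * (b : E) ^ 1)‖ ≤ 1 := by
      rw [norm_mul, norm_pow, pow_one]
      refine mul_le_one₀ (pow_le_one₀ (norm_nonneg _) hbn) (norm_nonneg _) ?_
      refine norm_add_le_one E (hαn _).le ?_
      rw [norm_mul, norm_chi β a, one_mul]
      exact hbn
    have h4 := Cg.mul (Cg.rfl (x := (α a : E)⁻¹)) h2 (by rw [norm_inv, hαn, inv_one]) h3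
    rw [htr g a ha]
    have h5 : (α a : E)⁻¹ * ((b : E) ^ j * (α a + β a * (b : E) ^ 1)) =
        (b : E) ^ j * (((1 : (ZMod f)ˣ →* Eˣ) a' : Eˣ) + (χ a' : E) * (b : E) ^ 1) := by
      rw [hβ a, h1, MonoidHom.one_apply, Units.val_one]
      field_simp
    rw [h5] at h4
    exact h4
  -- parity
  have hneg : (χ (-1) : E) = -1 := by
    have h1 := parity 1 N p hp (old V) he α β j hS
    have h2 : ZMod.unitsMap hf (-1) = -1 := by
      ext
      rw [ZMod.unitsMap_val, Units.val_neg, Units.val_one, Units.val_neg, Units.val_one,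
        ZMod.cast_neg hf, ZMod.cast_one hf]
    rw [hχ, h2, pow_one] at h1
    exact h1
  refine hline (critMain p f 1 (p - 2) (by omega) (fun h => hpN (h.trans hf)) le_rfl (by omega)
    (by omega) (by omega) ?_ W hW (hev he) 1 χ j hSW ?_ (Or.inl ⟨?_, ?_, ?_⟩))
  · have h1 : 1 + (p - 2) = p - 1 := by omega
    rw [h1]
  · rintro ⟨h1, -⟩
    omega
  · have h1 : χ / 1 = χ := by
      refine MonoidHom.ext fun a => ?_
      change χ a / (1 : (ZMod f)ˣ →* Eˣ) a = χ a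
      rw [MonoidHom.one_apply, div_one]
    rw [h1]
    exact hB f hf χ hneg hprim
  · intro _ a ha h1
    rw [MonoidHom.one_apply, Units.val_one] at h1
    exact (hkey p a Fact.out ha h1).1 rfl
  · intro ℓ a hℓ hℓp ha h1
    rw [MonoidHom.one_apply, Units.val_one, Nat.sub_self, pow_zero, mul_one] at h1
    exact htame ℓ (hkey ℓ a hℓ ha h1).2

end Pool.Agent.AAU
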