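import Pool.Agent.AAU.RedU
import Pool.Agent.AAU.RedOne
import Pool.Agent.AAU.CntU
import Pool.Agent.AAU.CntB
import Pool.Agent.AAU.PairU
import Pool.Agent.AAU.DihU
import Pool.Agent.AAP.StmtB

/-!
# Even Galois representations at almost all primes, uniform in the level and the weight
-/

open NumberField Pointwise Matrix Nat

namespace Pool.Agent.AAU

open Pool.Agent.Helper60.FM

open Pool.Agent.AAP

private theorem mainU_pow {x y : ℕ} (h : x ≤ y) (hy : 1 ≤ y) : x ^ x ≤ y ^ y :=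
  (Nat.pow_le_pow_left h _).trans (Nat.pow_le_pow_right hy h)

private theorem mainU_ite {F : ℕ → ℕ → ℕ} (hF : Bd2 F) :
    Bd2 fun N n => if 2 ≤ n then F N n else 1 := by
  obtain ⟨C, hC⟩ := hF
  refine ⟨C + 1, fun N n hN hn => ?_⟩
  have h1 : 1 ≤ (C + 1) * N ^ (C + 1) * n :=
    Nat.mul_pos (Nat.mul_pos (Nat.succ_pos C) (Nat.pow_pos hN)) hn
  by_cases h : 2 ≤ n
  · simp only [if_pos h]
    refine (hC N n hN hn).trans (mainU_pow ?_ h1)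
    exact Nat.mul_le_mul_right n (Nat.mul_le_mul (Nat.le_succ C) (Nat.pow_le_pow_right hN (Nat.le_succ C)))
  · simp only [if_neg h]
    exact Nat.one_le_pow _ _ h1

theorem mainU : ∃ (C : ℕ) (P : ℕ → ℕ → Finset ℕ),
    (∀ N n, (P N n).card ≤ C * N ^ C * n) ∧
    (∀ m, ∃ k, ∀ X : ℕ, {p : ℕ | p ≤ X ∧ ∃ N n, 1 ≤ N ∧ 1 ≤ n ∧ N ^ k ≤ p ∧
      n ^ (2 * m + 1) ≤ p ^ m ∧ p ∈ P N n}.ncard ^ (4 * m + 2) ≤ k * X ^ (4 * m + 1)) ∧
    (∀ m, ∃ k, ∀ X : ℕ, {x : ℕ × ℕ | x.1 ≤ X ∧ x.2 ^ (m + 1) ≤ x.1 ^ m ∧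
      ∃ N, 1 ≤ N ∧ N ^ k ≤ x.1 ∧ x.1 ∈ P N x.2}.ncard ^ (2 * m + 2) ≤ k * X ^ (4 * m + 1)) ∧
    ∀ N n, 1 ≤ N → 1 ≤ n → ∀ (p : ℕ) [Fact p.Prime], p ∉ P N n →
      ∀ (E : Type) [NormedField E] [IsUltrametricDist E] [CompleteSpace E] [NormedAlgebra ℚ_[p] E]
        (V : Gam →* GL2 E), Continuous V → Even2 V →
          ((2 ≤ n ∧ ReducibleType p n N V) ∨ (n = 1 ∧ ReducibleOne p N V) ∨
            (DihType p N V ∧ FLType p n V)) → Line V := by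
  obtain ⟨F₁, hb₁, h₁⟩ := redMainU
  obtain ⟨F₂, hb₂, h₂⟩ := redOneU
  obtain ⟨F₃, hb₃, h₃⟩ := dihMainU
  have hb : Bd2 fun N n => (if 2 ≤ n then F₁ N n else 1) * (F₂ N * (F₃ N n * 2)) :=
    (mainU_ite hb₁).mul (hb₂.mul (hb₃.mul (Bd2.const 2)))
  obtain ⟨C, -, P, hP, hP1, hP2, -⟩ := cntU _ hb (by
    intro N n hN hn
    refine mul_ne_zero ?_ (mul_ne_zero (h₂ N hN).1 (mul_ne_zero (h₃ N n hN hn).1 two_ne_zero))
    split_ifs with h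
    · exact (h₁ N n hN h).1
    · exact one_ne_zero)
  refine ⟨C, P, hP1, cntB C P hP2, pairU C P hP1, ?_⟩
  intro N n hN hn p _ hpP E _ _ _ _ V hV heven h
  have hpp : p.Prime := Fact.out
  have hdvd : ¬ p ∣ (if 2 ≤ n then F₁ N n else 1) * (F₂ N * (F₃ N n * 2)) :=
    fun hd => hpP (hP N n hN hn p hpp hd)
  rw [hpp.dvd_mul, hpp.dvd_mul, hpp.dvd_mul, not_or, not_or, not_or] at hdvd
  obtain ⟨hd1, hd2, hd3, hd4⟩ := hdvd
  have hlt : 2 < p := by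
    rcases lt_or_eq_of_le hpp.two_le with h | h
    · exact h
    · exact absurd (by rw [← h]) hd4
  have heven' : IsEven (old V) := heven
  rcases h with ⟨h2, h⟩ | ⟨rfl, h⟩ | ⟨hd, hf⟩
  · rw [if_pos h2] at hd1
    exact (h₁ N n hN h2).2 p hlt hd1 E V hV heven h
  · exact (h₂ N hN).2 p hlt hd2 E V hV heven h
  · exact ((h₃ N n hN hn).2 p hd3 E (old V) heven' (dih_of p N V hd) (fl_of p n V hf)).elim

end Pool.Agent.AAU
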