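import Mathlib

/-!
# A solution of Pell's equation of bounded size

Proof. `s = √D ≤ D`, `D ≥ 2`. For `Q ≥ 1` there is `(x, y)` with `0 < y ≤ Q` and
`|x - y s| ≤ 1 / (Q + 1)` (`Real.exists_int_int_abs_mul_sub_le`), hence
`|x ^ 2 - D y ^ 2| ≤ |x - y s| (2 y s + 1) ≤ 2 D + 1`, not `0` (`s` is irrational), and
`|x - y s| ≥ 1 / (2 y s + 1) > 1 / (5 D Q + 1)`. So with `Q_i = (5 D) ^ i` there are pairs
`(x_i, y_i)`, `0 < y_i ≤ Q_i`, `|x_i ^ 2 - D y_i ^ 2| ≤ 2 D + 1`, and the numbers `|x_i - y_i s|` are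
strictly decreasing, so the pairs are pairwise different. The triples
`(m_i, x_i mod |m_i|, y_i mod |m_i|)`, `m_i = x_i ^ 2 - D y_i ^ 2`, have at most
`(4 D + 3) (2 D + 1) ^ 2 ≤ 40 D ^ 3` values, so two of them are equal, `i < j ≤ 40 D ^ 3`. Then
`m ∣ x_i x_j - D y_i y_j`, `m ∣ x_i y_j - x_j y_i`, and the quotients `x`, `y` satisfy
`x ^ 2 - D y ^ 2 = 1`; `y ≠ 0`, as otherwise `|x_i - y_i s| = |x_j - y_j s|`.
-/

namespace Pool.Agent.AAU

private theorem pell_approx (D : ℕ) (hD : ¬ IsSquare D) (hD2 : 2 ≤ D) (Q : ℕ) (hQ : 0 < Q) :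
    ∃ x y : ℤ, 0 < y ∧ y ≤ Q ∧ |x| ≤ 2 * D * Q ∧ x ^ 2 - D * y ^ 2 ≠ 0 ∧
      |x ^ 2 - D * y ^ 2| ≤ 2 * D + 1 ∧ |(x : ℝ) - y * √D| ≤ 1 / (Q + 1) ∧
      1 < |(x : ℝ) - y * √D| * (5 * D * Q + 1) := by
  have hs0 : (0 : ℝ) ≤ √D := Real.sqrt_nonneg _
  have hs2 : √(D : ℝ) * √D = D := Real.mul_self_sqrt (Nat.cast_nonneg D)
  have hDr : (2 : ℝ) ≤ D := by exact_mod_cast hD2
  have hsD : √(D : ℝ) ≤ D := by
    rw [Real.sqrt_le_left (by positivity)]
    nlinarith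
  have hirr : Irrational (√(D : ℝ)) := irrational_sqrt_natCast_iff.2 hD
  have hQr : (1 : ℝ) ≤ Q := by exact_mod_cast hQ
  obtain ⟨x, y, hy0, hyQ, h⟩ := Real.exists_int_int_abs_mul_sub_le (√(D : ℝ)) hQ
  have hy0r : (0 : ℝ) < y := by exact_mod_cast hy0
  have hy1r : (1 : ℝ) ≤ y := by exact_mod_cast hy0
  have hyQr : (y : ℝ) ≤ Q := by exact_mod_cast hyQ
  have h' : |(x : ℝ) - y * √D| ≤ 1 / (Q + 1) := by
    rw [abs_sub_comm]
    exact h
  have hle1 : 1 / ((Q : ℝ) + 1) ≤ 1 := by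
    rw [div_le_one (by positivity)]
    linarith
  have h1 : |(x : ℝ) - y * √D| ≤ 1 := h'.trans hle1
  have hprod : ((x : ℝ) - y * √D) * (x + y * √D) = x ^ 2 - D * y ^ 2 := by
    have : ((x : ℝ) - y * √D) * (x + y * √D) = x ^ 2 - (√D * √D) * y ^ 2 := by ring
    rw [this, hs2]
  have hne : x ^ 2 - D * y ^ 2 ≠ 0 := by
    intro h0
    have h2 : (x : ℝ) ^ 2 - D * y ^ 2 = 0 := by exact_mod_cast h0
    rw [← hprod, mul_eq_zero] at h2
    rcases h2 with h2 | h2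
    · apply hirr
      refine ⟨(x : ℚ) / y, ?_⟩
      push_cast
      rw [div_eq_iff hy0r.ne']
      linarith
    · apply hirr
      refine ⟨-(x : ℚ) / y, ?_⟩
      push_cast
      rw [div_eq_iff hy0r.ne']
      linarith
  have hys : (y : ℝ) * √D ≤ Q * √D := mul_le_mul_of_nonneg_right hyQr hs0
  have hQs : (Q : ℝ) * √D ≤ Q * D := mul_le_mul_of_nonneg_left hsD (by positivity)
  have hys0 : 0 ≤ (y : ℝ) * √D := by positivity
  obtain ⟨ha, hb⟩ := abs_le.1 h1
  have hsum : |(x : ℝ) + y * √D| ≤ 2 * (Q * √D) + 1 := by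
    rw [abs_le]
    constructor <;> linarith
  have hnorm : |(x : ℝ) ^ 2 - D * y ^ 2| = |(x : ℝ) - y * √D| * |(x : ℝ) + y * √D| := by
    rw [← hprod, abs_mul]
  have hup : |(x : ℝ) ^ 2 - D * y ^ 2| ≤ 2 * D + 1 := by
    rw [hnorm]
    calc |(x : ℝ) - y * √D| * |(x : ℝ) + y * √D| ≤ (1 / (Q + 1)) * (2 * (Q * √D) + 1) :=
          mul_le_mul h' hsum (abs_nonneg _) (by positivity)
      _ ≤ 2 * D + 1 := by
          rw [div_mul_eq_mul_div, one_mul, div_le_iff₀ (by positivity)]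
          nlinarith
  have hlow : (1 : ℝ) ≤ |(x : ℝ) ^ 2 - D * y ^ 2| := by
    have h3 : (1 : ℤ) ≤ |x ^ 2 - D * y ^ 2| := Int.one_le_abs hne
    have h4 : ((1 : ℤ) : ℝ) ≤ ((|x ^ 2 - D * y ^ 2| : ℤ) : ℝ) := by exact_mod_cast h3
    push_cast at h4
    exact h4
  refine ⟨x, y, hy0, hyQ, ?_, hne, ?_, h', ?_⟩
  · have h5 : |(x : ℝ)| ≤ 2 * D * Q := by
      rw [abs_le]
      have : (1 : ℝ) ≤ Q * D := by nlinarith
      constructor <;> nlinarith
    have h6 : ((|x| : ℤ) : ℝ) ≤ ((2 * D * Q : ℤ) : ℝ) := by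
      push_cast
      exact h5
    exact_mod_cast h6
  · have h6 : ((|x ^ 2 - D * y ^ 2| : ℤ) : ℝ) ≤ ((2 * D + 1 : ℤ) : ℝ) := by
      push_cast
      exact hup
    exact_mod_cast h6
  · rw [hnorm] at hlow
    have hpos : 0 < |(x : ℝ) - y * √D| := by
      rcases (abs_nonneg ((x : ℝ) - y * √D)).lt_or_eq with h7 | h7
      · exact h7
      · rw [← h7, zero_mul] at hlow
        exact absurd hlow (by norm_num)
    have h8 : |(x : ℝ) + y * √D| < 5 * D * Q + 1 := by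
      refine hsum.trans_lt ?_
      have : (0 : ℝ) < Q * D := by positivity
      nlinarith
    exact hlow.trans_lt (mul_lt_mul_of_pos_left h8 hpos)

theorem pell_bound (D : ℕ) (hD : ¬ IsSquare D) : ∃ x y : ℤ, x ^ 2 - D * y ^ 2 = 1 ∧ y ≠ 0 ∧
    |x| ≤ (5 * D) ^ (200 * D ^ 3) ∧ |y| ≤ (5 * D) ^ (200 * D ^ 3) := by
  classical
  have hD2 : 2 ≤ D := by
    rcases Nat.lt_or_ge D 2 with h | h
    · exfalso
      apply hD
      interval_cases D
      · exact ⟨0, rfl⟩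
      · exact ⟨1, rfl⟩
    · exact h
  have hs2 : √(D : ℝ) * √D = D := Real.mul_self_sqrt (Nat.cast_nonneg D)
  have hQ : ∀ i : ℕ, 0 < (5 * D) ^ i := fun i => pow_pos (by omega) i
  choose x y hy0 hyQ hx hne hm hap hlow using fun i : ℕ => pell_approx D hD hD2 ((5 * D) ^ i) (hQ i)
  -- the distances are strictly decreasing
  have hdec : ∀ i j : ℕ, i < j → |(x j : ℝ) - y j * √D| < |(x i : ℝ) - y i * √D| := by
    intro i j hij
    have h1 := hap j
    have h2 := hlow i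
    have h3 : (5 * D) ^ (i + 1) ≤ (5 * D) ^ j := Nat.pow_le_pow_right (by omega) hij
    have h3' : (5 * D : ℝ) * (5 * D) ^ i ≤ (5 * D) ^ j := by
      have : (((5 * D) ^ (i + 1) : ℕ) : ℝ) ≤ (((5 * D) ^ j : ℕ) : ℝ) := by exact_mod_cast h3
      push_cast at this
      rw [pow_succ] at this
      linarith
    push_cast at h1 h2
    have hpos : (0 : ℝ) < (5 * D) ^ j + 1 := by positivity
    rw [le_div_iff₀ hpos] at h1
    have hnn := abs_nonneg ((x i : ℝ) - y i * √D)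
    by_contra hcon
    rw [not_lt] at hcon
    have h4 : |(x i : ℝ) - y i * √D| * (5 * D * (5 * D) ^ i + 1) ≤
        |(x j : ℝ) - y j * √D| * ((5 * D) ^ j + 1) :=
      mul_le_mul hcon (by linarith) (by positivity) (abs_nonneg _)
    linarith
  -- pigeonhole
  let t : Finset (ℤ × ℤ × ℤ) := (Finset.Icc (-(2 * D + 1 : ℤ)) (2 * D + 1)) ×ˢ
    ((Finset.Ico (0 : ℤ) (2 * D + 1)) ×ˢ (Finset.Ico (0 : ℤ) (2 * D + 1)))
  have ht : t.card = (4 * D + 3) * ((2 * D + 1) * (2 * D + 1)) := by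
    have h1 : (Finset.Icc (-(2 * D + 1 : ℤ)) (2 * D + 1)).card = 4 * D + 3 := by
      rw [Int.card_Icc]
      omega
    have h2 : (Finset.Ico (0 : ℤ) (2 * D + 1)).card = 2 * D + 1 := by
      rw [Int.card_Ico]
      omega
    rw [Finset.card_product, Finset.card_product, h1, h2]
  have hcard : t.card < (Finset.range (40 * D ^ 3 + 1)).card := by
    rw [ht, Finset.card_range, Nat.lt_succ_iff]
    nlinarith [Nat.zero_le D, mul_le_mul hD2 hD2 (by omega) (by omega), hD2,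
      Nat.mul_le_mul (Nat.mul_le_mul hD2 hD2) hD2, Nat.mul_le_mul_left (D * D) hD2,
      Nat.mul_le_mul_left D hD2]
  let f : ℕ → ℤ × ℤ × ℤ := fun i => (x i ^ 2 - D * y i ^ 2, x i % (x i ^ 2 - D * y i ^ 2),
    y i % (x i ^ 2 - D * y i ^ 2))
  have hmaps : ∀ i ∈ Finset.range (40 * D ^ 3 + 1), f i ∈ t := by
    intro i _
    have h1 := abs_le.1 (hm i)
    have h2 : ∀ z : ℤ, 0 ≤ z % (x i ^ 2 - D * y i ^ 2) ∧ z % (x i ^ 2 - D * y i ^ 2) < 2 * D + 1 :=
      fun z => ⟨Int.emod_nonneg _ (hne i), (Int.emod_lt_abs _ (hne i)).trans_le (hm i)⟩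
    simp only [t, f, Finset.mem_product, Finset.mem_Icc, Finset.mem_Ico]
    exact ⟨h1, h2 _, h2 _⟩
  obtain ⟨i, hi, j, hj, hij, hf⟩ := Finset.exists_ne_map_eq_of_card_lt_of_maps_to hcard hmaps
  rw [Finset.mem_range, Nat.lt_succ_iff] at hi hj
  simp only [f, Prod.mk.injEq] at hf
  obtain ⟨hf1, hf2, hf3⟩ := hf
  obtain ⟨m, hmi⟩ : ∃ m, m = x i ^ 2 - D * y i ^ 2 := ⟨_, rfl⟩
  have hmj : m = x j ^ 2 - D * y j ^ 2 := hmi.trans hf1
  rw [← hf1, ← hmi] at hf2 hf3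
  have hm0 : m ≠ 0 := by rw [hmi]; exact hne i
  have hx' : m ∣ x i - x j := Int.ModEq.dvd (show x j ≡ x i [ZMOD m] from hf2.symm)
  have hy' : m ∣ y i - y j := Int.ModEq.dvd (show y j ≡ y i [ZMOD m] from hf3.symm)
  obtain ⟨u, hu⟩ := hx'
  obtain ⟨v, hv⟩ := hy'
  -- the quotients
  have hX : m * (1 - x i * u + D * y i * v) = x i * x j - D * y i * y j := by
    have e1 : x j = x i - m * u := by linarith
    have e2 : y j = y i - m * v := by linarith
    rw [e1, e2]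
    calc m * (1 - x i * u + D * y i * v) = m - m * (x i * u) + m * (D * y i * v) := by ring
      _ = (x i ^ 2 - D * y i ^ 2) - m * (x i * u) + m * (D * y i * v) := by rw [← hmi]
      _ = _ := by ring
  have hY : m * (y i * u - x i * v) = x i * y j - x j * y i := by
    have e1 : x j = x i - m * u := by linarith
    have e2 : y j = y i - m * v := by linarith
    rw [e1, e2]
    ring
  obtain ⟨X, hXd⟩ : ∃ X, X = 1 - x i * u + D * y i * v := ⟨_, rfl⟩
  obtain ⟨Y, hYd⟩ : ∃ Y, Y = y i * u - x i * v := ⟨_, rfl⟩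
  rw [← hXd] at hX
  rw [← hYd] at hY
  have hnorm : X ^ 2 - D * Y ^ 2 = 1 := by
    have h1 : m ^ 2 * (X ^ 2 - D * Y ^ 2) = m ^ 2 * 1 := by
      calc m ^ 2 * (X ^ 2 - D * Y ^ 2) = (m * X) ^ 2 - D * (m * Y) ^ 2 := by ring
        _ = (x i ^ 2 - D * y i ^ 2) * (x j ^ 2 - D * y j ^ 2) := by
          rw [hX, hY]
          ring
        _ = m ^ 2 * 1 := by rw [← hmi, ← hmj]; ring
    exact mul_left_cancel₀ (pow_ne_zero 2 hm0) h1
  have hYne : Y ≠ 0 := by
    intro h0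
    rw [h0] at hY hnorm
    have hX2 : X ^ 2 = 1 := by linarith
    have hXa : |(X : ℝ)| = 1 := by
      have h2 : |(X : ℝ)| ^ 2 = 1 := by
        rw [sq_abs]
        exact_mod_cast hX2
      exact (pow_eq_one_iff_of_nonneg (abs_nonneg _) two_ne_zero).1 h2
    have hXr : (m : ℝ) * X = x i * x j - D * y i * y j := by exact_mod_cast hX
    have hYr : (0 : ℝ) = x i * y j - x j * y i := by
      have : (m * 0 : ℤ) = x i * y j - x j * y i := hY
      rw [mul_zero] at this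
      exact_mod_cast this
    have hmr : (m : ℝ) = (x i - y i * √D) * (x i + y i * √D) := by
      have h2 : (m : ℝ) = x i ^ 2 - D * y i ^ 2 := by exact_mod_cast hmi
      calc (m : ℝ) = x i ^ 2 - (√D * √D) * y i ^ 2 := by rw [h2, hs2]
        _ = _ := by ring
    have h3 : ((x i : ℝ) + y i * √D) * (x j - y j * √D) = m * X := by
      rw [hXr]
      calc ((x i : ℝ) + y i * √D) * (x j - y j * √D) = x i * x j - (√D * √D) * y i * y j
            - √D * (x i * y j - x j * y i) := by ring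
        _ = _ := by rw [hs2, ← hYr, mul_zero, sub_zero]
    have h4 : |(x i : ℝ) + y i * √D| * |(x j : ℝ) - y j * √D| =
        |(x i : ℝ) + y i * √D| * |(x i : ℝ) - y i * √D| := by
      rw [← abs_mul, h3, abs_mul, hXa, mul_one, hmr, abs_mul, mul_comm]
    have h5 : |(x i : ℝ) + y i * √D| ≠ 0 := by
      intro h6
      rw [abs_eq_zero] at h6
      rw [h6, mul_zero] at hmr
      exact hm0 (by exact_mod_cast hmr)
    have h6 := mul_left_cancel₀ h5 h4
    rcases Nat.lt_or_gt_of_ne hij with h7 | h7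
    · exact absurd h6 (hdec i j h7).ne
    · exact absurd h6.symm (hdec j i h7).ne
  -- the bounds
  have hm1 : (1 : ℤ) ≤ |m| := Int.one_le_abs hm0
  have hA : ∀ k, k ≤ 40 * D ^ 3 → |x k| ≤ 2 * D * (5 * D) ^ (40 * D ^ 3) ∧
      |y k| ≤ (5 * D) ^ (40 * D ^ 3) := by
    intro k hk
    have h1 : ((5 * D) ^ k : ℤ) ≤ (5 * D) ^ (40 * D ^ 3) := by
      have : (5 * D) ^ k ≤ (5 * D) ^ (40 * D ^ 3) := Nat.pow_le_pow_right (by omega) hk
      exact_mod_cast this
    have h2 := hx k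
    have h3 := hyQ k
    push_cast at h2 h3
    refine ⟨h2.trans (mul_le_mul_of_nonneg_left h1 (by positivity)), ?_⟩
    rw [abs_of_pos (hy0 k)]
    exact h3.trans h1
  obtain ⟨P, hP⟩ : ∃ P : ℤ, P = (5 * D) ^ (40 * D ^ 3) := ⟨_, rfl⟩
  rw [← hP] at hA
  obtain ⟨hxi, hyi⟩ := hA i hi
  obtain ⟨hxj, hyj⟩ := hA j hj
  have hP0 : 0 ≤ P := by rw [hP]; positivity
  have hDz : (2 : ℤ) ≤ D := by exact_mod_cast hD2
  have hfin : (5 * D : ℤ) ^ 2 * (P * P) ≤ (5 * D) ^ (200 * D ^ 3) := by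
    rw [hP, ← pow_add, ← pow_add]
    refine pow_le_pow_right₀ (by linarith) ?_
    have : 1 ≤ D ^ 3 := Nat.one_le_pow _ _ (by omega)
    omega
  have b1 : |x i * x j| ≤ (2 * D * P) * (2 * D * P) := by
    rw [abs_mul]
    exact mul_le_mul hxi hxj (abs_nonneg _) (by positivity)
  have b2 : |y i * y j| ≤ P * P := by
    rw [abs_mul]
    exact mul_le_mul hyi hyj (abs_nonneg _) hP0
  have b3 : |x i * y j| ≤ (2 * D * P) * P := by
    rw [abs_mul]
    exact mul_le_mul hxi hyj (abs_nonneg _) (by positivity)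
  have b4 : |x j * y i| ≤ (2 * D * P) * P := by
    rw [abs_mul]
    exact mul_le_mul hxj hyi (abs_nonneg _) (by positivity)
  have hPP : 0 ≤ P * P := mul_nonneg hP0 hP0
  have hDP : 2 * (P * P) ≤ D * (P * P) := mul_le_mul_of_nonneg_right hDz hPP
  have hDDP : 2 * (D * (P * P)) ≤ D * (D * (P * P)) :=
    mul_le_mul_of_nonneg_right hDz (by positivity)
  have key : ∀ z w : ℤ, m * z = w → |z| ≤ |w| := by
    intro z w h
    rw [← h, abs_mul]
    exact le_mul_of_one_le_left (abs_nonneg _) hm1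
  refine ⟨X, Y, hnorm, hYne, ?_, ?_⟩
  · refine ((key _ _ hX).trans ?_).trans hfin
    have h1 : |x i * x j - D * y i * y j| ≤ |x i * x j| + D * |y i * y j| := by
      have h2 := abs_sub (x i * x j) (D * y i * y j)
      have h3 : |(D : ℤ) * y i * y j| = D * |y i * y j| := by
        rw [mul_assoc, abs_mul, Nat.abs_cast]
      rw [h3] at h2
      exact h2
    have h4 : (D : ℤ) * |y i * y j| ≤ D * (P * P) := mul_le_mul_of_nonneg_left b2 (by positivity)
    linarith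
  · refine ((key _ _ hY).trans ?_).trans hfin
    have h2 := abs_sub (x i * y j) (x j * y i)
    linarith

end Pool.Agent.AAU
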