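import Pool.Agent.AAU.FinU
import Pool.Agent.AAP.MainR

/-!
# Reducible reductions, `n ≥ 2`, all levels

As `redMainR` in `AAP/MainR.lean`, with the level as a variable: the exceptional primes of level `N` and
weight `n` divide `F N n * ((n + 1)! * (N * N.totient))`, `F` from `finQU`.
-/

open NumberField Pointwise Matrix Nat

namespace Pool.Agent.AAU

open Pool.Agent.Helper60.FM

open Pool.Agent.AAP

theorem redMainU : ∃ F : ℕ → ℕ → ℕ, Bd2 F ∧ ∀ N n, 1 ≤ N → 2 ≤ n → F N n ≠ 0 ∧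
    ∀ (p : ℕ) [Fact p.Prime], 2 < p → ¬ p ∣ F N n → ∀ (E : Type) [NormedField E]
      [IsUltrametricDist E] [CompleteSpace E] [NormedAlgebra ℚ_[p] E] (V : Gam →* GL2 E),
        Continuous V → Even2 V → ReducibleType p n N V → Line V := by
  classical
  obtain ⟨F, hF, hF'⟩ := finQU
  refine ⟨fun N n => F N n * ((n + 1)! * (N * N.totient)), ?_, ?_⟩
  · refine hF.mul ((Bd2.fact (fun _ n => n + 1) 2 ?_).mul (Bd2.poly (fun N _ => N * N.totient) 2 ?_))
    · intro N n hN hn
      have h1 : 1 ≤ N ^ 2 := Nat.pow_pos hN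
      have h2 : 1 * n ≤ N ^ 2 * n := Nat.mul_le_mul_right n h1
      have h3 : 2 * N ^ 2 * n = 2 * (N ^ 2 * n) := by ring
      show n + 1 ≤ 2 * N ^ 2 * n
      rw [h3]
      omega
    · intro N n hN hn
      have h1 : N ≤ 2 * N * n := by
        calc N = 1 * N * 1 := by ring
          _ ≤ 2 * N * n := Nat.mul_le_mul (Nat.mul_le_mul_right N (by omega)) hn
      show N * N.totient ≤ (2 * N * n) ^ 2
      rw [sq]
      exact Nat.mul_le_mul h1 ((Nat.totient_le N).trans h1)
  · intro N n hN hn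
    have hNZ : NeZero N := ⟨by omega⟩
    have hφ : 0 < N.totient := Nat.totient_pos.2 (by omega)
    refine ⟨mul_ne_zero (hF' N n hn).1 (mul_ne_zero (Nat.factorial_ne_zero _)
      (mul_ne_zero (by omega) hφ.ne')), ?_⟩
    intro p _ hp2 hp E _ _ _ _ V hV heven hred
    have hpp : p.Prime := Fact.out
    rw [hpp.dvd_mul, hpp.dvd_mul, hpp.dvd_mul, not_or, not_or, not_or] at hp
    obtain ⟨h1, h2, h3, h4⟩ := hp
    have hp1 : n + 1 < p := by
      by_contra hcon
      exact h2 (Nat.dvd_factorial hpp.pos (by omega))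
    obtain ⟨α, β, k, hred, htame⟩ := hred
    have hV' : Continuous (old V) := hV
    have heven' : IsEven (old V) := heven
    have hred' : ∀ (g : GQ) (a : (ZMod N)ˣ) (b : ℕ), ActsAs N g (a : ZMod N).val → ActsAs p g b →
        ‖tr (old V) g - (b : E) ^ k * (α a + β a * (b : E) ^ n)‖ < 1 := hred
    have hpar := parity n N p hp2 (old V) heven' α β k hred'
    refine redCritS n N p hn hp1 h3 h4 (old V) hV' heven' α β k hred' ?_
      ((hF' N n hn).2 p h1 E (β / α) hpar)
    intro ℓ a hℓ hℓp ha h 𝔓 hP hℓP g hg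
    exact htame ℓ a hℓ hℓp ha h 𝔓 hP hℓP g ((iner_iff 𝔓 (g : Gam)).2 hg)

end Pool.Agent.AAU
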