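import Pool.Agent.AAP.StickAll

/-!
# AAU-StickDown: the Stickelberger relation of level `N` for ideals of `ℚ(ζ_{N p})`

`K = ℚ(ζ_{N p})`, `F = ℚ(ζ_{N p} ^ p) ⊆ K`, a cyclotomic extension of level `N`. The product of the conjugates of an
ideal of `K` over `F` comes from an ideal of `F` (`sd_norm`, first for primes), and the relation `stickAll` of level `N`
for this ideal is extended to `K`; the fibres of the restriction to `F` are the cosets of `Gal(K/F)`.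
-/

open NumberField Pointwise

namespace Pool.Agent.AAU

open Pool.Agent.AAP

section

variable {F L : Type} [Field F] [NumberField F] [Field L] [NumberField L] [Algebra F L] [IsGalois F L]

private theorem sd_fib (P Q : Ideal (𝓞 L)) (g : Gal(L/F)) (hg : g • P = Q) [DecidableEq (Ideal (𝓞 L))] :
    (Finset.univ.filter fun h : Gal(L/F) => h • P = Q).card = Nat.card (MulAction.stabilizer Gal(L/F) P) := by
  classical
  rw [Nat.card_eq_fintype_card, ← Fintype.card_coe]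
  refine Fintype.card_congr ?_
  refine ⟨fun h => ⟨g⁻¹ * h.1, ?_⟩, fun k => ⟨g * k.1, ?_⟩, fun h => ?_, fun k => ?_⟩
  · have h1 := (Finset.mem_filter.1 h.2).2
    rw [MulAction.mem_stabilizer_iff, mul_smul, h1, ← hg, inv_smul_smul]
  · rw [Finset.mem_filter]
    refine ⟨Finset.mem_univ _, ?_⟩
    rw [mul_smul, MulAction.mem_stabilizer_iff.1 k.2, hg]
  · exact Subtype.ext (mul_inv_cancel_left g h.1)
  · exact Subtype.ext (inv_mul_cancel_left g k.1)

private theorem sd_prime (P : Ideal (𝓞 L)) [P.IsPrime] (hP : P ≠ ⊥) :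
    ∃ 𝔟 : Ideal (𝓞 F), 𝔟 ≠ ⊥ ∧ 𝔟.map (algebraMap (𝓞 F) (𝓞 L)) = ∏ h : Gal(L/F), h • P := by
  classical
  have hp0 : P.under (𝓞 F) ≠ ⊥ := Ideal.IsIntegral.comap_ne_bot (𝓞 F) hP
  have hpm : (P.under (𝓞 F)).IsMaximal := Ideal.IsPrime.isMaximal inferInstance hp0
  have hfin : Finite (𝓞 F ⧸ P.under (𝓞 F)) := Ring.HasFiniteQuotients.finiteQuotient hp0
  have hd := Ideal.card_stabilizer_eq (G := Gal(L/F)) (P.under (𝓞 F)) P
  refine ⟨(P.under (𝓞 F)) ^ (P.under (𝓞 F)).inertiaDegIn (𝓞 L), pow_ne_zero _ hp0, ?_⟩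
  have hprod : ∏ h : Gal(L/F), h • P =
      ∏ Q ∈ ((P.under (𝓞 F)).primesOver (𝓞 L)).toFinset, Q ^ Nat.card (MulAction.stabilizer Gal(L/F) P) := by
    rw [← Finset.prod_fiberwise_of_maps_to (s := Finset.univ)
      (t := ((P.under (𝓞 F)).primesOver (𝓞 L)).toFinset) (g := fun h : Gal(L/F) => h • P)]
    · refine Finset.prod_congr rfl fun Q hQ => ?_
      rw [Set.mem_toFinset] at hQ
      have h1 := hQ.1
      have h2 := hQ.2
      obtain ⟨g, hg⟩ := Ideal.exists_smul_eq_of_isGaloisGroup (P.under (𝓞 F)) P Q Gal(L/F)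
      rw [← sd_fib P Q g hg, ← Finset.prod_const]
      exact Finset.prod_congr rfl fun h hh => (Finset.mem_filter.1 hh).2
    · intro h _
      rw [Set.mem_toFinset]
      exact ⟨inferInstance, inferInstance⟩
  rw [hprod, hd, Ideal.map_pow, Ideal.map_algebraMap_eq_finsetProd_pow hp0, ← Finset.prod_pow]
  refine Finset.prod_congr ?_ fun Q hQ => ?_
  · ext Q
    simp
  · rw [Set.mem_toFinset] at hQ
    have h1 := hQ.1
    have h2 := hQ.2
    rw [← pow_mul, Ideal.ramificationIdxIn_eq_ramificationIdx (P.under (𝓞 F)) Q Gal(L/F)]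

/-- the norm ideal -/
private theorem sd_norm (I : Ideal (𝓞 L)) (h0 : I ≠ ⊥) :
    ∃ 𝔟 : Ideal (𝓞 F), 𝔟 ≠ ⊥ ∧ 𝔟.map (algebraMap (𝓞 F) (𝓞 L)) = ∏ h : Gal(L/F), h • I := by
  revert h0
  refine UniqueFactorizationMonoid.induction_on_prime I ?_ ?_ ?_
  · intro h
    exact absurd rfl h
  · intro J hJ _
    refine ⟨⊤, top_ne_bot, ?_⟩
    have h1 : J = ⊤ := Ideal.isUnit_iff.1 hJ
    rw [Ideal.map_top, h1]
    symm
    refine (Finset.prod_eq_one fun h _ => ?_).trans Ideal.one_eq_top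
    rw [← Ideal.one_eq_top]
    exact smul_one h
  · intro J P hJ0 hP ih _
    have hPp : P.IsPrime := Ideal.isPrime_of_prime hP
    obtain ⟨b1, h1, h2⟩ := ih hJ0
    obtain ⟨b2, h3, h4⟩ := sd_prime (F := F) P hP.ne_zero
    refine ⟨b2 * b1, mul_ne_zero h3 h1, ?_⟩
    rw [Ideal.map_mul, h2, h4, ← Finset.prod_mul_distrib]
    refine Finset.prod_congr rfl fun h _ => ?_
    rw [smul_mul']

end

section

variable {F K : Type} [Field F] [NumberField F] [Field K] [NumberField K] [Algebra F K] [Normal ℚ F]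

private theorem sd_map (σ : Gal(K/ℚ)) (𝔟 : Ideal (𝓞 F)) :
    (AlgEquiv.restrictNormalHom F σ • 𝔟).map (algebraMap (𝓞 F) (𝓞 K)) =
      σ • 𝔟.map (algebraMap (𝓞 F) (𝓞 K)) := by
  rw [Ideal.pointwise_smul_def, Ideal.pointwise_smul_def, Ideal.map_map, Ideal.map_map]
  congr 1
  ext x
  exact AlgEquiv.restrictNormal_commutes σ F (x : F)

private theorem sd_smul (h : Gal(K/F)) (I : Ideal (𝓞 K)) : h • I = (h.restrictScalars ℚ : Gal(K/ℚ)) • I := rfl

private theorem sd_coset (σ0 : Gal(K/ℚ)) (I : Ideal (𝓞 K)) (S : Finset Gal(K/ℚ))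
    (hS : ∀ σ, σ ∈ S ↔ AlgEquiv.restrictNormalHom F σ = AlgEquiv.restrictNormalHom F σ0) :
    ∏ σ ∈ S, σ • I = σ0 • ∏ h : Gal(K/F), h • I := by
  rw [Finset.smul_prod']
  symm
  refine Finset.prod_bij (fun (h : Gal(K/F)) _ => σ0 * (h.restrictScalars ℚ : Gal(K/ℚ))) ?_ ?_ ?_ ?_
  · intro h _
    rw [hS, map_mul]
    have h1 : AlgEquiv.restrictNormalHom F (h.restrictScalars ℚ : Gal(K/ℚ)) = 1 := by
      ext x
      apply (algebraMap F K).injective
      have h2 := AlgEquiv.restrictNormal_commutes (h.restrictScalars ℚ : Gal(K/ℚ)) F x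
      refine h2.trans ?_
      exact h.commutes x
    rw [h1, mul_one]
  · intro h1 _ h2 _ h3
    have h4 := mul_left_cancel h3
    ext x
    exact DFunLike.congr_fun h4 x
  · intro σ hσ
    have h1 := (hS σ).1 hσ
    have h2 : AlgEquiv.restrictNormalHom F (σ0⁻¹ * σ) = 1 := by
      rw [map_mul, map_inv, h1, inv_mul_cancel]
    have h3 : ∀ x : F, (σ0⁻¹ * σ) (algebraMap F K x) = algebraMap F K x := by
      intro x
      have h4 := AlgEquiv.restrictNormal_commutes (σ0⁻¹ * σ) F x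
      rw [← h4]
      congr 1
      exact DFunLike.congr_fun h2 x
    refine ⟨AlgEquiv.ofRingEquiv (f := (σ0⁻¹ * σ).toRingEquiv) h3, Finset.mem_univ _, ?_⟩
    ext x
    show σ0 ((σ0⁻¹ * σ) x) = σ x
    have h5 : σ0 * (σ0⁻¹ * σ) = σ := mul_inv_cancel_left σ0 σ
    exact DFunLike.congr_fun h5 x
  · intro h _
    rw [mul_smul]
    rfl

end

private theorem sd_gq (N p : ℕ) [NeZero N] [NeZero (N * p)] (K F : Type) [Field K] [NumberField K]
    [IsCyclotomicExtension {N * p} ℚ K] [Field F] [NumberField F] [IsCyclotomicExtension {N} ℚ F] [Algebra F K]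
    [Normal ℚ F] (σ : Gal(K/ℚ)) :
    gq N F (AlgEquiv.restrictNormalHom F σ) = ZMod.unitsMap (dvd_mul_right N p) (gq (N * p) K σ) := by
  have hz := zt_spec N F
  have hζ := zt_spec (N * p) K
  have h1 : (algebraMap F K (zt N F)) ^ (N * p) = 1 := by
    rw [← map_pow, pow_mul, hz.pow_eq_one, one_pow, map_one]
  obtain ⟨i, -, hi⟩ := hζ.eq_pow_of_pow_eq_one h1
  have h2 : σ (algebraMap F K (zt N F)) =
      (algebraMap F K (zt N F)) ^ ((gq (N * p) K σ : (ZMod (N * p))ˣ) : ZMod (N * p)).val := by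
    rw [← hi, map_pow, gq_spec]
    exact pow_right_comm _ _ _
  have h3 : σ (algebraMap F K (zt N F)) =
      (algebraMap F K (zt N F)) ^ ((gq N F (AlgEquiv.restrictNormalHom F σ) : (ZMod N)ˣ) : ZMod N).val := by
    rw [← AlgEquiv.restrictNormal_commutes σ F (zt N F), ← map_pow]
    congr 1
    exact gq_spec N F _
  have h4 : (zt N F) ^ ((gq (N * p) K σ : (ZMod (N * p))ˣ) : ZMod (N * p)).val =
      (zt N F) ^ ((gq N F (AlgEquiv.restrictNormalHom F σ) : (ZMod N)ˣ) : ZMod N).val := by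
    apply (algebraMap F K).injective
    rw [map_pow, map_pow, ← h2, ← h3]
  rw [← pow_mod_orderOf, ← pow_mod_orderOf (zt N F)
    ((gq N F (AlgEquiv.restrictNormalHom F σ) : (ZMod N)ˣ) : ZMod N).val, ← hz.eq_orderOf] at h4
  have hN0 : 0 < N := Nat.pos_of_ne_zero (NeZero.ne N)
  have h5 := (ZMod.natCast_eq_natCast_iff _ _ _).2 (hz.pow_inj (Nat.mod_lt _ hN0) (Nat.mod_lt _ hN0) h4)
  apply Units.ext
  rw [ZMod.unitsMap_val, ← ZMod.natCast_val, h5, ZMod.natCast_val, ZMod.cast_id]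

private theorem sd_main (N p c : ℕ) [NeZero N] [NeZero (N * p)] (hN : 2 < N) (hc : 1 < c) (hcN : c < N)
    (hcop : c.Coprime N) (K F : Type) [Field K] [NumberField K] [IsCyclotomicExtension {N * p} ℚ K]
    [Field F] [NumberField F] [IsCyclotomicExtension {N} ℚ F] [Algebra F K] [IsGalois F K] [Normal ℚ F]
    (𝔞 : Ideal (𝓞 K)) (h0 : 𝔞 ≠ ⊥) :
    (∏ σ : Gal(K/ℚ), (σ • 𝔞) ^
      fl c N (ZMod.unitsMap (dvd_mul_right N p) (gq (N * p) K σ))⁻¹).IsPrincipal := by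
  classical
  have : IsGalois ℚ K := IsCyclotomicExtension.isGalois {N * p} ℚ K
  obtain ⟨𝔟, hb0, hb⟩ := sd_norm (F := F) 𝔞 h0
  obtain ⟨y, hy⟩ := stickAll N c hN hc hcN hcop F 𝔟 hb0
  refine ⟨algebraMap (𝓞 F) (𝓞 K) y, ?_⟩
  have hy' : ∏ a : (ZMod N)ˣ, ((gq N F).symm a⁻¹ • 𝔟) ^ fl c N a = Ideal.span {y} := hy
  have h1 := congrArg (Ideal.map (algebraMap (𝓞 F) (𝓞 K))) hy'
  rw [Ideal.map_span, Set.image_singleton] at h1
  refine Eq.trans ?_ h1
  have h2 : Ideal.map (algebraMap (𝓞 F) (𝓞 K)) (∏ a : (ZMod N)ˣ, ((gq N F).symm a⁻¹ • 𝔟) ^ fl c N a) =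
      ∏ a : (ZMod N)ˣ, (Ideal.map (algebraMap (𝓞 F) (𝓞 K)) ((gq N F).symm a⁻¹ • 𝔟)) ^ fl c N a := by
    have h3 := map_prod (Ideal.mapHom (algebraMap (𝓞 F) (𝓞 K)))
      (fun a : (ZMod N)ˣ => ((gq N F).symm a⁻¹ • 𝔟) ^ fl c N a) Finset.univ
    refine h3.trans (Finset.prod_congr rfl fun a _ => ?_)
    exact map_pow (Ideal.mapHom (algebraMap (𝓞 F) (𝓞 K))) _ _
  rw [h2, ← Finset.prod_fiberwise Finset.univ
    (fun σ : Gal(K/ℚ) => (ZMod.unitsMap (dvd_mul_right N p) (gq (N * p) K σ))⁻¹)]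
  refine Finset.prod_congr rfl fun a _ => ?_
  obtain ⟨σ0, hσ0⟩ := AlgEquiv.restrictNormalHom_surjective (F := ℚ) (K₁ := F) K ((gq N F).symm a⁻¹)
  have h4 : ∏ σ ∈ Finset.univ.filter (fun σ : Gal(K/ℚ) =>
      (ZMod.unitsMap (dvd_mul_right N p) (gq (N * p) K σ))⁻¹ = a), (σ • 𝔞) ^
        fl c N (ZMod.unitsMap (dvd_mul_right N p) (gq (N * p) K σ))⁻¹ =
      (∏ σ ∈ Finset.univ.filter (fun σ : Gal(K/ℚ) =>
      (ZMod.unitsMap (dvd_mul_right N p) (gq (N * p) K σ))⁻¹ = a), (σ • 𝔞)) ^ fl c N a := by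
    rw [← Finset.prod_pow]
    refine Finset.prod_congr rfl fun σ hσ => ?_
    rw [(Finset.mem_filter.1 hσ).2]
  rw [h4]
  congr 1
  rw [sd_coset (F := F) σ0 𝔞 _ ?_, ← hb, ← sd_map, hσ0]
  intro σ
  rw [Finset.mem_filter, ← sd_gq N p K F σ, hσ0, inv_eq_iff_eq_inv, MulEquiv.eq_symm_apply]
  simp

theorem stickDown (N p c : ℕ) [NeZero N] [NeZero (N * p)] (hN : 2 < N) (hc : 1 < c) (hcN : c < N)
    (hcop : c.Coprime N) (K : Type) [Field K] [NumberField K] [IsCyclotomicExtension {N * p} ℚ K]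
    (𝔞 : Ideal (𝓞 K)) (h0 : 𝔞 ≠ ⊥) :
    (∏ σ : Gal(K/ℚ), (σ • 𝔞) ^
      fl c N (ZMod.unitsMap (dvd_mul_right N p) (gq (N * p) K σ))⁻¹).IsPrincipal := by
  have hp : p ≠ 0 := by
    rintro rfl
    exact NeZero.ne (N * 0) (Nat.mul_zero N)
  have hz : IsPrimitiveRoot ((zt (N * p) K) ^ p) N :=
    (zt_spec (N * p) K).pow (Nat.pos_of_ne_zero (NeZero.ne (N * p))) (Nat.mul_comm N p)
  have hcy : IsCyclotomicExtension {N} ℚ (IntermediateField.adjoin ℚ {(zt (N * p) K) ^ p}) :=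
    hz.intermediateField_adjoin_isCyclotomicExtension ℚ
  have hgK : IsGalois ℚ K := IsCyclotomicExtension.isGalois {N * p} ℚ K
  have hgF : IsGalois ℚ (IntermediateField.adjoin ℚ {(zt (N * p) K) ^ p}) :=
    IsCyclotomicExtension.isGalois {N} ℚ _
  exact sd_main N p c hN hc hcN hcop K (IntermediateField.adjoin ℚ {(zt (N * p) K) ^ p}) 𝔞 h0

end Pool.Agent.AAU
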