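import Pool.Agent.AAU.Pell
import Pool.Agent.AAP.Quad

/-!
# A unit of infinite order of bounded size in a real quadratic field

`D` is not a square (`δ` is irrational). Let `x, y` be as in `pell_bound`, `ε = x + y δ`, with
inverse `x - y δ`. `‖σ ε‖ ≤ |x| + |y| √D ≤ (1 + D) (5 D) ^ (200 D ^ 3)` (`σ δ ^ 2 = D`, so
`‖σ δ‖ ^ 2 = D`). `ε` has infinite order: `FF δ` has a real embedding `ψ` with
`ψ δ = √D` (see `rank_posQ` in `AAP/FinDQ.lean`), `ε ^ k = 1` gives `|x + y √D| = 1`, so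
`x + y √D = ± 1`, and `√D` is rational as `y ≠ 0`.
-/

open NumberField

namespace Pool.Agent.AAU

open Pool.Agent.AAP Pool.Agent.Helper60.FM

private theorem unitU_isInt (D : ℕ) (δ : Qb) (hD : δ ^ 2 = D) : IsIntegral ℚ δ := by
  refine ⟨Polynomial.X ^ 2 - Polynomial.C (D : ℚ), Polynomial.monic_X_pow_sub_C _ two_ne_zero, ?_⟩
  rw [Polynomial.eval₂_sub, Polynomial.eval₂_X_pow, Polynomial.eval₂_C, hD, map_natCast, sub_self]

private theorem unitU_minp (D : ℕ) (δ : Qb) (hD : δ ^ 2 = D)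
    (hr : ∀ q : ℚ, δ ≠ algebraMap ℚ Qb q) :
    minpoly ℚ δ = Polynomial.X ^ 2 - Polynomial.C (D : ℚ) := by
  have hi := unitU_isInt D δ hD
  have hm : (Polynomial.X ^ 2 - Polynomial.C (D : ℚ)).Monic :=
    Polynomial.monic_X_pow_sub_C _ two_ne_zero
  have hdeg : (Polynomial.X ^ 2 - Polynomial.C (D : ℚ)).natDegree = 2 :=
    Polynomial.natDegree_X_pow_sub_C
  have hdvd : minpoly ℚ δ ∣ Polynomial.X ^ 2 - Polynomial.C (D : ℚ) := by
    refine minpoly.dvd ℚ δ ?_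
    simp [hD]
  have h1 : (minpoly ℚ δ).natDegree ≤ 2 := by
    rw [← hdeg]
    exact Polynomial.natDegree_le_of_dvd hdvd hm.ne_zero
  have h2 : (minpoly ℚ δ).natDegree ≠ 1 := by
    intro h
    obtain ⟨q, hq⟩ := (minpoly.natDegree_eq_one_iff.1 h)
    exact hr q hq.symm
  have h3 : 0 < (minpoly ℚ δ).natDegree := minpoly.natDegree_pos hi
  have h4 : (minpoly ℚ δ).natDegree = 2 := by omega
  exact (Polynomial.eq_of_monic_of_dvd_of_natDegree_le (minpoly.monic hi) hm hdvd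
    (by rw [h4, hdeg])).symm

private theorem unitU_nsq (D : ℕ) (δ : Qb) (hD : δ ^ 2 = D)
    (hr : ∀ q : ℚ, δ ≠ algebraMap ℚ Qb q) : ¬ IsSquare D := by
  rintro ⟨r, hr2⟩
  have h1 : (δ - r) * (δ + r) = 0 := by
    have : (δ - r) * (δ + r) = δ ^ 2 - (r : Qb) * r := by ring
    rw [this, hD, hr2]
    push_cast
    ring
  rcases mul_eq_zero.1 h1 with h | h
  · apply hr r
    rw [map_natCast]
    exact sub_eq_zero.1 h
  · apply hr (-r)
    rw [map_neg, map_natCast]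
    exact eq_neg_of_add_eq_zero_left h

private theorem unitU_real (D : ℕ) (δ : Qb) (hD : δ ^ 2 = D)
    (hr : ∀ q : ℚ, δ ≠ algebraMap ℚ Qb q) :
    ∃ ψ : FF δ →ₐ[ℚ] ℝ, ψ (IntermediateField.AdjoinSimple.gen ℚ δ) = √(D : ℝ) := by
  have hi := unitU_isInt D δ hD
  have hroot : Polynomial.aeval (Real.sqrt (D : ℝ)) (minpoly ℚ δ) = 0 := by
    rw [unitU_minp D δ hD hr]
    have h3 : Real.sqrt (D : ℝ) ^ 2 = D := Real.sq_sqrt (Nat.cast_nonneg D)
    simp [h3]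
  refine ⟨(IntermediateField.algHomAdjoinIntegralEquiv ℚ hi).symm
    ⟨Real.sqrt (D : ℝ), (Polynomial.mem_aroots.2 ⟨minpoly.ne_zero hi, hroot⟩)⟩, ?_⟩
  exact IntermediateField.algHomAdjoinIntegralEquiv_symm_apply_gen ℚ hi _

theorem unitU (D : ℕ) (δ : Qb) (hD : δ ^ 2 = D) (hr : ∀ q : ℚ, δ ≠ algebraMap ℚ Qb q)
    [FiniteDimensional ℚ (FF δ)] : ∃ ε : (𝓞 (FF δ))ˣ, (∀ k : ℕ, 0 < k → ε ^ k ≠ 1) ∧
    ∀ σ : FF δ →ₐ[ℚ] ℂ, ‖σ (ε : FF δ)‖ + 1 ≤ (5 * D) ^ (203 * D ^ 3) := by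
  have hsq := unitU_nsq D δ hD hr
  obtain ⟨x, y, hxy, hy, hxb, hyb⟩ := pell_bound D hsq
  have hD2 : 2 ≤ D := by
    rcases Nat.lt_or_ge D 2 with h | h
    · exfalso
      apply hsq
      interval_cases D
      · exact ⟨0, rfl⟩
      · exact ⟨1, rfl⟩
    · exact h
  obtain ⟨g, hg⟩ : ∃ g : FF δ, g = IntermediateField.AdjoinSimple.gen ℚ δ := ⟨_, rfl⟩
  have hg2 : g ^ 2 = (D : FF δ) := by
    apply Subtype.ext
    rw [hg]
    simpa using hD
  have hgint : IsIntegral ℤ g := by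
    refine ⟨Polynomial.X ^ 2 - Polynomial.C (D : ℤ),
      Polynomial.monic_X_pow_sub_C _ two_ne_zero, ?_⟩
    simp [hg2]
  obtain ⟨G, hG⟩ : ∃ G : 𝓞 (FF δ), algebraMap (𝓞 (FF δ)) (FF δ) G = g := ⟨⟨g, hgint⟩, rfl⟩
  have hG2 : G ^ 2 = (D : 𝓞 (FF δ)) := by
    apply FaithfulSMul.algebraMap_injective (𝓞 (FF δ)) (FF δ)
    rw [map_pow, hG, hg2, map_natCast]
  have hxy' : (x : 𝓞 (FF δ)) ^ 2 - D * (y : 𝓞 (FF δ)) ^ 2 = 1 := by
    have h := congrArg (Int.cast : ℤ → 𝓞 (FF δ)) hxy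
    push_cast at h
    exact h
  have hm1 : ((x : 𝓞 (FF δ)) + y * G) * (x - y * G) = 1 := by
    rw [← hxy', ← hG2]
    ring
  have hm2 : ((x : 𝓞 (FF δ)) - y * G) * (x + y * G) = 1 := by
    rw [mul_comm]
    exact hm1
  obtain ⟨ε, hε⟩ : ∃ ε : (𝓞 (FF δ))ˣ, (ε : 𝓞 (FF δ)) = x + y * G :=
    ⟨⟨x + y * G, x - y * G, hm1, hm2⟩, rfl⟩
  have hε' : algebraMap (𝓞 (FF δ)) (FF δ) (ε : 𝓞 (FF δ)) = x + y * g := by
    rw [hε, ← hG, map_add, map_mul, map_intCast, map_intCast]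
  refine ⟨ε, ?_, ?_⟩
  · intro k hk hk1
    obtain ⟨ψ, hψ⟩ := unitU_real D δ hD hr
    rw [← hg] at hψ
    have h1 : (algebraMap (𝓞 (FF δ)) (FF δ) (ε : 𝓞 (FF δ))) ^ k = 1 := by
      have h := congrArg (fun u : (𝓞 (FF δ))ˣ => algebraMap (𝓞 (FF δ)) (FF δ) (u : 𝓞 (FF δ))) hk1
      simpa using h
    rw [hε'] at h1
    have h2 := congrArg ψ h1
    rw [map_pow, map_one, map_add, map_mul, map_intCast, map_intCast, hψ] at h2
    have h3 : |(x : ℝ) + y * √D| = 1 := by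
      have h4 : |(x : ℝ) + y * √D| ^ k = 1 := by
        rw [← abs_pow, h2, abs_one]
      exact (pow_eq_one_iff_of_nonneg (abs_nonneg _) hk.ne').1 h4
    have hyr : (y : ℝ) ≠ 0 := by exact_mod_cast hy
    have hirr : Irrational (√(D : ℝ)) := irrational_sqrt_natCast_iff.2 hsq
    rcases (abs_eq zero_le_one).1 h3 with h | h
    · apply hirr
      refine ⟨(1 - x : ℚ) / y, ?_⟩
      push_cast
      rw [div_eq_iff hyr]
      linarith
    · apply hirr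
      refine ⟨(-1 - x : ℚ) / y, ?_⟩
      push_cast
      rw [div_eq_iff hyr]
      linarith
  · intro σ
    have hσ : ‖σ g‖ ^ 2 = (D : ℝ) := by
      rw [← norm_pow, ← map_pow, hg2, map_natCast]
      simp
    have hσD : ‖σ g‖ ≤ D := by
      have hDr : (2 : ℝ) ≤ D := by exact_mod_cast hD2
      by_contra hc
      have hc' : (D : ℝ) < ‖σ g‖ := not_le.1 hc
      nlinarith [norm_nonneg (σ g)]
    have h1 : ‖σ (algebraMap (𝓞 (FF δ)) (FF δ) (ε : 𝓞 (FF δ)))‖ ≤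
        |(x : ℝ)| + |(y : ℝ)| * D := by
      rw [hε', map_add, map_mul, map_intCast, map_intCast]
      refine (norm_add_le _ _).trans ?_
      rw [norm_mul]
      have e1 : ‖((x : ℤ) : ℂ)‖ = |(x : ℝ)| := by
        rw [Complex.norm_intCast]
      have e2 : ‖((y : ℤ) : ℂ)‖ = |(y : ℝ)| := by
        rw [Complex.norm_intCast]
      rw [e1, e2]
      gcongr
    have hxr : |(x : ℝ)| ≤ (5 * D : ℝ) ^ (200 * D ^ 3) := by exact_mod_cast hxb
    have hyr : |(y : ℝ)| ≤ (5 * D : ℝ) ^ (200 * D ^ 3) := by exact_mod_cast hyb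
    obtain ⟨B, hB⟩ : ∃ B : ℝ, B = (5 * D : ℝ) ^ (200 * D ^ 3) := ⟨_, rfl⟩
    rw [← hB] at hxr hyr
    have hDr : (2 : ℝ) ≤ D := by exact_mod_cast hD2
    have hB1 : 1 ≤ B := by
      rw [hB]
      apply one_le_pow₀
      linarith
    have h2 : ‖σ (algebraMap (𝓞 (FF δ)) (FF δ) (ε : 𝓞 (FF δ)))‖ + 1 ≤ B * (2 + D) := by
      have h3 : |(y : ℝ)| * D ≤ B * D := by gcongr
      nlinarith
    refine h2.trans ?_
    have h5 : (2 + D : ℝ) ≤ 5 * D := by linarith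
    have h6 : (5 * D : ℝ) ^ 1 ≤ (5 * D : ℝ) ^ (3 * D ^ 3) := by
      apply pow_le_pow_right₀ (by linarith)
      have : 0 < D ^ 3 := by positivity
      omega
    calc B * (2 + D) ≤ B * (5 * D : ℝ) ^ (3 * D ^ 3) := by
          apply mul_le_mul_of_nonneg_left _ (by linarith)
          rw [pow_one] at h6
          linarith
      _ = (5 * D : ℝ) ^ (203 * D ^ 3) := by
          rw [hB, ← pow_add]
          congr 1
          ring

end Pool.Agent.AAU
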